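import Mathlib
import Pool.Agent.W5h73.TT.Chk

/-! Tables and bits. -/

namespace Pool.Agent.W5h73.TT.Chk

theorem ent_eq (T x : ℕ) : ent T x = (T >>> (6 * x)) &&& 63 := rfl

theorem ent_lt (T x : ℕ) : ent T x < 64 := by
  rw [ent_eq]
  exact Nat.lt_succ_of_le Nat.and_le_right

theorem testBit_ent (T x i : ℕ) : (ent T x).testBit i = (T.testBit (6 * x + i) && decide (i < 6)) := by
  rw [ent_eq, Nat.testBit_and, Nat.testBit_shiftRight, show (63 : ℕ) = 2 ^ 6 - 1 from rfl,
    Nat.testBit_two_pow_sub_one]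

theorem put_eq (T x v : ℕ) : put T x v = T ||| (v <<< (6 * x)) := rfl

theorem ent_put {T x v : ℕ} (hv : v < 64) (h : ent T x = 0) (y : ℕ) :
    ent (put T x v) y = if y = x then v else ent T y := by
  refine Nat.eq_of_testBit_eq fun i => ?_
  rw [testBit_ent, put_eq, Nat.testBit_or, Nat.testBit_shiftLeft]
  by_cases hi : i < 6
  · simp only [hi, decide_true, Bool.and_true]
    by_cases hy : y = x
    · subst hy
      rw [if_pos rfl]
      have h1 := testBit_ent T y i
      rw [h, Nat.zero_testBit] at h1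
      simp only [hi, decide_true, Bool.and_true] at h1
      rw [← h1, Bool.false_or]
      simp
    · rw [if_neg hy, testBit_ent]
      simp only [hi, decide_true, Bool.and_true]
      rcases Nat.lt_or_gt_of_ne hy with h1 | h1
      · have : ¬(6 * y + i ≥ 6 * x) := by omega
        simp [this]
      · have h2 : v.testBit (6 * y + i - 6 * x) = false := by
          refine Nat.testBit_lt_two_pow (lt_of_lt_of_le hv ?_)
          calc 64 = 2 ^ 6 := by norm_num
            _ ≤ 2 ^ (6 * y + i - 6 * x) := Nat.pow_le_pow_right (by norm_num) (by omega)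
        rw [h2]
        simp
  · simp only [hi, decide_false, Bool.and_false]
    symm
    split_ifs
    · refine Nat.testBit_lt_two_pow (lt_of_lt_of_le hv ?_)
      calc 64 = 2 ^ 6 := by norm_num
        _ ≤ 2 ^ i := Nat.pow_le_pow_right (by norm_num) (by omega)
    · rw [testBit_ent]
      simp [hi]

theorem bit_iff (M i : ℕ) : bit M i = M.testBit i := by
  have h : Nat.land (Nat.shiftRight M i) 1 = (M >>> i) &&& 1 := rfl
  unfold bit
  rw [h, Nat.testBit, Nat.and_comm]
  rcases Nat.mod_two_eq_zero_or_one (M >>> i) with h1 | h1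
  · have : 1 &&& (M >>> i) = 0 := by rw [Nat.one_and_eq_mod_two, h1]
    rw [this]; rfl
  · have : 1 &&& (M >>> i) = 1 := by rw [Nat.one_and_eq_mod_two, h1]
    rw [this]; rfl

theorem ps_eq (x : ℕ) : ps x = 16 * (x / 4) + x % 4 := by
  have : Nat.land x 3 = x % 4 := Nat.and_two_pow_sub_one_eq_mod x 2
  unfold ps
  rw [this]
  rfl

theorem ps_inj {x y : ℕ} (h : ps x = ps y) : x = y := by
  rw [ps_eq, ps_eq] at h
  omega

theorem nxt_eq (p : ℕ) : nxt p = 4 * (p / 4) + (p + 1) % 4 := by
  have : Nat.land (Nat.add p 1) 3 = (p + 1) % 4 := Nat.and_two_pow_sub_one_eq_mod (p + 1) 2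
  unfold nxt
  rw [this]
  rfl

/-! ### The table -/

/-- bit of a number -/
def bi (i j : ℕ) : ℤ := if i.testBit j then 1 else 0

/-- the values of the two flows -/
def vF (i j : ℕ) : ℤ := bi i j - bi i (j + 4)
def vG (i j : ℕ) : ℤ := bi i (j + 8) - bi i (j + 12)

/-- sum over a circle -/
def s4 (f : ℕ → ℤ) : ℤ := f 0 + f 1 + f 2 + f 3

/-- the value `om` of a circle -/
def o4 (f g : ℕ → ℤ) : ℤ := (f 0 * g 1 - f 1 * g 0) + (f 0 * g 2 - f 2 * g 0) + (f 0 * g 3 - f 3 * g 0) +
  (f 1 * g 2 - f 2 * g 1) + (f 1 * g 3 - f 3 * g 1) + (f 2 * g 3 - f 3 * g 2)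

/-- correctness of an entry -/
noncomputable def corr (i : ℕ) : Bool :=
  tab i == 0 || (decide (s4 (vF i) = 0) && decide (s4 (vG i) = 0) &&
    decide ((tab i : ℤ) = o4 (vF i) (vG i) + 8))

/-- all numbers from `a` to `a + 2 ^ n - 1` have the property -/
def allc (p : ℕ → Bool) : ℕ → ℕ → Bool
  | 0, a => p a
  | n + 1, a => allc p n a && allc p n (Nat.add a (Nat.pow 2 n))

theorem allc_spec {p : ℕ → Bool} : ∀ (n a : ℕ), allc p n a = true → ∀ i, a ≤ i → i < a + 2 ^ n →
    p i = true
  | 0, a, h, i, h1, h2 => by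
    have : i = a := by rw [pow_zero] at h2; omega
    subst this
    exact h
  | n + 1, a, h, i, h1, h2 => by
    unfold allc at h
    rw [Bool.and_eq_true] at h
    by_cases h3 : i < a + 2 ^ n
    · exact allc_spec n a h.1 i h1 h3
    · refine allc_spec n _ h.2 i ?_ ?_
      · show a + 2 ^ n ≤ i
        omega
      · show i < a + 2 ^ n + 2 ^ n
        rw [pow_succ] at h2
        omega

set_option maxRecDepth 100000 in
theorem corr_all : allc corr 16 0 = true := by decide +kernel

theorem tab_spec {i v : ℕ} (hi : i < 65536) (h : tab i = v + 1) :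
    s4 (vF i) = 0 ∧ s4 (vG i) = 0 ∧ (v : ℤ) = o4 (vF i) (vG i) + 7 := by
  have h1 := allc_spec 16 0 corr_all i (Nat.zero_le _) (by omega)
  unfold corr at h1
  rw [h] at h1
  simp only [Nat.add_eq_zero_iff, one_ne_zero, and_false, beq_iff_eq, Bool.or_eq_true,
    Bool.and_eq_true, decide_eq_true_eq, false_or] at h1
  obtain ⟨⟨h2, h3⟩, h4⟩ := h1
  refine ⟨h2, h3, ?_⟩
  push_cast at h4
  omega

end Pool.Agent.W5h73.TT.Chk
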