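import Pool.Agent.W5h73.TT.NF
import Pool.Agent.Y874.TP2.Pic

/-!
# Neighbouring darts of the boundary words

`D` is a family of boundary words (with different labels), `Q` a family of circles.
-/

namespace Pool.Agent.W5h73.TT

open Pool.Agent.Y468.SR
open Pool.Agent.Y874.TP2 (CycL)

variable {X : Type} {σ : X → X} {D Q : Fm X}

/-- the darts connected with `s` by edges and circles -/
inductive Con (σ : X → X) (Q : Fm X) (s : X) : X → Prop
  | rfl : Con σ Q s s
  | inv {t : X} (h : Con σ Q s t) : Con σ Q s (σ t)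
  | cir {t t' : X} {q : List X × ℕ} (h : Con σ Q s t) (hq : q ∈ Q) (ht : t ∈ q.1)
      (ht' : t' ∈ q.1) : Con σ Q s t'

theorem Con.trans {s t t' : X} (h : Con σ Q s t) (h' : Con σ Q t t') : Con σ Q s t' := by
  induction h' with
  | rfl => exact h
  | inv _ ih => exact ih.inv
  | cir _ hq ht ht' ih => exact ih.cir hq ht ht'

theorem Con.mem (hI : Iv σ (D ++ Q)) {s t : X} (hs : s ∈ dts (D ++ Q)) (h : Con σ Q s t) :
    t ∈ dts (D ++ Q) := by
  induction h with
  | rfl => exact hs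
  | inv _ ih => exact hI.cl _ ih
  | cir _ hq _ ht' _ =>
    rw [dts_append, List.mem_append]
    exact Or.inr (mem_dts.2 ⟨_, hq, ht'⟩)

theorem Con.symm (hI : Iv σ (D ++ Q)) {s t : X} (hs : s ∈ dts (D ++ Q)) (h : Con σ Q s t) :
    Con σ Q t s := by
  induction h with
  | rfl => exact Con.rfl
  | @inv t h ih =>
    refine Con.trans ?_ ih
    have := (Con.rfl (σ := σ) (Q := Q) (s := σ t)).inv
    rwa [hI.iv t (h.mem hI hs)] at this
  | cir _ hq ht ht' ih => exact (Con.rfl.cir hq ht' ht).trans ih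

theorem con_label {F : Fm X} (hF : Iv σ F) (hN : NF σ F) {b : ℕ}
    (hQ : ∀ q ∈ Q, ∀ t ∈ q.1, LB F t b → ∀ t' ∈ q.1, LB F t' b) {s t : X} (hs : LB F s b)
    (h : Con σ Q s t) : LB F t b := by
  induction h with
  | rfl => exact hs
  | inv _ ih => exact label hF hN ih
  | cir _ hq ht ht' ih => exact hQ _ hq _ ht ih _ ht'

/-- the corner between `p` and `r` is cut off by an edge or by a corner of a circle -/
def GP (σ : X → X) (Q : Fm X) (p r : X) : Prop := σ p = r ∨ ∃ q ∈ Q, CycL (σ r) (σ p) q.1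

theorem spl_mem {b b' : ℕ} {S' S : Fm X} (h : Spl b b' S' S) {C : List X × ℕ} (hC : C ∈ S) :
    ∃ C' ∈ S', C'.1 = C.1 ∧ (C'.2 = C.2 ∨ (C.2 = b ∧ C'.2 = b')) := by
  induction h with
  | nil => simp at hC
  | @cons A' A S' S h1 _ ih =>
    rcases List.mem_cons.1 hC with rfl | hC
    · exact ⟨A', by simp, h1⟩
    · obtain ⟨C', h2, h3⟩ := ih hC
      exact ⟨C', by simp [h2], h3⟩

theorem lb_of_spl {b b' : ℕ} {S' S : Fm X} (h : Spl b b' S' S) {F : Fm X} (hF : (dts F).Nodup)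
    (hSF : ∀ C ∈ S', C ∈ F) {q : List X × ℕ} (hq : q ∈ S) {t t' : X} (ht : t ∈ q.1) (ht' : t' ∈ q.1)
    {k : ℕ} (hl : LB F t k) : LB F t' k := by
  obtain ⟨C', h1, h2, -⟩ := spl_mem h hq
  obtain ⟨C, hC, htC, rfl⟩ := hl
  have := nodup_unique hF hC (hSF C' h1) htC (by rw [h2]; exact ht)
  exact ⟨C', hSF C' h1, by rw [h2]; exact ht', by rw [this]⟩

theorem fresh_label (E : Fm X) (b : ℕ) : ∃ b' : ℕ, b ≠ b' ∧ ∀ C ∈ E, C.2 ≠ b' := by
  obtain ⟨b', hb'⟩ := Infinite.exists_notMem_finset (b :: E.map Prod.snd).toFinset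
  simp only [List.mem_toFinset, List.mem_cons, List.mem_map, not_or, not_exists, not_and] at hb'
  exact ⟨b', Ne.symm hb'.1, fun C hC => hb'.2 C hC⟩

/-- the part of a boundary word cut off by an edge or a corner is connected only with itself -/
theorem closed_of_gp (hI : Iv σ (D ++ Q)) (hE : NF σ (D ++ Q)) (hn : (D.map Prod.snd).Nodup)
    {w : List X} {b : ℕ} (hw : (w, b) ∈ D) {p r : X} {J C : List X}
    (hr : w.IsRotated (p :: (J ++ r :: C))) (hg : GP σ Q p r) {s : X} (hs : s ∈ J) {t : X}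
    (hc : Con σ Q s t) : (t ∈ dts D → t ∈ J) ∧ t ≠ σ p ∧ t ≠ σ r := by
  obtain ⟨D₁, D₂, rfl⟩ := List.append_of_mem hw
  have hlab : ∀ c ∈ D₁ ++ D₂, c.2 ≠ b := by
    intro c hc he
    rw [List.map_append, List.map_cons, List.nodup_append, List.nodup_cons] at hn
    rcases List.mem_append.1 hc with h | h
    · exact hn.2.2 c.2 (List.mem_map_of_mem h) b (by simp) he
    · exact hn.2.1.1 (List.mem_map.2 ⟨c, h, he⟩)
  have hwm : ∀ z, z ∈ w ↔ z = p ∨ z ∈ J ∨ z = r ∨ z ∈ C := by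
    intro z
    rw [hr.mem_iff]
    simp
  have hD : ∀ z ∈ dts (D₁ ++ (w, b) :: D₂), z ∈ w ∨ ∃ c ∈ D₁ ++ D₂, z ∈ c.1 := by
    intro z hz
    rw [dts_append, dts_cons, List.mem_append, List.mem_append] at hz
    rcases hz with h | h | h
    · obtain ⟨c, h1, h2⟩ := mem_dts.1 h
      exact Or.inr ⟨c, by simp [h1], h2⟩
    · exact Or.inl h
    · obtain ⟨c, h1, h2⟩ := mem_dts.1 h
      exact Or.inr ⟨c, by simp [h1], h2⟩
  -- the conclusion from the cut family
  have fin : ∀ (F R R' : Fm X) (C' : List X) (b' : ℕ), Iv σ F → b ≠ b' →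
      F = (C', b) :: (J, b') :: R' → Spl b b' R' R → (∀ z ∈ C, z ∈ C') → (∀ c ∈ D₁ ++ D₂, c ∈ R) →
      (∀ c ∈ R, c.2 ≠ b') → (∀ z ∈ dts F, z ≠ p ∧ z ≠ r ∧ z ≠ σ p ∧ z ≠ σ r) → LB F t b' →
      (t ∈ dts (D₁ ++ (w, b) :: D₂) → t ∈ J) ∧ t ≠ σ p ∧ t ≠ σ r := by
    intro F R R' C' b' hF hbb hFe hS hCC hDR hRb hz ht
    obtain ⟨z1, z2, z3, z4⟩ := hz t ht.mem
    refine ⟨fun h => ?_, z3, z4⟩
    rcases hD t h with h | ⟨c, hc1, hc2⟩
    · rcases (hwm t).1 h with h | h | h | h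
      · exact absurd h z1
      · exact h
      · exact absurd h z2
      · exfalso
        have : LB F t b := ⟨(C', b), by simp [hFe], hCC t h, rfl⟩
        exact hbb (this.unique hF.nd ht)
    · exfalso
      obtain ⟨c', k1, k2, k3⟩ := spl_mem hS (hDR c hc1)
      have k4 : LB F t c'.2 := ⟨c', by simp [hFe, k1], by rw [k2]; exact hc2, rfl⟩
      have k5 := k4.unique hF.nd ht
      rcases k3 with k3 | k3
      · exact hRb c (hDR c hc1) (by rw [← k3, k5])
      · exact hlab c hc1 k3.1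
  have hperm : (D₁ ++ (w, b) :: D₂ ++ Q).Perm ((w, b) :: (D₁ ++ D₂ ++ Q)) := by
    simp only [List.append_assoc, List.cons_append]
    exact List.perm_middle
  have hI1 : Iv σ ((p :: (J ++ r :: C), b) :: (D₁ ++ D₂ ++ Q)) := (hI.perm hperm).rot hr
  have hE1 : NF σ ((p :: (J ++ r :: C), b) :: (D₁ ++ D₂ ++ Q)) := (hE.perm hperm).rot hr
  rcases hg with hg | ⟨q₀, hq₀, hg⟩
  · obtain ⟨b', hbb, hb'⟩ := fresh_label (D₁ ++ D₂ ++ Q) b
    obtain ⟨R', hS, hN', hI'⟩ := cut hg hbb hb' hI1 hE1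
    have hRF : ∀ C₁ ∈ R', C₁ ∈ ((C, b) :: (J, b') :: R') := fun C₁ h => by simp [h]
    refine fin _ _ R' C b' hI' hbb rfl hS (fun _ h => h) (fun c hc => ?_) hb' (fun z hz => ?_) ?_
    · simp only [List.mem_append] at hc ⊢; tauto
    · have hnd := hI1.nd
      have hd : (dts ((p :: (J ++ r :: C), b) :: (D₁ ++ D₂ ++ Q))).Perm
          (p :: r :: dts ((C, b) :: (J, b') :: R')) := by
        simp only [dts_cons, spl_dts hS, List.cons_append]
        refine List.Perm.cons p ?_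
        have h1 : (J ++ r :: C ++ dts (D₁ ++ D₂ ++ Q)).Perm
            (r :: (J ++ C ++ dts (D₁ ++ D₂ ++ Q))) := by
          simp only [List.append_assoc, List.cons_append]
          exact List.perm_middle
        refine h1.trans (List.Perm.cons r ?_)
        rw [← List.append_assoc]
        exact List.Perm.append_right _ List.perm_append_comm
      have hnd' := hd.nodup_iff.1 hnd
      rw [List.nodup_cons, List.nodup_cons] at hnd'
      have a1 : z ≠ p := by
        rintro rfl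
        exact hnd'.1 (List.mem_cons_of_mem _ hz)
      have a2 : z ≠ r := by
        rintro rfl
        exact hnd'.2.1 hz
      have hp : p ∈ dts ((p :: (J ++ r :: C), b) :: (D₁ ++ D₂ ++ Q)) := by simp
      refine ⟨a1, a2, by rw [hg]; exact a2, ?_⟩
      rw [← hg, hI1.iv p hp]
      exact a1
    · refine con_label hI' hN' (fun q hq t₁ ht₁ hl t₂ ht₂ => ?_) (s := s)
        ⟨(J, b'), by simp, hs, rfl⟩ hc
      exact lb_of_spl hS hI'.nd hRF (by simp [hq]) ht₁ ht₂ hl
  · obtain ⟨Q₁, Q₂, rfl⟩ := List.append_of_mem hq₀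
    obtain ⟨u, hu⟩ : ∃ u, q₀.1.IsRotated (σ p :: (u ++ [σ r])) := by
      rcases hg with ⟨u, v, h⟩ | ⟨u, h⟩
      · refine ⟨v ++ u, ?_⟩
        have h1 : q₀.1 = (u ++ [σ r]) ++ (σ p :: v) := by rw [h]; simp
        rw [h1]
        have h2 := List.isRotated_append (l := u ++ [σ r]) (l' := σ p :: v)
        simpa using h2
      · exact ⟨u, by rw [h]⟩
    have hp : p ∈ dts (D₁ ++ (w, b) :: D₂ ++ (Q₁ ++ q₀ :: Q₂)) := by
      simp only [dts_append, dts_cons, List.mem_append]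
      exact Or.inl (Or.inr (Or.inl ((hwm p).2 (Or.inl rfl))))
    have hrm : r ∈ dts (D₁ ++ (w, b) :: D₂ ++ (Q₁ ++ q₀ :: Q₂)) := by
      simp only [dts_append, dts_cons, List.mem_append]
      exact Or.inl (Or.inr (Or.inl ((hwm r).2 (Or.inr (Or.inr (Or.inl rfl))))))
    have hq₀b : q₀.2 = b := by
      have h1 : LB (D₁ ++ (w, b) :: D₂ ++ (Q₁ ++ q₀ :: Q₂)) p b :=
        ⟨(w, b), by simp, (hwm p).2 (Or.inl rfl), rfl⟩
      have h2 := label hI hE h1
      have h3 : LB (D₁ ++ (w, b) :: D₂ ++ (Q₁ ++ q₀ :: Q₂)) (σ p) q₀.2 :=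
        ⟨q₀, by simp, by rw [hu.mem_iff]; simp, rfl⟩
      exact h3.unique hI.nd h2
    set R₀ : Fm X := D₁ ++ D₂ ++ (Q₁ ++ Q₂) with hR₀
    have hq₀e : q₀ = (q₀.1, b) := by rw [← hq₀b]
    have hperm2 : (D₁ ++ (w, b) :: D₂ ++ (Q₁ ++ q₀ :: Q₂)).Perm ((q₀.1, b) :: (w, b) :: R₀) := by
      refine hperm.trans ?_
      refine (List.Perm.cons _ ?_).trans (List.Perm.swap _ _ _)
      rw [← hq₀e]
      simp only [hR₀]
      have h1 := List.perm_middle (l₁ := D₁ ++ D₂ ++ Q₁) (l₂ := Q₂) (a := q₀)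
      simpa only [List.append_assoc] using h1
    have hI2 : Iv σ ((σ p :: (u ++ [σ r]), b) :: (w, b) :: R₀) := (hI.perm hperm2).rot hu
    have hE2 : NF σ ((σ p :: (u ++ [σ r]), b) :: (w, b) :: R₀) := (hE.perm hperm2).rot hu
    have hI3 : Iv σ ((p :: (J ++ r :: C), b) :: (σ p :: (u ++ [σ r]), b) :: R₀) :=
      (hI2.perm (List.Perm.swap _ _ _)).rot hr
    have hE3 : NF σ ((p :: (J ++ r :: C), b) :: (σ p :: (u ++ [σ r]), b) :: R₀) :=
      (hE2.perm (List.Perm.swap _ _ _)).rot hr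
    have hI4 := hI3.merge rfl
    have hE4 := hE3.merge rfl hI3
    have hrot : (u ++ [σ r] ++ (J ++ r :: C)).IsRotated (σ r :: (J ++ r :: (C ++ u))) := by
      have h2 := List.isRotated_append (l := u) (l' := σ r :: (J ++ r :: C))
      simpa using h2
    have hI5 := hI4.rot hrot
    have hE5 := hE4.rot hrot
    have hrr : σ (σ r) = r := hI.iv r hrm
    obtain ⟨b', hbb, hb'⟩ := fresh_label R₀ b
    obtain ⟨R', hS, hN', hI'⟩ := cut hrr hbb hb' hI5 hE5
    have hRF : ∀ C₁ ∈ R', C₁ ∈ ((C ++ u, b) :: (J, b') :: R') := fun C₁ h => by simp [h]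
    have hz : ∀ z ∈ dts ((C ++ u, b) :: (J, b') :: R'), z ≠ p ∧ z ≠ r ∧ z ≠ σ p ∧ z ≠ σ r := by
      have hnd := hI3.nd
      have hd : (dts ((p :: (J ++ r :: C), b) :: (σ p :: (u ++ [σ r]), b) :: R₀)).Perm
          (p :: r :: σ p :: σ r :: dts ((C ++ u, b) :: (J, b') :: R')) := by
        classical
        rw [List.perm_iff_count]
        intro a
        simp only [dts_cons, spl_dts hS, List.count_append, List.count_cons, List.cons_append,
          List.count_nil]
        omega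
      have hnd' := hd.nodup_iff.1 hnd
      simp only [List.nodup_cons, List.mem_cons, not_or] at hnd'
      obtain ⟨⟨-, -, -, n1⟩, ⟨-, -, n2⟩, ⟨-, n3⟩, n4, -⟩ := hnd'
      intro z hz
      exact ⟨fun h => n1 (h ▸ hz), fun h => n2 (h ▸ hz), fun h => n3 (h ▸ hz), fun h => n4 (h ▸ hz)⟩
    refine fin _ _ R' (C ++ u) b' hI' hbb rfl hS (fun _ h => by simp [h]) (fun c hc => ?_) hb' hz ?_
    · simp only [hR₀, List.mem_append] at hc ⊢; tauto
    · refine con_label hI' hN' (fun q hq t₁ ht₁ hl t₂ ht₂ => ?_) (s := s)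
        ⟨(J, b'), by simp, hs, rfl⟩ hc
      have hq' : q = q₀ ∨ q ∈ R₀ := by
        simp only [hR₀, List.mem_append, List.mem_cons] at hq ⊢
        tauto
      rcases hq' with rfl | hq'
      · exfalso
        obtain ⟨z1, z2, z3, z4⟩ := hz t₁ hl.mem
        have h1 : t₁ = σ p ∨ t₁ ∈ u ∨ t₁ = σ r := by
          rw [hu.mem_iff] at ht₁
          simpa using ht₁
        rcases h1 with h1 | h1 | h1
        · exact z3 h1
        · have : LB ((C ++ u, b) :: (J, b') :: R') t₁ b := ⟨(C ++ u, b), by simp, by simp [h1], rfl⟩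
          exact hbb (this.unique hI'.nd hl)
        · exact z4 h1
      · exact lb_of_spl hS hI'.nd hRF hq' ht₁ ht₂ hl

/-! ### The innermost interval -/

/-- a corner of a circle both of whose edges lead to the boundary -/
def Crn (σ : X → X) (D Q : Fm X) (p r : X) : Prop :=
  p ∈ dts D ∧ r ∈ dts D ∧ ∃ q ∈ Q, CycL (σ r) (σ p) q.1

/-- two different corners connected with `s` have edges leading to the boundary -/
def FC (σ : X → X) (D Q : Fm X) (s : X) : Prop :=
  ∃ p₁ r₁ p₂ r₂ : X, (p₁, r₁) ≠ (p₂, r₂) ∧ Crn σ D Q p₁ r₁ ∧ Crn σ D Q p₂ r₂ ∧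
    Con σ Q s p₁ ∧ Con σ Q s p₂

theorem cycL_mem {r p : X} {W : List X} (h : CycL r p W) : r ∈ W ∧ p ∈ W := by
  rcases h with ⟨u, v, rfl⟩ | ⟨u, rfl⟩ <;> simp

theorem cycL_ne {r p : X} {W : List X} (h : CycL r p W) (hn : W.Nodup) : r ≠ p := by
  rcases h with ⟨u, v, rfl⟩ | ⟨u, rfl⟩
  · rw [List.nodup_append, List.nodup_cons] at hn
    intro h
    exact hn.2.1.1 (by simp [h])
  · rw [List.nodup_cons] at hn
    intro h
    exact hn.1 (by simp [h])

theorem Crn.con (hI : Iv σ (D ++ Q)) {s p r : X} (h : Crn σ D Q p r) (hc : Con σ Q s p) :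
    Con σ Q s r ∧ Con σ Q s (σ p) ∧ Con σ Q s (σ r) := by
  obtain ⟨h1, h2, q, hq, h3⟩ := h
  obtain ⟨h4, h5⟩ := cycL_mem h3
  have k1 : Con σ Q s (σ p) := hc.inv
  have k2 : Con σ Q s (σ r) := k1.cir hq h5 h4
  refine ⟨?_, k1, k2⟩
  have := k2.inv
  rwa [hI.iv r (by rw [dts_append]; simp [h2])] at this

theorem Crn.ne (hI : Iv σ (D ++ Q)) {p r : X} (h : Crn σ D Q p r) : p ≠ r := by
  obtain ⟨h1, h2, q, hq, h3⟩ := h
  have hnq : q.1.Nodup := by
    have := hI.nd
    rw [dts_append, List.nodup_append] at this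
    obtain ⟨Q₁, Q₂, rfl⟩ := List.append_of_mem hq
    have h4 := this.2.1
    rw [dts_append, List.nodup_append, dts_cons, List.nodup_append] at h4
    exact h4.2.1.1
  rintro rfl
  exact cycL_ne h3 hnq rfl

theorem split_two {x y : X} {J : List X} (hx : x ∈ J) (hy : y ∈ J) (hxy : x ≠ y) :
    (∃ A B C, J = A ++ x :: (B ++ y :: C)) ∨ ∃ A B C, J = A ++ y :: (B ++ x :: C) := by
  obtain ⟨A, C, rfl⟩ := List.append_of_mem hx
  simp only [List.mem_append, List.mem_cons] at hy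
  rcases hy with h | h | h
  · obtain ⟨A₁, A₂, rfl⟩ := List.append_of_mem h
    exact Or.inr ⟨A₁, A₂, C, by simp⟩
  · exact absurd h.symm hxy
  · obtain ⟨C₁, C₂, rfl⟩ := List.append_of_mem h
    exact Or.inl ⟨A, C₁, C₂, rfl⟩

theorem rot_inner {p r x y : X} {A B C' C : List X} :
    (p :: ((A ++ x :: (B ++ y :: C')) ++ r :: C)).IsRotated
      (x :: (B ++ y :: (C' ++ r :: C ++ p :: A))) := by
  have h := List.isRotated_append (l := p :: A) (l' := x :: (B ++ y :: (C' ++ r :: C)))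
  simpa using h

theorem rot_outer {p r x y : X} {A B C' C : List X} :
    (p :: ((A ++ x :: (B ++ y :: C')) ++ r :: C)).IsRotated
      (y :: ((C' ++ r :: C ++ p :: A) ++ x :: B)) := by
  have h := List.isRotated_append (l := p :: A ++ x :: B) (l' := y :: (C' ++ r :: C))
  simpa using h

theorem step_J (hI : Iv σ (D ++ Q)) (hE : NF σ (D ++ Q)) (hn : (D.map Prod.snd).Nodup)
    {w : List X} {b : ℕ} (hw : (w, b) ∈ D) {p r : X} {J C : List X}
    (hr : w.IsRotated (p :: (J ++ r :: C))) (hg : GP σ Q p r) {s : X} (hs : s ∈ J)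
    (h : σ s ∈ dts D ∨ FC σ D Q s) :
    ∃ p' r' J' C', w.IsRotated (p' :: (J' ++ r' :: C')) ∧ GP σ Q p' r' ∧ J'.length < J.length ∧
      ∀ z ∈ J', z ∈ J := by
  classical
  have hsw : s ∈ w := by rw [hr.mem_iff]; simp [hs]
  have hsD : s ∈ dts D := mem_dts.2 ⟨_, hw, hsw⟩
  have hsE : s ∈ dts (D ++ Q) := by rw [dts_append]; simp [hsD]
  have hwn : w.Nodup := by
    have := hI.nd
    obtain ⟨D₁, D₂, rfl⟩ := List.append_of_mem hw
    rw [dts_append, dts_append, dts_cons, List.nodup_append, List.nodup_append,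
      List.nodup_append] at this
    exact this.1.2.1.1
  have hJn : (p :: (J ++ r :: C)).Nodup := hr.nodup_iff.1 hwn
  -- a pair in `J` in the right order gives a smaller interval
  have small : ∀ x y A B C', J = A ++ x :: (B ++ y :: C') → GP σ Q x y →
      ∃ p' r' J' C', w.IsRotated (p' :: (J' ++ r' :: C')) ∧ GP σ Q p' r' ∧ J'.length < J.length ∧
      ∀ z ∈ J', z ∈ J := by
    intro x y A B C' e hg'
    refine ⟨x, y, B, C' ++ r :: C ++ p :: A, ?_, hg', ?_, fun z hz => by simp [e, hz]⟩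
    · rw [e] at hr
      exact hr.trans rot_inner
    · rw [e]; simp only [List.length_append, List.length_cons]; omega
  rcases h with h | ⟨p₁, r₁, p₂, r₂, hne, h1, h2, c1, c2⟩
  · have h1 := (closed_of_gp hI hE hn hw hr hg hs Con.rfl.inv).1 h
    have h2 : s ≠ σ s := (hI.ne s hsE).symm
    rcases split_two hs h1 h2 with ⟨A, B, C', e⟩ | ⟨A, B, C', e⟩
    · exact small _ _ A B C' e (Or.inl rfl)
    · exact small _ _ A B C' e (Or.inl (hI.iv s hsE))
  · obtain ⟨d1, d2, d3⟩ := h1.con hI c1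
    obtain ⟨d4, d5, d6⟩ := h2.con hI c2
    have i1 := (closed_of_gp hI hE hn hw hr hg hs c1).1 h1.1
    have i2 := (closed_of_gp hI hE hn hw hr hg hs d1).1 h1.2.1
    have i3 := (closed_of_gp hI hE hn hw hr hg hs c2).1 h2.1
    have i4 := (closed_of_gp hI hE hn hw hr hg hs d4).1 h2.2.1
    rcases split_two i1 i2 (h1.ne hI) with ⟨A₁, B₁, C₁, e1⟩ | ⟨A₁, B₁, C₁, e1⟩
    · exact small _ _ _ _ _ e1 (Or.inr h1.2.2)
    rcases split_two i3 i4 (h2.ne hI) with ⟨A₂, B₂, C₂, e2⟩ | ⟨A₂, B₂, C₂, e2⟩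
    · exact small _ _ _ _ _ e2 (Or.inr h2.2.2)
    exfalso
    -- the complementary intervals
    have outer : ∀ (pp rr : X) (A B C' : List X), J = A ++ rr :: (B ++ pp :: C') →
        Crn σ D Q pp rr → Con σ Q s pp → ∀ z, Con σ Q s z → z ∉ A ∧ z ∉ C' := by
      intro pp rr A B C' e hc hcon z hz
      have hr' : w.IsRotated (pp :: ((C' ++ r :: C ++ p :: A) ++ rr :: B)) := by
        rw [e] at hr
        exact hr.trans rot_outer
      have key : ∀ z ∈ C' ++ r :: C ++ p :: A, ¬Con σ Q s z := by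
        intro z hz hsz
        have h1 := closed_of_gp hI hE hn hw hr' (Or.inr hc.2.2) hz
          ((hsz.symm hI hsE).trans (hc.con hI hcon).2.1)
        exact h1.2.1 rfl
      exact ⟨fun h => key z (by simp [h]) hz, fun h => key z (by simp [h]) hz⟩
    have o1 := outer _ _ _ _ _ e1 h1 c1
    have o2 := outer _ _ _ _ _ e2 h2 c2
    have hJ : J.Nodup := by
      rw [List.nodup_cons, List.nodup_append] at hJn
      exact hJn.2.1
    -- positions
    have idx : ∀ (pp rr : X) (A B C' : List X), J = A ++ rr :: (B ++ pp :: C') →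
        J.idxOf rr = A.length ∧ J.idxOf pp = A.length + 1 + B.length := by
      intro pp rr A B C' e
      rw [e] at hJ ⊢
      have hrA : rr ∉ A := by
        rw [List.nodup_append] at hJ
        intro h
        exact hJ.2.2 rr h rr (by simp) rfl
      have hpA : pp ∉ A := by
        rw [List.nodup_append] at hJ
        intro h
        exact hJ.2.2 pp h pp (by simp) rfl
      have hpr : pp ≠ rr := by
        rw [List.nodup_append, List.nodup_cons] at hJ
        intro h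
        exact hJ.2.1.1 (by simp [h])
      have hpB : pp ∉ B := by
        rw [List.nodup_append, List.nodup_cons, List.nodup_append] at hJ
        intro h
        exact hJ.2.1.2.2.2 pp h pp (by simp) rfl
      constructor
      · rw [List.idxOf_append_of_notMem hrA, List.idxOf_cons_self, add_zero]
      · rw [List.idxOf_append_of_notMem hpA, List.idxOf_cons_ne _ (Ne.symm hpr),
          List.idxOf_append_of_notMem hpB, List.idxOf_cons_self]
        omega
    have lower : ∀ (z : X) (A B : List X), J = A ++ B → z ∉ A → A.length ≤ J.idxOf z := by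
      intro z A B e hz
      rw [e, List.idxOf_append_of_notMem hz]
      omega
    have upper : ∀ (z : X) (A B : List X), J = A ++ B → z ∈ J → z ∉ B → J.idxOf z < A.length := by
      intro z A B e hz hzB
      have hzA : z ∈ A := by
        rw [e, List.mem_append] at hz
        exact hz.resolve_right hzB
      rw [e, List.idxOf_append_of_mem hzA]
      exact List.idxOf_lt_length_of_mem hzA
    obtain ⟨x1, x2⟩ := idx _ _ _ _ _ e1
    obtain ⟨x3, x4⟩ := idx _ _ _ _ _ e2
    have l1 := lower r₂ A₁ _ e1 (o1 r₂ d4).1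
    have l2 := lower r₁ A₂ _ e2 (o2 r₁ d1).1
    have u1 := upper p₂ (A₁ ++ r₁ :: (B₁ ++ [p₁])) C₁ (by rw [e1]; simp) i3 (o1 p₂ c2).2
    have u2 := upper p₁ (A₂ ++ r₂ :: (B₂ ++ [p₂])) C₂ (by rw [e2]; simp) i1 (o2 p₁ c1).2
    simp only [List.length_append, List.length_cons, List.length_nil] at u1 u2
    have hrr : r₁ = r₂ := (List.idxOf_inj i2).1 (by omega)
    have hpp : p₁ = p₂ := (List.idxOf_inj i1).1 (by omega)
    exact hne (by rw [hrr, hpp])

end Pool.Agent.W5h73.TT
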