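import Pool.Agent.W5h73.TT.Chk

/-!
# Checking the patterns of triple points: counting corners

The certificates checked here prove that in a pattern there are at least twice as many corners as
components.
-/

namespace Pool.Agent.W5h73.TT.Chk

/-- reading the circles which represent the components; `c` is the number of corners needed -/
noncomputable def roots (f : ℕ) : ℕ → ℕ → ℕ → (ℕ → ℕ → ℕ → Bool) → Bool :=
  Nat.rec (fun _ _ _ _ => false) (fun _ r s M c k =>
    Nat.rec (k (Nat.shiftRight s 6) M c) (fun x _ =>
      r (Nat.shiftRight s 6) (Nat.lor M (Nat.pow 2 x)) (Nat.add c 2) k) (Nat.land s 63)) f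

/-- reading `c` corners in increasing order -/
noncomputable def cors (T : ℕ) (c : ℕ) : ℕ → ℕ → (ℕ → Bool) → Bool :=
  Nat.rec (fun _ s k => k s) (fun _ r b s k =>
    Nat.rec false (fun p _ => and (and (Nat.ble b p)
      (and (Nat.beq (ent T p) 1) (Nat.beq (ent T (nxt p)) 1)))
        (r (Nat.add p 1) (Nat.shiftRight s 6) k)) (Nat.land s 63)) c

/-- a state with many corners -/
noncomputable def gds (V T s : ℕ) (k : ℕ → Bool) : Bool :=
  roots 20 s 0 0 fun s M c => tree T 40 s M fun s M =>
    and (or (Nat.beq M (Nat.sub (Nat.pow 2 V) 1)) (cover T M V)) (cors T c 0 s k)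

/-- the number belongs to the list -/
noncomputable def mem (T : ℕ) (ts : List ℕ) : Bool :=
  List.rec false (fun t _ r => or (Nat.beq T t) r) ts

/-- action of a permutation of the triple points on the ends -/
def rho (c k : ℕ) : ℕ :=
  Nat.add (Nat.mul 12 (Nat.land (Nat.shiftRight c (Nat.mul 2 (Nat.div k 12))) 3)) (Nat.mod k 12)

/-- action of a permutation of the triple points on the entries -/
noncomputable def rent (c v : ℕ) : ℕ :=
  Nat.rec 0 (fun e _ => Nat.rec 1 (fun y _ => Nat.add (rho c y) 2) e) v

/-- action of a permutation of the triple points on the states, the first `n` ends -/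
noncomputable def pmn (c T n : ℕ) : ℕ :=
  Nat.rec 0 (fun k a => put a (rho c k) (rent c (ent T k))) n

/-- action of a permutation of three triple points on the states -/
noncomputable def pm (c T : ℕ) : ℕ := pmn c T 36

/-- checking a certificate `s` for the state `T`; the states in `ts` have been checked already,
`cs` are permutations -/
noncomputable def run3 (pl mi : List ℕ) (es : List Bool) (OV E V : ℕ) (cs ts : List ℕ) (f : ℕ) :
    ℕ → ℕ → (ℕ → Bool) → Bool :=
  Nat.rec (fun _ _ _ => false) (fun _ r T s k =>
    Nat.rec (gds V T (Nat.shiftRight s 6) k) (fun d _ =>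
    Nat.rec (flow es T (Nat.shiftRight s 6) k) (fun d _ =>
    Nat.rec (pr OV E T (Nat.shiftRight s 6) k) (fun d _ =>
    Nat.rec (and (and (mem (Nat.land (Nat.shiftRight s 6) 63) cs)
        (mem (pm (Nat.land (Nat.shiftRight s 6) 63) T) ts)) (k (Nat.shiftRight s 12))) (fun x _ =>
      and (and (bit OV x) (Nat.beq (ent T x) 0))
        (r (setO T x) (Nat.shiftRight s 6) fun s' =>
          cond (isb x)
            (r (setS T x) s' fun s' => cond (bit x 1) (opts r T x mi s' k) (opts r T x pl s' k))
            (cond (bit x 1) (opts r T x mi s' k) (opts r T x pl s' k)))) d) d) d)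
      (Nat.land s 63)) f

/-- a list of states with certificates -/
noncomputable def ev (pl mi : List ℕ) (es : List Bool) (OV E V : ℕ) (cs : List ℕ)
    (l : List (ℕ × ℕ)) : List ℕ → Bool :=
  List.rec (fun _ => true) (fun p _ r ts =>
    and (run3 pl mi es OV E V cs ts 60 p.1 p.2 fun _ => true) (r (p.1 :: ts))) l

/-- a list of states with certificates independent of each other -/
noncomputable def ck (pl mi : List ℕ) (es : List Bool) (OV E V : ℕ) (l : List (ℕ × ℕ)) : Bool :=
  List.rec true (fun p _ r => and (run3 pl mi es OV E V [] [] 60 p.1 p.2 fun _ => true) r) l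

end Pool.Agent.W5h73.TT.Chk
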