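import Pool.Agent.W5h73.TT.JB

/-! Neighbouring darts of the boundary words: counting the corners. -/

namespace Pool.Agent.W5h73.TT

open Pool.Agent.Y468.SR
open Pool.Agent.Y874.TP2 (CycL)

variable {X : Type}

/-- the interval of the word `w` from `p` to `r` is not empty and consists of whole classes -/
def Mk {β : Type} (f : X → β) (w : List X) (p r : X) : Prop :=
  f p = f r ∧ ∃ J C, w.IsRotated (p :: (J ++ r :: C)) ∧ J ≠ [] ∧
    ∀ s ∈ J, ∀ t ∈ w, f s = f t → t ∈ J

theorem rot_filter {w w' : List X} (h : w.IsRotated w') (P : X → Bool) :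
    (w.filter P).IsRotated (w'.filter P) := by
  obtain ⟨n, rfl⟩ := h
  rw [List.rotate_eq_drop_append_take_mod]
  conv_lhs => rw [← List.take_append_drop (n % w.length) w]
  rw [List.filter_append, List.filter_append]
  exact List.isRotated_append

theorem count_word {β : Type} [DecidableEq X] [DecidableEq β] (f : X → β) (n : ℕ) :
    ∀ (w : List X) (M : Finset (X × X)), w.length = n → w.Nodup → w ≠ [] →
    (∀ u ∈ M, Mk f w u.1 u.2) → M.card + 2 ≤ 2 * (w.toFinset.image f).card := by
  induction n using Nat.strong_induction_on with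
  | _ n ih =>
  intro w M hlen hw hne hM
  rcases M.eq_empty_or_nonempty with rfl | hMn
  · obtain ⟨a, ha⟩ := List.exists_mem_of_ne_nil _ hne
    have : 1 ≤ (w.toFinset.image f).card :=
      Finset.card_pos.2 ⟨f a, Finset.mem_image_of_mem f (List.mem_toFinset.2 ha)⟩
    simp only [Finset.card_empty]
    omega
  -- the mark with the shortest interval
  have hex : ∃ k : ℕ, ∃ u ∈ M, ∃ J C, w.IsRotated (u.1 :: (J ++ u.2 :: C)) ∧ J.length = k := by
    obtain ⟨u, hu⟩ := hMn
    obtain ⟨-, J, C, h1, -, -⟩ := hM u hu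
    exact ⟨_, u, hu, J, C, h1, rfl⟩
  classical
  obtain ⟨u, hu, J, C, hr, hk⟩ := Nat.find_spec hex
  have hmin : ∀ u' ∈ M, ∀ J' C', w.IsRotated (u'.1 :: (J' ++ u'.2 :: C')) → J.length ≤ J'.length := by
    intro u' hu' J' C' h
    rw [hk]
    exact Nat.find_min' hex ⟨u', hu', J', C', h, rfl⟩
  obtain ⟨p, r⟩ := u
  simp only at hr
  obtain ⟨hf, J₁, C₁, hr₁, hJ₁, hc₁⟩ := hM _ hu
  simp only at hf hr₁
  have nd := hr.nodup_iff.1 hw
  have key0 : ∀ (p r : X) (J C J₁ C₁ : List X), w.IsRotated (p :: (J ++ r :: C)) →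
      w.IsRotated (p :: (J₁ ++ r :: C₁)) → J = J₁ ∧ C = C₁ := by
    intro p r J C J₁ C₁ h h'
    have n1 := h.nodup_iff.1 hw
    have n2 := h'.nodup_iff.1 hw
    have e := rot_head n1 (h.symm.trans h')
    rw [List.nodup_cons, List.nodup_append, List.nodup_cons] at n1 n2
    obtain ⟨-, e1, e2⟩ := append_cases e (fun hh => n2.2.2.2 r hh r (by simp) rfl)
      (fun hh => n1.2.2.2 r hh r (by simp) rfl)
    exact ⟨e1, e2⟩
  obtain ⟨rfl, rfl⟩ := key0 _ _ _ _ _ _ hr hr₁
  clear hr₁
  have hwm : ∀ z, z ∈ w ↔ z = p ∨ z ∈ J ∨ z = r ∨ z ∈ C := by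
    intro z
    rw [hr.mem_iff]
    simp
  rw [List.nodup_cons, List.nodup_append, List.nodup_cons] at nd
  obtain ⟨ndp, ndJ, ⟨ndr, ndC⟩, nd4⟩ := nd
  have hpJ : p ∉ J := fun h => ndp (by simp [h])
  have hrJ : r ∉ J := fun h => nd4 r h r (by simp) rfl
  have hCJ : ∀ z ∈ C, z ∉ J := fun z hz h => nd4 z h z (by simp [hz]) rfl
  -- the shorter word
  set w' : List X := p :: r :: C with hw'
  have hfil : (p :: (J ++ r :: C)).filter (fun z => decide (z ∉ J)) = w' := by
    rw [List.filter_cons_of_pos (by simpa using hpJ), List.filter_append,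
      List.filter_cons_of_pos (by simpa using hrJ)]
    have e1 : J.filter (fun z => decide (z ∉ J)) = [] := by
      rw [List.filter_eq_nil_iff]; simp
    have e2 : C.filter (fun z => decide (z ∉ J)) = C := by
      rw [List.filter_eq_self]
      intro z hz
      simpa using hCJ z hz
    rw [e1, e2, List.nil_append]
  have hfilr : ∀ l : List X, w.IsRotated l → w'.IsRotated (l.filter fun z => decide (z ∉ J)) := by
    intro l hl
    rw [← hfil]
    exact rot_filter (hr.symm.trans hl) _
  set M' : Finset (X × X) := (M.erase (p, r)).filter (fun v => v.1 ∉ J) with hM'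
  set MJ : Finset (X × X) := M.filter (fun v => v.1 ∈ J) with hMJ
  have hsub : M ⊆ M' ∪ insert (p, r) MJ := by
    intro v hv
    by_cases h1 : v = (p, r)
    · simp [h1]
    · by_cases h2 : v.1 ∈ J
      · simp [hMJ, hv, h2]
      · simp [hM', hv, h1, h2]
  have hcard : M.card ≤ M'.card + (1 + MJ.card) := by
    refine (Finset.card_le_card hsub).trans ((Finset.card_union_le _ _).trans ?_)
    have := Finset.card_insert_le (p, r) MJ
    omega
  -- marks in `J`
  have hMJc : MJ.card ≤ (J.toFinset.image f).card := by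
    have outw : ∀ v ∈ MJ, ∃ A B C', J = A ++ v.2 :: (B ++ v.1 :: C') ∧
        (∀ z ∈ w, f z = f v.1 → z ∉ A ∧ z ∉ C') := by
      intro v hv
      rw [hMJ, Finset.mem_filter] at hv
      obtain ⟨hvM, hvJ⟩ := hv
      obtain ⟨hfv, J', C', hr', hJ', hc'⟩ := hM v hvM
      have nd' := hr'.nodup_iff.1 hw
      rw [List.nodup_cons, List.nodup_append, List.nodup_cons] at nd'
      obtain ⟨ndp', ndJ', ⟨ndr', ndC'⟩, nd4'⟩ := nd'
      have hv2 : v.2 ∈ J := hc₁ v.1 hvJ v.2 (by rw [hr'.mem_iff]; simp) hfv
      have hne : v.1 ≠ v.2 := fun h => ndp' (by simp [h])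
      rcases split_two hvJ hv2 hne with ⟨A, B, C₂, e⟩ | ⟨A, B, C₂, e⟩
      · exfalso
        have h1 : w.IsRotated (v.1 :: (B ++ v.2 :: (C₂ ++ r :: C ++ p :: A))) := by
          rw [e] at hr
          exact hr.trans rot_inner
        obtain ⟨e1, -⟩ := key0 _ _ _ _ _ _ hr' h1
        have h2 := hmin v hvM _ _ hr'
        rw [e1, e] at h2
        simp only [List.length_append, List.length_cons] at h2
        omega
      · refine ⟨A, B, C₂, e, ?_⟩
        have h1 : w.IsRotated (v.1 :: ((C₂ ++ r :: C ++ p :: A) ++ v.2 :: B)) := by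
          rw [e] at hr
          exact hr.trans rot_outer
        obtain ⟨e1, -⟩ := key0 _ _ _ _ _ _ hr' h1
        intro z hz hfz
        have h3 : z ∉ J' := by
          intro h4
          have h5 := hc' z h4 v.1 (by rw [hr'.mem_iff]; simp) hfz
          exact ndp' (by simp [h5])
        rw [e1] at h3
        simp only [List.mem_append, List.mem_cons, not_or] at h3
        exact ⟨h3.2.2, h3.1.1⟩
    refine Finset.card_le_card_of_injOn (fun v => f v.1) ?_ ?_
    · intro v hv
      have hv' : v ∈ MJ := hv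
      rw [hMJ, Finset.mem_filter] at hv'
      exact Finset.mem_coe.2 (Finset.mem_image_of_mem f (List.mem_toFinset.2 hv'.2))
    · intro v₁ hv₁ v₂ hv₂ hff
      have hff' : f v₁.1 = f v₂.1 := hff
      have hv₁' : v₁ ∈ MJ := hv₁
      have hv₂' : v₂ ∈ MJ := hv₂
      obtain ⟨A₁, B₁, C₁, e₁, o₁⟩ := outw v₁ hv₁'
      obtain ⟨A₂, B₂, C₂, e₂, o₂⟩ := outw v₂ hv₂'
      rw [hMJ, Finset.mem_filter] at hv₁' hv₂'
      have g₁ := (hM v₁ hv₁'.1).1
      have g₂ := (hM v₂ hv₂'.1).1
      have inw : ∀ z ∈ J, z ∈ w := fun z hz => (hwm z).2 (by simp [hz])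
      have m1 : v₁.2 ∈ J := by rw [e₁]; simp
      have m2 : v₂.2 ∈ J := by rw [e₂]; simp
      have a1 := (o₂ v₁.2 (inw _ m1) (g₁.symm.trans hff')).1
      have a2 := (o₁ v₂.2 (inw _ m2) (g₂.symm.trans hff'.symm)).1
      have a3 := (o₂ v₁.1 (inw _ hv₁'.2) hff').2
      have a4 := (o₁ v₂.1 (inw _ hv₂'.2) hff'.symm).2
      obtain ⟨x1, -, x2⟩ := append_cases (e₁.symm.trans e₂) a1 a2
      have x3 := append_cases' x2 a3 a4
      exact Prod.ext x3 x1
  -- classes
  have himg : (w.toFinset.image f).card = (w'.toFinset.image f).card + (J.toFinset.image f).card := by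
    rw [← Finset.card_union_of_disjoint]
    · congr 1
      rw [← Finset.image_union]
      congr 1
      ext z
      simp only [Finset.mem_union, List.mem_toFinset, hwm z, hw', List.mem_cons]
      tauto
    · rw [Finset.disjoint_left]
      intro b hb hb'
      rw [Finset.mem_image] at hb hb'
      obtain ⟨s, hs, rfl⟩ := hb
      obtain ⟨t, ht, e⟩ := hb'
      rw [List.mem_toFinset] at hs ht
      have hsw : s ∈ w := by
        rw [hwm]
        simp only [hw', List.mem_cons] at hs
        tauto
      have h1 := hc₁ t ht s hsw e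
      simp only [hw', List.mem_cons] at hs
      rcases hs with rfl | rfl | hs
      · exact hpJ h1
      · exact hrJ h1
      · exact hCJ s hs h1
  have hJpos : 1 ≤ (J.toFinset.image f).card := by
    obtain ⟨a, ha⟩ := List.exists_mem_of_ne_nil _ hJ₁
    exact Finset.card_pos.2 ⟨f a, Finset.mem_image_of_mem f (List.mem_toFinset.2 ha)⟩
  -- marks of the shorter word
  have hMM' : ∀ v ∈ M', Mk f w' v.1 v.2 := by
    intro v hv
    rw [hM', Finset.mem_filter, Finset.mem_erase] at hv
    obtain ⟨⟨hvne, hvM⟩, hvJ⟩ := hv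
    obtain ⟨hfv, J', C', hr', hJ', hc'⟩ := hM v hvM
    have nd' := hr'.nodup_iff.1 hw
    rw [List.nodup_cons, List.nodup_append, List.nodup_cons] at nd'
    obtain ⟨ndp', ndJ', ⟨ndr', ndC'⟩, nd4'⟩ := nd'
    have hv2 : v.2 ∉ J := fun h => hvJ (hc₁ v.2 h v.1 (by rw [hr'.mem_iff]; simp) hfv.symm)
    have hrot := hfilr _ hr'
    rw [List.filter_cons_of_pos (by simpa using hvJ), List.filter_append,
      List.filter_cons_of_pos (by simpa using hv2)] at hrot
    refine ⟨hfv, _, _, hrot, ?_, ?_⟩
    · intro h0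
      rw [List.filter_eq_nil_iff] at h0
      have h1 : ∀ z ∈ J', z ∈ J := by
        intro z hz
        have := h0 z hz
        simpa using this
      rcases J' with _ | ⟨x, J'⟩
      · exact hJ' rfl
      have hxJ : x ∈ J := h1 x (by simp)
      obtain ⟨A, B, hAB⟩ := List.append_of_mem hxJ
      have r1 : w.IsRotated (x :: (B ++ r :: (C ++ p :: A))) := by
        have h2 := List.isRotated_append (l := p :: A) (l' := x :: (B ++ r :: C))
        rw [hAB] at hr
        refine hr.trans ?_
        simpa using h2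
      have r2 : w.IsRotated (x :: (J' ++ v.2 :: (C' ++ [v.1]))) := by
        have h2 := List.isRotated_append (l := [v.1]) (l' := x :: (J' ++ v.2 :: C'))
        refine hr'.trans ?_
        simpa using h2
      have e := rot_head (r1.nodup_iff.1 hw) (r1.symm.trans r2)
      obtain ⟨e1, -, e2⟩ := append_cases e (fun h => hrJ (h1 r (by simp [h])))
        (fun h => hv2 (by rw [hAB]; simp [h]))
      rcases List.eq_nil_or_concat A with rfl | ⟨A', a, rfl⟩
      · have e3 := congrArg List.getLast? e2
        simp only [List.getLast?_append, List.getLast?_singleton, Option.some_or,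
          Option.some.injEq] at e3
        exact hvne (Prod.ext e3.symm e1.symm)
      · have e3 := congrArg List.getLast? e2
        have e4 : (C ++ p :: (A' ++ [a])).getLast? = some a := by
          rw [show C ++ p :: (A' ++ [a]) = (C ++ p :: A') ++ [a] by simp]
          simp only [List.getLast?_append, List.getLast?_singleton, Option.some_or]
        rw [List.concat_eq_append] at e3 hAB
        rw [e4] at e3
        simp only [List.getLast?_append, List.getLast?_singleton, Option.some_or,
          Option.some.injEq] at e3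
        exact hvJ (by rw [hAB, ← e3]; simp)
    · intro s hs t ht hst
      rw [List.mem_filter] at hs ⊢
      have htw : t ∈ w := by
        rw [hwm]
        simp only [hw', List.mem_cons] at ht
        tauto
      refine ⟨hc' s hs.1 t htw hst, ?_⟩
      have : t ∉ J := by
        simp only [hw', List.mem_cons] at ht
        rcases ht with rfl | rfl | ht
        · exact hpJ
        · exact hrJ
        · exact hCJ t ht
      simpa using this
  have hlen' : w'.length < n := by
    have h1 := hr.perm.length_eq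
    have h2 := List.length_pos_iff_ne_nil.2 hJ₁
    rw [← hlen, h1, hw']
    simp only [List.length_cons, List.length_append]
    omega
  have hnd' : w'.Nodup := by
    have := (rot_filter hr (fun z => decide (z ∉ J))).nodup_iff.1 (hw.filter _)
    rwa [hfil] at this
  have := ih _ hlen' w' M' rfl hnd' (by simp [hw']) hMM'
  omega

variable {σ : X → X} {D Q : Fm X}

/-- the class of a dart -/
def kl (σ : X → X) (Q : Fm X) (s : X) : Set X := {t | Con σ Q s t}

theorem kl_iff (hI : Iv σ (D ++ Q)) {s t : X} (hs : s ∈ dts (D ++ Q)) :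
    kl σ Q s = kl σ Q t ↔ Con σ Q s t := by
  constructor
  · intro h
    have : t ∈ kl σ Q t := Con.rfl
    rw [← h] at this
    exact this
  · intro h
    ext z
    exact ⟨fun hz => (h.symm hI hs).trans hz, fun hz => h.trans hz⟩

theorem gp_con (hI : Iv σ (D ++ Q)) {p r : X} (hr : r ∈ dts D) (h : GP σ Q p r) : Con σ Q p r := by
  rcases h with h | ⟨q, hq, h⟩
  · rw [← h]; exact Con.rfl.inv
  · obtain ⟨h4, h5⟩ := cycL_mem h
    have k1 : Con σ Q p (σ p) := Con.rfl.inv
    have k2 : Con σ Q p (σ r) := k1.cir hq h5 h4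
    have := k2.inv
    rwa [hI.iv r (by rw [dts_append]; simp [hr])] at this

theorem gp_ne (hI : Iv σ (D ++ Q)) {p r : X} (hp : p ∈ dts D) (hr : r ∈ dts D) (h : GP σ Q p r) :
    p ≠ r := by
  rcases h with h | h
  · intro e
    rw [← e] at h
    exact hI.ne p (by rw [dts_append]; simp [hp]) h
  · exact Crn.ne hI ⟨hp, hr, h⟩

theorem nodup_word (hI : Iv σ (D ++ Q)) {W : List X × ℕ} (hw : W ∈ D) : W.1.Nodup := by
  have := hI.nd
  obtain ⟨D₁, D₂, rfl⟩ := List.append_of_mem hw
  rw [dts_append, dts_append, dts_cons, List.nodup_append, List.nodup_append,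
    List.nodup_append] at this
  exact this.1.2.1.1

/-- the number of pairs is less than twice the number of classes if there are no neighbours -/
theorem count_words (hI : Iv σ (D ++ Q)) (hE : NF σ (D ++ Q)) (hn : (D.map Prod.snd).Nodup)
    (hA : ¬Adj σ D Q) [DecidableEq X] [DecidableEq (Set X)] (M : Finset (X × X))
    (hM : ∀ u ∈ M, u.1 ∈ dts D ∧ u.2 ∈ dts D ∧ GP σ Q u.1 u.2) :
    ∀ D' : Fm X, (∀ W ∈ D', W ∈ D) → (D'.map Prod.snd).Nodup →
      (M.filter fun u => u.1 ∈ dts D').card + (if dts D' = [] then 0 else 2) ≤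
        2 * ((dts D').toFinset.image (kl σ Q)).card
  | [], _, _ => by
    have : dts ([] : Fm X) = [] := rfl
    simp [this]
  | W :: D', hD', hn' => by
    rw [List.map_cons, List.nodup_cons] at hn'
    have ih := count_words hI hE hn hA M hM D' (fun V hV => hD' V (by simp [hV])) hn'.2
    obtain ⟨w, b⟩ := W
    have hw : (w, b) ∈ D := hD' _ (by simp)
    have hDE : ∀ s ∈ dts D, s ∈ dts (D ++ Q) := fun s hs => by rw [dts_append]; simp [hs]
    have hwD : ∀ z ∈ w, z ∈ dts D := fun z hz => mem_dts.2 ⟨_, hw, hz⟩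
    have hwn := nodup_word hI hw
    have hD'D : ∀ z ∈ dts D', z ∈ dts D := by
      intro z hz
      obtain ⟨V, hV, hzV⟩ := mem_dts.1 hz
      exact mem_dts.2 ⟨V, hD' V (by simp [hV]), hzV⟩
    have hdisj : ∀ z ∈ w, z ∉ dts D' := by
      intro z hz hz'
      obtain ⟨V, hV, hzV⟩ := mem_dts.1 hz'
      have h1 := nodup_unique hI.nd (C := (w, b)) (C' := V) (by simp [hw])
        (by simp [hD' V (by simp [hV])]) hz hzV
      rw [← h1] at hV
      exact hn'.1 (List.mem_map_of_mem hV)
    have hcls : ∀ s ∈ w, ∀ t ∈ dts D, kl σ Q s = kl σ Q t → t ∈ w := by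
      intro s hs t ht h
      exact con_word hI hE hn hw hs ((kl_iff hI (hDE s (hwD s hs))).1 h) ht
    -- the word `w`
    have h1 : (M.filter fun u => u.1 ∈ w).card + (if w = [] then 0 else 2) ≤
        2 * (w.toFinset.image (kl σ Q)).card := by
      by_cases hw0 : w = []
      · subst hw0; simp
      rw [if_neg hw0]
      refine count_word (kl σ Q) _ w _ rfl hwn hw0 fun u hu => ?_
      rw [Finset.mem_filter] at hu
      obtain ⟨hu, hu1⟩ := hu
      obtain ⟨a1, a2, a3⟩ := hM u hu
      have hcon := gp_con hI a2 a3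
      have hu2 : u.2 ∈ w := con_word hI hE hn hw hu1 hcon a2
      obtain ⟨J, C, hr⟩ := exists_rot hu1 hu2 (gp_ne hI a1 a2 a3)
      refine ⟨(kl_iff hI (hDE _ a1)).2 hcon, J, C, hr, ?_, ?_⟩
      · rintro rfl
        exact hA ⟨w, b, u.1, u.2, C, hw, hr, a3⟩
      · intro s hs t ht hst
        have hsw : s ∈ w := by rw [hr.mem_iff]; simp [hs]
        exact (closed_of_gp hI hE hn hw hr a3 hs ((kl_iff hI (hDE s (hwD s hsw))).1 hst)).1
          (hwD t ht)
    have h2 : (M.filter fun u => u.1 ∈ dts ((w, b) :: D')) =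
        (M.filter fun u => u.1 ∈ w) ∪ (M.filter fun u => u.1 ∈ dts D') := by
      ext u
      simp only [dts_cons, List.mem_append, Finset.mem_filter, Finset.mem_union]
      tauto
    have h3 : (dts ((w, b) :: D')).toFinset.image (kl σ Q) =
        (w.toFinset.image (kl σ Q)) ∪ ((dts D').toFinset.image (kl σ Q)) := by
      rw [← Finset.image_union]
      congr 1
      ext u
      simp only [dts_cons, List.mem_toFinset, List.mem_append, Finset.mem_union]
    have h4 : Disjoint (w.toFinset.image (kl σ Q)) ((dts D').toFinset.image (kl σ Q)) := by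
      rw [Finset.disjoint_left]
      intro c hc hc'
      rw [Finset.mem_image] at hc hc'
      obtain ⟨s, hs, rfl⟩ := hc
      obtain ⟨t, ht, e⟩ := hc'
      rw [List.mem_toFinset] at hs ht
      exact hdisj t (hcls s hs t (hD'D t ht) e.symm) ht
    rw [h2, h3, Finset.card_union_of_disjoint h4]
    have h5 := Finset.card_union_le (M.filter fun u => u.1 ∈ w) (M.filter fun u => u.1 ∈ dts D')
    have h6 : (if dts ((w, b) :: D') = [] then 0 else 2) ≤ (if w = [] then 0 else 2) +
        (if dts D' = [] then 0 else 2) := by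
      by_cases e1 : w = [] <;> by_cases e2 : dts D' = []
      · simp [dts_cons, e1, e2]
      · simp only [dts_cons, e1, e2, List.nil_append, if_true, if_false]; omega
      · simp only [e1, e2, if_true, if_false]; split_ifs <;> omega
      · simp only [e1, e2, if_false]; split_ifs <;> omega
    omega

/-- existence of neighbouring darts: the number of corners is at least twice the number of
components -/
theorem adj_of_count (hI : Iv σ (D ++ Q)) (hE : NF σ (D ++ Q)) (hn : (D.map Prod.snd).Nodup)
    (hne : dts D ≠ []) (Rs : Finset X) (Ms : Finset (X × X))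
    (hR : ∀ s ∈ dts D, σ s ∈ dts D ∨ ∃ t ∈ Rs, Con σ Q s t)
    (hM : ∀ u ∈ Ms, Crn σ D Q u.1 u.2) (h : 2 * Rs.card ≤ Ms.card) : Adj σ D Q := by
  classical
  by_contra hA
  have hDE : ∀ s ∈ dts D, s ∈ dts (D ++ Q) := fun s hs => by rw [dts_append]; simp [hs]
  set S : Finset X := (dts D).toFinset.filter fun s => σ s ∈ dts D with hS
  have hSm : ∀ s, s ∈ S ↔ s ∈ dts D ∧ σ s ∈ dts D := by
    intro s; rw [hS, Finset.mem_filter, List.mem_toFinset]
  set MS : Finset (X × X) := S.image fun s => (s, σ s) with hMS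
  have hMSc : MS.card = S.card := Finset.card_image_of_injective _ fun a b h =>
    congrArg Prod.fst h
  -- pairs of ends of edges
  have h1 : 2 * (S.image (kl σ Q)).card ≤ S.card := by
    refine Finset.mul_card_image_le_card_of_maps_to (f := kl σ Q) (t := S.image (kl σ Q))
      (fun x hx => Finset.mem_image_of_mem _ hx) 2 fun c hc => ?_
    rw [Finset.mem_image] at hc
    obtain ⟨s, hs, rfl⟩ := hc
    have hs' := (hSm s).1 hs
    have h2 : ({s, σ s} : Finset X) ⊆ S.filter fun x => kl σ Q x = kl σ Q s := by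
      intro z hz
      rw [Finset.mem_insert, Finset.mem_singleton] at hz
      rw [Finset.mem_filter]
      rcases hz with rfl | rfl
      · exact ⟨hs, rfl⟩
      · refine ⟨(hSm _).2 ⟨hs'.2, ?_⟩, ((kl_iff hI (hDE s hs'.1)).2 Con.rfl.inv).symm⟩
        rw [hI.iv s (hDE s hs'.1)]
        exact hs'.1
    have h3 := Finset.card_le_card h2
    rwa [Finset.card_pair (hI.ne s (hDE s hs'.1)).symm] at h3
  have h2 := count_words hI hE hn hA (Ms ∪ MS) (by
    intro u hu
    rw [Finset.mem_union] at hu
    rcases hu with hu | hu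
    · obtain ⟨a1, a2, a3⟩ := hM u hu
      exact ⟨a1, a2, Or.inr a3⟩
    · rw [hMS, Finset.mem_image] at hu
      obtain ⟨s, hs, rfl⟩ := hu
      exact ⟨((hSm s).1 hs).1, ((hSm s).1 hs).2, Or.inl rfl⟩) D (fun _ h => h) hn
  rw [if_neg hne] at h2
  have h3 : ((Ms ∪ MS).filter fun u => u.1 ∈ dts D) = Ms ∪ MS := by
    rw [Finset.filter_eq_self]
    intro u hu
    rw [Finset.mem_union] at hu
    rcases hu with hu | hu
    · exact (hM u hu).1
    · rw [hMS, Finset.mem_image] at hu
      obtain ⟨s, hs, rfl⟩ := hu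
      exact ((hSm s).1 hs).1
  have h4 : Disjoint Ms MS := by
    rw [Finset.disjoint_left]
    intro u hu hu'
    rw [hMS, Finset.mem_image] at hu'
    obtain ⟨s, hs, rfl⟩ := hu'
    obtain ⟨a1, a2, q, hq, a3⟩ := hM _ hu
    have h5 := (cycL_mem a3).2
    have hnd := hI.nd
    rw [dts_append, List.nodup_append] at hnd
    exact hnd.2.2 (σ s) ((hSm s).1 hs).2 (σ s) (mem_dts.2 ⟨q, hq, h5⟩) rfl
  rw [h3, Finset.card_union_of_disjoint h4, hMSc] at h2
  have h5 : (dts D).toFinset.image (kl σ Q) ⊆ S.image (kl σ Q) ∪ Rs.image (kl σ Q) := by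
    intro c hc
    rw [Finset.mem_image] at hc
    obtain ⟨s, hs, rfl⟩ := hc
    rw [List.mem_toFinset] at hs
    rw [Finset.mem_union]
    rcases hR s hs with h6 | ⟨t, ht, h6⟩
    · exact Or.inl (Finset.mem_image_of_mem _ ((hSm s).2 ⟨hs, h6⟩))
    · right
      rw [(kl_iff hI (hDE s hs)).2 h6]
      exact Finset.mem_image_of_mem _ ht
  have h6 := (Finset.card_le_card h5).trans (Finset.card_union_le _ _)
  have h7 := Finset.card_image_le (s := Rs) (f := kl σ Q)
  omega

end Pool.Agent.W5h73.TT
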