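import Pool.Agent.W5h73.TT.Red
import Pool.Agent.R800.BT.Final

/-! The reduction: conclusion. -/

namespace Pool.Agent.W5h73.TT

open Pool.Agent.Y468.SR
open Pool.Agent.Y874.TP hiding S_REID S_REN S_THREE S_OUT S_CUT S_JUNC CStep CReid CM InvM InvC Inv3
open Pool.Agent.Y874.TP2
open Pool.Agent.R800.BT (Hts Mono Bad Sv perm_TC drop)

set_option linter.unusedSimpArgs false
set_option linter.unusedVariables false

variable {P : List ℕ → Prop}

theorem rot_split {X : Type} {w v : List X} (h : w.IsRotated v) : ∃ x y, w = x ++ y ∧ v = y ++ x := by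
  obtain ⟨n, h⟩ := h
  rw [List.rotate_eq_drop_append_take_mod] at h
  exact ⟨_, _, (List.take_append_drop _ _).symm, h.symm⟩

/-- one step, given neighbouring darts -/
theorem step4 (hP : Her P) {D : Code} {Ts : List Tri} (hD : Classical D)
    (hn : (D.map Prod.snd).Nodup) (h3 : Inv4 P D Ts) {m : ℕ → ℕ} (hm : InvM (D ++ TC Ts) m)
    (ha : Adj (part m) D (TC Ts)) : Red4 P D Ts := by
  obtain ⟨w, b, p, r, C, hw, hr, hg⟩ := ha
  obtain ⟨D₁, D₂, rfl⟩ := List.append_of_mem hw
  obtain ⟨x, y, rfl, e⟩ := rot_split hr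
  have hperm : (D₁ ++ (x ++ y, b) :: D₂).Perm ((x ++ y, b) :: (D₁ ++ D₂)) := List.perm_middle
  have c1 := classical_perm hperm hD
  have c2 : Classical ((y ++ x, b) :: (D₁ ++ D₂)) := classical_rotate c1
  have i1 := inv4_perm hperm h3
  have i2 : Inv4 P ((y ++ x, b) :: (D₁ ++ D₂)) Ts := inv4_rotate i1
  have m1 : InvM ((x ++ y, b) :: (D₁ ++ D₂) ++ TC Ts) m := invM_perm (hperm.append_right _) hm
  have m2 : InvM ((y ++ x, b) :: (D₁ ++ D₂) ++ TC Ts) m := by
    simpa using invM_rotate (R := D₁ ++ D₂ ++ TC Ts) (x := x) (y := y) (by simpa using m1)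
  have hperm2 : (passes ((x ++ y, b) :: (D₁ ++ D₂))).Perm
      (passes ((y ++ x, b) :: (D₁ ++ D₂))) := by
    rw [passes_cons, passes_cons]
    exact List.Perm.append_right _ List.perm_append_comm
  have l1 : (((y ++ x, b) :: (D₁ ++ D₂)).map Prod.snd).Nodup := by
    have := (hperm.map Prod.snd).nodup hn
    simpa using this
  have hmov : ∀ D', Movie true false ((y ++ x, b) :: (D₁ ++ D₂)) D' →
      Movie true false (D₁ ++ (x ++ y, b) :: D₂) D' := fun D' r5 =>
    Movie.head hD c1 (Step.perm _ _ hperm) (Movie.head c1 c2 (Step.rotate x y b (D₁ ++ D₂)) r5)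
  suffices h : Red4 P ((y ++ x, b) :: (D₁ ++ D₂)) Ts by
    obtain ⟨D', Ts', r1, r2, r3, r4, r5⟩ := h
    refine ⟨D', Ts', ?_, r2, r3, r4, hmov _ r5⟩
    rw [(passes_perm hperm).length_eq, hperm2.length_eq]
    exact r1
  clear hmov
  rw [← e] at c2 i2 m2 l1 ⊢
  set D := (p :: r :: C, b) :: (D₁ ++ D₂) with hDdef
  have hC : (p :: r :: C, b) ∈ D := by simp [hDdef]
  have hxD : p ∈ passes D := mem_passes.2 ⟨_, hC, by simp⟩
  have hyD : r ∈ passes D := mem_passes.2 ⟨_, hC, by simp⟩
  rcases hg with h' | ⟨Cq, hCq, hcyc⟩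
  · unfold part at h'
    split_ifs at h' with hm0
    · refine caseA4 RD.reid c2 l1 i2 hC (a := []) (c := C) rfl (by rw [← h']; rfl)
        (by rw [← h']; rfl) ?_
      exact i2.ev p (by rw [passes_append']; simp [hxD])
    · exact caseB4 RD.reid CT.cut c2 l1 i2 m2 hC (a := []) (c := C) rfl hm0 (by rw [← h'])
        (by rw [← h'])
  · obtain ⟨T, hT, hCT⟩ := List.mem_flatMap.1 hCq
    have hmem : ∀ p : Pass, p ∈ passes D → part m p ∈ Cq.1 →
        (part m p).crossing = m p.crossing ∧ (part m p).isOver = p.isOver := by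
      intro p hp hpq
      unfold part at hpq ⊢
      split_ifs at hpq ⊢ with hm
      · exfalso
        have h1 : p.mate ∈ passes (TC Ts) := mem_passes.2 ⟨Cq, hCq, hpq⟩
        exact sep c2.1 i2.wf (c2.1.1 p hp) h1 rfl
      · exact ⟨rfl, rfl⟩
    have hcyc' : ∀ (r p : Pass) (W : List Pass), CycL r p W → r ∈ W ∧ p ∈ W := by
      rintro r p W (⟨u, v, rfl⟩ | ⟨u, rfl⟩) <;> simp
    obtain ⟨m1, m2'⟩ := hcyc' _ _ _ hcyc
    obtain ⟨c1, c2'⟩ := hmem p hxD m2'
    obtain ⟨c3, c4⟩ := hmem r hyD m1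
    refine remT4 hP OT.out_inv Pool.Agent.Y333.TP.mid_planar
      Pool.Agent.Y514.TP.out_planar Pool.Agent.Y210.TP.move c2 l1 i2 m2 hC (a := []) (c := C) rfl hT
      (W := Cq.1) ?_ hcyc c1 c2' c3 c4
    simp only [Tri.code, List.mem_cons, List.not_mem_nil, or_false] at hCT
    rcases hCT with rfl | rfl | rfl <;> simp

/-- The triple points which cannot be removed have the corners needed. -/
def JH (P : List ℕ → Prop) : Prop := ∀ (D : Code) (Ts : List Tri) (m : ℕ → ℕ),
  P (Ts.map fun T => colour T.a₁) → ∃ κ₀, ∀ κ,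
    Ctx D (cls colour κ Ts) (rst colour κ Ts) colour m κ →
      Chk.Cc (3 * (cls colour κ Ts).length) (pt (cls colour κ Ts) m) (decide (κ = κ₀))

/-- a part of the triple points is removed -/
theorem inv4_drop (hP : Her P) {D : Code} {Ts Ts' : List Tri} (h3 : Inv4 P D Ts)
    (hs : Ts'.Sublist Ts) {m : ℕ → ℕ} (h : Sv (D ++ TC Ts') colour m) : Inv4 P D Ts' := by
  have hsub : ∀ T ∈ Ts', T ∈ Ts := fun T hT => hs.subset hT
  have hev : ∀ p ∈ passes (D ++ TC Ts'), colour p.crossing % 2 = 0 := by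
    intro p hp
    refine h3.ev p ?_
    rw [passes_append', List.mem_append] at hp ⊢
    refine hp.imp id fun h => ?_
    obtain ⟨T, hT, h1⟩ := mem_TC'.1 h
    exact mem_TC'.2 ⟨T, hsub T hT, h1⟩
  refine ⟨h.wf, fun T hT => h3.ok T (hsub T hT), fun T hT => h3.ht T (hsub T hT), hev,
    hP _ _ (hs.map _) h3.ct, m, h.mt, fun p hp => ⟨h.cm p hp, fun h1 => ?_⟩, h.nv⟩
  exact absurd (hev p hp) h1

theorem movie_of_inv4 (hP : Her P) (hJ : JH P) (n : ℕ) : ∀ (l : ℕ) (D : Code)
    (Ts : List Tri), Ts.length = n → (passes D).length = l → Classical D →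
    (D.map Prod.snd).Nodup → Inv4 P D Ts → Movie true false D [] := by
  induction n using Nat.strong_induction_on with
  | _ n ihn =>
    intro l
    induction l using Nat.strong_induction_on with
    | _ l ihl =>
      intro D Ts h1 h2 hD hn h3
      obtain ⟨m, hm⟩ := h3.inv
      have hsv : Sv (D ++ TC Ts) colour m := ⟨h3.wf, hm.1, hm.2.2, fun p hp => (hm.2.1 p hp).1⟩
      by_cases hb : ∃ T ∈ Ts, Bad T m
      · obtain ⟨T, hT, hb⟩ := hb
        obtain ⟨l₁, l₂, rfl⟩ := List.append_of_mem hT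
        obtain ⟨m', hm'⟩ := drop (hsv.perm perm_TC) (h3.ok T hT).1 (h3.ht T hT).1 (h3.ht T hT).2 hb
        have hs : (l₁ ++ l₂).Sublist (l₁ ++ T :: l₂) :=
          List.Sublist.append (List.Sublist.refl _) (List.sublist_cons_self _ _)
        refine ihn (l₁ ++ l₂).length ?_ _ D (l₁ ++ l₂) rfl rfl hD hn (inv4_drop hP h3 hs hm')
        rw [← h1]
        simp
      by_cases hmi : ∃ T ∈ Ts, ∃ T' ∈ Ts, Mir T T' m
      · obtain ⟨T, hT, T', hT', hmi⟩ := hmi
        have hne : T ≠ T' := by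
          rintro rfl
          exact hmi.1 rfl
        obtain ⟨l₁, l₂, rfl⟩ := List.append_of_mem hT
        have hT'' : T' ∈ l₁ ++ l₂ := by
          simp only [List.mem_append, List.mem_cons] at hT' ⊢
          rcases hT' with h | h | h
          · exact Or.inl h
          · exact absurd h.symm hne
          · exact Or.inr h
        obtain ⟨k₁, k₂, e⟩ := List.append_of_mem hT''
        have hp : (D ++ TC (l₁ ++ T :: l₂)).Perm (T.code ++ T'.code ++ (D ++ TC (k₁ ++ k₂))) := by
          refine perm_TC.trans ?_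
          rw [e, List.append_assoc]
          exact List.Perm.append_left _ perm_TC
        obtain ⟨m', hm'⟩ := dropMir (hsv.perm hp) (h3.ok T hT).1 (h3.ht T hT).1 (h3.ht T hT).2
          (h3.ok T' hT').1 (h3.ht T' hT').1 (h3.ht T' hT').2 hmi
        have hs : (k₁ ++ k₂).Sublist (l₁ ++ T :: l₂) := by
          refine List.Sublist.trans (l₂ := l₁ ++ l₂) ?_
            (List.Sublist.append (List.Sublist.refl _) (List.sublist_cons_self _ _))
          rw [e]
          exact List.Sublist.append (List.Sublist.refl _) (List.sublist_cons_self _ _)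
        refine ihn (k₁ ++ k₂).length ?_ _ D (k₁ ++ k₂) rfl rfl hD hn (inv4_drop hP h3 hs hm')
        have h4 := congrArg List.length e
        simp only [List.length_append, List.length_cons] at h4 h1 ⊢
        omega
      by_cases h : passes D = []
      · exact movie_mono (deaths hn h)
      push Not at hb hmi
      have hok : ∀ T ∈ Ts, T.Ok ∧ Hts T ∧ Mono colour T := fun T hT => ⟨(h3.ok T hT).1, h3.ht T hT⟩
      obtain ⟨κ₀, hκ⟩ := hJ D Ts m h3.ct
      have hctx := ctx_of hD.1 hn hsv hok hb hmi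
      have ha : Adj (part m) D (TC Ts) := by
        refine adj_code hD.1 hn hsv hok hb hmi h κ₀ (fun κ hk => ?_) ?_
        · have := hκ κ (hctx κ)
          rwa [decide_eq_false hk] at this
        · have := hκ κ₀ (hctx κ₀)
          rwa [decide_eq_true rfl] at this
      obtain ⟨D', Ts', r1, r2, r3, r4, r5⟩ := step4 hP hD hn h3 hm ha
      refine r5.trans ?_
      rcases r1 with r1 | ⟨r1, r1'⟩
      · exact ihn Ts'.length (by omega) _ D' Ts' rfl rfl r2 r3 r4
      · exact ihl (passes D').length (by omega) D' Ts' (by omega) rfl r2 r3 r4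

end Pool.Agent.W5h73.TT
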