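import Pool.Agent.W5h73.TT.Sound
import Pool.Agent.W5h73.TT.Chk3

/-! Soundness of the certificates with the number of corners. -/

namespace Pool.Agent.W5h73.TT.Chk

/-- there are at least twice as many corners as components -/
def Cs (V : ℕ) (pt : ℕ → ℕ) : Prop :=
  ∃ Rt Cm : List ℕ, (∀ x < 4 * V, pt x = 1 → ∃ c ∈ Rt, 4 * c < 4 * V ∧ Cn V pt x (4 * c)) ∧
    Cm.Nodup ∧ (∀ p ∈ Cm, Cr V pt p) ∧ 2 * Rt.length ≤ Cm.length

variable {pl mi : List ℕ} {es : List Bool} {OV E V : ℕ} {pt : ℕ → ℕ} {T : ℕ}

theorem roots_ind {f : ℕ} : ∀ {s M c : ℕ} {k : ℕ → ℕ → ℕ → Bool} (Rt : List ℕ),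
    roots f s M c k = true → (∀ i, bit M i = true → i ∈ Rt) → c = 2 * Rt.length →
    ∃ s' M' c' Rt', (∀ i, bit M' i = true → i ∈ Rt') ∧ c' = 2 * List.length Rt' ∧
      k s' M' c' = true := by
  induction f with
  | zero =>
    intro s M c k Rt h _ _
    exact absurd h (by simp [roots])
  | succ f ih =>
    intro s M c k Rt h hM hc
    have e : roots (f + 1) s M c k = Nat.rec (k (Nat.shiftRight s 6) M c) (fun x _ =>
      roots f (Nat.shiftRight s 6) (Nat.lor M (Nat.pow 2 x)) (Nat.add c 2) k) (Nat.land s 63) := rfl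
    rw [e] at h
    generalize Nat.land s 63 = d at h
    rcases d with _ | x
    · exact ⟨_, _, _, Rt, hM, hc, h⟩
    · have h' : roots f (Nat.shiftRight s 6) (M ||| 2 ^ x) (c + 2) k = true := h
      refine ih (x :: Rt) h' (fun i hi => ?_) (by rw [List.length_cons, hc]; ring)
      rw [bit_or, Bool.or_eq_true, decide_eq_true_eq] at hi
      rcases hi with hi | hi
      · exact List.mem_cons_of_mem _ (hM i hi)
      · exact hi ▸ List.mem_cons_self

theorem cors_ind (hT : OkT pl mi V pt T) {c : ℕ} : ∀ {b s : ℕ} {k : ℕ → Bool},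
    cors T c b s k = true → (∃ Cm : List ℕ, Cm.length = c ∧ (∀ p ∈ Cm, b ≤ p ∧ Cr V pt p) ∧
      Cm.Nodup) ∧ ∃ s', k s' = true := by
  induction c with
  | zero =>
    intro b s k h
    exact ⟨⟨[], rfl, by simp, by simp⟩, s, h⟩
  | succ c ih =>
    intro b s k h
    have e : cors T (c + 1) b s k = Nat.rec false (fun p _ => and (and (Nat.ble b p)
      (and (Nat.beq (ent T p) 1) (Nat.beq (ent T (nxt p)) 1)))
        (cors T c (Nat.add p 1) (Nat.shiftRight s 6) k)) (Nat.land s 63) := rfl
    rw [e] at h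
    generalize Nat.land s 63 = d at h
    rcases d with _ | p
    · exact absurd h (by simp)
    · simp only at h
      rw [Bool.and_eq_true, Bool.and_eq_true, Bool.and_eq_true] at h
      obtain ⟨⟨h1, h2, h3⟩, h4⟩ := h
      have h1' : b ≤ p := Nat.le_of_ble_eq_true h1
      have h2' : ent T p = 1 := Nat.eq_of_beq_eq_true h2
      have h3' : ent T (nxt p) = 1 := Nat.eq_of_beq_eq_true h3
      obtain ⟨⟨Cm, k1, k2, k3⟩, k4⟩ := ih h4
      refine ⟨⟨p :: Cm, by simp [k1], ?_, ?_⟩, k4⟩
      · intro q hq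
        rcases List.mem_cons.1 hq with rfl | hq
        · refine ⟨h1', hT.lt (by omega), ?_, ?_⟩
          · rw [← hT.eq (by omega), h2']
          · rw [← hT.eq (by omega), h3']
        · obtain ⟨a1, a2⟩ := k2 q hq
          have a1' : p + 1 ≤ q := a1
          exact ⟨by omega, a2⟩
      · rw [List.nodup_cons]
        refine ⟨fun hp => ?_, k3⟩
        have a1 : p + 1 ≤ p := (k2 p hp).1
        omega

theorem cors_k {c : ℕ} : ∀ {b s : ℕ} {k : ℕ → Bool}, cors T c b s k = true → ∃ s', k s' = true := by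
  induction c with
  | zero =>
    intro b s k h
    exact ⟨s, h⟩
  | succ c ih =>
    intro b s k h
    have e : cors T (c + 1) b s k = Nat.rec false (fun p _ => and (and (Nat.ble b p)
      (and (Nat.beq (ent T p) 1) (Nat.beq (ent T (nxt p)) 1)))
        (cors T c (Nat.add p 1) (Nat.shiftRight s 6) k)) (Nat.land s 63) := rfl
    rw [e] at h
    generalize Nat.land s 63 = d at h
    rcases d with _ | p
    · exact absurd h (by simp)
    · simp only at h
      rw [Bool.and_eq_true] at h
      exact ih h.2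

theorem gds_sound (hp : Pat pl mi es OV E V pt) (hT : OkT pl mi V pt T) {s : ℕ} {k : ℕ → Bool}
    (h : gds V T s k = true) : Cs V pt := by
  obtain ⟨s₁, M₁, c, Rt, hRt, hc, h1⟩ := roots_ind [] h (fun i hi => by
    rw [bit_iff] at hi; simp at hi) rfl
  obtain ⟨s₂, M₂, hM₂, h2⟩ := tree_ind
    (I := fun M => ∀ x < 4 * V, bit M (x / 4) = true → ∃ c ∈ Rt, 4 * c < 4 * V ∧ Cn V pt x (4 * c))
    (fun M x y he hb hM => by
      have hx := hT.lt (x := x) (by omega)
      have hpx : pt x = y + 2 := by rw [← hT.eq (by omega), he]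
      obtain ⟨s1, s2, s3⟩ := hp.sym x hx y hpx
      intro z hz hbz
      rw [bit_or, Bool.or_eq_true, decide_eq_true_eq] at hbz
      rcases hbz with hbz | hbz
      · exact hM z hz hbz
      · obtain ⟨c, hc1, hc2, hc3⟩ := hM x hx hb
        exact ⟨c, hc1, hc2, ((Cn.rfl.cir hz s1 hbz.symm).arc s1 s2).trans hc3⟩) h1
    (fun x hx hb => ⟨x / 4, hRt _ hb, by omega, Cn.rfl.cir hx (by omega) (by omega)⟩)
  rw [Bool.and_eq_true, Bool.or_eq_true] at h2
  obtain ⟨h3, h4⟩ := h2
  obtain ⟨⟨Cm, k1, k2, k3⟩, -⟩ := cors_ind hT h4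
  refine ⟨Rt, Cm, fun x hx hx1 => hM₂ x hx ?_, k3, fun p hp => (k2 p hp).2, by omega⟩
  rcases h3 with h3 | h3
  · have h5 : M₂ = 2 ^ V - 1 := Nat.eq_of_beq_eq_true h3
    rw [h5, bit_iff, Nat.testBit_two_pow_sub_one]
    exact decide_eq_true (by omega)
  · exact cover_sound hT V h3 x hx hx1 hx

theorem roots_k {f : ℕ} {s M c : ℕ} {k : ℕ → ℕ → ℕ → Bool} (h : roots f s M c k = true) :
    ∃ s' M' c', k s' M' c' = true := by
  induction f generalizing s M c with
  | zero => exact absurd h (by simp [roots])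
  | succ f ih =>
    have e : roots (f + 1) s M c k = Nat.rec (k (Nat.shiftRight s 6) M c) (fun x _ =>
      roots f (Nat.shiftRight s 6) (Nat.lor M (Nat.pow 2 x)) (Nat.add c 2) k) (Nat.land s 63) := rfl
    rw [e] at h
    generalize Nat.land s 63 = d at h
    rcases d with _ | x
    · exact ⟨_, _, _, h⟩
    · exact ih h

theorem gds_k {s : ℕ} {k : ℕ → Bool} (h : gds V T s k = true) : ∃ s', k s' = true := by
  obtain ⟨s₁, M₁, c, h1⟩ := roots_k h
  obtain ⟨s₂, M₂, h2⟩ := tree_k h1
  rw [Bool.and_eq_true] at h2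
  exact cors_k h2.2

section run
variable {cs ts : List ℕ}

theorem run3_succ (f T s : ℕ) (k : ℕ → Bool) : run3 pl mi es OV E V cs ts (f + 1) T s k =
    Nat.rec (gds V T (Nat.shiftRight s 6) k) (fun d _ =>
    Nat.rec (flow es T (Nat.shiftRight s 6) k) (fun d _ =>
    Nat.rec (pr OV E T (Nat.shiftRight s 6) k) (fun d _ =>
    Nat.rec (and (and (mem (Nat.land (Nat.shiftRight s 6) 63) cs)
        (mem (pm (Nat.land (Nat.shiftRight s 6) 63) T) ts)) (k (Nat.shiftRight s 12))) (fun x _ =>
      and (and (bit OV x) (Nat.beq (ent T x) 0))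
        (run3 pl mi es OV E V cs ts f (setO T x) (Nat.shiftRight s 6) fun s' =>
          cond (isb x)
            (run3 pl mi es OV E V cs ts f (setS T x) s' fun s' =>
              cond (bit x 1) (opts (run3 pl mi es OV E V cs ts f) T x mi s' k)
                (opts (run3 pl mi es OV E V cs ts f) T x pl s' k))
            (cond (bit x 1) (opts (run3 pl mi es OV E V cs ts f) T x mi s' k)
              (opts (run3 pl mi es OV E V cs ts f) T x pl s' k)))) d) d) d)
      (Nat.land s 63) := rfl

theorem run3_k {f : ℕ} : ∀ (T s : ℕ) (k : ℕ → Bool), run3 pl mi es OV E V cs ts f T s k = true →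
    ∃ s', k s' = true := by
  induction f with
  | zero =>
    intro T s k h
    exact absurd h (by simp [run3])
  | succ f ih =>
    intro T s k h
    rw [run3_succ] at h
    generalize Nat.land s 63 = d at h
    rcases d with _ | _ | _ | _ | x
    · exact gds_k h
    · exact flow_k h
    · exact pr_k h
    · have h : ((mem (Nat.land (Nat.shiftRight s 6) 63) cs &&
        mem (pm (Nat.land (Nat.shiftRight s 6) 63) T) ts) && k (Nat.shiftRight s 12)) = true := h
      rw [Bool.and_eq_true] at h
      exact ⟨_, h.2⟩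
    · simp only at h
      rw [Bool.and_eq_true] at h
      obtain ⟨s', h'⟩ := ih _ _ _ h.2
      have key : ∀ s'', cond (bit x 1) (opts (run3 pl mi es OV E V cs ts f) T x mi s'' k)
              (opts (run3 pl mi es OV E V cs ts f) T x pl s'' k) = true → ∃ s', k s' = true := by
        intro s'' h''
        cases hb : bit x 1
        · rw [hb] at h''
          exact opts_k (T := T) ih h''
        · rw [hb] at h''
          exact opts_k (T := T) ih h''
      cases hb : isb x
      · rw [hb] at h'
        exact key _ h'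
      · rw [hb] at h'
        obtain ⟨s'', h''⟩ := ih _ _ _ h'
        exact key _ h''

theorem mem_iff {T : ℕ} : ∀ {ts : List ℕ}, mem T ts = true → T ∈ ts
  | [], h => absurd h (by simp [mem])
  | t :: ts, h => by
    have e : mem T (t :: ts) = or (Nat.beq T t) (mem T ts) := rfl
    rw [e, Bool.or_eq_true] at h
    rcases h with h | h
    · rw [Nat.eq_of_beq_eq_true h]; exact List.mem_cons_self
    · exact List.mem_cons_of_mem _ (mem_iff h)

theorem run3_sound (hp : Pat pl mi es OV E V pt) {Q : Prop} (hQ : Cs V pt → Q)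
    (hts : ∀ T c, OkT pl mi V pt T → c ∈ cs → pm c T ∈ ts → Q) {f : ℕ} : ∀ (T s : ℕ) (k : ℕ → Bool),
    OkT pl mi V pt T → run3 pl mi es OV E V cs ts f T s k = true → Q := by
  induction f with
  | zero =>
    intro T s k _ h
    exact absurd h (by simp [run3])
  | succ f ih =>
    intro T s k hT h
    rw [run3_succ] at h
    generalize Nat.land s 63 = d at h
    rcases d with _ | _ | _ | _ | x
    · exact hQ (gds_sound hp hT h)
    · exact (flow_sound hp hT h).elim
    · exact (pr_sound hp hT h).elim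
    · have h : ((mem (Nat.land (Nat.shiftRight s 6) 63) cs &&
        mem (pm (Nat.land (Nat.shiftRight s 6) 63) T) ts) && k (Nat.shiftRight s 12)) = true := h
      rw [Bool.and_eq_true, Bool.and_eq_true] at h
      exact hts T _ hT (mem_iff h.1.1) (mem_iff h.1.2)
    · simp only at h
      rw [Bool.and_eq_true, Bool.and_eq_true] at h
      obtain ⟨⟨h1, h2⟩, h3⟩ := h
      have hx := hp.ov x h1
      have h0 : ent T x = 0 := Nat.eq_of_beq_eq_true h2
      obtain ⟨s', h4⟩ := run3_k _ _ _ h3
      -- the remaining options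
      have h5 : ∃ s'', cond (bit x 1) (opts (run3 pl mi es OV E V cs ts f) T x mi s'' k)
          (opts (run3 pl mi es OV E V cs ts f) T x pl s'' k) = true := by
        cases hb : isb x
        · rw [hb] at h4
          exact ⟨_, h4⟩
        · rw [hb] at h4
          obtain ⟨s'', h6⟩ := run3_k _ _ _ h4
          exact ⟨_, h6⟩
      rcases hp.nam x hx with ⟨k1, k2⟩ | ⟨k1, k2, k3⟩ | ⟨y, k1, k2, k3, k4, k5, k6, k7, k8, k9⟩
      · exact ih _ _ _ (okT_setO hp hT hx h0 k1 k2) h3
      · rw [k1] at h4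
        exact ih _ _ _ (okT_setS hp hT hx h0 k2 k3) h4
      · obtain ⟨s'', h6⟩ := h5
        have hy : y ∈ pl ++ mi := by
          split_ifs at k1
          · exact List.mem_append_right _ k1
          · exact List.mem_append_left _ k1
        have h0y : ent T y = 0 := hT.sym x (hp.ovr x hx).1 y k5 h0
        have hok := okT_setA hp hT hx hy h0 k3 k5 k6 k7 k8
        rw [← bit_iff] at k1
        cases hb : bit x 1
        · rw [hb] at h6 k1
          obtain ⟨s₁, k₁, h7⟩ := opts_mem (T := T) run3_k h0y k2 (by simpa using k1) h6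
          exact ih _ _ _ hok h7
        · rw [hb] at h6 k1
          obtain ⟨s₁, k₁, h7⟩ := opts_mem (T := T) run3_k h0y k2 (by simpa using k1) h6
          exact ih _ _ _ hok h7

end run

/-- the property holds for the last state of a list -/
theorem ev_sound {cs : List ℕ} {S : ℕ → Prop}
    (hS : ∀ T s ts, (∀ t ∈ ts, S t) → run3 pl mi es OV E V cs ts 60 T s (fun _ => true) = true →
      S T) : ∀ (l : List (ℕ × ℕ)) (ts : List ℕ), (∀ t ∈ ts, S t) → ev pl mi es OV E V cs l ts = true →
    ∀ p ∈ l, S p.1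
  | [], _, _, _, p, hp => absurd hp (by simp)
  | q :: l, ts, hts, h, p, hp => by
    have e : ev pl mi es OV E V cs (q :: l) ts =
      and (run3 pl mi es OV E V cs ts 60 q.1 q.2 fun _ => true)
        (ev pl mi es OV E V cs l (q.1 :: ts)) := rfl
    rw [e, Bool.and_eq_true] at h
    have h1 := hS _ _ _ hts h.1
    rcases List.mem_cons.1 hp with rfl | hp
    · exact h1
    · refine ev_sound hS l (q.1 :: ts) (fun t ht => ?_) h.2 p hp
      rcases List.mem_cons.1 ht with rfl | ht
      · exact h1
      · exact hts t ht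

theorem ck_sound {cs : List ℕ} {S : ℕ → Prop}
    (hS : ∀ T s ts cs', (∀ t ∈ ts, S t) → (∀ c ∈ cs', c ∈ cs) →
      run3 pl mi es OV E V cs' ts 60 T s (fun _ => true) = true → S T) :
    ∀ (l : List (ℕ × ℕ)), ck pl mi es OV E V l = true → ∀ p ∈ l, S p.1
  | [], _, p, hp => absurd hp (by simp)
  | q :: l, h, p, hp => by
    have e : ck pl mi es OV E V (q :: l) =
      and (run3 pl mi es OV E V [] [] 60 q.1 q.2 fun _ => true) (ck pl mi es OV E V l) := rfl
    rw [e, Bool.and_eq_true] at h
    rcases List.mem_cons.1 hp with rfl | hp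
    · exact hS _ _ _ _ (by simp) (by simp) h.1
    · exact ck_sound hS l h.2 p hp

end Pool.Agent.W5h73.TT.Chk
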