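import Pool.Agent.W5h73.TT.JC
import Pool.Agent.W5h73.TT.Sound3
import Pool.Agent.W5h73.TT.Cnt

/-! From the certificates with the number of corners to neighbouring darts. -/

set_option linter.unusedSimpArgs false
set_option linter.unusedSectionVars false

namespace Pool.Agent.W5h73.TT

open Pool.Agent.Y468.SR
open Pool.Agent.Y874.TP (NullV Tri TC passes_append')
open Pool.Agent.Y874.TP2 (part)
open Pool.Agent.Y761.TP2 (part_mem)
open Pool.Agent.R800.BT (Hts Mono Bad Sv)
open Chk

variable {D Q : Code} {L R Ts : List Tri} {χ m : ℕ → ℕ} {κ : ℕ}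

/-- there are at least twice as many corners as components at the triple points `L` -/
def Gl (D Q : Code) (L : List Tri) (m : ℕ → ℕ) : Prop :=
  ∃ (Rs : Finset Pass) (Ms : Finset (Pass × Pass)),
    (∀ s ∈ passes D, part m s ∈ passes (TC L) → ∃ t ∈ Rs, Con (part m) Q s t) ∧
    (∀ u ∈ Ms, Crn (part m) D Q u.1 u.2 ∧ part m u.1 ∈ passes (TC L)) ∧ 2 * Rs.card ≤ Ms.card

theorem Gl.perm {L' : List Tri} (h : L.Perm L') (hg : Gl D Q L m) : Gl D Q L' m := by
  obtain ⟨Rs, Ms, h1, h2, h3⟩ := hg
  have hm : ∀ p, p ∈ passes (TC L) ↔ p ∈ passes (TC L') := fun p =>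
    (passes_perm (TC_perm h)).mem_iff
  exact ⟨Rs, Ms, fun s hs hp => h1 s hs ((hm _).2 hp),
    fun u hu => ⟨(h2 u hu).1, (hm _).1 (h2 u hu).2⟩, h3⟩

theorem gl_nil : Gl D Q [] m := by
  refine ⟨∅, ∅, fun s _ hp => ?_, fun u hu => absurd hu (by simp), by simp⟩
  rw [mem_TC'] at hp
  obtain ⟨T, hT, -⟩ := hp
  exact absurd hT (by simp)

theorem Ctx.gl_of_cs (c : Ctx D L R χ m κ) (hQ : ∀ q ∈ TC L, q ∈ Q)
    (h : Cs (3 * L.length) (pt L m)) : Gl D Q L m := by
  classical
  obtain ⟨Rt, Cm, h1, h2, h3, h4⟩ := h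
  have e4 : 4 * (3 * L.length) = 12 * L.length := by ring
  refine ⟨(Rt.map fun i => en L (4 * i)).toFinset, (Cm.map (Ctx.cor L m)).toFinset, ?_, ?_, ?_⟩
  · intro s hs hp
    obtain ⟨x, hx, h5, h6⟩ := c.exists_end hs hp
    obtain ⟨i, hi, hi', hcn⟩ := h1 x (by omega) h6
    refine ⟨en L (4 * i), by rw [List.mem_toFinset]; exact List.mem_map_of_mem hi, ?_⟩
    have h7 := (c.con_of_cn hQ hx hcn).2
    rw [h5] at h7
    exact Con.rfl.inv.trans h7
  · intro u hu
    rw [List.mem_toFinset, List.mem_map] at hu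
    obtain ⟨p, hp, rfl⟩ := hu
    obtain ⟨k1, k2, k3⟩ := c.crn_of_cr hQ (h3 p hp)
    have hp12 : p < 12 * L.length := by have := (h3 p hp).1; omega
    refine ⟨k1, ?_⟩
    rcases k3 with e | e
    · rw [e, c.part_part' (c.inP (c.en_mem hp12))]
      exact c.en_mem hp12
    · rw [e, c.part_part' (c.inP (c.en_mem (Ctx.nxt_lt hp12).1))]
      exact c.en_mem (Ctx.nxt_lt hp12).1
  · have hnd : (Cm.map (Ctx.cor L m)).Nodup := by
      refine List.Nodup.map_on (fun p hp q hq e => ?_) h2
      by_contra hne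
      exact c.cor_ne (by have := (h3 p hp).1; omega) (by have := (h3 q hq).1; omega) hne e
    rw [List.toFinset_card_of_nodup hnd, List.length_map]
    have := List.toFinset_card_le (Rt.map fun i => en L (4 * i))
    rw [List.length_map] at this
    omega

/-- neighbouring darts exist if in every class there are at least twice as many corners as
components -/
theorem adj_of_gl (hwD : WF (passes D)) (hn : (D.map Prod.snd).Nodup) (sv : Sv (D ++ TC Ts) χ m)
    (ok : ∀ T ∈ Ts, T.Ok ∧ Hts T ∧ Mono χ T) (bad : ∀ T ∈ Ts, ¬Bad T m)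
    (mir : ∀ T ∈ Ts, ∀ T' ∈ Ts, ¬Mir T T' m) (hne : passes D ≠ [])
    (h : ∀ κ, Gl D (TC Ts) (cls χ κ Ts) m) : Adj (part m) D (TC Ts) := by
  classical
  have hc := ctx_of hwD hn sv ok bad mir
  choose Rs Ms h1 h2 h3 using h
  set K : Finset ℕ := (Ts.map fun T => χ T.a₁).toFinset with hK
  refine adj_of_count (iv_part sv.wf sv.mt) (nf_part sv.wf sv.mt sv.nv) hn hne (K.biUnion Rs)
    (K.biUnion Ms) ?_ ?_ ?_
  · intro s hs
    have h4 := part_mem sv.wf sv.mt (show s ∈ passes (D ++ TC Ts) by
      rw [passes_append', List.mem_append]; exact Or.inl hs)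
    rw [passes_append', List.mem_append] at h4
    rcases h4 with h4 | h4
    · exact Or.inl h4
    · right
      obtain ⟨T, hT, h5⟩ := mem_TC'.1 h4
      obtain ⟨t, ht, h6⟩ := h1 (χ T.a₁) s hs (mem_TC'.2 ⟨T, mem_cls.2 ⟨hT, rfl⟩, h5⟩)
      refine ⟨t, ?_, h6⟩
      rw [Finset.mem_biUnion]
      exact ⟨_, by rw [hK, List.mem_toFinset]; exact List.mem_map.2 ⟨T, hT, rfl⟩, ht⟩
  · intro u hu
    rw [Finset.mem_biUnion] at hu
    obtain ⟨k, -, hu⟩ := hu
    exact (h2 k u hu).1
  · have h4 : (K.biUnion Rs).card ≤ ∑ k ∈ K, (Rs k).card := Finset.card_biUnion_le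
    have h5 : (K.biUnion Ms).card = ∑ k ∈ K, (Ms k).card := by
      refine Finset.card_biUnion fun k _ k' _ hkk => ?_
      show Disjoint (Ms k) (Ms k')
      rw [Finset.disjoint_left]
      intro u hu hu'
      have e1 := (hc k).chi (h2 k u hu).2
      have e2 := (hc k').chi (h2 k' u hu').2
      exact hkk (e1.symm.trans e2)
    rw [h5]
    refine (Nat.mul_le_mul_left 2 h4).trans ?_
    rw [Finset.mul_sum]
    exact Finset.sum_le_sum fun k _ => h3 k

/-! ### Mirror images -/

theorem tot_not (f g : ℕ → ℤ) : ∀ (es : List Bool) (c : ℕ), tot f g (es.map not) c = -tot f g es c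
  | [], c => by simp [tot]
  | e :: es, c => by
    rw [List.map_cons]
    simp only [tot, tot_not f g es (c + 1)]
    cases e <;> simp <;> ring

theorem pat_mirror {pl mi : List ℕ} {es : List Bool} {OV E E' V : ℕ} {pt : ℕ → ℕ}
    (hp : Pat pl mi (es.map not) OV E' V pt)
    (hE : ∀ x < 4 * V, Chk.chi E' x = !Chk.chi E x) : Pat pl mi es OV E V pt where
  len := by rw [← hp.len, List.length_map]
  ov := hp.ov
  uni := hp.uni
  uno := hp.uno
  sym := hp.sym
  pos := hp.pos
  big := hp.big
  ovr := hp.ovr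
  nam := hp.nam
  nopr := fun x hx x' hx' h1 h2 y y' h3 h4 h5 h6 h7 h8 h9 h10 =>
    hp.nopr x hx x' hx' h1 h2 y y' h3 h4 h5 h6 h7 h8 h9 (by
      rw [hE x hx, hE y (hp.sym x hx y h3).1]
      intro h
      apply h10
      revert h
      cases Chk.chi E x <;> cases Chk.chi E y <;> simp)
  fl := fun f g h1 h2 h3 => by
    have := hp.fl f g h1 h2 h3
    rw [tot_not] at this
    linarith

theorem pat_chi {pl mi : List ℕ} {es : List Bool} {OV E E' V : ℕ} {pt : ℕ → ℕ}
    (hp : Pat pl mi es OV E' V pt)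
    (hE : ∀ x < 4 * V, Chk.chi E' x = Chk.chi E x) : Pat pl mi es OV E V pt where
  len := hp.len
  ov := hp.ov
  uni := hp.uni
  uno := hp.uno
  sym := hp.sym
  pos := hp.pos
  big := hp.big
  ovr := hp.ovr
  nam := hp.nam
  nopr := fun x hx x' hx' h1 h2 y y' h3 h4 h5 h6 h7 h8 h9 h10 =>
    hp.nopr x hx x' hx' h1 h2 y y' h3 h4 h5 h6 h7 h8 h9 (by
      rw [hE x hx, hE y (hp.sym x hx y h3).1]
      exact h10)
  fl := hp.fl

/-- the orientations of the circles -/
def esE (e : List Bool) : List Bool := e.flatMap fun b => [b, b, b]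

/-- the number of the orientations -/
def numE : List Bool → ℕ
  | [] => 0
  | b :: e => (if b = true then 1 else 0) + 2 * numE e

theorem bit_numE : ∀ (e : List Bool) (i : ℕ), bit (numE e) i = e.getD i false
  | [], i => by
    rw [bit_iff]
    simp [numE]
  | b :: e, i => by
    have h0 : numE (b :: e) = (if b = true then 1 else 0) + 2 * numE e := rfl
    rw [bit_iff, h0]
    rcases i with _ | i
    · rw [List.getD_cons_zero, Nat.testBit_zero]
      cases b <;> simp
    · rw [List.getD_cons_succ, ← bit_numE e i, bit_iff, Nat.testBit_succ]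
      congr 1
      split_ifs <;> omega

theorem esL_eq : esL L = esE (L.map eps) := by
  unfold esL esE
  rw [List.flatMap_map]

theorem esE_not (e : List Bool) : esE (e.map not) = (esE e).map not := by
  unfold esE
  rw [List.flatMap_map, List.map_flatMap]
  rfl

/-- the pattern up to mirror images -/
theorem Ctx.pat' (c : Ctx D L R χ m κ) {pl mi : List ℕ} {OV : ℕ} {e : List Bool}
    (hN : NumOk L.length pl mi OV) (he : L.map eps = e ∨ L.map eps = e.map not) :
    Pat pl mi (esE e) OV (numE e) (3 * L.length) (pt L m) := by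
  have hbit : ∀ i < L.length, bit (numE (L.map eps)) i = eps (L.getD i T0) := by
    intro i hi
    rw [bit_numE, List.getD_eq_getElem _ _ (by rw [List.length_map]; exact hi),
      List.getD_eq_getElem _ _ hi, List.getElem_map]
  have h := c.pat hN hbit
  rw [esL_eq] at h
  rcases he with he | he
  · rw [he] at h
    exact h
  · have h1 := h
    rw [he, esE_not] at h1
    refine pat_mirror h1 fun x hx => ?_
    have hlen : L.length = e.length := by
      have := congrArg List.length he
      simpa using this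
    have hx' : x / 12 < e.length := by omega
    unfold Chk.chi
    have e1 : Nat.div x 12 = x / 12 := rfl
    rw [e1, bit_numE, bit_numE, List.getD_eq_getElem _ _ (by rw [List.length_map]; exact hx'),
      List.getD_eq_getElem _ _ hx', List.getElem_map]

end Pool.Agent.W5h73.TT
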