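import Pool.Agent.W5h73.TT.Tri

/-! The pattern of the triple points of one class. -/

set_option linter.unusedSimpArgs false
set_option linter.unusedSectionVars false

namespace Pool.Agent.W5h73.TT

open Pool.Agent.Y468.SR
open Pool.Agent.Y874.TP (NullV Tri TC word4 mem_code passes_append' sep)
open Pool.Agent.Y874.TP2 (part om CycL)
open Pool.Agent.Y761.TP2 (part_mem)
open Pool.Agent.R800.BT (Hts Mono Bad Sv names_nodup)
open Chk

def T0 : Tri := ⟨0, 0, 0, 0, 0, 0, true, true, true, true, true, true, true, true, true, 0, 0, 0⟩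

/-- the end with number `k` -/
def en (L : List Tri) (k : ℕ) : Pass := nam (L.getD (k / 12) T0) (k % 12)

/-- the same letter of two triple points -/
def idL (x : Tri → Bool → ℕ) (T T' : Tri) (m : ℕ → ℕ) : Prop := ∃ s, m (x T s) = x T' (!s)

/-- two triple points which cancel one another -/
def Mir (T T' : Tri) (m : ℕ → ℕ) : Prop := eps T ≠ eps T' ∧
  ((idL xa T T' m ∧ idL xb T T' m) ∨ (idL xa T T' m ∧ idL xc T T' m) ∨
    (idL xb T T' m ∧ idL xc T T' m))

/-- the triple points `L` have the class `κ`, the triple points `R` have other classes -/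
structure Ctx (D : Code) (L R : List Tri) (χ m : ℕ → ℕ) (κ : ℕ) : Prop where
  wfD : WF (passes D)
  hn : (D.map Prod.snd).Nodup
  sv : Sv (D ++ TC (L ++ R)) χ m
  ok : ∀ T ∈ L ++ R, T.Ok ∧ Hts T ∧ Mono χ T
  bad : ∀ T ∈ L, ¬Bad T m
  mir : ∀ T ∈ L, ∀ T' ∈ L, ¬Mir T T' m
  cl : ∀ T ∈ L, χ T.a₁ = κ
  cr : ∀ T ∈ R, χ T.a₁ ≠ κ

theorem mem_TC' {Ts : List Tri} {p : Pass} : p ∈ passes (TC Ts) ↔ ∃ T ∈ Ts, p ∈ passes T.code := by
  rw [mem_passes]
  constructor
  · rintro ⟨C, hC, hp⟩
    obtain ⟨T, hT, hC⟩ := List.mem_flatMap.1 hC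
    exact ⟨T, hT, mem_passes.2 ⟨C, hC, hp⟩⟩
  · rintro ⟨T, hT, hp⟩
    obtain ⟨C, hC, hp⟩ := mem_passes.1 hp
    exact ⟨C, List.mem_flatMap.2 ⟨T, hT, hC⟩, hp⟩

theorem TC_append' (Ts Us : List Tri) : TC (Ts ++ Us) = TC Ts ++ TC Us := by
  simp [TC]

variable {D : Code} {L R : List Tri} {χ m : ℕ → ℕ} {κ : ℕ}

theorem code_names {T : Tri} {p : Pass} (hp : p ∈ passes T.code) : p.crossing ∈ T.names := by
  rw [mem_code] at hp
  simp only [Tri.names, List.mem_cons, List.not_mem_nil, or_false]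
  rcases hp with rfl | rfl | rfl | rfl | rfl | rfl | rfl | rfl | rfl | rfl | rfl | rfl <;>
    simp [Tri.pa₁, Tri.pa₂, Tri.pb₁, Tri.pb₂, Tri.pc₁, Tri.pc₂, Pass.mate]

theorem getD_mem {k : ℕ} (hk : k < 12 * L.length) : L.getD (k / 12) T0 ∈ L := by
  have h : k / 12 < L.length := by omega
  rw [List.getD_eq_getElem _ _ h]
  exact List.getElem_mem h

namespace Ctx
variable (c : Ctx D L R χ m κ)
include c

theorem memL {T : Tri} (hT : T ∈ L) : T.Ok ∧ Hts T ∧ Mono χ T := c.ok T (by simp [hT])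

theorem en_mem {k : ℕ} (hk : k < 12 * L.length) : en L k ∈ passes (TC L) := by
  rw [mem_TC']
  exact ⟨_, getD_mem hk, nam_mem (c.memL (getD_mem hk)).2.1 (by omega)⟩

theorem exists_en {p : Pass} (hp : p ∈ passes (TC L)) : ∃ k < 12 * L.length, en L k = p := by
  rw [mem_TC'] at hp
  obtain ⟨T, hT, hp⟩ := hp
  obtain ⟨i, hi, rfl⟩ := List.mem_iff_getElem.1 hT
  obtain ⟨j, hj, rfl⟩ := exists_nam (c.memL hT).2.1 hp
  refine ⟨12 * i + j, by omega, ?_⟩
  unfold en
  have e1 : (12 * i + j) / 12 = i := by omega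
  have e2 : (12 * i + j) % 12 = j := by omega
  rw [e1, e2, List.getD_eq_getElem _ _ hi]

theorem inP {p : Pass} (hp : p ∈ passes (TC L)) : p ∈ passes (D ++ TC (L ++ R)) := by
  rw [passes_append', TC_append', passes_append']
  simp [hp]

theorem inPD {p : Pass} (hp : p ∈ passes D) : p ∈ passes (D ++ TC (L ++ R)) := by
  rw [passes_append']
  simp [hp]

theorem nodupL : (passes (TC L)).Nodup := by
  have := c.sv.wf.nodup
  rw [passes_append', TC_append', passes_append', List.nodup_append, List.nodup_append] at this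
  exact this.2.1.1

theorem disj {p : Pass} (hp : p ∈ passes (TC L)) : p ∉ passes D := by
  intro h
  have := c.sv.wf.nodup
  rw [passes_append', TC_append', passes_append', List.nodup_append] at this
  exact this.2.2 p h p (by simp [hp]) rfl

theorem names {T : Tri} (hT : T ∈ L) : [T.a₁, T.a₂, T.b₁, T.b₂, T.c₁, T.c₂].Nodup := by
  refine names_nodup ?_ (c.memL hT).2.1
  have h1 := c.sv.wf.2
  obtain ⟨l₁, l₂, rfl⟩ := List.append_of_mem hT
  have hp : (passes (D ++ TC (l₁ ++ T :: l₂ ++ R))).Perm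
      (passes T.code ++ passes (D ++ TC (l₁ ++ (l₂ ++ R)))) := by
    have h2 : (D ++ TC (l₁ ++ T :: l₂ ++ R)).Perm (T.code ++ (D ++ TC (l₁ ++ (l₂ ++ R)))) := by
      have := Pool.Agent.R800.BT.perm_TC (D := D) (l₁ := l₁) (l₂ := l₂ ++ R) (T := T)
      simpa using this
    have h3 := passes_perm h2
    rwa [passes_append' T.code] at h3
  have h4 := (hp.map fun p => (p.crossing, p.isOver)).nodup h1
  rw [List.map_append] at h4
  exact (List.nodup_append.1 h4).1

theorem en_inj {i j : ℕ} (hi : i < 12 * L.length) (hj : j < 12 * L.length) (h : en L i = en L j) :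
    i = j := by
  have hi' : i / 12 < L.length := by omega
  have hj' : j / 12 < L.length := by omega
  have m1 : en L i ∈ passes (L[i / 12]).code := by
    have := nam_mem (c.memL (getD_mem hi)).2.1 (j := i % 12) (by omega)
    rw [List.getD_eq_getElem _ _ hi'] at this
    unfold en
    rwa [List.getD_eq_getElem _ _ hi']
  have m2 : en L i ∈ passes (L[j / 12]).code := by
    rw [h]
    have := nam_mem (c.memL (getD_mem hj)).2.1 (j := j % 12) (by omega)
    rw [List.getD_eq_getElem _ _ hj'] at this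
    unfold en
    rwa [List.getD_eq_getElem _ _ hj']
  have hne : i / 12 = j / 12 := by
    by_contra hne
    have hn := c.nodupL
    have e : passes (TC L) = L.flatMap fun T => passes T.code := by
      unfold TC passes
      rw [List.flatMap_assoc]
    rw [e, List.nodup_flatMap] at hn
    have hp := hn.2
    rw [List.pairwise_iff_getElem] at hp
    rcases Nat.lt_or_gt_of_ne hne with h1 | h1
    · exact hp _ _ hi' hj' h1 m1 m2
    · exact hp _ _ hj' hi' h1 m2 m1
  unfold en at h
  rw [hne] at h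
  have := nam_inj (c.names (getD_mem hj)) (by omega) (by omega) h
  omega

theorem chi {p : Pass} (hp : p ∈ passes (TC L)) : χ p.crossing = κ := by
  rw [mem_TC'] at hp
  obtain ⟨T, hT, hp⟩ := hp
  rw [← c.cl T hT]
  exact (c.memL hT).2.2 _ (code_names hp) _ (by simp [Tri.names])

theorem chi' {p : Pass} (hp : p ∈ passes (TC R)) : χ p.crossing ≠ κ := by
  rw [mem_TC'] at hp
  obtain ⟨T, hT, hp⟩ := hp
  intro h
  refine c.cr T hT ?_
  rw [← h]
  exact (c.ok T (by simp [hT])).2.2 _ (by simp [Tri.names]) _ (code_names hp)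

theorem chi_part {p : Pass} (hp : p ∈ passes (D ++ TC (L ++ R))) :
    χ (part m p).crossing = χ p.crossing := by
  unfold part
  split_ifs
  · rfl
  · exact c.sv.cm p hp

theorem part_cases {p : Pass} (hp : p ∈ passes (TC L)) :
    part m p ∈ passes D ∨ part m p ∈ passes (TC L) := by
  have h1 := part_mem c.sv.wf c.sv.mt (c.inP hp)
  rw [passes_append', TC_append', passes_append', List.mem_append, List.mem_append] at h1
  rcases h1 with h1 | h1 | h1
  · exact Or.inl h1
  · exact Or.inr h1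
  · exact absurd ((c.chi_part (c.inP hp)).trans (c.chi hp)) (c.chi' h1)

theorem part_part' {p : Pass} (hp : p ∈ passes (D ++ TC (L ++ R))) : part m (part m p) = p :=
  part_part c.sv.mt hp

end Ctx

open Classical in
/-- the entries -/
noncomputable def pt (L : List Tri) (m : ℕ → ℕ) (k : ℕ) : ℕ :=
  if h : ∃ j, j < 12 * L.length ∧ en L j = part m (en L k) then h.choose + 2 else 1

namespace Ctx
variable (c : Ctx D L R χ m κ)
include c

theorem pt_cases {k : ℕ} (hk : k < 12 * L.length) :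
    (part m (en L k) ∈ passes D ∧ pt L m k = 1) ∨
      ∃ j < 12 * L.length, part m (en L k) = en L j ∧ pt L m k = j + 2 := by
  rcases c.part_cases (c.en_mem hk) with h | h
  · left
    refine ⟨h, ?_⟩
    unfold pt
    rw [dif_neg]
    rintro ⟨j, hj, e⟩
    exact c.disj (c.en_mem hj) (by rw [e]; exact h)
  · right
    obtain ⟨j, hj, e⟩ := c.exists_en h
    refine ⟨j, hj, e.symm, ?_⟩
    have hex : ∃ j, j < 12 * L.length ∧ en L j = part m (en L k) := ⟨j, hj, e⟩
    unfold pt
    rw [dif_pos hex]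
    have := c.en_inj hex.choose_spec.1 hj (hex.choose_spec.2.trans e.symm)
    omega

theorem pt_one {k : ℕ} (hk : k < 12 * L.length) (h : pt L m k = 1) : part m (en L k) ∈ passes D := by
  rcases c.pt_cases hk with ⟨h1, -⟩ | ⟨j, -, -, h1⟩
  · exact h1
  · omega

theorem pt_arc {k j : ℕ} (hk : k < 12 * L.length) (h : pt L m k = j + 2) :
    j < 12 * L.length ∧ part m (en L k) = en L j := by
  rcases c.pt_cases hk with ⟨-, h1⟩ | ⟨i, hi, h1, h2⟩
  · omega
  · have : i = j := by omega
    subst this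
    exact ⟨hi, h1⟩

theorem pt_of_D {k : ℕ} (hk : k < 12 * L.length) (h : part m (en L k) ∈ passes D) :
    pt L m k = 1 := by
  rcases c.pt_cases hk with ⟨-, h1⟩ | ⟨i, hi, h1, h2⟩
  · exact h1
  · exact absurd h (by rw [h1]; exact c.disj (c.en_mem hi))

theorem pt_of_en {k j : ℕ} (hk : k < 12 * L.length) (hj : j < 12 * L.length)
    (h : part m (en L k) = en L j) : pt L m k = j + 2 := by
  rcases c.pt_cases hk with ⟨h1, -⟩ | ⟨i, hi, h1, h2⟩
  · exact absurd h1 (by rw [h]; exact c.disj (c.en_mem hj))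
  · rw [h1] at h
    rw [h2, c.en_inj hi hj h]

theorem pt_sym {k j : ℕ} (hk : k < 12 * L.length) (h : pt L m k = j + 2) :
    j < 12 * L.length ∧ pt L m j = k + 2 ∧ j ≠ k := by
  obtain ⟨h1, h2⟩ := c.pt_arc hk h
  have h3 := c.part_part' (c.inP (c.en_mem hk))
  rw [h2] at h3
  refine ⟨h1, c.pt_of_en h1 hk h3, ?_⟩
  rintro rfl
  exact part_ne m _ h2

end Ctx

end Pool.Agent.W5h73.TT
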