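import Pool.Agent.W5h73.TT.Block

/-! Neighbouring darts of the boundary words: existence. -/

namespace Pool.Agent.W5h73.TT

open Pool.Agent.Y468.SR
open Pool.Agent.Y874.TP2 (CycL)

variable {X : Type} {σ : X → X} {D Q : Fm X}

/-- a pair of neighbouring darts -/
def Adj (σ : X → X) (D Q : Fm X) : Prop :=
  ∃ w b p r C, (w, b) ∈ D ∧ w.IsRotated (p :: r :: C) ∧ GP σ Q p r

/-- darts which are ends of edges with both ends on the boundary, or connected with two corners -/
def Gd (σ : X → X) (D Q : Fm X) (s : X) : Prop := σ s ∈ dts D ∨ FC σ D Q s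

theorem adj_of_interval (hI : Iv σ (D ++ Q)) (hE : NF σ (D ++ Q)) (hn : (D.map Prod.snd).Nodup)
    {w : List X} {b : ℕ} (hw : (w, b) ∈ D) (n : ℕ) : ∀ (p r : X) (J C : List X), J.length = n →
    w.IsRotated (p :: (J ++ r :: C)) → GP σ Q p r → (∀ s ∈ J, Gd σ D Q s) → Adj σ D Q := by
  induction n using Nat.strong_induction_on with
  | _ n ih =>
    intro p r J C hJ hr hg hs
    rcases J with _ | ⟨s, J⟩
    · exact ⟨w, b, p, r, C, hw, hr, hg⟩
    · obtain ⟨p', r', J', C', h1, h2, h3, h4⟩ :=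
        step_J hI hE hn hw hr hg (s := s) (by simp) (hs s (by simp))
      exact ih J'.length (by omega) p' r' J' C' rfl h1 h2 fun z hz => hs z (h4 z hz)

theorem same_word (hn : (D.map Prod.snd).Nodup) {w w' : List X} {b b' : ℕ} (hw : (w, b) ∈ D)
    (hw' : (w', b') ∈ D) (h : b = b') : w = w' := by
  have := List.inj_on_of_nodup_map hn hw hw' h
  exact congrArg Prod.fst this

theorem con_word (hI : Iv σ (D ++ Q)) (hE : NF σ (D ++ Q)) (hn : (D.map Prod.snd).Nodup)
    {w : List X} {b : ℕ} (hw : (w, b) ∈ D) {s t : X} (hs : s ∈ w) (h : Con σ Q s t)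
    (ht : t ∈ dts D) : t ∈ w := by
  have h1 : LB (D ++ Q) s b := ⟨(w, b), by simp [hw], hs, rfl⟩
  have h2 := con_label hI hE (b := b) (fun q hq t₁ h1 h2 t₂ h3 => by
    obtain ⟨C, hC, h4, h5⟩ := h2
    have := nodup_unique hI.nd hC (by simp [hq]) h4 h1
    subst this
    exact ⟨C, hC, h3, h5⟩) h1 h
  obtain ⟨⟨w', b'⟩, h3, h4⟩ := mem_dts.1 ht
  have h5 : LB (D ++ Q) t b' := ⟨(w', b'), by simp [h3], h4, rfl⟩
  have h6 := same_word hn hw h3 (h2.unique hI.nd h5)
  rw [h6]; exact h4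

theorem exists_rot {x y : X} {w : List X} (hx : x ∈ w) (hy : y ∈ w) (hxy : x ≠ y) :
    ∃ J C, w.IsRotated (x :: (J ++ y :: C)) := by
  obtain ⟨A, B, rfl⟩ := List.append_of_mem hx
  have h1 : (A ++ x :: B).IsRotated (x :: B ++ A) := List.isRotated_append
  have h2 : y ∈ B ++ A := by
    simp only [List.mem_append, List.mem_cons] at hy ⊢
    rcases hy with h | h | h
    · exact Or.inr h
    · exact absurd h.symm hxy
    · exact Or.inl h
  obtain ⟨J, C, h3⟩ := List.append_of_mem h2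
  refine ⟨J, C, ?_⟩
  rw [← h3]
  simpa using h1

theorem rot_head {s : X} {u v : List X} (hn : (s :: u).Nodup) (h : (s :: u).IsRotated (s :: v)) :
    u = v := by
  obtain ⟨n, hn'⟩ := h
  rw [List.rotate_eq_drop_append_take_mod] at hn'
  rcases hk : n % (s :: u).length with _ | k
  · rw [hk] at hn'
    simpa using hn'
  · exfalso
    have h1 : n % (s :: u).length < (s :: u).length := Nat.mod_lt _ (by simp)
    rw [hk] at hn' h1
    rw [List.drop_succ_cons] at hn'
    rw [List.length_cons] at h1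
    obtain ⟨z, l, hz⟩ := List.exists_cons_of_ne_nil (l := u.drop k) (by
      intro h
      rw [List.drop_eq_nil_iff] at h
      omega)
    rw [hz] at hn'
    have h2 : z = s := by
      have := congrArg List.head? hn'
      simpa using this
    have h3 : z ∈ u := List.mem_of_mem_drop (i := k) (by rw [hz]; simp)
    rw [List.nodup_cons] at hn
    exact hn.1 (h2 ▸ h3)

theorem append_cases {B₁ B₂ C₁ C₂ : List X} {r₁ r₂ : X} (h : B₁ ++ r₁ :: C₁ = B₂ ++ r₂ :: C₂)
    (h1 : r₁ ∉ B₂) (h2 : r₂ ∉ B₁) : r₁ = r₂ ∧ B₁ = B₂ ∧ C₁ = C₂ := by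
  rw [List.append_eq_append_iff] at h
  rcases h with ⟨a, h3, h4⟩ | ⟨a, h3, h4⟩
  · rcases a with _ | ⟨z, a⟩
    · simp only [List.append_nil, List.nil_append, List.cons.injEq] at h3 h4
      exact ⟨h4.1, h3.symm, h4.2⟩
    · simp only [List.cons_append, List.cons.injEq] at h4
      exact absurd (by rw [h3, h4.1]; simp) h1
  · rcases a with _ | ⟨z, a⟩
    · simp only [List.append_nil, List.nil_append, List.cons.injEq] at h3 h4
      exact ⟨h4.1.symm, h3, h4.2.symm⟩
    · simp only [List.cons_append, List.cons.injEq] at h4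
      exact absurd (by rw [h3, h4.1]; simp) h2

theorem append_cases' {B₁ B₂ C₁ C₂ : List X} {r₁ r₂ : X} (h : B₁ ++ r₁ :: C₁ = B₂ ++ r₂ :: C₂)
    (h1 : r₁ ∉ C₂) (h2 : r₂ ∉ C₁) : r₁ = r₂ := by
  have h3 := congrArg List.reverse h
  simp only [List.reverse_append, List.reverse_cons, List.append_assoc, List.cons_append,
    List.nil_append] at h3
  exact (append_cases h3 (by simpa using h1) (by simpa using h2)).1

/-- existence of neighbouring darts if the darts not connected with two corners are connected with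
one another -/
theorem adj (hI : Iv σ (D ++ Q)) (hE : NF σ (D ++ Q)) (hn : (D.map Prod.snd).Nodup)
    (hne : dts D ≠ []) (h1 : ∀ s ∈ dts D, ∀ t ∈ dts D, ¬Gd σ D Q s → ¬Gd σ D Q t → Con σ Q s t)
    (h2 : (∃ s ∈ dts D, ¬Gd σ D Q s) → ∃ p r, Crn σ D Q p r) : Adj σ D Q := by
  classical
  have hDE : ∀ s ∈ dts D, s ∈ dts (D ++ Q) := fun s hs => by rw [dts_append]; simp [hs]
  by_cases hdd : ∃ s ∈ dts D, σ s ∈ dts D
  · obtain ⟨s, hs, hss⟩ := hdd
    obtain ⟨⟨w, b⟩, hw, hsw⟩ := mem_dts.1 hs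
    have hsw' : σ s ∈ w := con_word hI hE hn hw hsw Con.rfl.inv hss
    obtain ⟨J, C, hr⟩ := exists_rot hsw hsw' (hI.ne s (hDE s hs)).symm
    have hr' : w.IsRotated (σ s :: (C ++ s :: J)) := by
      have h3 := List.isRotated_append (l := s :: J) (l' := σ s :: C)
      have h4 : (s :: J ++ σ s :: C) = s :: (J ++ σ s :: C) := by simp
      rw [h4] at h3
      refine hr.trans ?_
      simpa using h3
    by_cases hJ : ∀ t ∈ J, Gd σ D Q t
    · exact adj_of_interval hI hE hn hw _ _ _ _ _ rfl hr (Or.inl rfl) hJ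
    · refine adj_of_interval hI hE hn hw _ _ _ _ _ rfl hr' (Or.inl (hI.iv s (hDE s hs))) ?_
      push Not at hJ
      obtain ⟨t, ht, hbt⟩ := hJ
      intro t' ht' 
      by_contra hbt'
      have htw : t ∈ dts D := mem_dts.2 ⟨_, hw, by rw [hr.mem_iff]; simp [ht]⟩
      have htw' : t' ∈ dts D := mem_dts.2 ⟨_, hw, by rw [hr.mem_iff]; simp [ht']⟩
      have h3 := (closed_of_gp hI hE hn hw hr (Or.inl rfl) ht (h1 t htw t' htw' hbt hbt')).1 htw'
      have hwn : w.Nodup := by
        have := hI.nd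
        obtain ⟨D₁, D₂, rfl⟩ := List.append_of_mem hw
        rw [dts_append, dts_append, dts_cons, List.nodup_append, List.nodup_append,
          List.nodup_append] at this
        exact this.1.2.1.1
      have hJn := hr.nodup_iff.1 hwn
      rw [List.nodup_cons, List.nodup_append] at hJn
      exact hJn.2.2.2 t' h3 t' (by simp [ht']) rfl
  · push Not at hdd
    -- there is a corner
    have hc : ∃ p r, Crn σ D Q p r := by
      by_cases hb : ∃ s ∈ dts D, ¬Gd σ D Q s
      · exact h2 hb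
      · push Not at hb
        obtain ⟨s, hs⟩ := List.exists_mem_of_ne_nil _ hne
        rcases hb s hs with h | ⟨p, r, -, -, -, h, -, -⟩
        · exact absurd h (hdd s hs)
        · exact ⟨p, r, h⟩
    obtain ⟨p, r, hpr⟩ := hc
    -- the interval given by a corner
    have key : ∀ p r, Crn σ D Q p r → ∃ w b J C, (w, b) ∈ D ∧ w.IsRotated (p :: (J ++ r :: C)) ∧
        ((∀ s ∈ J, Gd σ D Q s) → Adj σ D Q) := by
      intro p r hpr
      obtain ⟨⟨w, b⟩, hw, hpw⟩ := mem_dts.1 hpr.1
      have hrw : r ∈ w := con_word hI hE hn hw hpw (hpr.con hI Con.rfl).1 hpr.2.1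
      obtain ⟨J, C, hr⟩ := exists_rot hpw hrw (hpr.ne hI)
      exact ⟨w, b, J, C, hw, hr, fun h => adj_of_interval hI hE hn hw _ _ _ _ _ rfl hr
        (Or.inr hpr.2.2) h⟩
    by_cases hbp : Gd σ D Q p
    · rcases hbp with h | ⟨p₁, r₁, p₂, r₂, hne', c1, c2, k1, k2⟩
      · exact absurd h (hdd p hpr.1)
      · obtain ⟨w, b, J₁, C₁, hw, hr₁, e1⟩ := key p₁ r₁ c1
        obtain ⟨w', b', J₂, C₂, hw', hr₂, e2⟩ := key p₂ r₂ c2
        by_cases hJ₁ : ∀ s ∈ J₁, Gd σ D Q s
        · exact e1 hJ₁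
        by_cases hJ₂ : ∀ s ∈ J₂, Gd σ D Q s
        · exact e2 hJ₂
        exfalso
        push Not at hJ₁ hJ₂
        obtain ⟨s₁, hs₁, b₁⟩ := hJ₁
        obtain ⟨s₂, hs₂, b₂⟩ := hJ₂
        have m1 : s₁ ∈ dts D := mem_dts.2 ⟨_, hw, by rw [hr₁.mem_iff]; simp [hs₁]⟩
        have m2 : s₂ ∈ dts D := mem_dts.2 ⟨_, hw', by rw [hr₂.mem_iff]; simp [hs₂]⟩
        have hpE := hDE p hpr.1
        -- `s₁` lies in both intervals
        have hs₁' : s₁ ∈ J₂ :=
          (closed_of_gp hI hE hn hw' hr₂ (Or.inr c2.2.2) hs₂ (h1 s₂ m2 s₁ m1 b₂ b₁)).1 m1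
        have hww : w' = w := by
          have h3 : s₁ ∈ w := by rw [hr₁.mem_iff]; simp [hs₁]
          have h4 : s₁ ∈ w' := by rw [hr₂.mem_iff]; simp [hs₁']
          have := nodup_unique hI.nd (C := (w', b')) (C' := (w, b)) (by simp [hw']) (by simp [hw])
            h4 h3
          exact congrArg Prod.fst this
        subst hww
        -- darts connected with `p` do not belong to the intervals
        have n1 : ∀ z ∈ J₁, ¬Con σ Q p z := by
          intro z hz hpz
          exact (closed_of_gp hI hE hn hw hr₁ (Or.inr c1.2.2) hz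
            ((hpz.symm hI hpE).trans (c1.con hI k1).2.1)).2.1 rfl
        have n2 : ∀ z ∈ J₂, ¬Con σ Q p z := by
          intro z hz hpz
          exact (closed_of_gp hI hE hn hw' hr₂ (Or.inr c2.2.2) hz
            ((hpz.symm hI hpE).trans (c2.con hI k2).2.1)).2.1 rfl
        have f1 := c1.con hI k1
        have f2 := c2.con hI k2
        have hwn : w'.Nodup := by
          have := hI.nd
          obtain ⟨D₁, D₂, rfl⟩ := List.append_of_mem hw
          rw [dts_append, dts_append, dts_cons, List.nodup_append, List.nodup_append,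
            List.nodup_append] at this
          exact this.1.2.1.1
        obtain ⟨A₁, B₁, rfl⟩ := List.append_of_mem hs₁
        obtain ⟨A₂, B₂, rfl⟩ := List.append_of_mem hs₁'
        -- rotate to `s₁`
        have g1 : w'.IsRotated (s₁ :: (B₁ ++ r₁ :: (C₁ ++ p₁ :: A₁))) := by
          have h3 := List.isRotated_append (l := p₁ :: A₁) (l' := s₁ :: (B₁ ++ r₁ :: C₁))
          refine hr₁.trans ?_
          simpa using h3
        have g2 : w'.IsRotated (s₁ :: (B₂ ++ r₂ :: (C₂ ++ p₂ :: A₂))) := by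
          have h3 := List.isRotated_append (l := p₂ :: A₂) (l' := s₁ :: (B₂ ++ r₂ :: C₂))
          refine hr₂.trans ?_
          simpa using h3
        have g3 := g1.symm.trans g2
        have nd1 := g1.nodup_iff.1 hwn
        have nd2 := g2.nodup_iff.1 hwn
        have g4 : (B₁ ++ r₁ :: (C₁ ++ p₁ :: A₁)) = B₂ ++ r₂ :: (C₂ ++ p₂ :: A₂) := rot_head nd1 g3
        have m3 : r₁ ∉ B₂ := fun h => n2 r₁ (by simp [h]) f1.1
        have m4 : r₂ ∉ B₁ := fun h => n1 r₂ (by simp [h]) f2.1
        have m5 : p₁ ∉ A₂ := fun h => n2 p₁ (by simp [h]) k1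
        have m6 : p₂ ∉ A₁ := fun h => n1 p₂ (by simp [h]) k2
        obtain ⟨e3, -, e4⟩ := append_cases g4 m3 m4
        have e5 := append_cases' e4 m5 m6
        exact hne' (by rw [e3, e5])
    · obtain ⟨w, b, J, C, hw, hr, e⟩ := key p r hpr
      refine e fun s hs => ?_
      by_contra hb
      have m1 : s ∈ dts D := mem_dts.2 ⟨_, hw, by rw [hr.mem_iff]; simp [hs]⟩
      exact (closed_of_gp hI hE hn hw hr (Or.inr hpr.2.2) hs (h1 s m1 p hpr.1 hb hbp).inv).2.1 rfl

end Pool.Agent.W5h73.TT
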