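import Pool.Agent.W5h73.TT.JB
import Pool.Agent.R800.BT.Code
import Pool.Agent.Y761.TP2.Flow

/-! Codes as planar families of words. -/

namespace Pool.Agent.W5h73.TT

open Pool.Agent.Y468.SR
open Pool.Agent.Y874.TP (NullV Tri TC)
open Pool.Agent.Y874.TP2 (part)
open Pool.Agent.Y761.TP2 (side part_mem)
open Pool.Agent.R800.BT (exists_sign)

theorem part_part {P : List Pass} {m : ℕ → ℕ} (hm : Matching P m) {p : Pass} (hp : p ∈ P) :
    part m (part m p) = p := by
  by_cases h : m p.crossing = p.crossing
  · have e : part m p = p.mate := by unfold part; rw [if_pos h]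
    rw [e]
    unfold part
    rw [if_pos (show m p.mate.crossing = p.mate.crossing from h), mate_mate']
  · have e : part m p = ⟨m p.crossing, p.isOver, !p.isPos⟩ := by unfold part; rw [if_neg h]
    have h2 : m (m p.crossing) = p.crossing := matching_invol hm hp
    rw [e]
    unfold part
    simp only
    rw [if_neg (by rw [h2]; exact Ne.symm h), h2]
    simp

theorem part_ne (m : ℕ → ℕ) (p : Pass) : part m p ≠ p := by
  unfold part
  split_ifs with h
  · intro e
    have := congrArg Pass.isOver e
    simp [Pass.mate] at this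
  · intro e
    have := congrArg Pass.crossing e
    exact h this

theorem iv_part {E : Code} {m : ℕ → ℕ} (hw : WF (passes E)) (hm : Matching (passes E) m) :
    Iv (part m) E where
  nd := hw.nodup
  cl := fun _ hx => part_mem hw hm hx
  iv := fun _ hx => part_part hm hx
  ne := fun x _ => part_ne m x

theorem nf_part {E : Code} {m : ℕ → ℕ} (hw : WF (passes E)) (hm : Matching (passes E) m)
    (hn : NullV E m) : NF (part m) E := by
  intro G _ φ hφ b
  obtain ⟨s, hs⟩ := exists_sign hw
  have hval : ∀ p ∈ passes E, val (fun c => φ ⟨c, true, s c⟩) (fun c => φ ⟨c, false, s c⟩) p =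
      φ p := by
    intro p hp
    have h1 := hs p hp
    unfold val
    obtain ⟨c, o, t⟩ := p
    simp only at h1 ⊢
    cases o <;> simp [h1]
  have hmem : ∀ p ∈ passes E, ∀ o : Bool, (⟨p.crossing, o, s p.crossing⟩ : Pass) ∈ passes E := by
    intro p hp o
    obtain ⟨q, hq, h1, h2, h3⟩ := side hw hp o
    have : q = ⟨p.crossing, o, s p.crossing⟩ := by
      obtain ⟨c', o', t'⟩ := q
      simp only at h1 h2 h3
      rw [h1, h2, h3, hs p hp]
    rw [← this]
    exact hq
  have hV : Valid (passes E) m (fun c => φ ⟨c, true, s c⟩) (fun c => φ ⟨c, false, s c⟩) := by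
    intro p hp
    have hpp : ∀ o : Bool, m p.crossing = p.crossing →
        part m ⟨p.crossing, o, s p.crossing⟩ = ⟨p.crossing, !o, s p.crossing⟩ := by
      intro o h
      unfold part
      rw [if_pos h]
      rfl
    have hpm : ∀ o : Bool, m p.crossing ≠ p.crossing →
        part m ⟨p.crossing, o, s p.crossing⟩ = ⟨m p.crossing, o, s (m p.crossing)⟩ := by
      intro o h
      have h1 : part m ⟨p.crossing, o, s p.crossing⟩ = ⟨m p.crossing, o, !s p.crossing⟩ := by
        unfold part
        rw [if_neg h]
      have h2 := part_mem hw hm (hmem p hp o)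
      rw [h1] at h2 ⊢
      rw [hs _ h2]
    refine ⟨fun h => ?_, fun h => ⟨?_, ?_⟩⟩
    · have h1 := hφ _ (hmem p hp true)
      rw [hpp true h] at h1
      exact h1
    · have h1 := hφ _ (hmem p hp true)
      rw [hpm true h] at h1
      exact h1
    · have h1 := hφ _ (hmem p hp false)
      rw [hpm false h] at h1
      exact h1
  have h := hn G _ _ hV b
  have e : fv φ E = vals (fun c => φ ⟨c, true, s c⟩) (fun c => φ ⟨c, false, s c⟩) E := by
    unfold fv vals wval
    refine List.map_congr_left fun C hC => ?_
    rw [List.map_congr_left fun p hp => hval p (mem_passes.2 ⟨C, hC, hp⟩)]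
  rw [e]
  exact h

end Pool.Agent.W5h73.TT
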