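import Pool.Agent.W5h73.TT.PatC
import Pool.Agent.W5h73.TT.JB
import Pool.Agent.W5h73.TT.Trans

/-! Neighbouring darts for codes. -/

namespace Pool.Agent.W5h73.TT

open Pool.Agent.Y468.SR
open Pool.Agent.Y874.TP (NullV Tri TC passes_append')
open Pool.Agent.Y874.TP2 (part)
open Pool.Agent.Y761.TP2 (part_mem)
open Pool.Agent.R800.BT (Hts Mono Bad Sv)
open Chk

variable {D : Code} {Ts : List Tri} {χ m : ℕ → ℕ}

open Classical in
/-- the triple points of the class -/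
noncomputable def cls (χ : ℕ → ℕ) (κ : ℕ) (Ts : List Tri) : List Tri :=
  Ts.filter fun T => decide (χ T.a₁ = κ)

open Classical in
/-- the triple points of the other classes -/
noncomputable def rst (χ : ℕ → ℕ) (κ : ℕ) (Ts : List Tri) : List Tri :=
  Ts.filter fun T => !decide (χ T.a₁ = κ)

theorem mem_cls {κ : ℕ} {T : Tri} : T ∈ cls χ κ Ts ↔ T ∈ Ts ∧ χ T.a₁ = κ := by
  unfold cls; simp [List.mem_filter]

theorem mem_rst {κ : ℕ} {T : Tri} : T ∈ rst χ κ Ts ↔ T ∈ Ts ∧ χ T.a₁ ≠ κ := by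
  unfold rst; simp [List.mem_filter]

theorem cls_perm (κ : ℕ) : (cls χ κ Ts ++ rst χ κ Ts).Perm Ts := by
  unfold cls rst; exact List.filter_append_perm _ _

theorem TC_perm {l l' : List Tri} (h : l.Perm l') : (TC l).Perm (TC l') := by
  unfold TC; exact h.flatMap_right _

theorem ctx_of (hwD : WF (passes D)) (hn : (D.map Prod.snd).Nodup) (sv : Sv (D ++ TC Ts) χ m)
    (ok : ∀ T ∈ Ts, T.Ok ∧ Hts T ∧ Mono χ T) (bad : ∀ T ∈ Ts, ¬Bad T m)
    (mir : ∀ T ∈ Ts, ∀ T' ∈ Ts, ¬Mir T T' m) (κ : ℕ) :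
    Ctx D (cls χ κ Ts) (rst χ κ Ts) χ m κ where
  wfD := hwD
  hn := hn
  sv := sv.perm (List.Perm.append_left _ (TC_perm (cls_perm κ).symm))
  ok := fun _ hT => ok _ ((cls_perm κ).mem_iff.1 hT)
  bad := fun _ hT => bad _ (mem_cls.1 hT).1
  mir := fun _ hT T' hT' => mir _ (mem_cls.1 hT).1 T' (mem_cls.1 hT').1
  cl := fun _ hT => (mem_cls.1 hT).2
  cr := fun _ hT => (mem_rst.1 hT).2

/-- neighbouring darts exist -/
theorem adj_code (hwD : WF (passes D)) (hn : (D.map Prod.snd).Nodup) (sv : Sv (D ++ TC Ts) χ m)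
    (ok : ∀ T ∈ Ts, T.Ok ∧ Hts T ∧ Mono χ T) (bad : ∀ T ∈ Ts, ¬Bad T m)
    (mir : ∀ T ∈ Ts, ∀ T' ∈ Ts, ¬Mir T T' m) (hne : passes D ≠ []) (κ₀ : ℕ)
    (h1 : ∀ κ ≠ κ₀, Cc (3 * (cls χ κ Ts).length) (pt (cls χ κ Ts) m) false)
    (h2 : Cc (3 * (cls χ κ₀ Ts).length) (pt (cls χ κ₀ Ts) m) true) :
    Adj (part m) D (TC Ts) := by
  have hc := ctx_of hwD hn sv ok bad mir
  have hQ : ∀ κ, ∀ q ∈ TC (cls χ κ Ts), q ∈ TC Ts := by
    intro κ q hq
    obtain ⟨T, hT, hq⟩ := List.mem_flatMap.1 hq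
    exact List.mem_flatMap.2 ⟨T, (mem_cls.1 hT).1, hq⟩
  have key : ∀ s ∈ passes D, ¬Gd (part m) D (TC Ts) s →
      part m s ∈ passes (TC (cls χ κ₀ Ts)) ∧ ¬FC (part m) D (TC Ts) s := by
    intro s hs hg
    have g1 : ¬part m s ∈ passes D := fun h => hg (Or.inl h)
    have g2 : ¬FC (part m) D (TC Ts) s := fun h => hg (Or.inr h)
    refine ⟨?_, g2⟩
    have h3 := part_mem sv.wf sv.mt (show s ∈ passes (D ++ TC Ts) by
      rw [passes_append']; simp [hs])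
    rw [passes_append', List.mem_append] at h3
    rcases h3 with h3 | h3
    · exact absurd h3 g1
    · obtain ⟨T, hT, h4⟩ := mem_TC'.1 h3
      have h5 : part m s ∈ passes (TC (cls χ (χ T.a₁) Ts)) :=
        mem_TC'.2 ⟨T, mem_cls.2 ⟨hT, rfl⟩, h4⟩
      by_cases hk : χ T.a₁ = κ₀
      · rwa [hk] at h5
      · exact absurd ((hc (χ T.a₁)).fc_all (h1 _ hk) (hQ _) hs h5) g2
  obtain ⟨f1, f2⟩ := (hc κ₀).fc_most h2 (hQ κ₀)
  refine adj (iv_part sv.wf sv.mt) (nf_part sv.wf sv.mt sv.nv) hn hne ?_ ?_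
  · intro s hs t ht g1 g2
    obtain ⟨k1, k2⟩ := key s hs g1
    obtain ⟨k3, k4⟩ := key t ht g2
    exact f1 s hs t ht k1 k3 k2 k4
  · rintro ⟨s, hs, g⟩
    obtain ⟨k1, k2⟩ := key s hs g
    exact f2 s hs k1 k2

end Pool.Agent.W5h73.TT
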