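import Pool.Agent.W5h73.TT.PatA

/-! Removing two triple points which cancel one another. -/

set_option linter.unusedSimpArgs false
set_option linter.unusedSectionVars false

namespace Pool.Agent.W5h73.TT

open Pool.Agent.Y468.SR
open Pool.Agent.Y874.TP (NullV Tri TC word4 mem_code passes_append' sep)
open Pool.Agent.R800.BT (Hts Mono Bad Sv names_nodup Mt Vd elim_pair elim_free2 Cr mt_of
  matching_of vd_iff cn_drop bv_one mate_code exists_sign)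

/-! ### Algebra -/

section alg
variable {S : Set ℕ} {m : ℕ → ℕ} {σ : ℕ → Bool} {χ : ℕ → ℕ}

/-- the names in a list of pairs -/
def nms (ps : List (ℕ × ℕ)) : List ℕ := ps.flatMap fun q => [q.1, q.2]

theorem elim_pairs : ∀ (ps : List (ℕ × ℕ)) {S : Set ℕ} {m : ℕ → ℕ}, Mt S m σ χ → (nms ps).Nodup →
    (∀ c ∈ nms ps, c ∈ S) → (∀ q ∈ ps, σ q.2 = !σ q.1 ∧ χ q.2 = χ q.1) →
    ∃ m', Mt (S \ {c | c ∈ nms ps}) m' σ χ ∧ ∀ (G : Type) [Group G] (o u : ℕ → G),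
      Vd (S \ {c | c ∈ nms ps}) m' o u → ∃ o' u' : ℕ → G, Vd S m o' u' ∧
        (∀ c, c ∉ nms ps → o' c = o c ∧ u' c = u c) ∧
        ∀ q ∈ ps, o' q.2 = (o' q.1)⁻¹ ∧ u' q.2 = (u' q.1)⁻¹
  | [], S, m, h, _, _, _ => by
    have e : S \ {c | c ∈ nms []} = S := by
      ext c; simp [nms]
    rw [e]
    exact ⟨m, h, fun G _ o u hv => ⟨o, u, hv, fun c _ => ⟨rfl, rfl⟩, by simp⟩⟩
  | (x, y) :: ps, S, m, h, hn, hS, hq => by
    have e : nms ((x, y) :: ps) = x :: y :: nms ps := rfl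
    rw [e] at hn hS
    rw [List.nodup_cons, List.nodup_cons, List.mem_cons, not_or] at hn
    obtain ⟨⟨n1, n2⟩, n3, n4⟩ := hn
    obtain ⟨s1, s2⟩ := hq (x, y) (by simp)
    obtain ⟨m₁, h1, k1⟩ := elim_pair h (hS x (by simp)) (hS y (by simp)) n1 s1 s2
    obtain ⟨m₂, h2, k2⟩ := elim_pairs ps h1 n4 (fun c hc => by
      refine ⟨hS c (by simp [hc]), ?_⟩
      simp only [Set.mem_insert_iff, Set.mem_singleton_iff, not_or]
      exact ⟨fun h => n2 (h ▸ hc), fun h => n3 (h ▸ hc)⟩) (fun q hq' => hq q (by simp [hq']))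
    have e2 : S \ {c | c ∈ nms ((x, y) :: ps)} = (S \ {x, y}) \ {c | c ∈ nms ps} := by
      rw [e]
      ext c
      simp only [Set.mem_sdiff, Set.mem_ofPred_eq, List.mem_cons, Set.mem_insert_iff,
        Set.mem_singleton_iff]
      tauto
    rw [e2]
    refine ⟨m₂, h2, fun G _ o u hv => ?_⟩
    obtain ⟨o₁, u₁, v1, w1, r1⟩ := k2 G o u hv
    obtain ⟨o₂, u₂, v2, w2, r2, r2'⟩ := k1 G o₁ u₁ v1
    refine ⟨o₂, u₂, v2, fun c hc => ?_, fun q hq' => ?_⟩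
    · rw [e, List.mem_cons, List.mem_cons, not_or, not_or] at hc
      rw [(w2 c hc.1 hc.2.1).1, (w2 c hc.1 hc.2.1).2]
      exact w1 c hc.2.2
    · rcases List.mem_cons.1 hq' with rfl | hq'
      · exact ⟨r2, r2'⟩
      · have hm1 : q.1 ∈ nms ps := List.mem_flatMap.2 ⟨q, hq', by simp⟩
        have hm2 : q.2 ∈ nms ps := List.mem_flatMap.2 ⟨q, hq', by simp⟩
        have a1 := w2 q.1 (fun h => n2 (h ▸ hm1)) (fun h => n3 (h ▸ hm1))
        have a2 := w2 q.2 (fun h => n2 (h ▸ hm2)) (fun h => n3 (h ▸ hm2))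
        rw [a1.1, a1.2, a2.1, a2.2]
        exact r1 q hq'

/-- values with two free pairs -/
def upd {G : Type} [Group G] (f : ℕ → G) (x₁ y₁ x₂ y₂ : ℕ) (α₁ α₂ : G) (c : ℕ) : G :=
  if c = x₁ then α₁ else if c = y₁ then α₁⁻¹ else if c = x₂ then α₂ else if c = y₂ then α₂⁻¹ else f c

theorem elim_mir {x₁ y₁ x₂ y₂ : ℕ} {ps : List (ℕ × ℕ)} (h : Mt S m σ χ)
    (hn : (nms ((x₁, y₁) :: (x₂, y₂) :: ps)).Nodup)
    (hS : ∀ c ∈ nms ((x₁, y₁) :: (x₂, y₂) :: ps), c ∈ S)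
    (hq : ∀ q ∈ ps, σ q.2 = !σ q.1 ∧ χ q.2 = χ q.1) (h1 : m x₁ = y₁) (h2 : m x₂ = y₂) :
    ∃ m', Mt (S \ {c | c ∈ nms ((x₁, y₁) :: (x₂, y₂) :: ps)}) m' σ χ ∧
      ∀ (G : Type) [Group G] (o u : ℕ → G),
      Vd (S \ {c | c ∈ nms ((x₁, y₁) :: (x₂, y₂) :: ps)}) m' o u → ∃ o₀ u₀ : ℕ → G,
        (∀ α₁ β₁ α₂ β₂ : G, Vd S m (upd o₀ x₁ y₁ x₂ y₂ α₁ α₂) (upd u₀ x₁ y₁ x₂ y₂ β₁ β₂)) ∧
        (∀ c, c ∉ nms ((x₁, y₁) :: (x₂, y₂) :: ps) → o₀ c = o c ∧ u₀ c = u c) ∧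
        ∀ q ∈ ps, o₀ q.2 = (o₀ q.1)⁻¹ ∧ u₀ q.2 = (u₀ q.1)⁻¹ := by
  have e : nms ((x₁, y₁) :: (x₂, y₂) :: ps) = x₁ :: y₁ :: x₂ :: y₂ :: nms ps := rfl
  rw [e] at hn hS ⊢
  simp only [List.nodup_cons, List.mem_cons, not_or] at hn
  obtain ⟨⟨n12, n13, n14, n15⟩, ⟨n23, n24, n25⟩, ⟨n34, n35⟩, n45, n5⟩ := hn
  have m1 : m y₁ = x₁ := by rw [← h1, (h x₁ (hS x₁ (by simp))).2.1]
  have m2 : m y₂ = x₂ := by rw [← h2, (h x₂ (hS x₂ (by simp))).2.1]
  obtain ⟨g1, k1⟩ := elim_free2 h h1 m1 n12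
  obtain ⟨g2, k2⟩ := elim_free2 g1 h2 m2 n34
  obtain ⟨m', g3, k3⟩ := elim_pairs ps g2 n5 (fun c hc => by
    refine ⟨⟨hS c (by simp [hc]), ?_⟩, ?_⟩
    · simp only [Set.mem_insert_iff, Set.mem_singleton_iff, not_or]
      exact ⟨fun h => n15 (h ▸ hc), fun h => n25 (h ▸ hc)⟩
    · simp only [Set.mem_insert_iff, Set.mem_singleton_iff, not_or]
      exact ⟨fun h => n35 (h ▸ hc), fun h => n45 (h ▸ hc)⟩) hq
  have e2 : S \ {c | c ∈ x₁ :: y₁ :: x₂ :: y₂ :: nms ps} =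
      ((S \ {x₁, y₁}) \ {x₂, y₂}) \ {c | c ∈ nms ps} := by
    ext c
    simp only [Set.mem_sdiff, Set.mem_ofPred_eq, List.mem_cons, Set.mem_insert_iff,
      Set.mem_singleton_iff]
    tauto
  rw [e2]
  refine ⟨m', g3, fun G _ o u hv => ?_⟩
  obtain ⟨o₀, u₀, v1, w1, r1⟩ := k3 G o u hv
  refine ⟨o₀, u₀, fun α₁ β₁ α₂ β₂ => ?_, fun c hc => ?_, r1⟩
  · exact k1 G _ _ (k2 G _ _ v1 α₂ β₂) α₁ β₁
  · refine w1 c fun h => hc ?_
    simp [h]

end alg

/-- a relation is solved for one letter -/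
theorem solve {X G : Type} [DecidableEq X] [Group G] (φ : X → G) {w : List X} (hw : w.Nodup) {p : X}
    (hp : p ∈ w) : ∃ g, (w.map (Function.update φ p g)).prod = 1 := by
  obtain ⟨l₁, l₂, rfl⟩ := List.append_of_mem hp
  rw [List.nodup_append, List.nodup_cons] at hw
  obtain ⟨-, ⟨h1, -⟩, h2⟩ := hw
  refine ⟨(l₁.map φ).prod⁻¹ * (l₂.map φ).prod⁻¹, ?_⟩
  have e1 : l₁.map (Function.update φ p ((l₁.map φ).prod⁻¹ * (l₂.map φ).prod⁻¹)) = l₁.map φ := by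
    refine List.map_congr_left fun x hx => ?_
    rw [Function.update_of_ne]
    exact h2 x hx p (by simp)
  have e2 : l₂.map (Function.update φ p ((l₁.map φ).prod⁻¹ * (l₂.map φ).prod⁻¹)) = l₂.map φ := by
    refine List.map_congr_left fun x hx => ?_
    rw [Function.update_of_ne]
    rintro rfl
    exact h1 hx
  rw [List.map_append, List.map_cons, List.prod_append, List.prod_cons, e1, e2,
    Function.update_self]
  group

/-- three relations are solved -/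
theorem solve3 {X G : Type} [DecidableEq X] [Group G] (φ : X → G) {w₁ w₂ w₃ : List X}
    (hw : (w₁ ++ (w₂ ++ w₃)).Nodup) {q₁ q₂ q₃ : X} (h1 : q₁ ∈ w₁) (h2 : q₂ ∈ w₂)
    (h3 : q₃ ∈ w₃) : ∃ ψ : X → G, (∀ x, x ≠ q₁ → x ≠ q₂ → x ≠ q₃ → ψ x = φ x) ∧
      (w₁.map ψ).prod = 1 ∧ (w₂.map ψ).prod = 1 ∧ (w₃.map ψ).prod = 1 := by
  rw [List.nodup_append, List.nodup_append] at hw
  obtain ⟨n1, ⟨n2, n3, n4⟩, n5⟩ := hw
  obtain ⟨g₁, e1⟩ := solve φ n1 h1
  obtain ⟨g₂, e2⟩ := solve φ n2 h2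
  obtain ⟨g₃, e3⟩ := solve φ n3 h3
  refine ⟨fun x => if x = q₁ then g₁ else if x = q₂ then g₂ else if x = q₃ then g₃ else φ x,
    fun x a b c => by simp [a, b, c], ?_, ?_, ?_⟩
  · rw [← e1]
    congr 1
    refine List.map_congr_left fun x hx => ?_
    have a2 : x ≠ q₂ := fun h => n5 x hx q₂ (by simp [h2]) h
    have a3 : x ≠ q₃ := fun h => n5 x hx q₃ (by simp [h3]) h
    by_cases h : x = q₁
    · subst h; simp
    · simp [h, a2, a3, Function.update_of_ne h]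
  · rw [← e2]
    congr 1
    refine List.map_congr_left fun x hx => ?_
    have a1 : x ≠ q₁ := fun h => n5 q₁ h1 x (by simp [hx]) h.symm
    have a3 : x ≠ q₃ := fun h => n4 x hx q₃ h3 h
    by_cases h : x = q₂
    · subst h; simp [a1]
    · simp [h, a1, a3, Function.update_of_ne h]
  · rw [← e3]
    congr 1
    refine List.map_congr_left fun x hx => ?_
    have a1 : x ≠ q₁ := fun h => n5 q₁ h1 x (by simp [hx]) h.symm
    have a2 : x ≠ q₂ := fun h => n4 q₂ h2 x hx h.symm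
    by_cases h : x = q₃
    · subst h; simp [a1, a2]
    · simp [h, a1, a2, Function.update_of_ne h]

theorem prod_rot {G : Type} [Group G] {X : Type} {φ : X → G} {w w' : List X} (h : w.IsRotated w') :
    (w.map φ).prod = 1 ↔ (w'.map φ).prod = 1 := by
  obtain ⟨n, rfl⟩ := h
  rw [List.rotate_eq_drop_append_take_mod]
  set k := n % w.length
  have h1 : w = w.take k ++ w.drop k := (List.take_append_drop k w).symm
  conv_lhs => rw [h1]
  rw [List.map_append, List.map_append, List.prod_append, List.prod_append]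
  constructor
  · intro h
    rw [eq_inv_of_mul_eq_one_left h, mul_inv_cancel]
  · intro h
    rw [eq_inv_of_mul_eq_one_left h, mul_inv_cancel]

/-- the circles of the mirror image -/
theorem mir_word {G : Type} [Group G] {e : Bool} {v v' : ℕ → G} {j : ℕ}
    (h0 : v' j = (v (j + 2))⁻¹) (h1 : v' (j + 1) = (v (j + 3))⁻¹) (h2 : v' (j + 2) = (v j)⁻¹)
    (h3 : v' (j + 3) = (v (j + 1))⁻¹) (h : (w4 e v j).prod = 1) : (w4 (!e) v' j).prod = 1 := by
  unfold w4 at *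
  cases e
  · simp only [Bool.false_eq_true, if_false, Bool.not_false, if_true, List.prod_cons, List.prod_nil,
      mul_one] at h ⊢
    rw [h0, h1, h2, h3]
    have h4 : v (j + 3) * v (j + 2) = (v (j + 1) * v j)⁻¹ := by
      rw [eq_inv_iff_mul_eq_one]
      simpa [mul_assoc] using h
    have h5 : (v (j + 2))⁻¹ * (v (j + 3))⁻¹ = v (j + 1) * v j := by
      rw [← mul_inv_rev, h4, inv_inv]
    rw [← mul_assoc, h5]
    group
  · simp only [Bool.false_eq_true, if_false, Bool.not_true, if_true, List.prod_cons, List.prod_nil,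
      mul_one] at h ⊢
    rw [h0, h1, h2, h3]
    have h4 : v j * v (j + 1) = (v (j + 2) * v (j + 3))⁻¹ := by
      rw [eq_inv_iff_mul_eq_one]
      simpa [mul_assoc] using h
    have h5 : (v (j + 1))⁻¹ * (v j)⁻¹ = v (j + 2) * v (j + 3) := by
      rw [← mul_inv_rev, h4, inv_inv]
    rw [← mul_assoc, h5]
    group

end Pool.Agent.W5h73.TT
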