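import Pool.Agent.W5h73.TT.Mir

/-! Removing two triple points which cancel one another: codes. -/

set_option linter.unusedSimpArgs false
set_option linter.unusedSectionVars false

namespace Pool.Agent.W5h73.TT

open Pool.Agent.Y468.SR
open Pool.Agent.Y874.TP (NullV Tri TC word4 mem_code passes_append' sep)
open Pool.Agent.R800.BT (Hts Mono Bad Sv names_nodup Mt Vd elim_pair elim_free2 Cr mt_of
  matching_of vd_iff cn_drop bv_one mate_code exists_sign)

/-- names by letters -/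
def xl (l : Fin 3) : Tri → Bool → ℕ := ![xa, xb, xc] l

theorem xl_mem (T : Tri) (l : Fin 3) (s o : Bool) : (⟨xl l T s, o, s⟩ : Pass) ∈ namL T := by
  fin_cases l <;> cases s <;> cases o <;> simp [xl, namL]

theorem mem_xl {T : Tri} {p : Pass} (h : p ∈ namL T) : ∃ l s o, p = ⟨xl l T s, o, s⟩ := by
  simp only [namL, List.mem_cons, List.not_mem_nil, or_false] at h
  rcases h with rfl | rfl | rfl | rfl | rfl | rfl | rfl | rfl | rfl | rfl | rfl | rfl
  · exact ⟨1, _, _, rfl⟩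
  · exact ⟨0, _, _, rfl⟩
  · exact ⟨1, _, _, rfl⟩
  · exact ⟨0, _, _, rfl⟩
  · exact ⟨2, _, _, rfl⟩
  · exact ⟨0, _, _, rfl⟩
  · exact ⟨2, _, _, rfl⟩
  · exact ⟨0, _, _, rfl⟩
  · exact ⟨2, _, _, rfl⟩
  · exact ⟨1, _, _, rfl⟩
  · exact ⟨2, _, _, rfl⟩
  · exact ⟨1, _, _, rfl⟩

theorem xl_inj {T : Tri} (hn : [T.a₁, T.a₂, T.b₁, T.b₂, T.c₁, T.c₂].Nodup) {l l' : Fin 3}
    {s s' : Bool} : xl l T s = xl l' T s' ↔ l = l' ∧ s = s' := by
  constructor
  · intro h
    have h6 := six hn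
    simp only [List.nodup_cons, List.mem_cons, List.not_mem_nil, or_false, not_or,
      not_false_eq_true, List.nodup_nil, and_true] at h6
    obtain ⟨⟨n12, n13, n14, n15, n16⟩, ⟨n23, n24, n25, n26⟩, ⟨n34, n35, n36⟩, ⟨n45, n46⟩, n56⟩ := h6
    fin_cases l <;> fin_cases l' <;> cases s <;> cases s' <;>
      first
      | exact ⟨rfl, rfl⟩
      | (exfalso; first
          | exact n12 h | exact n13 h | exact n14 h | exact n15 h | exact n16 h
          | exact n23 h | exact n24 h | exact n25 h | exact n26 h | exact n34 h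
          | exact n35 h | exact n36 h | exact n45 h | exact n46 h | exact n56 h
          | exact n12 h.symm | exact n13 h.symm | exact n14 h.symm | exact n15 h.symm
          | exact n16 h.symm | exact n23 h.symm | exact n24 h.symm | exact n25 h.symm
          | exact n26 h.symm | exact n34 h.symm | exact n35 h.symm | exact n36 h.symm
          | exact n45 h.symm | exact n46 h.symm | exact n56 h.symm)
  · rintro ⟨rfl, rfl⟩; rfl

variable {m χ : ℕ → ℕ} {σ : ℕ → Bool}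

/-- a part of a code is removed -/
theorem remove_gen {K E : Code} (wf : WF (passes (K ++ E))) (hK : ∀ p ∈ passes K, p.mate ∈ passes K)
    (hσ : ∀ p ∈ passes (K ++ E), σ p.crossing = p.isPos) (hn : NullV (K ++ E) m)
    (hr : ∃ m', Mt (Cr (passes E)) m' σ χ ∧ ∀ (G : Type) [Group G] (o u : ℕ → G),
      Vd (Cr (passes E)) m' o u → ∃ o' u' : ℕ → G, Vd (Cr (passes (K ++ E))) m o' u' ∧
        (∀ c ∈ Cr (passes E), o' c = o c ∧ u' c = u c) ∧ ∀ w ∈ K, wval o' u' w.1 = 1) :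
    ∃ m', Sv E χ m' := by
  obtain ⟨m', h1, h2⟩ := hr
  have hmem : ∀ p ∈ passes E, p ∈ passes (K ++ E) := by
    intro p hp; rw [passes_append']; simp [hp]
  obtain ⟨k1, k2⟩ := matching_of (fun p hp => hσ p (hmem p hp)) h1
  refine ⟨m', ?_, k1, fun G _ o u hv b => ?_, k2⟩
  · rw [passes_append'] at wf
    exact wf.remove hK
  obtain ⟨o', u', v1, v2, v3⟩ := h2 G o u (vd_iff.2 hv)
  have h3 := hn G o' u' (vd_iff.1 v1) b
  rw [vals_append, bv_append] at h3
  have h4 := cn_drop (bv_one v3 b) h3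
  have h5 : vals o' u' E = vals o u E := by
    unfold vals
    refine List.map_congr_left fun C hC => ?_
    refine Prod.ext ?_ rfl
    refine wval_congr fun r hr => ?_
    obtain ⟨w1, w2⟩ := v2 r.crossing ⟨r, mem_passes.2 ⟨C, hC, hr⟩, rfl⟩
    unfold val
    rw [w1, w2]
  rwa [h5] at h4

/-- the six pairs -/
def P6 (T T' : Tri) (l₁ l₂ l₃ : Fin 3) (s t : Bool) : List (ℕ × ℕ) :=
  (xl l₁ T s, xl l₁ T' !s) :: (xl l₂ T t, xl l₂ T' !t) :: [(xl l₁ T !s, xl l₁ T' s),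
    (xl l₂ T !t, xl l₂ T' t), (xl l₃ T true, xl l₃ T' false), (xl l₃ T false, xl l₃ T' true)]

theorem P6_nodup {T T' : Tri} (hn : [T.a₁, T.a₂, T.b₁, T.b₂, T.c₁, T.c₂].Nodup)
    (hn' : [T'.a₁, T'.a₂, T'.b₁, T'.b₂, T'.c₁, T'.c₂].Nodup)
    (hd : ∀ l l' s s', xl l T s ≠ xl l' T' s') {l₁ l₂ l₃ : Fin 3} (h12 : l₁ ≠ l₂) (h13 : l₁ ≠ l₃)
    (h23 : l₂ ≠ l₃) (s t : Bool) : (nms (P6 T T' l₁ l₂ l₃ s t)).Nodup := by
  have i1 := @xl_inj T hn
  have i2 := @xl_inj T' hn'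
  have hd' : ∀ l l' s s', xl l T' s ≠ xl l' T s' := fun l l' s s' => (hd l' l s' s).symm
  simp only [P6, nms, List.flatMap_cons, List.flatMap_nil, List.append_nil, List.cons_append,
    List.nil_append, List.nodup_cons, List.mem_cons, List.not_mem_nil, or_false, not_or, i1, i2,
    h12, h13, h23, h12.symm, h13.symm, h23.symm, false_and, not_false_eq_true, true_and, and_true,
    List.nodup_nil]
  have k1 : ∀ l l' s s', (xl l T s = xl l' T' s') = False := fun l l' s s' => by simp [hd]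
  have k2 : ∀ l l' s s', (xl l T' s = xl l' T s') = False := fun l l' s s' => by simp [hd']
  cases s <;> cases t <;> simp [k1, k2]

theorem P6_all {T T' : Tri} {l₁ l₂ l₃ : Fin 3} (h12 : l₁ ≠ l₂) (h13 : l₁ ≠ l₃) (h23 : l₂ ≠ l₃)
    (s t : Bool) (l : Fin 3) (s' : Bool) : (xl l T s', xl l T' !s') ∈ P6 T T' l₁ l₂ l₃ s t := by
  have h : l = l₁ ∨ l = l₂ ∨ l = l₃ := by
    revert l l₁ l₂ l₃
    decide
  unfold P6
  rcases h with rfl | rfl | rfl
  · cases s <;> cases s' <;> simp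
  · cases t <;> cases s' <;> simp
  · cases s' <;> simp

theorem map_w4 {α β : Type} (φ : α → β) (e : Bool) (f : ℕ → α) (j : ℕ) :
    (w4 e f j).map φ = w4 e (fun i => φ (f i)) j := by
  unfold w4
  cases e <;> rfl

theorem code_circles {T : Tri} (hok : T.Ok) (ht : Hts T) {w : List Pass × ℕ} (hw : w ∈ T.code) :
    ∃ c < 3, w.1.IsRotated (w4 (eps T) (nam T) (4 * c)) := by
  obtain ⟨w1, w2, w3⟩ := words hok ht
  simp only [Tri.code, List.mem_cons, List.not_mem_nil, or_false] at hw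
  rcases hw with rfl | rfl | rfl
  · exact ⟨0, by norm_num, w1⟩
  · exact ⟨1, by norm_num, w2⟩
  · exact ⟨2, by norm_num, w3⟩

/-- the ends of the mirror image -/
theorem nam_mir {G : Type} [Group G] {T T' : Tri} {o u : ℕ → G}
    (h : ∀ l s, o (xl l T' !s) = (o (xl l T s))⁻¹ ∧ u (xl l T' !s) = (u (xl l T s))⁻¹) :
    ∀ c < 3, (val o u (nam T' (4 * c)) = (val o u (nam T (4 * c + 2)))⁻¹ ∧
      val o u (nam T' (4 * c + 1)) = (val o u (nam T (4 * c + 3)))⁻¹ ∧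
      val o u (nam T' (4 * c + 2)) = (val o u (nam T (4 * c)))⁻¹ ∧
      val o u (nam T' (4 * c + 3)) = (val o u (nam T (4 * c + 1)))⁻¹) := by
  have a1 := h 0 true
  have a2 := h 0 false
  have b1 := h 1 true
  have b2 := h 1 false
  have c1 := h 2 true
  have c2 := h 2 false
  simp only [xl, Bool.not_true, Bool.not_false, Matrix.cons_val_zero, Matrix.cons_val_one,
    Matrix.cons_val] at a1 a2 b1 b2 c1 c2
  intro c hc
  interval_cases c <;> simp [nam, namL, val, a1, a2, b1, b2, c1, c2]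

/-- all circles of the mirror image -/
theorem mir_circles {G : Type} [Group G] {T T' : Tri} (hok : T.Ok) (ht : Hts T) (hok' : T'.Ok)
    (ht' : Hts T') (he : eps T ≠ eps T') {o u : ℕ → G}
    (h : ∀ l s, o (xl l T' !s) = (o (xl l T s))⁻¹ ∧ u (xl l T' !s) = (u (xl l T s))⁻¹)
    (h1 : ∀ w ∈ T.code, wval o u w.1 = 1) : ∀ w ∈ T'.code, wval o u w.1 = 1 := by
  intro w hw
  obtain ⟨c, hc, hr⟩ := code_circles hok' ht' hw
  unfold wval
  rw [prod_rot hr, map_w4]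
  have he' : eps T' = !eps T := by
    cases h1 : eps T <;> cases h2 : eps T' <;> simp_all
  rw [he']
  obtain ⟨n0, n1, n2, n3⟩ := nam_mir h c hc
  refine mir_word (v := fun i => val o u (nam T i)) n0 n1 n2 n3 ?_
  rw [← map_w4]
  obtain ⟨w1, w2, w3⟩ := words hok ht
  have key : ∀ w : List Pass, w.IsRotated (w4 (eps T) (nam T) (4 * c)) → (∃ l, (w, l) ∈ T.code) →
      (List.map (val o u) (w4 (eps T) (nam T) (4 * c))).prod = 1 := by
    rintro w hw ⟨l, hl⟩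
    rw [← prod_rot hw]
    exact h1 _ hl
  interval_cases c
  · exact key T.wi w1 ⟨T.li, by simp [Tri.code]⟩
  · exact key T.wj w2 ⟨T.lj, by simp [Tri.code]⟩
  · exact key T.wk w3 ⟨T.lk, by simp [Tri.code]⟩

theorem mem_circles {T : Tri} (hok : T.Ok) (ht : Hts T) (s : Bool) :
    (⟨xl 0 T s, true, s⟩ : Pass) ∈ T.wi ∧ (⟨xl 1 T s, true, s⟩ : Pass) ∈ T.wi ∧
    (⟨xl 0 T s, false, s⟩ : Pass) ∈ T.wj ∧ (⟨xl 2 T s, true, s⟩ : Pass) ∈ T.wj ∧
    (⟨xl 1 T s, false, s⟩ : Pass) ∈ T.wk ∧ (⟨xl 2 T s, false, s⟩ : Pass) ∈ T.wk := by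
  obtain ⟨w1, w2, w3⟩ := words hok ht
  rw [w1.mem_iff, w1.mem_iff, w2.mem_iff, w2.mem_iff, w3.mem_iff, w3.mem_iff]
  unfold w4
  cases s <;> cases eps T <;> simp [xl, nam, namL]

theorem mir_core {G : Type} [Group G] {T T' : Tri} (hn : [T.a₁, T.a₂, T.b₁, T.b₂, T.c₁, T.c₂].Nodup)
    (hn' : [T'.a₁, T'.a₂, T'.b₁, T'.b₂, T'.c₁, T'.c₂].Nodup) (hok : T.Ok) (ht : Hts T)
    (hnd : (T.wi ++ (T.wj ++ T.wk)).Nodup)
    (hd : ∀ l l' s s', xl l T s ≠ xl l' T' s') {l₁ l₂ l₃ : Fin 3} (h12 : l₁ ≠ l₂) (h13 : l₁ ≠ l₃)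
    (h23 : l₂ ≠ l₃) (s t : Bool)
    (hq : ∃ q₁ ∈ T.wi, ∃ q₂ ∈ T.wj, ∃ q₃ ∈ T.wk, ∀ q, (q = q₁ ∨ q = q₂ ∨ q = q₃) →
      q.crossing = xl l₁ T s ∨ q.crossing = xl l₂ T t)
    (o₀ u₀ : ℕ → G) (h0 : ∀ q ∈ (P6 T T' l₁ l₂ l₃ s t).drop 2, o₀ q.2 = (o₀ q.1)⁻¹ ∧
      u₀ q.2 = (u₀ q.1)⁻¹) : ∃ α₁ β₁ α₂ β₂ : G,
      (∀ w ∈ T.code, wval (upd o₀ (xl l₁ T s) (xl l₁ T' !s) (xl l₂ T t) (xl l₂ T' !t) α₁ α₂)
        (upd u₀ (xl l₁ T s) (xl l₁ T' !s) (xl l₂ T t) (xl l₂ T' !t) β₁ β₂) w.1 = 1) ∧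
      ∀ l s', (upd o₀ (xl l₁ T s) (xl l₁ T' !s) (xl l₂ T t) (xl l₂ T' !t) α₁ α₂) (xl l T' !s') =
        ((upd o₀ (xl l₁ T s) (xl l₁ T' !s) (xl l₂ T t) (xl l₂ T' !t) α₁ α₂) (xl l T s'))⁻¹ ∧
        (upd u₀ (xl l₁ T s) (xl l₁ T' !s) (xl l₂ T t) (xl l₂ T' !t) β₁ β₂) (xl l T' !s') =
        ((upd u₀ (xl l₁ T s) (xl l₁ T' !s) (xl l₂ T t) (xl l₂ T' !t) β₁ β₂) (xl l T s'))⁻¹ := by
  classical
  obtain ⟨q₁, hq₁, q₂, hq₂, q₃, hq₃, hqq⟩ := hq
  obtain ⟨ψ, e0, e1, e2, e3⟩ := solve3 (val o₀ u₀) hnd hq₁ hq₂ hq₃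
  have i1 := @xl_inj T hn
  have i2 := @xl_inj T' hn'
  have k1 : ∀ l l' s s', (xl l T s = xl l' T' s') = False := fun l l' s s' => by simp [hd]
  have k2 : ∀ l l' s s', (xl l T' s = xl l' T s') = False := fun l l' s s' => by
    simp [(hd l' l s' s).symm]
  refine ⟨ψ ⟨xl l₁ T s, true, s⟩, ψ ⟨xl l₁ T s, false, s⟩, ψ ⟨xl l₂ T t, true, t⟩,
    ψ ⟨xl l₂ T t, false, t⟩, ?_, ?_⟩
  · -- the values of the passages
    have hv : ∀ p ∈ passes T.code, val (upd o₀ (xl l₁ T s) (xl l₁ T' !s) (xl l₂ T t) (xl l₂ T' !t)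
        (ψ ⟨xl l₁ T s, true, s⟩) (ψ ⟨xl l₂ T t, true, t⟩)) (upd u₀ (xl l₁ T s) (xl l₁ T' !s)
        (xl l₂ T t) (xl l₂ T' !t) (ψ ⟨xl l₁ T s, false, s⟩) (ψ ⟨xl l₂ T t, false, t⟩)) p = ψ p := by
      intro p hp
      rw [mem_namL ht] at hp
      obtain ⟨l, s', o, rfl⟩ := mem_xl hp
      by_cases c1 : l = l₁ ∧ s' = s
      · obtain ⟨rfl, rfl⟩ := c1
        cases o <;> simp [val, upd]
      · by_cases c2 : l = l₂ ∧ s' = t
        · obtain ⟨rfl, rfl⟩ := c2
          cases o <;> simp [val, upd, i1, h12.symm, k1]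
        · have n1 : xl l T s' ≠ xl l₁ T s := by rw [Ne, i1]; exact c1
          have n2 : xl l T s' ≠ xl l₂ T t := by rw [Ne, i1]; exact c2
          have hne : ∀ q, (q = q₁ ∨ q = q₂ ∨ q = q₃) → (⟨xl l T s', o, s'⟩ : Pass) ≠ q := by
            intro q h1 h2
            subst h2
            rcases hqq _ h1 with h | h
            · exact n1 h
            · exact n2 h
          rw [e0 _ (hne _ (Or.inl rfl)) (hne _ (Or.inr (Or.inl rfl))) (hne _ (Or.inr (Or.inr rfl)))]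
          cases o <;> simp [val, upd, n1, n2, k1]
    intro w hw
    unfold wval
    have : w.1.map (val (upd o₀ (xl l₁ T s) (xl l₁ T' !s) (xl l₂ T t) (xl l₂ T' !t)
        (ψ ⟨xl l₁ T s, true, s⟩) (ψ ⟨xl l₂ T t, true, t⟩)) (upd u₀ (xl l₁ T s) (xl l₁ T' !s)
        (xl l₂ T t) (xl l₂ T' !t) (ψ ⟨xl l₁ T s, false, s⟩) (ψ ⟨xl l₂ T t, false, t⟩))) =
        w.1.map ψ := List.map_congr_left fun p hp => hv p (mem_passes.2 ⟨w, hw, hp⟩)
    rw [this]
    simp only [Tri.code, List.mem_cons, List.not_mem_nil, or_false] at hw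
    rcases hw with rfl | rfl | rfl
    · exact e1
    · exact e2
    · exact e3
  · intro l s'
    have hmem := P6_all (T := T) (T' := T') h12 h13 h23 s t l s'
    by_cases c1 : l = l₁ ∧ s' = s
    · obtain ⟨rfl, rfl⟩ := c1
      simp [upd, k2]
    · by_cases c2 : l = l₂ ∧ s' = t
      · obtain ⟨rfl, rfl⟩ := c2
        simp [upd, k1, k2, i1, i2, h12.symm]
      · have n1 : xl l T s' ≠ xl l₁ T s := by rw [Ne, i1]; exact c1
        have n2 : xl l T s' ≠ xl l₂ T t := by rw [Ne, i1]; exact c2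
        have n3 : xl l T' (!s') ≠ xl l₁ T' !s := by
          rw [Ne, i2]
          rintro ⟨rfl, h⟩
          exact c1 ⟨rfl, by simpa using h⟩
        have n4 : xl l T' (!s') ≠ xl l₂ T' !t := by
          rw [Ne, i2]
          rintro ⟨rfl, h⟩
          exact c2 ⟨rfl, by simpa using h⟩
        have h5 : (xl l T s', xl l T' !s') ∈ (P6 T T' l₁ l₂ l₃ s t).drop 2 := by
          unfold P6 at hmem ⊢
          rw [List.mem_cons, List.mem_cons] at hmem
          rcases hmem with h | h | h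
          · exact absurd (congrArg Prod.fst h) n1
          · exact absurd (congrArg Prod.fst h) n2
          · exact h
        have h6 := h0 _ h5
        simp only at h6
        simp only [upd, n1, n2, n3, n4, k1, k2, if_false]
        exact h6

theorem P6_form {T T' : Tri} {l₁ l₂ l₃ : Fin 3} {s t : Bool} {q : ℕ × ℕ}
    (h : q ∈ P6 T T' l₁ l₂ l₃ s t) : ∃ l a, q = (xl l T a, xl l T' !a) := by
  unfold P6 at h
  simp only [List.mem_cons, List.not_mem_nil, or_false] at h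
  rcases h with rfl | rfl | rfl | rfl | rfl | rfl
  · exact ⟨_, _, rfl⟩
  · exact ⟨_, _, rfl⟩
  · exact ⟨l₁, !s, by rw [Bool.not_not]⟩
  · exact ⟨l₂, !t, by rw [Bool.not_not]⟩
  · exact ⟨_, _, rfl⟩
  · exact ⟨_, _, rfl⟩

theorem names_of {T : Tri} {X Y : Code} (h : WF (passes (X ++ (T.code ++ Y)))) (ht : Hts T) :
    [T.a₁, T.a₂, T.b₁, T.b₂, T.c₁, T.c₂].Nodup := by
  refine names_nodup ?_ ht
  have h1 := h.2
  rw [passes_append', passes_append', List.map_append, List.map_append] at h1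
  exact (List.nodup_append.1 (List.nodup_append.1 h1).2.1).1

theorem dropMir' {T T' : Tri} {E : Code} (h : Sv (T.code ++ T'.code ++ E) χ m) (hok : T.Ok)
    (ht : Hts T) (hmo : Mono χ T) (hok' : T'.Ok) (ht' : Hts T') (hmo' : Mono χ T')
    (he : eps T ≠ eps T') {l₁ l₂ l₃ : Fin 3} (h12 : l₁ ≠ l₂) (h13 : l₁ ≠ l₃) (h23 : l₂ ≠ l₃)
    (hq : ∀ s t, ∃ q₁ ∈ T.wi, ∃ q₂ ∈ T.wj, ∃ q₃ ∈ T.wk, ∀ q, (q = q₁ ∨ q = q₂ ∨ q = q₃) →
      q.crossing = xl l₁ T s ∨ q.crossing = xl l₂ T t)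
    (h1 : ∃ s, m (xl l₁ T s) = xl l₁ T' !s) (h2 : ∃ t, m (xl l₂ T t) = xl l₂ T' !t) :
    ∃ m', Sv E χ m' := by
  obtain ⟨s, h1⟩ := h1
  obtain ⟨t, h2⟩ := h2
  obtain ⟨σ, hσ⟩ := exists_sign h.wf
  have hn : [T.a₁, T.a₂, T.b₁, T.b₂, T.c₁, T.c₂].Nodup :=
    names_of (X := []) (Y := T'.code ++ E) (by simpa using h.wf) ht
  have hn' : [T'.a₁, T'.a₂, T'.b₁, T'.b₂, T'.c₁, T'.c₂].Nodup :=
    names_of (X := T.code) (Y := E) (by simpa using h.wf) ht'
  have mT : ∀ l s o, (⟨xl l T s, o, s⟩ : Pass) ∈ passes T.code := fun l s o => by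
    rw [mem_namL ht]; exact xl_mem T l s o
  have mT' : ∀ l s o, (⟨xl l T' s, o, s⟩ : Pass) ∈ passes T'.code := fun l s o => by
    rw [mem_namL ht']; exact xl_mem T' l s o
  have hd : ∀ l l' s s', xl l T s ≠ xl l' T' s' := by
    intro l l' s s' e
    have hw := h.wf
    rw [passes_append', passes_append', List.append_assoc] at hw
    refine hw.ne_crossing (mT l s true) (mate_code (mT l s true))
      (q := ⟨xl l' T' s', true, s'⟩) (by simp [mT' l' s' true]) ?_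
    exact e.symm
  have hnd : (T.wi ++ (T.wj ++ T.wk)).Nodup := by
    have h3 := h.wf.nodup
    rw [passes_append', passes_append', List.append_assoc] at h3
    have h4 := (List.nodup_append.1 h3).1
    simpa [Tri.code] using h4
  have hmt : Mt (Cr (passes (T.code ++ T'.code ++ E))) m σ χ := mt_of hσ h.mt h.cm
  have sT : ∀ l s, σ (xl l T s) = s := fun l s =>
    hσ ⟨xl l T s, true, s⟩ (by rw [passes_append', passes_append']; simp [mT l s true])
  have sT' : ∀ l s, σ (xl l T' s) = s := fun l s =>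
    hσ ⟨xl l T' s, true, s⟩ (by rw [passes_append', passes_append']; simp [mT' l s true])
  have cT : ∀ l s, xl l T s ∈ Cr (passes (T.code ++ T'.code ++ E)) := fun l s =>
    ⟨⟨xl l T s, true, s⟩, by rw [passes_append', passes_append']; simp [mT l s true], rfl⟩
  have cT' : ∀ l s, xl l T' s ∈ Cr (passes (T.code ++ T'.code ++ E)) := fun l s =>
    ⟨⟨xl l T' s, true, s⟩, by rw [passes_append', passes_append']; simp [mT' l s true], rfl⟩
  have xT : ∀ l s l' s', χ (xl l T s) = χ (xl l' T s') := fun l s l' s' =>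
    hmo _ (code_names (mT l s true)) _ (code_names (mT l' s' true))
  have xT' : ∀ l s l' s', χ (xl l T' s) = χ (xl l' T' s') := fun l s l' s' =>
    hmo' _ (code_names (mT' l s true)) _ (code_names (mT' l' s' true))
  have hχ : ∀ l s l' s', χ (xl l T' s) = χ (xl l' T s') := by
    intro l a l' a'
    have h3 := (hmt _ (cT l₁ s)).2.2.2
    rw [h1] at h3
    rw [xT' l a l₁ (!s), h3, xT l₁ s l' a']
  obtain ⟨m', g1, g2⟩ := elim_mir (ps := (P6 T T' l₁ l₂ l₃ s t).drop 2) hmt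
    (P6_nodup hn hn' hd h12 h13 h23 s t) (fun c hc => by
      obtain ⟨q, hq, hc⟩ := List.mem_flatMap.1 hc
      obtain ⟨l, a, rfl⟩ := P6_form hq
      simp only [List.mem_cons, List.not_mem_nil, or_false] at hc
      rcases hc with rfl | rfl
      · exact cT l a
      · exact cT' l _) (fun q hq => by
      obtain ⟨l, a, rfl⟩ := P6_form (List.mem_of_mem_drop hq)
      exact ⟨by rw [sT, sT'], hχ _ _ _ _⟩) h1 h2
  have hS : Cr (passes (T.code ++ T'.code ++ E)) \ {c | c ∈ nms ((xl l₁ T s, xl l₁ T' !s) ::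
      (xl l₂ T t, xl l₂ T' !t) :: (P6 T T' l₁ l₂ l₃ s t).drop 2)} = Cr (passes E) := by
    have hw := h.wf
    rw [passes_append'] at hw
    have hnm : ∀ c, c ∈ nms (P6 T T' l₁ l₂ l₃ s t) ↔ ∃ p ∈ passes (T.code ++ T'.code), p.crossing = c := by
      intro c
      constructor
      · intro hc
        obtain ⟨q, hq, hc⟩ := List.mem_flatMap.1 hc
        obtain ⟨l, a, rfl⟩ := P6_form hq
        simp only [List.mem_cons, List.not_mem_nil, or_false] at hc
        rcases hc with rfl | rfl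
        · exact ⟨_, by rw [passes_append']; exact List.mem_append_left _ (mT l a true), rfl⟩
        · exact ⟨_, by rw [passes_append']; exact List.mem_append_right _ (mT' l (!a) true), rfl⟩
      · rintro ⟨p, hp, rfl⟩
        rw [passes_append', List.mem_append, mem_namL ht, mem_namL ht'] at hp
        rcases hp with hp | hp
        · obtain ⟨l, a, o, rfl⟩ := mem_xl hp
          exact List.mem_flatMap.2 ⟨_, P6_all h12 h13 h23 s t l a, by simp⟩
        · obtain ⟨l, a, o, rfl⟩ := mem_xl hp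
          exact List.mem_flatMap.2 ⟨_, P6_all h12 h13 h23 s t l (!a), by simp⟩
    ext c
    constructor
    · rintro ⟨⟨p, hp, rfl⟩, h4⟩
      rw [passes_append'] at hp
      rcases List.mem_append.1 hp with hp | hp
      · exact absurd ((hnm _).2 ⟨p, hp, rfl⟩) h4
      · exact ⟨p, hp, rfl⟩
    · rintro ⟨p, hp, rfl⟩
      refine ⟨⟨p, by rw [passes_append']; simp [hp], rfl⟩, fun h4 => ?_⟩
      obtain ⟨q, hq, h5⟩ := (hnm _).1 h4
      refine hw.ne_crossing hq ?_ hp h5.symm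
      rw [passes_append', List.mem_append] at hq ⊢
      rcases hq with hq | hq
      · exact Or.inl (mate_code hq)
      · exact Or.inr (mate_code hq)
  rw [hS] at g1 g2
  refine remove_gen h.wf (fun p hp => ?_) hσ h.nv ⟨m', g1, fun G _ o u hv => ?_⟩
  · rw [passes_append', List.mem_append] at hp ⊢
    rcases hp with hp | hp
    · exact Or.inl (mate_code hp)
    · exact Or.inr (mate_code hp)
  obtain ⟨o₀, u₀, k1, k2, k3⟩ := g2 G o u hv
  obtain ⟨α₁, β₁, α₂, β₂, k4, k5⟩ := mir_core hn hn' hok ht hnd hd h12 h13 h23 s t (hq s t) o₀ u₀ k3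
  refine ⟨_, _, k1 α₁ β₁ α₂ β₂, fun c hc => ?_, fun w hw => ?_⟩
  · rw [← hS] at hc
    have hc' : c ∉ nms ((xl l₁ T s, xl l₁ T' !s) :: (xl l₂ T t, xl l₂ T' !t) ::
      (P6 T T' l₁ l₂ l₃ s t).drop 2) := hc.2
    have h5 := k2 c hc'
    have e : nms ((xl l₁ T s, xl l₁ T' !s) :: (xl l₂ T t, xl l₂ T' !t) ::
      (P6 T T' l₁ l₂ l₃ s t).drop 2) = (xl l₁ T s) :: (xl l₁ T' !s) :: (xl l₂ T t) :: (xl l₂ T' !t) ::
      nms ((P6 T T' l₁ l₂ l₃ s t).drop 2) := rfl
    rw [e] at hc'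
    simp only [List.mem_cons, not_or] at hc'
    obtain ⟨a1, a2, a3, a4, -⟩ := hc'
    simp only [upd, a1, a2, a3, a4, if_false]
    exact h5
  · rcases List.mem_append.1 hw with hw | hw
    · exact k4 w hw
    · exact mir_circles hok ht hok' ht' he k5 k4 w hw

/-- two triple points which cancel one another can be removed -/
theorem dropMir {T T' : Tri} {E : Code} (h : Sv (T.code ++ T'.code ++ E) χ m) (hok : T.Ok)
    (ht : Hts T) (hmo : Mono χ T) (hok' : T'.Ok) (ht' : Hts T') (hmo' : Mono χ T')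
    (hm : Mir T T' m) : ∃ m', Sv E χ m' := by
  have hc := mem_circles hok ht
  obtain ⟨he, h1 | h1 | h1⟩ := hm
  · refine dropMir' (l₁ := 0) (l₂ := 1) (l₃ := 2) h hok ht hmo hok' ht' hmo' he (by decide)
      (by decide) (by decide) (fun s t => ?_) h1.1 h1.2
    refine ⟨_, (hc s).1, _, (hc s).2.2.1, _, (hc t).2.2.2.2.1, ?_⟩
    rintro q (rfl | rfl | rfl) <;> simp
  · refine dropMir' (l₁ := 0) (l₂ := 2) (l₃ := 1) h hok ht hmo hok' ht' hmo' he (by decide)
      (by decide) (by decide) (fun s t => ?_) h1.1 h1.2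
    refine ⟨_, (hc s).1, _, (hc s).2.2.1, _, (hc t).2.2.2.2.2, ?_⟩
    rintro q (rfl | rfl | rfl) <;> simp
  · refine dropMir' (l₁ := 1) (l₂ := 2) (l₃ := 0) h hok ht hmo hok' ht' hmo' he (by decide)
      (by decide) (by decide) (fun s t => ?_) h1.1 h1.2
    refine ⟨_, (hc s).2.1, _, (hc t).2.2.2.1, _, (hc s).2.2.2.2.1, ?_⟩
    rintro q (rfl | rfl | rfl) <;> simp

end Pool.Agent.W5h73.TT
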