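import Pool.Agent.Y220.TP.Cut

/-!
# Planar families of words

`X` is a set of darts, `σ` leads to the other end of an edge, a family is a list of cyclic words of
darts with labels. A family is planar if for every assignment of elements of a group to the darts
(opposite ends having inverse elements) the values of the words with one label have
conjugates with trivial product.
-/

namespace Pool.Agent.W5h73.TT

open Pool.Agent.Y468.SR
open Pool.Agent.Y220.TP (Wr emb tt twist_eq conj_emb mul_a mul_b mul_e one_a one_b one_e pc_map)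

variable {X : Type}

/-- families of words -/
abbrev Fm (X : Type) := List (List X × ℕ)

/-- the darts -/
def dts (E : Fm X) : List X := E.flatMap Prod.fst

@[simp] theorem dts_nil : dts ([] : Fm X) = [] := rfl
@[simp] theorem dts_cons (C : List X × ℕ) (E : Fm X) : dts (C :: E) = C.1 ++ dts E := by
  simp [dts]
@[simp] theorem dts_append (E E' : Fm X) : dts (E ++ E') = dts E ++ dts E' := by simp [dts]

theorem mem_dts {E : Fm X} {x : X} : x ∈ dts E ↔ ∃ C ∈ E, x ∈ C.1 := by simp [dts]

/-- values of the words -/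
def fv {G : Type} [Group G] (φ : X → G) (E : Fm X) : List (G × ℕ) :=
  E.map fun C => ((C.1.map φ).prod, C.2)

/-- the planarity condition -/
def NF (σ : X → X) (E : Fm X) : Prop :=
  ∀ (G : Type) [Group G] (φ : X → G), (∀ x ∈ dts E, φ (σ x) = (φ x)⁻¹) → ∀ b, CN (bv (fv φ E) b)

/-- `σ` is an involution of the darts without fixed points -/
structure Iv (σ : X → X) (E : Fm X) : Prop where
  nd : (dts E).Nodup
  cl : ∀ x ∈ dts E, σ x ∈ dts E
  iv : ∀ x ∈ dts E, σ (σ x) = x
  ne : ∀ x ∈ dts E, σ x ≠ x

variable {σ : X → X} {E : Fm X}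

section basic
variable {G : Type} [Group G]

theorem fv_cons (φ : X → G) (C : List X × ℕ) (E : Fm X) :
    fv φ (C :: E) = ((C.1.map φ).prod, C.2) :: fv φ E := rfl

theorem fv_append (φ : X → G) (E E' : Fm X) : fv φ (E ++ E') = fv φ E ++ fv φ E' := by
  simp [fv]

theorem fv_congr {φ ψ : X → G} {E : Fm X} (h : ∀ x ∈ dts E, φ x = ψ x) : fv φ E = fv ψ E := by
  unfold fv
  refine List.map_congr_left fun C hC => ?_
  rw [List.map_congr_left fun x hx => h x (mem_dts.2 ⟨C, hC, hx⟩)]

theorem bv_fv_map {H : Type} [Group H] (φ : X → G) (ψ : X → H) (θ : G → H) (E : Fm X) (k : ℕ)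
    (h : ∀ C ∈ E, (C.1.map ψ).prod = θ (C.1.map φ).prod) :
    bv (fv ψ E) k = (bv (fv φ E) k).map θ := by
  induction E with
  | nil => rfl
  | cons C E ih =>
    rw [fv_cons, fv_cons, bv_cons, bv_cons, ih fun C' h' => h C' (List.mem_cons_of_mem _ h'),
      h C (by simp)]
    by_cases hk : C.2 = k <;> simp [hk]

end basic

theorem NF.perm {E E' : Fm X} (h : E.Perm E') (hE : NF σ E) : NF σ E' := by
  intro G _ φ hφ b
  have hd : (dts E).Perm (dts E') := h.flatMap_right _
  refine (hE G φ (fun x hx => hφ x (hd.subset hx)) b).perm (bv_perm (h.map _) b)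

theorem Iv.perm {E E' : Fm X} (h : E.Perm E') (hE : Iv σ E) : Iv σ E' := by
  have hd : (dts E).Perm (dts E') := h.flatMap_right _
  exact ⟨hd.nodup_iff.1 hE.nd, fun x hx => hd.subset (hE.cl x (hd.symm.subset hx)),
    fun x hx => hE.iv x (hd.symm.subset hx), fun x hx => hE.ne x (hd.symm.subset hx)⟩

theorem NF.rotate {u v : List X} {b : ℕ} {R : Fm X} (hE : NF σ ((u ++ v, b) :: R)) :
    NF σ ((v ++ u, b) :: R) := by
  intro G _ φ hφ k
  have h := hE G φ (fun x hx => hφ x (by
    simp only [dts_cons, List.mem_append] at hx ⊢; tauto)) k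
  rw [fv_cons, bv_cons] at h ⊢
  simp only [List.map_append, List.prod_append] at h ⊢
  split_ifs at h ⊢ with hk
  · have e := h.conj_head (v.map φ).prod
    simpa [mul_assoc] using e
  · exact h

theorem Iv.rotate {u v : List X} {b : ℕ} {R : Fm X} (hE : Iv σ ((u ++ v, b) :: R)) :
    Iv σ ((v ++ u, b) :: R) := by
  have hd : (dts ((u ++ v, b) :: R)).Perm (dts ((v ++ u, b) :: R)) := by
    simp only [dts_cons]
    exact List.Perm.append_right _ List.perm_append_comm
  exact ⟨hd.nodup_iff.1 hE.nd, fun x hx => hd.subset (hE.cl x (hd.symm.subset hx)),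
    fun x hx => hE.iv x (hd.symm.subset hx), fun x hx => hE.ne x (hd.symm.subset hx)⟩

/-- a word is replaced by a cyclic permutation -/
theorem NF.rot {w w' : List X} {b : ℕ} {R : Fm X} (h : w.IsRotated w') (hE : NF σ ((w, b) :: R)) :
    NF σ ((w', b) :: R) := by
  obtain ⟨n, rfl⟩ := h
  rw [List.rotate_eq_drop_append_take_mod]
  refine NF.rotate ?_
  rwa [List.take_append_drop]

theorem Iv.rot {w w' : List X} {b : ℕ} {R : Fm X} (h : w.IsRotated w') (hE : Iv σ ((w, b) :: R)) :
    Iv σ ((w', b) :: R) := by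
  obtain ⟨n, rfl⟩ := h
  rw [List.rotate_eq_drop_append_take_mod]
  refine Iv.rotate ?_
  rwa [List.take_append_drop]

/-! ### Labels -/

/-- the dart belongs to a word with the given label -/
def LB (E : Fm X) (x : X) (b : ℕ) : Prop := ∃ C ∈ E, x ∈ C.1 ∧ C.2 = b

theorem nodup_unique {E : Fm X} (h : (dts E).Nodup) {C C' : List X × ℕ} (hC : C ∈ E) (hC' : C' ∈ E)
    {x : X} (hx : x ∈ C.1) (hx' : x ∈ C'.1) : C = C' := by
  induction E with
  | nil => simp at hC
  | cons A E ih =>
    rw [dts_cons, List.nodup_append] at h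
    rcases List.mem_cons.1 hC with h1 | h1
    · rcases List.mem_cons.1 hC' with h2 | h2
      · rw [h1, h2]
      · subst h1
        exact absurd rfl (h.2.2 x hx x (mem_dts.2 ⟨C', h2, hx'⟩))
    · rcases List.mem_cons.1 hC' with h2 | h2
      · subst h2
        exact absurd rfl (h.2.2 x hx' x (mem_dts.2 ⟨C, h1, hx⟩))
      · exact ih h.2.1 h1 h2

theorem LB.unique {E : Fm X} (h : (dts E).Nodup) {x : X} {b b' : ℕ} (h1 : LB E x b)
    (h2 : LB E x b') : b = b' := by
  obtain ⟨C, hC, hx, rfl⟩ := h1
  obtain ⟨C', hC', hx', rfl⟩ := h2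
  rw [nodup_unique h hC hC' hx hx']

theorem LB.mem {E : Fm X} {x : X} {b : ℕ} (h : LB E x b) : x ∈ dts E := by
  obtain ⟨C, hC, hx, -⟩ := h
  exact mem_dts.2 ⟨C, hC, hx⟩

theorem pc_comm {G : Type} [CommGroup G] {l : List G} {r : G} (h : PC l r) : r = l.prod := by
  induction h with
  | nil => rfl
  | cons x g r l _ ih => rw [ih, List.prod_cons, mul_comm g x, mul_assoc x, mul_inv_cancel, mul_one]

theorem cn_comm {G : Type} [CommGroup G] {l : List G} (h : CN l) : l.prod = 1 := (pc_comm h).symm

theorem bv_fv_nil {G : Type} [Group G] (φ : X → G) {E : Fm X} {b : ℕ} (h : ∀ C ∈ E, C.2 ≠ b) :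
    bv (fv φ E) b = [] := by
  induction E with
  | nil => rfl
  | cons C E ih =>
    rw [fv_cons, bv_cons, if_neg (h C (by simp)), ih fun C hC => h C (by simp [hC])]

theorem bv_fv_prod {G : Type} [CommGroup G] (φ : X → G) (E : Fm X) (b : ℕ) :
    (bv (fv φ E) b).prod = ((dts (E.filter fun C => C.2 = b)).map φ).prod := by
  induction E with
  | nil => rfl
  | cons C E ih =>
    rw [fv_cons, bv_cons, List.filter_cons]
    by_cases h : C.2 = b
    · simp [h, ih]
    · simp [h, ih]

theorem prod_pair {G : Type} [CommGroup G] [DecidableEq X] {x y : X} (hxy : x ≠ y) (a : G)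
    (L : List X) (hL : L.Nodup) : (L.map fun z => if z = x then a else if z = y then a⁻¹ else 1).prod =
      (if x ∈ L then a else 1) * (if y ∈ L then a⁻¹ else 1) := by
  induction L with
  | nil => simp
  | cons z L ih =>
    rw [List.nodup_cons] at hL
    rw [List.map_cons, List.prod_cons, ih hL.2]
    by_cases h1 : z = x
    · subst h1
      simp [hL.1, Ne.symm hxy]
    · by_cases h2 : z = y
      · subst h2
        simp [hL.1, Ne.symm h1, h1, mul_comm]
      · simp [Ne.symm h1, Ne.symm h2, h1, h2]

theorem mem_dts_filter {E : Fm X} {x : X} {b : ℕ} :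
    x ∈ dts (E.filter fun C => C.2 = b) ↔ LB E x b := by
  unfold LB
  rw [mem_dts]
  constructor
  · rintro ⟨C, hC, hx⟩
    rw [List.mem_filter] at hC
    exact ⟨C, hC.1, hx, by simpa using hC.2⟩
  · rintro ⟨C, hC, hx, h⟩
    exact ⟨C, List.mem_filter.2 ⟨hC, by simpa using h⟩, hx⟩

theorem dts_filter_nodup {E : Fm X} (h : (dts E).Nodup) (q : List X × ℕ → Bool) :
    (dts (E.filter q)).Nodup := by
  refine h.sublist ?_
  unfold dts
  exact List.Sublist.flatMap List.filter_sublist _

/-- both ends of an edge belong to words with one label -/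
theorem label (hI : Iv σ E) (hE : NF σ E) {x : X} {b : ℕ} (h : LB E x b) : LB E (σ x) b := by
  classical
  have hx := h.mem
  have hy := hI.cl x hx
  have hxy : x ≠ σ x := (hI.ne x hx).symm
  by_contra hc
  have h1 := hE (Multiplicative ℤ) (fun z => if z = x then Multiplicative.ofAdd 1 else
    if z = σ x then (Multiplicative.ofAdd 1)⁻¹ else 1) (fun z hz => ?_) b
  · have h2 := cn_comm h1
    rw [bv_fv_prod, prod_pair hxy _ _ (dts_filter_nodup hI.nd _)] at h2
    simp only [mem_dts_filter] at h2
    rw [if_pos h, if_neg hc, mul_one] at h2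
    exact absurd h2 (by decide)
  · by_cases k1 : z = x
    · subst k1
      simp [Ne.symm hxy]
    · by_cases k2 : z = σ x
      · subst k2
        simp [hI.iv x hx, Ne.symm hxy]
      · have k3 : σ z ≠ x := fun h => k2 (by rw [← h, hI.iv z hz])
        have k4 : σ z ≠ σ x := fun h => k1 (by rw [← hI.iv z hz, h, hI.iv x hx])
        simp [k1, k2, k3, k4]

/-! ### Merging two words -/

theorem Iv.merge {x y : X} {u v : List X} {b c : ℕ} {R : Fm X} (hxy : σ x = y)
    (hI : Iv σ ((x :: u, b) :: (y :: v, c) :: R)) : Iv σ ((v ++ u, b) :: R) := by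
  have hnd := hI.nd
  have hd : (dts ((x :: u, b) :: (y :: v, c) :: R)).Perm (x :: y :: dts ((v ++ u, b) :: R)) := by
    simp only [dts_cons, List.cons_append]
    refine List.Perm.cons x ?_
    refine List.perm_middle.trans (List.Perm.cons y ?_)
    rw [← List.append_assoc]
    exact List.Perm.append_right _ List.perm_append_comm
  have hmem : ∀ z ∈ dts ((v ++ u, b) :: R), z ∈ dts ((x :: u, b) :: (y :: v, c) :: R) :=
    fun z hz => hd.symm.subset (List.mem_cons_of_mem _ (List.mem_cons_of_mem _ hz))
  have hnd' := hd.nodup_iff.1 hnd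
  rw [List.nodup_cons, List.nodup_cons] at hnd'
  have hx : x ∈ dts ((x :: u, b) :: (y :: v, c) :: R) := by simp
  refine ⟨hnd'.2.2, fun z hz => ?_, fun z hz => hI.iv z (hmem z hz), fun z hz => hI.ne z (hmem z hz)⟩
  have h1 := hd.subset (hI.cl z (hmem z hz))
  rcases List.mem_cons.1 h1 with h1 | h1
  · exfalso
    have : z = y := by rw [← hxy, ← h1, hI.iv z (hmem z hz)]
    rw [this] at hz
    exact hnd'.2.1 hz
  · rcases List.mem_cons.1 h1 with h1 | h1
    · exfalso
      have : z = x := by rw [← hI.iv z (hmem z hz), h1, ← hxy, hI.iv x hx]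
      rw [this] at hz
      exact hnd'.1 (by simp only [List.mem_cons]; exact Or.inr hz)
    · exact h1

theorem NF.merge {x y : X} {u v : List X} {b : ℕ} {R : Fm X} (hxy : σ x = y)
    (hI : Iv σ ((x :: u, b) :: (y :: v, b) :: R)) (hE : NF σ ((x :: u, b) :: (y :: v, b) :: R)) :
    NF σ ((v ++ u, b) :: R) := by
  classical
  have hI' := hI.merge hxy
  intro G _ φ hφ k
  have hnd := hI.nd
  have hx : x ∈ dts ((x :: u, b) :: (y :: v, b) :: R) := by simp
  have hy : y ∈ dts ((x :: u, b) :: (y :: v, b) :: R) := by simp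
  have hne : x ≠ y := by rw [← hxy]; exact (hI.ne x hx).symm
  have hyx : σ y = x := by rw [← hxy, hI.iv x hx]
  have hmem : ∀ z, z ∈ dts ((v ++ u, b) :: R) ↔
      (z ∈ dts ((x :: u, b) :: (y :: v, b) :: R) ∧ z ≠ x ∧ z ≠ y) := by
    intro z
    simp only [dts_cons, List.cons_append, List.mem_cons, List.mem_append] at hnd ⊢
    rw [List.nodup_cons, List.nodup_append, List.nodup_cons] at hnd
    simp only [List.mem_append, List.mem_cons, not_or] at hnd
    obtain ⟨⟨n1, n2, n3, n4⟩, n5, ⟨⟨n6, n7⟩, n8⟩, n9⟩ := hnd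
    constructor
    · rintro ((h | h) | h)
      · exact ⟨by tauto, by rintro rfl; exact n3 h, by rintro rfl; exact n6 h⟩
      · exact ⟨by tauto, by rintro rfl; exact n1 h, by rintro rfl; exact n9 _ h _ (by simp) rfl⟩
      · exact ⟨by tauto, by rintro rfl; exact n4 h, by rintro rfl; exact n7 h⟩
    · rintro ⟨h1, h2, h3⟩
      tauto
  set V := (v.map φ).prod with hV
  have h := hE G (fun z => if z = x then V else if z = y then V⁻¹ else φ z) (fun z hz => ?_) k
  · have e1 : ∀ w : List X, (∀ z ∈ w, z ≠ x ∧ z ≠ y) →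
        (w.map fun z => if z = x then V else if z = y then V⁻¹ else φ z) = w.map φ := by
      intro w hw
      refine List.map_congr_left fun z hz => ?_
      rw [if_neg (hw z hz).1, if_neg (hw z hz).2]
    have e2 : fv (fun z => if z = x then V else if z = y then V⁻¹ else φ z) R = fv φ R :=
      fv_congr fun z hz => by
        have := (hmem z).1 (by simp [hz])
        rw [if_neg this.2.1, if_neg this.2.2]
    rw [fv_cons, fv_cons, e2] at h
    simp only [List.map_cons, List.prod_cons] at h
    rw [e1 u fun z hz => ((hmem z).1 (by simp [hz])).2,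
      e1 v fun z hz => ((hmem z).1 (by simp [hz])).2] at h
    rw [if_pos trivial, if_neg (Ne.symm hne), if_pos trivial] at h
    rw [fv_cons]
    simp only [List.map_append, List.prod_append]
    rw [bv_cons] at h ⊢
    rw [bv_cons] at h
    by_cases hk : b = k
    · simp only [hk, if_true] at h ⊢
      rw [← hV, inv_mul_cancel] at h
      exact CN.one_cons.1 (h.perm (List.Perm.swap _ _ _))
    · simp only [hk, if_false] at h ⊢
      exact h
  · by_cases k1 : z = x
    · subst k1
      simp [hxy, Ne.symm hne]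
    · by_cases k2 : z = y
      · subst k2
        simp [hyx, Ne.symm hne]
      · have k3 : σ z ≠ x := fun h => k2 (by rw [← hxy, ← h, hI.iv z hz])
        have k4 : σ z ≠ y := fun h => k1 (by rw [← hI.iv z hz, h, hyx])
        simp only [k1, k2, k3, k4, if_false]
        exact hφ z ((hmem z).2 ⟨hz, k1, k2⟩)

/-! ### Cutting a word -/

theorem fv_split {F : Type} [Group F] {b b' : ℕ} (hbb : b ≠ b') (φ : X → F) (S : Fm X)
    (hS : ∀ C ∈ S, C.2 ≠ b') : ∀ r : Wr F,
    PC ((bv (fv φ S) b).map emb) r → r.e = false ∧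
      ∃ S' : Fm X, List.Forall₂ (fun C' C => C'.1 = C.1 ∧ (C'.2 = C.2 ∨ (C.2 = b ∧ C'.2 = b'))) S' S ∧
        PC (bv (fv φ S') b) r.a ∧ PC (bv (fv φ S') b') r.b := by
  induction S with
  | nil =>
    intro r h
    simp only [fv, List.map_nil, bv_nil] at h
    cases h
    exact ⟨rfl, [], List.Forall₂.nil, PC.nil, PC.nil⟩
  | cons C S ih =>
    intro r h
    have ih' := ih fun C' hC' => hS C' (List.mem_cons_of_mem _ hC')
    have hC := hS C (by simp)
    by_cases hb : C.2 = b
    · rw [fv_cons, bv_cons, if_pos hb, List.map_cons] at h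
      generalize hl : (bv (fv φ S) b).map emb = l at h ih'
      cases h with
      | cons _ g r' _ h =>
        obtain ⟨he, S', h1, h2, h3⟩ := ih' r' h
        rw [conj_emb]
        by_cases hg : g.e = true
        · simp only [if_pos hg]
          refine ⟨by simp [mul_e, he], (C.1, b') :: S', List.Forall₂.cons ⟨rfl, Or.inr ⟨hb, rfl⟩⟩ h1,
            ?_, ?_⟩
          · simp only [fv_cons, bv_cons, if_neg hbb.symm, mul_a]
            simpa using h2
          · simp only [fv_cons, bv_cons, if_true, mul_b]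
            simpa using PC.cons (C.1.map φ).prod g.b r'.b _ h3
        · simp only [if_neg hg]
          refine ⟨by simp [mul_e, he], (C.1, b) :: S', List.Forall₂.cons ⟨rfl, Or.inl hb.symm⟩ h1,
            ?_, ?_⟩
          · simp only [fv_cons, bv_cons, if_true, mul_a]
            simpa using PC.cons (C.1.map φ).prod g.a r'.a _ h2
          · simp only [fv_cons, bv_cons, if_neg hbb, mul_b]
            simpa using h3
    · rw [fv_cons, bv_cons, if_neg hb] at h
      obtain ⟨he, S', h1, h2, h3⟩ := ih' r h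
      refine ⟨he, C :: S', List.Forall₂.cons ⟨rfl, Or.inl rfl⟩ h1, ?_, ?_⟩
      · simp only [fv_cons, bv_cons, if_neg hb]
        exact h2
      · simp only [fv_cons, bv_cons, if_neg hC]
        exact h3

/-- the words are the same and some words with label `b` get the label `b'` -/
abbrev Spl (b b' : ℕ) (S' S : Fm X) : Prop :=
  List.Forall₂ (fun C' C => C'.1 = C.1 ∧ (C'.2 = C.2 ∨ (C.2 = b ∧ C'.2 = b'))) S' S

theorem spl_dts {b b' : ℕ} {S' S : Fm X} (h : Spl b b' S' S) : dts S' = dts S := by
  induction h with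
  | nil => rfl
  | cons h _ ih => rw [dts_cons, dts_cons, ih, h.1]

theorem spl_bv {b b' : ℕ} {S' S : Fm X} (h : Spl b b' S' S) {G : Type} [Group G] (φ : X → G) {k : ℕ}
    (hk : k ≠ b) (hk' : k ≠ b') : bv (fv φ S') k = bv (fv φ S) k := by
  induction h with
  | nil => rfl
  | @cons C' C S' S h _ ih =>
    rw [fv_cons, fv_cons, bv_cons, bv_cons, ih, h.1]
    rcases h.2 with h2 | ⟨h2, h3⟩
    · simp only [h2]
    · simp only [h2, h3, if_neg hk.symm, if_neg hk'.symm]

open Classical in
/-- the universal values -/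
noncomputable def uv (σ : X → X) (L : List X) (z : X) : FreeGroup X :=
  if L.idxOf z < L.idxOf (σ z) then FreeGroup.of z else (FreeGroup.of (σ z))⁻¹

theorem uv_inv (hI : Iv σ E) {z : X} (hz : z ∈ dts E) :
    uv σ (dts E) (σ z) = (uv σ (dts E) z)⁻¹ := by
  classical
  have h1 : (dts E).idxOf z ≠ (dts E).idxOf (σ z) := by
    intro h
    have := (List.idxOf_inj (l := dts E) hz).1 h
    exact hI.ne z hz this.symm
  unfold uv
  rw [hI.iv z hz]
  by_cases h2 : (dts E).idxOf z < (dts E).idxOf (σ z)
  · rw [if_neg (by omega), if_pos h2]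
  · rw [if_pos (by omega), if_neg h2, inv_inv]

theorem uv_lift (hI : Iv σ E) {G : Type} [Group G] {φ : X → G}
    (hφ : ∀ x ∈ dts E, φ (σ x) = (φ x)⁻¹) {z : X} (hz : z ∈ dts E) :
    FreeGroup.lift φ (uv σ (dts E) z) = φ z := by
  unfold uv
  split_ifs
  · simp
  · simp [hφ z hz]

theorem Iv.cut {x y : X} {u v : List X} {b b' : ℕ} {R R' : Fm X} (hxy : σ x = y)
    (hI : Iv σ ((x :: (u ++ y :: v), b) :: R)) (hR : dts R' = dts R) :
    Iv σ ((v, b) :: (u, b') :: R') := by
  have hd : (dts ((x :: (u ++ y :: v), b) :: R)).Perm (x :: y :: dts ((v, b) :: (u, b') :: R')) := by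
    simp only [dts_cons, hR, List.cons_append]
    refine List.Perm.cons x ?_
    have h1 : (u ++ y :: v ++ dts R).Perm (y :: (u ++ v ++ dts R)) := by
      simp only [List.append_assoc, List.cons_append]
      exact List.perm_middle
    refine h1.trans (List.Perm.cons y ?_)
    rw [← List.append_assoc]
    exact List.Perm.append_right _ List.perm_append_comm
  have hmem : ∀ z ∈ dts ((v, b) :: (u, b') :: R'), z ∈ dts ((x :: (u ++ y :: v), b) :: R) :=
    fun z hz => hd.symm.subset (List.mem_cons_of_mem _ (List.mem_cons_of_mem _ hz))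
  have hnd' := hd.nodup_iff.1 hI.nd
  rw [List.nodup_cons, List.nodup_cons] at hnd'
  have hx : x ∈ dts ((x :: (u ++ y :: v), b) :: R) := by simp
  refine ⟨hnd'.2.2, fun z hz => ?_, fun z hz => hI.iv z (hmem z hz), fun z hz => hI.ne z (hmem z hz)⟩
  have h1 := hd.subset (hI.cl z (hmem z hz))
  rcases List.mem_cons.1 h1 with h1 | h1
  · exfalso
    have : z = y := by rw [← hxy, ← h1, hI.iv z (hmem z hz)]
    rw [this] at hz
    exact hnd'.2.1 hz
  · rcases List.mem_cons.1 h1 with h1 | h1
    · exfalso
      have : z = x := by rw [← hI.iv z (hmem z hz), h1, ← hxy, hI.iv x hx]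
      rw [this] at hz
      exact hnd'.1 (by simp only [List.mem_cons]; exact Or.inr hz)
    · exact h1

theorem cut {x y : X} {u v : List X} {b b' : ℕ} {R : Fm X} (hxy : σ x = y) (hbb : b ≠ b')
    (hR : ∀ C ∈ R, C.2 ≠ b') (hI : Iv σ ((x :: (u ++ y :: v), b) :: R))
    (hE : NF σ ((x :: (u ++ y :: v), b) :: R)) :
    ∃ R', Spl b b' R' R ∧ NF σ ((v, b) :: (u, b') :: R') ∧ Iv σ ((v, b) :: (u, b') :: R') := by
  classical
  set E₀ : Fm X := (x :: (u ++ y :: v), b) :: R with hE₀
  have hx : x ∈ dts E₀ := by simp [hE₀]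
  have hy : y ∈ dts E₀ := by simp [hE₀]
  have hne : x ≠ y := by rw [← hxy]; exact (hI.ne x hx).symm
  have hyx : σ y = x := by rw [← hxy, hI.iv x hx]
  set φ₀ := uv σ (dts E₀) with hφ₀
  have hI1 : Iv σ ((v, b) :: (u, b') :: R) := hI.cut hxy rfl
  have hmem : ∀ z, z ∈ dts ((v, b) :: (u, b') :: R) → z ∈ dts E₀ ∧ z ≠ x ∧ z ≠ y := by
    intro z hz
    have hd : (dts E₀).Perm (x :: y :: dts ((v, b) :: (u, b') :: R)) := by
      simp only [hE₀, dts_cons, List.cons_append]
      refine List.Perm.cons x ?_
      have h1 : (u ++ y :: v ++ dts R).Perm (y :: (u ++ v ++ dts R)) := by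
        simp only [List.append_assoc, List.cons_append]
        exact List.perm_middle
      refine h1.trans (List.Perm.cons y ?_)
      rw [← List.append_assoc]
      exact List.Perm.append_right _ List.perm_append_comm
    have hnd' := hd.nodup_iff.1 hI.nd
    rw [List.nodup_cons, List.nodup_cons] at hnd'
    refine ⟨hd.symm.subset (List.mem_cons_of_mem _ (List.mem_cons_of_mem _ hz)), ?_, ?_⟩
    · rintro rfl
      exact hnd'.1 (List.mem_cons_of_mem _ hz)
    · rintro rfl
      exact hnd'.2.1 hz
  have h3 := hE (Wr (FreeGroup X)) (fun z => if z = x then tt _ else if z = y then (tt _)⁻¹ else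
    emb (φ₀ z)) (fun z hz => ?_) b
  · have hval : ∀ w : List X, (∀ z ∈ w, z ∈ dts ((v, b) :: (u, b') :: R)) →
        (w.map fun z => if z = x then tt (FreeGroup X) else if z = y then (tt _)⁻¹ else
          emb (φ₀ z)).prod = emb (w.map φ₀).prod := by
      intro w hw
      rw [map_list_prod, List.map_map]
      congr 1
      refine List.map_congr_left fun z hz => ?_
      have := hmem z (hw z hz)
      simp only [Function.comp]
      rw [if_neg this.2.1, if_neg this.2.2]
    rw [fv_cons, bv_cons, if_pos rfl] at h3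
    simp only [List.map_cons, List.prod_cons, List.map_append, List.prod_append] at h3
    rw [hval u fun z hz => by simp [hz], hval v fun z hz => by simp [hz], if_pos trivial,
      if_neg (Ne.symm hne), if_pos trivial, ← mul_assoc, ← mul_assoc, twist_eq] at h3
    have e4 := bv_fv_map φ₀ (fun z => if z = x then tt (FreeGroup X) else if z = y then (tt _)⁻¹
      else emb (φ₀ z)) emb R b fun C hC => hval C.1 fun z hz => by
        simp only [dts_cons, List.mem_append]
        exact Or.inr (Or.inr (mem_dts.2 ⟨C, hC, hz⟩))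
    rw [e4] at h3
    obtain ⟨r, h4, h5⟩ := h3.head
    obtain ⟨he, R', h6, h7, h8⟩ := fv_split hbb φ₀ R hR r h4
    have h9 : (v.map φ₀).prod * r.a = 1 := by
      have := congrArg Wr.a h5
      simpa [mul_a, one_a] using this
    have h10 : (u.map φ₀).prod * r.b = 1 := by
      have := congrArg Wr.b h5
      simpa [mul_b, one_b] using this
    have c1 : CN ((v.map φ₀).prod :: bv (fv φ₀ R') b) := CN.of_head h7 h9
    have c2 : CN ((u.map φ₀).prod :: bv (fv φ₀ R') b') := CN.of_head h8 h10
    have hdR := spl_dts h6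
    refine ⟨R', h6, ?_, hI.cut hxy hdR⟩
    intro G _ φ hφ k
    have hφ' : ∀ z ∈ dts ((v, b) :: (u, b') :: R), φ (σ z) = (φ z)⁻¹ := by
      intro z hz
      refine hφ z ?_
      simp only [dts_cons, hdR] at hz ⊢
      exact hz
    -- extension to `x`, `y` by 1
    set ψ : X → G := fun z => if z = x then 1 else if z = y then 1 else φ z with hψ
    have hψ1 : ∀ z ∈ dts E₀, ψ (σ z) = (ψ z)⁻¹ := by
      intro z hz
      by_cases k1 : z = x
      · subst k1
        simp [hψ, hxy]
      · by_cases k2 : z = y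
        · subst k2
          simp [hψ, hyx]
        · have k3 : σ z ≠ x := fun h => k2 (by rw [← hxy, ← h, hI.iv z hz])
          have k4 : σ z ≠ y := fun h => k1 (by rw [← hI.iv z hz, h, hyx])
          simp only [hψ, k1, k2, k3, k4, if_false]
          refine hφ' z ?_
          simp only [hE₀, dts_cons, List.mem_append, List.mem_cons, List.cons_append] at hz ⊢
          tauto
    have hlift : ∀ w : List X, (∀ z ∈ w, z ∈ dts ((v, b) :: (u, b') :: R)) →
        (w.map φ).prod = FreeGroup.lift ψ (w.map φ₀).prod := by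
      intro w hw
      rw [map_list_prod, List.map_map]
      congr 1
      refine List.map_congr_left fun z hz => ?_
      have := hmem z (hw z hz)
      simp only [Function.comp]
      rw [hφ₀, uv_lift hI hψ1 this.1]
      simp only [hψ]
      rw [if_neg this.2.1, if_neg this.2.2]
    have e5 : ∀ k, bv (fv φ R') k = (bv (fv φ₀ R') k).map (FreeGroup.lift ψ) := by
      intro k
      refine bv_fv_map φ₀ φ _ R' k fun C hC => hlift C.1 fun z hz => ?_
      simp only [dts_cons, List.mem_append, ← hdR]
      exact Or.inr (Or.inr (mem_dts.2 ⟨C, hC, hz⟩))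
    rw [fv_cons, fv_cons, bv_cons, bv_cons]
    by_cases hk : k = b
    · subst hk
      simp only [if_true, if_neg hbb.symm]
      rw [e5, hlift v fun z hz => by simp [hz]]
      exact (pc_map _ c1).of_eq (map_one _)
    · by_cases hk' : k = b'
      · subst hk'
        simp only [if_true, if_neg hbb]
        rw [e5, hlift u fun z hz => by simp [hz]]
        exact (pc_map _ c2).of_eq (map_one _)
      · simp only [if_neg (Ne.symm hk), if_neg (Ne.symm hk')]
        rw [spl_bv h6 φ hk hk']
        have h11 := hE G ψ hψ1 k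
        rw [fv_cons, bv_cons, if_neg (Ne.symm hk)] at h11
        have e6 : fv ψ R = fv φ R := fv_congr fun z hz => by
          have := hmem z (by simp [hz])
          simp only [hψ]
          rw [if_neg this.2.1, if_neg this.2.2]
        rwa [e6] at h11
  · by_cases k1 : z = x
    · subst k1
      simp [hxy, Ne.symm hne]
    · by_cases k2 : z = y
      · subst k2
        simp [hyx, Ne.symm hne]
      · have k3 : σ z ≠ x := fun h => k2 (by rw [← hxy, ← h, hI.iv z hz])
        have k4 : σ z ≠ y := fun h => k1 (by rw [← hI.iv z hz, h, hyx])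
        simp only [k1, k2, k3, k4, if_false]
        rw [hφ₀, uv_inv hI hz, map_inv]

end Pool.Agent.W5h73.TT
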