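import Pool.Agent.W5h73.TT.Inst

/-! Numbers of the ends. -/

set_option linter.unusedSimpArgs false
set_option linter.unusedSectionVars false

namespace Pool.Agent.W5h73.TT

open Pool.Agent.Y468.SR
open Pool.Agent.Y874.TP (NullV Tri TC word4 mem_code passes_append' sep)
open Pool.Agent.Y874.TP2 (part om CycL)
open Pool.Agent.Y761.TP2 (part_mem)
open Pool.Agent.R800.BT (Hts Mono Bad Sv names_nodup)
open Chk

/-- the lists of the over-ends -/
structure NumOk (n : ℕ) (pl mi : List ℕ) (OV : ℕ) : Prop where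
  hn : n ≤ 5
  hpl : ∀ x, x ∈ pl ↔ x < 12 * n ∧ (x % 12 = 2 ∨ x % 12 = 3 ∨ x % 12 = 6)
  hmi : ∀ x, x ∈ mi ↔ x < 12 * n ∧ (x % 12 = 0 ∨ x % 12 = 1 ∨ x % 12 = 4)
  hov : ∀ x, bit OV x = true → x < 12 * n ∧ (x % 12 = 0 ∨ x % 12 = 1 ∨ x % 12 = 2 ∨ x % 12 = 3 ∨
    x % 12 = 4 ∨ x % 12 = 6)

theorem hov_of {OV n : ℕ} (h1 : OV < 2 ^ (12 * n)) (h2 : ∀ x < 12 * n, bit OV x = true →
    (x % 12 = 0 ∨ x % 12 = 1 ∨ x % 12 = 2 ∨ x % 12 = 3 ∨ x % 12 = 4 ∨ x % 12 = 6)) (x : ℕ)
    (h : bit OV x = true) : x < 12 * n ∧ (x % 12 = 0 ∨ x % 12 = 1 ∨ x % 12 = 2 ∨ x % 12 = 3 ∨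
    x % 12 = 4 ∨ x % 12 = 6) := by
  have hx : x < 12 * n := by
    by_contra hc
    rw [bit_iff, Nat.testBit_lt_two_pow (lt_of_lt_of_le h1 (Nat.pow_le_pow_right (by norm_num)
      (by omega)))] at h
    exact absurd h (by simp)
  exact ⟨hx, h2 x hx h⟩

theorem num1 : NumOk 1 [2, 3, 6] [0, 1, 4] 95 where
  hn := by norm_num
  hpl := by intro x; simp only [List.mem_cons, List.not_mem_nil, or_false]; omega
  hmi := by intro x; simp only [List.mem_cons, List.not_mem_nil, or_false]; omega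
  hov := hov_of (by norm_num) (by decide)

theorem num2 : NumOk 2 [2, 3, 6, 14, 15, 18] [0, 1, 4, 12, 13, 16] 389215 where
  hn := by norm_num
  hpl := by intro x; simp only [List.mem_cons, List.not_mem_nil, or_false]; omega
  hmi := by intro x; simp only [List.mem_cons, List.not_mem_nil, or_false]; omega
  hov := hov_of (by norm_num) (by decide)

theorem num3 : NumOk 3 [2, 3, 6, 14, 15, 18, 26, 27, 30] [0, 1, 4, 12, 13, 16, 24, 25, 28]
    1594224735 where
  hn := by norm_num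
  hpl := by intro x; simp only [List.mem_cons, List.not_mem_nil, or_false]; omega
  hmi := by intro x; simp only [List.mem_cons, List.not_mem_nil, or_false]; omega
  hov := hov_of (by norm_num) (by decide)

theorem un_val (x : ℕ) : un x = x + (if x % 12 = 0 ∨ x % 12 = 2 then 9 else
    if x % 12 = 1 ∨ x % 12 = 3 ∨ x % 12 = 4 ∨ x % 12 = 6 then 4 else 0) := by
  unfold un
  show x + _ = x + _
  congr 1
  have h : ∀ r < 12, Nat.land (Nat.shiftRight 0x4044949 (Nat.mul 4 r)) 15 =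
      (if r = 0 ∨ r = 2 then 9 else if r = 1 ∨ r = 3 ∨ r = 4 ∨ r = 6 then 4 else 0) := by decide
  exact h (x % 12) (Nat.mod_lt _ (by norm_num))

theorem isb_iff (x : ℕ) : isb x = true ↔ x % 12 = 0 ∨ x % 12 = 2 := by
  have h : ∀ r < 12, Nat.beq (Nat.land (Nat.shiftRight 5 r) 1) 1 = true ↔ (r = 0 ∨ r = 2) := by
    decide
  exact h (x % 12) (Nat.mod_lt _ (by norm_num))

theorem adm_iff (x y : ℕ) : adm x y = true ↔ (x / 12 = y / 12 → (isb x = true ↔ isb y = true)) := by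
  unfold adm
  have e : Nat.beq (Nat.div x 12) (Nat.div y 12) = decide (x / 12 = y / 12) := by
    have : Nat.beq (x / 12) (y / 12) = decide (x / 12 = y / 12) := by
      rw [Bool.eq_iff_iff]
      constructor
      · intro h
        exact decide_eq_true (Nat.eq_of_beq_eq_true h)
      · intro h
        rw [of_decide_eq_true h]
        exact Nat.beq_refl _
    exact this
  rw [e]
  by_cases h : x / 12 = y / 12
  · simp only [h, decide_true, cond_true, true_implies]
    cases isb x <;> cases isb y <;> simp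
  · simp [h]

theorem tb1 (x : ℕ) (hx : x % 12 = 0 ∨ x % 12 = 1 ∨ x % 12 = 2 ∨ x % 12 = 3 ∨ x % 12 = 4 ∨
    x % 12 = 6) : x.testBit 1 = true ↔ x % 12 = 2 ∨ x % 12 = 3 ∨ x % 12 = 6 := by
  have h1 : x.testBit 1 = decide (x / 2 % 2 = 1) := by
    rw [Nat.testBit_eq_decide_div_mod_eq, pow_one]
  rw [h1, decide_eq_true_eq]
  omega

end Pool.Agent.W5h73.TT
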