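import Pool.Agent.W5h73.TT.Num

/-! The pattern of the triple points of one class: names. -/

set_option linter.unusedSimpArgs false
set_option linter.unusedSectionVars false

namespace Pool.Agent.W5h73.TT

open Pool.Agent.Y468.SR
open Pool.Agent.Y874.TP (NullV Tri TC word4 mem_code passes_append' sep)
open Pool.Agent.Y874.TP2 (part om CycL)
open Pool.Agent.Y761.TP2 (part_mem)
open Pool.Agent.R800.BT (Hts Mono Bad Sv names_nodup)
open Chk

variable {D : Code} {L R : List Tri} {χ m : ℕ → ℕ} {κ : ℕ}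

/-- residues of the over-ends -/
def ovr (x : ℕ) : Prop := x % 12 = 0 ∨ x % 12 = 1 ∨ x % 12 = 2 ∨ x % 12 = 3 ∨ x % 12 = 4 ∨ x % 12 = 6

theorem en_over (L : List Tri) (k : ℕ) : (en L k).isOver = true ↔ ovr k := by
  have h : k % 12 < 12 := Nat.mod_lt _ (by norm_num)
  unfold en ovr
  generalize L.getD (k / 12) T0 = T
  generalize k % 12 = r at h
  interval_cases r <;> simp [nam, namL]

theorem en_pos (L : List Tri) (k : ℕ) : (en L k).isPos = true ↔ k % 12 = 2 ∨ k % 12 = 3 ∨ k % 12 = 6 ∨
    k % 12 = 7 ∨ k % 12 = 10 ∨ k % 12 = 11 := by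
  have h : k % 12 < 12 := Nat.mod_lt _ (by norm_num)
  unfold en
  generalize L.getD (k / 12) T0 = T
  generalize k % 12 = r at h
  interval_cases r <;> simp [nam, namL]

theorem un_block {x : ℕ} (hx : ovr x) : un x / 12 = x / 12 ∧ un x ≠ x ∧ ¬ovr (un x) := by
  rw [un_val]
  unfold ovr at *
  rcases hx with h | h | h | h | h | h <;> simp only [h] <;> norm_num <;> omega

theorem en_mate (L : List Tri) {x : ℕ} (hx : ovr x) : en L (un x) = (en L x).mate := by
  have h1 := (un_block hx).1
  unfold en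
  rw [h1]
  generalize L.getD (x / 12) T0 = T
  unfold ovr at hx
  rcases hx with h | h | h | h | h | h
  · have : un x % 12 = 9 := by rw [un_val, h]; norm_num; omega
    rw [this, h]; rfl
  · have : un x % 12 = 5 := by rw [un_val, h]; norm_num; omega
    rw [this, h]; rfl
  · have : un x % 12 = 11 := by rw [un_val, h]; norm_num; omega
    rw [this, h]; rfl
  · have : un x % 12 = 7 := by rw [un_val, h]; norm_num; omega
    rw [this, h]; rfl
  · have : un x % 12 = 8 := by rw [un_val, h]; norm_num; omega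
    rw [this, h]; rfl
  · have : un x % 12 = 10 := by rw [un_val, h]; norm_num; omega
    rw [this, h]; rfl

theorem un_inj {x y : ℕ} (hx : ovr x) (hy : ovr y) (h : un x = un y) : x = y := by
  rw [un_val, un_val] at h
  unfold ovr at *
  rcases hx with h1 | h1 | h1 | h1 | h1 | h1 <;> rcases hy with h2 | h2 | h2 | h2 | h2 | h2 <;>
    simp only [h1, h2] at h <;> norm_num at h <;> omega

/-- the name of an over-end -/
theorem crossing_cases (L : List Tri) {x : ℕ} (hx : ovr x) :
    (isb x = true ∧ ∃ s, (en L x).crossing = xb (L.getD (x / 12) T0) s) ∨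
    (isb x = false ∧ ((∃ s, (en L x).crossing = xa (L.getD (x / 12) T0) s) ∨
      ∃ s, (en L x).crossing = xc (L.getD (x / 12) T0) s)) := by
  have hb : isb x = true ↔ x % 12 = 0 ∨ x % 12 = 2 := isb_iff x
  have hb' : isb x = false ↔ ¬(x % 12 = 0 ∨ x % 12 = 2) := by rw [← hb]; simp
  unfold en
  generalize L.getD (x / 12) T0 = T
  unfold ovr at hx
  rcases hx with h | h | h | h | h | h
  · exact Or.inl ⟨by rw [hb]; omega, false, by rw [h]; rfl⟩
  · exact Or.inr ⟨by rw [hb']; omega, Or.inl ⟨false, by rw [h]; rfl⟩⟩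
  · exact Or.inl ⟨by rw [hb]; omega, true, by rw [h]; rfl⟩
  · exact Or.inr ⟨by rw [hb']; omega, Or.inl ⟨true, by rw [h]; rfl⟩⟩
  · exact Or.inr ⟨by rw [hb']; omega, Or.inr ⟨false, by rw [h]; rfl⟩⟩
  · exact Or.inr ⟨by rw [hb']; omega, Or.inr ⟨true, by rw [h]; rfl⟩⟩

theorem xa_mem (T : Tri) (s : Bool) : xa T s ∈ [T.a₁, T.a₂] := by
  unfold xa; split_ifs <;> simp
theorem xb_mem (T : Tri) (s : Bool) : xb T s ∈ [T.b₁, T.b₂] := by
  unfold xb; split_ifs <;> simp
theorem xc_mem (T : Tri) (s : Bool) : xc T s ∈ [T.c₁, T.c₂] := by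
  unfold xc; split_ifs <;> simp

namespace Ctx
variable (c : Ctx D L R χ m κ)
include c

theorem minv {k : ℕ} (hk : k < 12 * L.length) : m (m (en L k).crossing) = (en L k).crossing :=
  matching_invol c.sv.mt (c.inP (c.en_mem hk))

theorem nam_cases {pl mi : List ℕ} {OV : ℕ} (hN : NumOk L.length pl mi OV) :
    ∀ x ∈ pl ++ mi, (pt L m x = 1 ∧ pt L m (un x) = 1) ∨
    (isb x = true ∧ pt L m x = un x + 2 ∧ pt L m (un x) = x + 2) ∨
    ∃ y ∈ (if x.testBit 1 = true then mi else pl), adm x y = true ∧ y ≠ x ∧ y ≠ un x ∧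
      pt L m x = y + 2 ∧ pt L m y = x + 2 ∧ pt L m (un x) = un y + 2 ∧ pt L m (un y) = un x + 2 ∧
      un y ≠ un x := by
  intro x hx
  have hx' : x < 12 * L.length ∧ ovr x := by
    rw [List.mem_append, hN.hpl, hN.hmi] at hx
    unfold ovr
    omega
  obtain ⟨hx1, hx2⟩ := hx'
  obtain ⟨u1, u2, u3⟩ := un_block hx2
  have hux : un x < 12 * L.length := by omega
  have hmate := en_mate L hx2
  have hover : (en L x).isOver = true := (en_over L x).2 hx2
  by_cases h0 : m (en L x).crossing = (en L x).crossing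
  · -- a self-matched name
    right; left
    have e1 : part m (en L x) = en L (un x) := by
      rw [hmate]; unfold part; rw [if_pos h0]
    have p1 := c.pt_of_en hx1 hux e1
    refine ⟨?_, p1, (c.pt_sym hx1 p1).2.1⟩
    rcases crossing_cases L hx2 with ⟨h, -⟩ | ⟨-, h | h⟩
    · exact h
    · exfalso
      obtain ⟨s, hs⟩ := h
      rw [hs] at h0
      exact c.bad _ (getD_mem hx1) (Or.inl ⟨_, xa_mem _ s, Or.inl h0⟩)
    · exfalso
      obtain ⟨s, hs⟩ := h
      rw [hs] at h0
      exact c.bad _ (getD_mem hx1) (Or.inr ⟨_, xc_mem _ s, Or.inl h0⟩)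
  · have e1 : part m (en L x) = ⟨m (en L x).crossing, (en L x).isOver, !(en L x).isPos⟩ := by
      unfold part; rw [if_neg h0]
    have e2 : part m (en L (un x)) = (part m (en L x)).mate := by
      rw [e1, hmate]
      unfold part
      rw [if_neg (show m (en L x).mate.crossing ≠ (en L x).mate.crossing from h0)]
      rfl
    rcases c.pt_cases hx1 with ⟨h1, h2⟩ | ⟨y, hy, h1, h2⟩
    · left
      refine ⟨h2, c.pt_of_D hux ?_⟩
      rw [e2]
      exact c.wfD.1 _ h1
    · right; right
      have hyo : ovr y := by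
        rw [← en_over L y, ← h1, e1]
        exact hover
      obtain ⟨v1, v2, v3⟩ := un_block hyo
      have hyx : y ≠ x := by
        rintro rfl
        exact part_ne m _ h1
      have e3 : part m (en L (un x)) = en L (un y) := by rw [e2, h1, en_mate L hyo]
      have q1 := c.pt_of_en hux (by omega : un y < 12 * L.length) e3
      have hsgn : ¬((en L y).isPos = true ↔ (en L x).isPos = true) := by
        rw [← h1, e1]
        cases (en L x).isPos <;> simp
      rw [en_pos, en_pos] at hsgn
      refine ⟨y, ?_, ?_, hyx, ?_, h2, (c.pt_sym hx1 h2).2.1, q1, (c.pt_sym hux q1).2.1, ?_⟩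
      · have ht := tb1 x hx2
        unfold ovr at hx2 hyo
        split_ifs with hb
        · rw [hN.hmi]
          rw [ht] at hb
          omega
        · rw [hN.hpl]
          rw [ht] at hb
          omega
      · rw [adm_iff]
        intro hxy
        have hcr : (en L y).crossing = m (en L x).crossing := by rw [← h1, e1]
        have hmi := c.minv hx1
        rcases crossing_cases L hx2 with ⟨b1, s, hs⟩ | ⟨b1, hs⟩ <;>
          rcases crossing_cases L hyo with ⟨b2, s', hs'⟩ | ⟨b2, hs'⟩
        · rw [b1, b2]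
        · exfalso
          rw [← hxy] at hs'
          rcases hs' with ⟨s', hs'⟩ | ⟨s', hs'⟩
          · refine c.bad _ (getD_mem hx1) (Or.inl ⟨_, xa_mem _ s', Or.inr ?_⟩)
            rw [← hs', hcr, hmi, hs]
            exact xb_mem _ _
          · refine c.bad _ (getD_mem hx1) (Or.inr ⟨_, xc_mem _ s', Or.inr ?_⟩)
            rw [← hs', hcr, hmi, hs]
            exact xb_mem _ _
        · exfalso
          rw [← hxy] at hs'
          rcases hs with ⟨s, hs⟩ | ⟨s, hs⟩
          · refine c.bad _ (getD_mem hx1) (Or.inl ⟨_, xa_mem _ s, Or.inr ?_⟩)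
            rw [← hs, ← hcr, hs']
            exact xb_mem _ _
          · refine c.bad _ (getD_mem hx1) (Or.inr ⟨_, xc_mem _ s, Or.inr ?_⟩)
            rw [← hs, ← hcr, hs']
            exact xb_mem _ _
        · rw [b1, b2]
      · rintro rfl
        exact u3 hyo
      · intro h
        exact hyx (un_inj hyo hx2 h)

theorem id_of {x y : ℕ} (hx : x < 12 * L.length) (ho : ovr x) (hpt : pt L m x = y + 2)
    (hid : idn x y = true) :
    y < 12 * L.length ∧
    ((ltr x = 0 ∧ idL xa (L.getD (x / 12) T0) (L.getD (y / 12) T0) m) ∨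
    (ltr x = 1 ∧ idL xb (L.getD (x / 12) T0) (L.getD (y / 12) T0) m) ∨
    (ltr x = 2 ∧ idL xc (L.getD (x / 12) T0) (L.getD (y / 12) T0) m)) := by
  obtain ⟨hy, h1⟩ := c.pt_arc hx hpt
  refine ⟨hy, ?_⟩
  unfold idn at hid
  rw [Bool.and_eq_true] at hid
  have h2 : y % 12 = (x ^^^ 2) % 12 := Nat.eq_of_beq_eq_true hid.2
  have hxr : ∀ x : ℕ, (x ^^^ 2) = if x.testBit 1 = true then x - 2 else x + 2 := by
    intro x
    have h1 : x.testBit 1 = decide (x / 2 % 2 = 1) := by
      rw [Nat.testBit_eq_decide_div_mod_eq, pow_one]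
    have h4 : x = 4 * (x / 4) + x % 4 := by omega
    have h5 : x ^^^ 2 = 4 * (x / 4) + ((x % 4) ^^^ 2) := by
      refine Nat.eq_of_testBit_eq fun i => ?_
      have h6 : x % 4 < 4 := Nat.mod_lt _ (by norm_num)
      have h7 : (x % 4) ^^^ 2 < 2 ^ 2 := Nat.xor_lt_two_pow (by omega) (by norm_num)
      rw [show 4 * (x / 4) = 2 ^ 2 * (x / 4) by ring, Nat.testBit_two_pow_mul_add _ h7]
      have h8 : x % 4 = x % 2 ^ 2 := rfl
      have h9 : x / 4 = x / 2 ^ 2 := rfl
      split_ifs with hi
      · rw [Nat.testBit_xor, Nat.testBit_xor, h8, Nat.testBit_mod_two_pow]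
        simp [hi]
      · rw [Nat.testBit_xor, h9, Nat.testBit_div_two_pow]
        have : (2 : ℕ).testBit i = false := Nat.testBit_lt_two_pow (lt_of_lt_of_le (by norm_num : 2 < 2 ^ 2)
          (Nat.pow_le_pow_right (by norm_num) (by omega)))
        rw [this, Bool.xor_false]
        congr 1
        omega
    rw [h5, h1]
    have h6 : x % 4 < 4 := Nat.mod_lt _ (by norm_num)
    have h7 : x / 2 % 2 = (x % 4) / 2 := by omega
    rw [h7]
    generalize x % 4 = r at *
    interval_cases r <;> simp <;> omega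
  rw [hxr] at h2
  have ht := tb1 x ho
  have hover : (en L x).isOver = true := (en_over L x).2 ho
  have hyo : ovr y := by
    unfold ovr at *
    split_ifs at h2 with hb
    · rw [ht] at hb; omega
    · rw [ht] at hb; omega
  have hovery : (en L y).isOver = true := (en_over L y).2 hyo
  have h0 : m (en L x).crossing ≠ (en L x).crossing := by
    intro h0
    unfold part at h1
    rw [if_pos h0] at h1
    rw [← h1] at hovery
    simp only [Pass.mate, hover] at hovery
    exact absurd hovery (by simp)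
  have h3 : m (en L x).crossing = (en L y).crossing := by
    unfold part at h1
    rw [if_neg h0] at h1
    exact congrArg Pass.crossing h1
  have hl : ltr x = if x % 12 = 0 ∨ x % 12 = 2 then 1 else if 4 ≤ x % 12 then 2 else 0 := by
    unfold ltr
    have hb := isb_iff x
    cases hc : isb x
    · rw [hc] at hb
      rw [if_neg (by intro h; exact absurd (hb.2 h) (by simp))]
      have hle : Nat.ble 4 (Nat.mod x 12) = decide (4 ≤ x % 12) := by
        rw [Bool.eq_iff_iff]
        constructor
        · intro h; exact decide_eq_true (Nat.le_of_ble_eq_true h)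
        · intro h; exact Nat.ble_eq_true_of_le (of_decide_eq_true h)
      rw [hle]
      by_cases h4 : 4 ≤ x % 12 <;> simp [h4]
    · rw [if_pos (hb.1 hc)]
      rfl
  unfold en at h3
  generalize L.getD (x / 12) T0 = T at h3 ⊢
  generalize L.getD (y / 12) T0 = T' at h3 ⊢
  rw [hl]
  unfold ovr at ho
  rcases ho with h | h | h | h | h | h
  · right; left
    have hy2 : y % 12 = 2 := by
      rw [if_neg (by rw [ht]; omega)] at h2; omega
    rw [h, hy2] at h3
    exact ⟨by simp [h], false, h3⟩
  · left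
    have hy2 : y % 12 = 3 := by
      rw [if_neg (by rw [ht]; omega)] at h2; omega
    rw [h, hy2] at h3
    exact ⟨by simp [h], false, h3⟩
  · right; left
    have hy2 : y % 12 = 0 := by
      rw [if_pos (by rw [ht]; omega)] at h2; omega
    rw [h, hy2] at h3
    exact ⟨by simp [h], true, h3⟩
  · left
    have hy2 : y % 12 = 1 := by
      rw [if_pos (by rw [ht]; omega)] at h2; omega
    rw [h, hy2] at h3
    exact ⟨by simp [h], true, h3⟩
  · right; right
    have hy2 : y % 12 = 6 := by
      rw [if_neg (by rw [ht]; omega)] at h2; omega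
    rw [h, hy2] at h3
    exact ⟨by simp [h], false, h3⟩
  · right; right
    have hy2 : y % 12 = 4 := by
      rw [if_pos (by rw [ht]; omega)] at h2; omega
    rw [h, hy2] at h3
    exact ⟨by simp [h], true, h3⟩

theorem nopr {E x x' y y' : ℕ} (hE : ∀ i < L.length, bit E i = eps (L.getD i T0))
    (hx : x < 12 * L.length) (hx' : x' < 12 * L.length) (ho : ovr x) (ho' : ovr x')
    (h1 : pt L m x = y + 2) (h2 : pt L m x' = y' + 2) (h3 : idn x y = true) (h4 : idn x' y' = true)
    (h5 : ltr x ≠ ltr x') (h6 : x / 12 = x' / 12) (h7 : y / 12 = y' / 12)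
    (h8 : Chk.chi E x ≠ Chk.chi E y) : False := by
  obtain ⟨hy, k1⟩ := c.id_of hx ho h1 h3
  obtain ⟨hy', k2⟩ := c.id_of hx' ho' h2 h4
  rw [← h6, ← h7] at k2
  refine c.mir _ (getD_mem hx) _ (getD_mem hy) ⟨?_, ?_⟩
  · rw [← hE _ (by omega), ← hE _ (by omega)]
    exact h8
  · rcases k1 with ⟨e1, k1⟩ | ⟨e1, k1⟩ | ⟨e1, k1⟩ <;> rcases k2 with ⟨e2, k2⟩ | ⟨e2, k2⟩ | ⟨e2, k2⟩
    · exact absurd (e1.trans e2.symm) h5
    · exact Or.inl ⟨k1, k2⟩
    · exact Or.inr (Or.inl ⟨k1, k2⟩)
    · exact Or.inl ⟨k2, k1⟩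
    · exact absurd (e1.trans e2.symm) h5
    · exact Or.inr (Or.inr ⟨k1, k2⟩)
    · exact Or.inr (Or.inl ⟨k2, k1⟩)
    · exact Or.inr (Or.inr ⟨k2, k1⟩)
    · exact absurd (e1.trans e2.symm) h5

end Ctx

end Pool.Agent.W5h73.TT
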