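import Pool.Agent.W5h73.TT.PatA
import Pool.Agent.Y874.TP2.Lem

/-! The pattern of the triple points of one class: flows. -/

set_option linter.unusedSimpArgs false
set_option linter.unusedSectionVars false

namespace Pool.Agent.W5h73.TT

open Pool.Agent.Y468.SR
open Pool.Agent.Y874.TP (NullV Tri TC word4 mem_code passes_append' sep)
open Pool.Agent.Y874.TP2 (part om CycL om_append om_zero om_zero' sum_zero)
open Pool.Agent.Y761.TP2 (part_mem flow)
open Pool.Agent.R800.BT (Hts Mono Bad Sv names_nodup)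
open Chk

variable {D : Code} {L R : List Tri} {χ m : ℕ → ℕ} {κ : ℕ}

/-- `om` does not change under rotation -/
theorem om_rot {X : Type} {f g : X → ℤ} {w w' : List X} (h : w.IsRotated w')
    (hf : (w.map f).sum = 0) (hg : (w.map g).sum = 0) : om f g w = om f g w' := by
  obtain ⟨n, rfl⟩ := h
  rw [List.rotate_eq_drop_append_take_mod]
  set k := n % w.length
  have h1 : w = w.take k ++ w.drop k := (List.take_append_drop k w).symm
  rw [h1] at hf hg
  rw [List.map_append, List.sum_append] at hf hg
  conv_lhs => rw [h1]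
  rw [om_append, om_append]
  have e1 : ((w.take k).map f).sum = -((w.drop k).map f).sum := by linarith
  have e2 : ((w.take k).map g).sum = -((w.drop k).map g).sum := by linarith
  rw [e1, e2]
  ring

theorem om_w4 {X : Type} {f g : X → ℤ} (e : Bool) (u : ℕ → X) (j : ℕ) :
    om f g (w4 e u j) = if e = true then o4 (fun i => f (u (j + i))) (fun i => g (u (j + i)))
      else -o4 (fun i => f (u (j + i))) (fun i => g (u (j + i))) := by
  unfold w4
  cases e
  · simp only [Bool.false_eq_true, if_false, om, List.map_cons, List.map_nil, List.sum_cons,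
      List.sum_nil, o4, Nat.add_zero]
    ring
  · simp only [if_true, om, List.map_cons, List.map_nil, List.sum_cons,
      List.sum_nil, o4, Nat.add_zero]
    ring

theorem sum_w4 {X : Type} {f : X → ℤ} (e : Bool) (u : ℕ → X) (j : ℕ) :
    ((w4 e u j).map f).sum = s4 fun i => f (u (j + i)) := by
  unfold w4
  cases e <;> simp only [Bool.false_eq_true, if_false, if_true, List.map_cons, List.map_nil,
    List.sum_cons, List.sum_nil, s4, Nat.add_zero] <;> ring

theorem sum_rot {X : Type} {f : X → ℤ} {w w' : List X} (h : w.IsRotated w') :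
    (w.map f).sum = (w'.map f).sum := (h.perm.map f).sum_eq

/-- orientations of the circles -/
def esL (L : List Tri) : List Bool := L.flatMap fun T => [eps T, eps T, eps T]

theorem tot_TC {F G : Pass → ℤ} {f g : ℕ → ℤ} : ∀ (L : List Tri) (t : ℕ),
    (∀ T ∈ L, T.Ok ∧ Hts T) →
    (∀ (i : ℕ) (hi : i < L.length), ∀ j < 12, F (nam L[i] j) = f (12 * (t + i) + j) ∧
      G (nam L[i] j) = g (12 * (t + i) + j)) →
    (∀ c, c < 3 * L.length → s4 (fc f (3 * t + c)) = 0 ∧ s4 (fc g (3 * t + c)) = 0) →
    ((TC L).map fun C => om F G C.1).sum = tot f g (esL L) (3 * t) ∧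
      ∀ C ∈ TC L, (C.1.map F).sum = 0 ∧ (C.1.map G).sum = 0
  | [], t, _, _, _ => by simp [TC, esL, tot]
  | T :: L, t, hok, h, hs => by
    obtain ⟨hT1, hT2⟩ := hok T (by simp)
    obtain ⟨w1, w2, w3⟩ := words hT1 hT2
    have h0 := h 0 (by simp)
    simp only [List.getElem_cons_zero, Nat.add_zero] at h0
    have eF : ∀ (c : ℕ), c < 3 → ∀ i < 4, F (nam T (4 * c + i)) = fc f (3 * t + c) i := by
      intro c hc i hi
      rw [(h0 (4 * c + i) (by omega)).1]
      unfold fc
      congr 1
      ring
    have eG : ∀ (c : ℕ), c < 3 → ∀ i < 4, G (nam T (4 * c + i)) = fc g (3 * t + c) i := by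
      intro c hc i hi
      rw [(h0 (4 * c + i) (by omega)).2]
      unfold fc
      congr 1
      ring
    have key : ∀ (c : ℕ), c < 3 → ∀ w : List Pass, w.IsRotated (w4 (eps T) (nam T) (4 * c)) →
        (w.map F).sum = 0 ∧ (w.map G).sum = 0 ∧ om F G w = if eps T = true then
          o4 (fc f (3 * t + c)) (fc g (3 * t + c)) else -o4 (fc f (3 * t + c)) (fc g (3 * t + c)) := by
      intro c hc w hw
      have hsc := hs c (by rw [List.length_cons]; omega)
      have s1 : (w.map F).sum = 0 := by
        rw [sum_rot hw, sum_w4]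
        have : (s4 fun i => F (nam T (4 * c + i))) = s4 (fc f (3 * t + c)) := by
          unfold s4
          simp only
          rw [eF c hc 0 (by norm_num), eF c hc 1 (by norm_num), eF c hc 2 (by norm_num),
            eF c hc 3 (by norm_num)]
        rw [this, hsc.1]
      have s2 : (w.map G).sum = 0 := by
        rw [sum_rot hw, sum_w4]
        have : (s4 fun i => G (nam T (4 * c + i))) = s4 (fc g (3 * t + c)) := by
          unfold s4
          simp only
          rw [eG c hc 0 (by norm_num), eG c hc 1 (by norm_num), eG c hc 2 (by norm_num),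
            eG c hc 3 (by norm_num)]
        rw [this, hsc.2]
      refine ⟨s1, s2, ?_⟩
      rw [om_rot hw s1 s2, om_w4]
      have : o4 (fun i => F (nam T (4 * c + i))) (fun i => G (nam T (4 * c + i))) =
          o4 (fc f (3 * t + c)) (fc g (3 * t + c)) := by
        unfold o4
        simp only
        rw [eF c hc 0 (by norm_num), eF c hc 1 (by norm_num), eF c hc 2 (by norm_num),
            eF c hc 3 (by norm_num), eG c hc 0 (by norm_num), eG c hc 1 (by norm_num),
            eG c hc 2 (by norm_num), eG c hc 3 (by norm_num)]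
      rw [this]
    obtain ⟨a1, a2, a3⟩ := key 0 (by norm_num) T.wi w1
    obtain ⟨b1, b2, b3⟩ := key 1 (by norm_num) T.wj w2
    obtain ⟨c1, c2, c3⟩ := key 2 (by norm_num) T.wk w3
    obtain ⟨i1, i2⟩ := tot_TC L (t + 1) (fun T hT => hok T (by simp [hT])) (fun i hi j hj => by
        have := h (i + 1) (by simpa using hi) j hj
        simp only [List.getElem_cons_succ] at this
        rw [show t + 1 + i = t + (i + 1) by ring]
        exact this) (fun c hc => by
        have := hs (c + 3) (by rw [List.length_cons]; omega)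
        rw [show 3 * (t + 1) + c = 3 * t + (c + 3) by ring]
        exact this)
    constructor
    · rw [Pool.Agent.Y874.TP.TC_cons, List.map_append, List.sum_append, i1]
      simp only [Tri.code, List.map_cons, List.map_nil, List.sum_cons, List.sum_nil, a3, b3, c3]
      have : esL (T :: L) = eps T :: eps T :: eps T :: esL L := rfl
      rw [this]
      simp only [tot]
      rw [show 3 * t + 1 + 1 + 1 = 3 * (t + 1) by ring, show 3 * t + 0 = 3 * t by ring,
        show 3 * t + 1 + 1 = 3 * t + 2 by ring]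
      ring
    · intro C hC
      rw [Pool.Agent.Y874.TP.TC_cons, List.mem_append] at hC
      rcases hC with hC | hC
      · simp only [Tri.code, List.mem_cons, List.not_mem_nil, or_false] at hC
        rcases hC with rfl | rfl | rfl
        · exact ⟨a1, a2⟩
        · exact ⟨b1, b2⟩
        · exact ⟨c1, c2⟩
      · exact i2 C hC

open Classical in
/-- extension of a function on the ends -/
noncomputable def ext (L : List Tri) (m : ℕ → ℕ) (f : ℕ → ℤ) (p : Pass) : ℤ :=
  if h : ∃ k, k < 12 * L.length ∧ en L k = p then f h.choose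
  else if h : ∃ k, k < 12 * L.length ∧ en L k = part m p then -f h.choose else 0

namespace Ctx
variable (c : Ctx D L R χ m κ)
include c

theorem ext_en (f : ℕ → ℤ) {k : ℕ} (hk : k < 12 * L.length) : ext L m f (en L k) = f k := by
  have h : ∃ j, j < 12 * L.length ∧ en L j = en L k := ⟨k, hk, rfl⟩
  unfold ext
  rw [dif_pos h]
  congr 1
  exact c.en_inj h.choose_spec.1 hk h.choose_spec.2

theorem ext_part (f : ℕ → ℤ) {p : Pass} (h0 : ∀ k < 12 * L.length, en L k ≠ p) {k : ℕ}
    (hk : k < 12 * L.length) (hp : en L k = part m p) : ext L m f p = -f k := by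
  have h1 : ¬∃ j, j < 12 * L.length ∧ en L j = p := fun ⟨j, hj, e⟩ => h0 j hj e
  have h : ∃ j, j < 12 * L.length ∧ en L j = part m p := ⟨k, hk, hp⟩
  unfold ext
  rw [dif_neg h1, dif_pos h]
  congr 2
  exact c.en_inj h.choose_spec.1 hk (h.choose_spec.2.trans hp.symm)

theorem ext_zero (f : ℕ → ℤ) {p : Pass} (h0 : ∀ k < 12 * L.length, en L k ≠ p)
    (h1 : ∀ k < 12 * L.length, en L k ≠ part m p) : ext L m f p = 0 := by
  unfold ext
  rw [dif_neg fun ⟨j, hj, e⟩ => h0 j hj e, dif_neg fun ⟨j, hj, e⟩ => h1 j hj e]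

theorem ext_anti {f : ℕ → ℤ} (hf : ∀ x < 12 * L.length, ∀ y, pt L m x = y + 2 → f y = -f x)
    {p : Pass} (hp : p ∈ passes (D ++ TC (L ++ R))) : ext L m f (part m p) = -ext L m f p := by
  have hpp := c.part_part' hp
  have hp' := part_mem c.sv.wf c.sv.mt hp
  by_cases h0 : ∃ k < 12 * L.length, en L k = p
  · obtain ⟨k, hk, rfl⟩ := h0
    rw [c.ext_en f hk]
    rcases c.pt_cases hk with ⟨h1, h2⟩ | ⟨j, hj, h1, h2⟩
    · refine c.ext_part f (fun i hi h => c.disj (c.en_mem hi) (by rw [h]; exact h1)) hk hpp.symm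
    · rw [h1, c.ext_en f hj, hf k hk j h2]
  · have h0' : ∀ k < 12 * L.length, en L k ≠ p := fun k hk h => h0 ⟨k, hk, h⟩
    by_cases h1 : ∃ k < 12 * L.length, en L k = part m p
    · obtain ⟨k, hk, h2⟩ := h1
      rw [c.ext_part f h0' hk h2, ← h2, c.ext_en f hk, neg_neg]
    · have h1' : ∀ k < 12 * L.length, en L k ≠ part m p := fun k hk h => h1 ⟨k, hk, h⟩
      rw [c.ext_zero f h0' h1', c.ext_zero f h1' (by rw [hpp]; exact h0'), neg_zero]

/-- passages of the other circles -/
theorem ext_R (f : ℕ → ℤ) {p : Pass} (hp : p ∈ passes (TC R)) : ext L m f p = 0 := by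
  have hP : p ∈ passes (D ++ TC (L ++ R)) := by
    rw [passes_append', TC_append', passes_append']; simp [hp]
  refine c.ext_zero f (fun k hk h => ?_) (fun k hk h => ?_)
  · exact c.chi' hp (by rw [← h]; exact c.chi (c.en_mem hk))
  · refine c.chi' hp ?_
    rw [← c.chi_part hP, ← h]
    exact c.chi (c.en_mem hk)

theorem ext_D {f : ℕ → ℤ} (hf : ∀ x < 12 * L.length, pt L m x = 1 → f x = 0) {p : Pass}
    (hp : p ∈ passes D) : ext L m f p = 0 := by
  have h0 : ∀ k < 12 * L.length, en L k ≠ p := fun k hk h =>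
    c.disj (c.en_mem hk) (by rw [h]; exact hp)
  by_cases h1 : ∃ k < 12 * L.length, en L k = part m p
  · obtain ⟨k, hk, h2⟩ := h1
    rw [c.ext_part f h0 hk h2, hf k hk, neg_zero]
    refine c.pt_of_D hk ?_
    rw [h2, c.part_part' (c.inPD hp)]
    exact hp
  · exact c.ext_zero f h0 fun k hk h => h1 ⟨k, hk, h⟩

theorem flows {f g : ℕ → ℤ} (h1 : ∀ x < 12 * L.length, pt L m x = 1 → f x = 0)
    (h2 : ∀ x < 12 * L.length, ∀ y, pt L m x = y + 2 → f y = -f x ∧ g y = -g x)
    (h3 : ∀ c < 3 * L.length, s4 (fc f c) = 0 ∧ s4 (fc g c) = 0) : tot f g (esL L) 0 = 0 := by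
  obtain ⟨k1, k2⟩ := tot_TC (F := ext L m f) (G := ext L m g) (f := f) (g := g) L 0
    (fun T hT => ⟨(c.memL hT).1, (c.memL hT).2.1⟩) (fun i hi j hj => by
      have e : nam L[i] j = en L (12 * (0 + i) + j) := by
        unfold en
        have e1 : (12 * (0 + i) + j) / 12 = i := by omega
        have e2 : (12 * (0 + i) + j) % 12 = j := by omega
        rw [e1, e2, List.getD_eq_getElem _ _ hi]
      rw [e]
      exact ⟨c.ext_en f (by omega), c.ext_en g (by omega)⟩)
    (fun c hc => by simpa using h3 c hc)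
  have hR : ∀ (f : ℕ → ℤ), ∀ C ∈ TC R, ∀ p ∈ C.1, ext L m f p = 0 := by
    intro f C hC p hp
    exact c.ext_R f (mem_passes.2 ⟨C, hC, hp⟩)
  have h4 := (flow D (TC (L ++ R)) m (ext L m f) (ext L m g) c.hn c.sv.wf c.sv.mt c.sv.nv
    (fun p hp => ⟨c.ext_anti (fun x hx y hy => (h2 x hx y hy).1) hp,
      c.ext_anti (fun x hx y hy => (h2 x hx y hy).2) hp⟩) (fun C hC => by
        rw [TC_append', List.mem_append] at hC
        rcases hC with hC | hC
        · exact k2 C hC
        · exact ⟨sum_zero (hR f C hC), sum_zero (hR g C hC)⟩)).2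
  rw [List.map_append, List.sum_append, TC_append', List.map_append, List.sum_append, k1] at h4
  have z1 : (D.map fun C => om (ext L m f) (ext L m g) C.1).sum = 0 := by
    refine sum_zero fun C hC => om_zero fun p hp => c.ext_D h1 (mem_passes.2 ⟨C, hC, hp⟩)
  have z2 : ((TC R).map fun C => om (ext L m f) (ext L m g) C.1).sum = 0 := by
    refine sum_zero fun C hC => om_zero fun p hp => hR f C hC p hp
  rw [z1, z2, zero_add, add_zero] at h4
  simpa using h4

/-- the pattern -/
theorem pat {pl mi : List ℕ} {OV E : ℕ} (hN : NumOk L.length pl mi OV)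
    (hE : ∀ i < L.length, bit E i = eps (L.getD i T0)) :
    Pat pl mi (esL L) OV E (3 * L.length) (pt L m) := by
  have h4 : 4 * (3 * L.length) = 12 * L.length := by ring
  have hovr : ∀ x ∈ pl ++ mi, x < 12 * L.length ∧ ovr x := by
    intro x hx
    rw [List.mem_append, hN.hpl, hN.hmi] at hx
    unfold ovr
    omega
  refine ⟨?_, ?_, ?_, ?_, ?_, ?_, ?_, ?_, ?_, ?_, ?_⟩
  · unfold esL
    rw [List.length_flatMap]
    simp
    ring
  · intro x hx
    have := hN.hov x hx
    rw [List.mem_append, hN.hpl, hN.hmi]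
    omega
  · intro x hx y hy h
    exact un_inj (hovr x hx).2 (hovr y hy).2 h
  · intro x hx y hy h
    exact (un_block (hovr x hx).2).2.2 (by rw [h]; exact (hovr y hy).2)
  · rw [h4]
    intro x hx y hy
    exact c.pt_sym hx hy
  · rw [h4]
    intro x hx
    rcases c.pt_cases hx with ⟨-, h⟩ | ⟨j, -, -, h⟩ <;> omega
  · have := hN.hn
    omega
  · rw [h4]
    intro x hx
    obtain ⟨h1, h2⟩ := hovr x hx
    obtain ⟨h5, h6, -⟩ := un_block h2
    exact ⟨h1, by omega, h6⟩
  · exact c.nam_cases hN
  · rw [h4]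
    intro x hx x' hx' hb hb' y y' k1 k2 k3 k4 k5 k6 k7 k8
    have o1 := (hN.hov x hb).2
    have o2 := (hN.hov x' hb').2
    exact c.nopr hE hx hx' o1 o2 k1 k2 k3 k4 k5 k6 k7 k8
  · rw [h4]
    intro f g k1 k2 k3
    exact c.flows k1 k2 k3

end Ctx

end Pool.Agent.W5h73.TT
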