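import Pool.Agent.W5h73.TT.PatB

/-! The pattern of the triple points of one class: corners. -/

set_option linter.unusedSimpArgs false
set_option linter.unusedSectionVars false

namespace Pool.Agent.W5h73.TT

open Pool.Agent.Y468.SR
open Pool.Agent.Y874.TP (NullV Tri TC word4 mem_code passes_append' sep)
open Pool.Agent.Y874.TP2 (part CycL)
open Pool.Agent.Y761.TP2 (part_mem flow)
open Pool.Agent.R800.BT (Hts Mono Bad Sv names_nodup)
open Chk

variable {D : Code} {L R : List Tri} {χ m : ℕ → ℕ} {κ : ℕ}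

theorem cycL_iff {X : Type} {r p : X} {W : List X} :
    CycL r p W ↔ ∃ u, W.IsRotated (r :: p :: u) := by
  constructor
  · rintro (⟨u, v, rfl⟩ | ⟨u, rfl⟩)
    · refine ⟨v ++ u, ?_⟩
      have := List.isRotated_append (l := u) (l' := r :: p :: v)
      simpa using this
    · refine ⟨u, ?_⟩
      have := List.isRotated_append (l := p :: u) (l' := [r])
      simpa using this
  · rintro ⟨u, h⟩
    obtain ⟨n, h⟩ := h.symm
    rw [List.rotate_eq_drop_append_take_mod] at h
    set k := n % (r :: p :: u).length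
    rcases k with _ | _ | k
    · left
      exact ⟨[], u, by simpa using h.symm⟩
    · right
      exact ⟨u, by simpa using h.symm⟩
    · left
      refine ⟨u.drop k, u.take k, ?_⟩
      simpa using h.symm

theorem cycL_rot {X : Type} {r p : X} {W W' : List X} (h : CycL r p W') (hr : W.IsRotated W') :
    CycL r p W := by
  rw [cycL_iff] at *
  obtain ⟨u, hu⟩ := h
  exact ⟨u, hr.trans hu⟩

/-- consecutive ends on a circle -/
theorem cyc_w4 {X : Type} (e : Bool) (u : ℕ → X) (c j : ℕ) (hj : j < 4) :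
    (e = true → CycL (u (4 * c + j)) (u (4 * c + (j + 1) % 4)) (w4 e u (4 * c))) ∧
    (e = false → CycL (u (4 * c + (j + 1) % 4)) (u (4 * c + j)) (w4 e u (4 * c))) := by
  constructor
  · rintro rfl
    unfold w4
    simp only [if_true]
    interval_cases j
    · exact Or.inl ⟨[], _, rfl⟩
    · exact Or.inl ⟨[_], _, rfl⟩
    · exact Or.inl ⟨[_, _], _, rfl⟩
    · exact Or.inr ⟨[_, _], rfl⟩
  · rintro rfl
    unfold w4
    simp only [Bool.false_eq_true, if_false]
    interval_cases j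
    · exact Or.inl ⟨[_, _], _, rfl⟩
    · exact Or.inl ⟨[_], _, rfl⟩
    · exact Or.inl ⟨[], _, rfl⟩
    · exact Or.inr ⟨[_, _], rfl⟩

/-- orientation of the circle of the end -/
def eo (L : List Tri) (k : ℕ) : Bool := eps (L.getD (k / 12) T0)

namespace Ctx
variable (c : Ctx D L R χ m κ)
include c

/-- the circle of an end -/
theorem circle {k : ℕ} (hk : k < 12 * L.length) : ∃ q ∈ TC L,
    q.1.IsRotated (w4 (eo L k) (en L) (4 * (k / 4))) := by
  have hT := getD_mem hk
  obtain ⟨hok, ht, -⟩ := c.memL hT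
  obtain ⟨w1, w2, w3⟩ := words hok ht
  unfold eo
  have hen : ∀ j, j < 12 → en L (12 * (k / 12) + j) = nam (L.getD (k / 12) T0) j := by
    intro j hj
    unfold en
    have e1 : (12 * (k / 12) + j) / 12 = k / 12 := by omega
    have e2 : (12 * (k / 12) + j) % 12 = j := by omega
    rw [e1, e2]
  have hw : ∀ i, i < 3 → w4 (eps (L.getD (k / 12) T0)) (en L) (12 * (k / 12) + 4 * i) =
      w4 (eps (L.getD (k / 12) T0)) (nam (L.getD (k / 12) T0)) (4 * i) := by
    intro i hi
    unfold w4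
    rw [Nat.add_assoc, Nat.add_assoc, Nat.add_assoc, hen _ (by omega), hen _ (by omega),
      hen _ (by omega), hen _ (by omega)]
  have hq : ∀ C ∈ (L.getD (k / 12) T0).code, C ∈ TC L := fun C hC =>
    List.mem_flatMap.2 ⟨_, hT, hC⟩
  have h3 : k / 4 = 3 * (k / 12) + k / 4 % 3 := by omega
  have h4 : 4 * (k / 4) = 12 * (k / 12) + 4 * (k / 4 % 3) := by omega
  rw [h4]
  have h5 : k / 4 % 3 < 3 := Nat.mod_lt _ (by norm_num)
  rw [hw _ h5]
  generalize k / 4 % 3 = i at h5
  interval_cases i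
  · exact ⟨(_, _), hq _ (by simp only [Tri.code]; exact List.mem_cons_self), w1⟩
  · exact ⟨(_, _), hq _ (by simp only [Tri.code]; exact List.mem_cons_of_mem _ List.mem_cons_self), w2⟩
  · exact ⟨(_, _), hq _ (by
      simp only [Tri.code]
      exact List.mem_cons_of_mem _ (List.mem_cons_of_mem _ List.mem_cons_self)), w3⟩

theorem mem_w4 {e : Bool} {u : ℕ → Pass} {k : ℕ} : u k ∈ w4 e u (4 * (k / 4)) := by
  have h : k = 4 * (k / 4) + k % 4 := by omega
  have h2 : k % 4 < 4 := Nat.mod_lt _ (by norm_num)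
  unfold w4
  generalize hc : k / 4 = c at h
  generalize k % 4 = r at h h2
  subst h
  interval_cases r <;> cases e <;> simp

theorem con_of_cn {Q : Code} (hQ : ∀ q ∈ TC L, q ∈ Q) {x y : ℕ} (hx : x < 12 * L.length)
    (h : Cn (3 * L.length) (pt L m) x y) : y < 12 * L.length ∧ Con (part m) Q (en L x) (en L y) := by
  induction h with
  | rfl => exact ⟨hx, Con.rfl⟩
  | arc _ hy e ih =>
    obtain ⟨i1, i2⟩ := ih
    obtain ⟨h1, h2⟩ := c.pt_arc i1 e
    exact ⟨h1, by rw [← h2]; exact i2.inv⟩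
  | @cir y z _ hy hz e ih =>
    obtain ⟨i1, i2⟩ := ih
    refine ⟨by omega, ?_⟩
    obtain ⟨q, hq, hr⟩ := c.circle i1
    refine i2.cir (hQ q hq) ?_ ?_
    · rw [hr.mem_iff]; exact c.mem_w4
    · rw [hr.mem_iff, e]; exact c.mem_w4

/-- the corner given by an end -/
def cor (L : List Tri) (m : ℕ → ℕ) (p : ℕ) : Pass × Pass :=
  if eo L p = true then (part m (en L (nxt p)), part m (en L p))
  else (part m (en L p), part m (en L (nxt p)))

omit c in
theorem nxt_lt {p n : ℕ} (h : p < 12 * n) : nxt p < 12 * n ∧ nxt p / 4 = p / 4 := by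
  rw [nxt_eq]
  omega

theorem crn_of_cr {Q : Code} (hQ : ∀ q ∈ TC L, q ∈ Q) {p : ℕ}
    (h : Cr (3 * L.length) (pt L m) p) :
    Crn (part m) D Q (cor L m p).1 (cor L m p).2 ∧ (cor L m p).1 ∈ passes D ∧
      ((cor L m p).1 = part m (en L p) ∨ (cor L m p).1 = part m (en L (nxt p))) := by
  obtain ⟨h1, h2, h3⟩ := h
  have hp : p < 12 * L.length := by omega
  obtain ⟨hn, hn'⟩ := nxt_lt hp
  have d1 := c.pt_one hp h2
  have d2 := c.pt_one hn h3
  have e1 := c.part_part' (c.inP (c.en_mem hp))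
  have e2 := c.part_part' (c.inP (c.en_mem hn))
  obtain ⟨q, hq, hr⟩ := c.circle hp
  have hc := cyc_w4 (eo L p) (en L) (p / 4) (p % 4) (Nat.mod_lt _ (by norm_num))
  have e3 : 4 * (p / 4) + p % 4 = p := by omega
  have e4 : 4 * (p / 4) + (p % 4 + 1) % 4 = nxt p := by rw [nxt_eq]; omega
  rw [e3, e4] at hc
  unfold cor
  cases he : eo L p
  · simp only [Bool.false_eq_true, if_false]
    refine ⟨⟨d1, d2, q, hQ q hq, ?_⟩, d1, by simp⟩
    rw [e1, e2]
    exact cycL_rot (hc.2 he) hr
  · simp only [if_true]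
    refine ⟨⟨d2, d1, q, hQ q hq, ?_⟩, d2, by simp⟩
    rw [e1, e2]
    exact cycL_rot (hc.1 he) hr

theorem cor_ne {p q : ℕ} (hp : p < 12 * L.length) (hq : q < 12 * L.length) (hne : p ≠ q) :
    cor L m p ≠ cor L m q := by
  have hinj : ∀ i < 12 * L.length, ∀ j < 12 * L.length, part m (en L i) = part m (en L j) → i = j := by
    intro i hi j hj h
    have e1 := c.part_part' (c.inP (c.en_mem hi))
    have e2 := c.part_part' (c.inP (c.en_mem hj))
    rw [h, e2] at e1
    exact c.en_inj hi hj e1.symm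
  obtain ⟨a1, a2⟩ := nxt_lt hp
  obtain ⟨b1, b2⟩ := nxt_lt hq
  intro h
  unfold cor at h
  cases he : eo L p <;> cases he' : eo L q
  · simp only [he, he', Bool.false_eq_true, if_false, Prod.mk.injEq] at h
    exact hne (hinj _ hp _ hq h.1)
  · simp only [he, he', Bool.false_eq_true, if_false, if_true, Prod.mk.injEq] at h
    have h1 := hinj _ hp _ b1 h.1
    have h2 : p / 12 = q / 12 := by omega
    unfold eo at he he'
    rw [h2, he'] at he
    exact absurd he (by simp)
  · simp only [he, he', Bool.false_eq_true, if_false, if_true, Prod.mk.injEq] at h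
    have h1 := hinj _ a1 _ hq h.1
    have h2 : p / 12 = q / 12 := by omega
    unfold eo at he he'
    rw [h2, he'] at he
    exact absurd he (by simp)
  · simp only [he, he', if_true, Prod.mk.injEq] at h
    exact hne (hinj _ hp _ hq h.2)

theorem fc_of_two {Q : Code} (hQ : ∀ q ∈ TC L, q ∈ Q) {x : ℕ} (hx : x < 12 * L.length)
    (h : Two (3 * L.length) (pt L m) x) : FC (part m) D Q (part m (en L x)) := by
  obtain ⟨p, q, hne, hp, hq, cp, cq⟩ := h
  obtain ⟨k1, k2, k3⟩ := c.crn_of_cr hQ hp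
  obtain ⟨l1, l2, l3⟩ := c.crn_of_cr hQ hq
  obtain ⟨p1, p2⟩ := c.con_of_cn hQ hx cp
  obtain ⟨q1, q2⟩ := c.con_of_cn hQ hx cq
  have hne' : ((cor L m p).1, (cor L m p).2) ≠ ((cor L m q).1, (cor L m q).2) := c.cor_ne p1 q1 hne
  have key : ∀ p, p < 12 * L.length → Cr (3 * L.length) (pt L m) p →
      Con (part m) Q (en L x) (en L p) →
      ((cor L m p).1 = part m (en L p) ∨ (cor L m p).1 = part m (en L (nxt p))) →
      Con (part m) Q (part m (en L x)) (cor L m p).1 := by
    intro p hp hcr hcon hor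
    have h0 : Con (part m) Q (part m (en L x)) (en L x) := by
      have := (Con.rfl (σ := part m) (Q := Q) (s := part m (en L x))).inv
      rwa [c.part_part' (c.inP (c.en_mem hx))] at this
    rcases hor with e | e
    · rw [e]; exact (h0.trans hcon).inv
    · rw [e]
      obtain ⟨n1, n2⟩ := nxt_lt hp
      obtain ⟨q, hq, hr⟩ := c.circle hp
      refine ((h0.trans hcon).cir (hQ q hq) ?_ ?_).inv
      · rw [hr.mem_iff]; exact c.mem_w4
      · rw [hr.mem_iff, ← n2]; exact c.mem_w4
  exact ⟨_, _, _, _, hne', k1, l1, key p p1 hp p2 k3, key q q1 hq q2 l3⟩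

/-- the ends of edges leading from the boundary to the triple points of the class -/
theorem exists_end {s : Pass} (hs : s ∈ passes D) (h : part m s ∈ passes (TC L)) :
    ∃ x < 12 * L.length, en L x = part m s ∧ pt L m x = 1 := by
  obtain ⟨x, hx, h1⟩ := c.exists_en h
  refine ⟨x, hx, h1, c.pt_of_D hx ?_⟩
  rw [h1, c.part_part' (c.inPD hs)]
  exact hs

/-- conclusion, first form -/
theorem fc_all (h : Cc (3 * L.length) (pt L m) false) {Q : Code} (hQ : ∀ q ∈ TC L, q ∈ Q) {s : Pass}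
    (hs : s ∈ passes D) (h1 : part m s ∈ passes (TC L)) : FC (part m) D Q s := by
  obtain ⟨x, hx, h2, h3⟩ := c.exists_end hs h1
  unfold Cc at h
  simp only [Bool.false_eq_true, if_false] at h
  have h4 := c.fc_of_two hQ hx (h x (by omega) h3)
  rwa [h2, c.part_part' (c.inPD hs)] at h4

/-- conclusion, second form -/
theorem fc_most (h : Cc (3 * L.length) (pt L m) true) {Q : Code} (hQ : ∀ q ∈ TC L, q ∈ Q) :
    (∀ s ∈ passes D, ∀ t ∈ passes D, part m s ∈ passes (TC L) → part m t ∈ passes (TC L) →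
      ¬FC (part m) D Q s → ¬FC (part m) D Q t → Con (part m) Q s t) ∧
    ∀ s ∈ passes D, part m s ∈ passes (TC L) → ¬FC (part m) D Q s →
      ∃ p r, Crn (part m) D Q p r := by
  unfold Cc at h
  simp only [if_true] at h
  have key : ∀ s ∈ passes D, part m s ∈ passes (TC L) → ¬FC (part m) D Q s →
      ∃ x < 12 * L.length, en L x = part m s ∧ pt L m x = 1 ∧ ¬Two (3 * L.length) (pt L m) x := by
    intro s hs h1 h2
    obtain ⟨x, hx, h3, h4⟩ := c.exists_end hs h1
    refine ⟨x, hx, h3, h4, fun h5 => h2 ?_⟩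
    have h6 := c.fc_of_two hQ hx h5
    rwa [h3, c.part_part' (c.inPD hs)] at h6
  constructor
  · intro s hs t ht h1 h2 h3 h4
    obtain ⟨x, hx, x1, x2, x3⟩ := key s hs h1 h3
    obtain ⟨y, hy, y1, y2, y3⟩ := key t ht h2 h4
    have h5 := (c.con_of_cn hQ hx (h.1 x (by omega) x2 x3 y (by omega) y2 y3)).2
    rw [x1, y1] at h5
    have h6 := ((Con.rfl (σ := part m) (Q := Q) (s := s)).inv.trans h5).inv
    rwa [c.part_part' (c.inPD ht)] at h6
  · intro s hs h1 h2
    obtain ⟨x, hx, x1, x2, x3⟩ := key s hs h1 h2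
    obtain ⟨p, hp⟩ := h.2 ⟨x, by omega, x2, x3⟩
    exact ⟨_, _, (c.crn_of_cr hQ hp).1⟩

end Ctx

end Pool.Agent.W5h73.TT
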