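import Pool.Agent.W5h73.TT.Goal

/-! Permutations of three triple points. -/

set_option linter.unusedSimpArgs false
set_option linter.unusedSectionVars false

namespace Pool.Agent.W5h73.TT

open Pool.Agent.Y468.SR
open Pool.Agent.Y874.TP (NullV Tri TC passes_append')
open Pool.Agent.Y874.TP2 (part)
open Pool.Agent.Y761.TP2 (part_mem)
open Pool.Agent.R800.BT (Hts Mono Bad Sv)
open Chk

variable {D Q : Code} {L R : List Tri} {χ m : ℕ → ℕ} {κ : ℕ}

/-- the codes of the six permutations -/
def cds : List ℕ := [36, 24, 33, 9, 18, 6]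

/-- action of the permutations -/
def pl3 {α : Type} (c : ℕ) : List α → List α
  | [x, y, z] => if c = 36 then [x, y, z] else if c = 24 then [x, z, y] else
    if c = 33 then [y, x, z] else if c = 9 then [z, x, y] else if c = 18 then [y, z, x] else [z, y, x]
  | l => l

theorem pl3_perm {α : Type} (c : ℕ) (x y z : α) : (pl3 c [x, y, z]).Perm [x, y, z] := by
  unfold pl3
  split_ifs
  · exact List.Perm.refl _
  · exact List.Perm.cons _ (List.Perm.swap _ _ _)
  · exact List.Perm.swap _ _ _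
  · exact (List.Perm.swap _ _ _).trans (List.Perm.cons _ (List.Perm.swap _ _ _))
  · exact (List.Perm.cons _ (List.Perm.swap _ _ _)).trans (List.Perm.swap _ _ _)
  · exact ((List.Perm.swap _ _ _).trans (List.Perm.cons _ (List.Perm.swap _ _ _))).trans
      (List.Perm.swap _ _ _)

theorem pl3_map {α β : Type} (f : α → β) (c : ℕ) (x y z : α) :
    (pl3 c [x, y, z]).map f = pl3 c [f x, f y, f z] := by
  unfold pl3
  split_ifs <;> rfl

/-- the over-ends of three triple points -/
def pl₃ : List ℕ := [2, 3, 6, 14, 15, 18, 26, 27, 30]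
def mi₃ : List ℕ := [0, 1, 4, 12, 13, 16, 24, 25, 28]

theorem rho_eq (c k : ℕ) : rho c k = 12 * ((c >>> (2 * (k / 12))) &&& 3) + k % 12 := rfl

theorem rho_lt (c k : ℕ) : rho c k < 48 := by
  rw [rho_eq]
  have h1 : (c >>> (2 * (k / 12))) &&& 3 ≤ 3 := Nat.and_le_right
  omega

theorem rho_mod (c k : ℕ) : rho c k % 12 = k % 12 ∧ rho c k / 12 = (c >>> (2 * (k / 12))) &&& 3 := by
  rw [rho_eq]
  omega

theorem rho_facts : (∀ c ∈ cds, ∀ k < 36, rho c k < 36) ∧
    (∀ c ∈ cds, ∀ i < 36, ∀ j < 36, rho c i = rho c j → i = j) ∧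
    (∀ c ∈ cds, ∀ x < 36, ∃ k < 36, rho c k = x) ∧
    (∀ c ∈ cds, ∀ k < 36, rho c k ∈ pl₃ ++ mi₃ → k ∈ pl₃ ++ mi₃) ∧
    (∀ c ∈ cds, ∀ k ∈ pl₃ ++ mi₃, un (rho c k) = rho c (un k)) := by
  refine ⟨?_, ?_, ?_, ?_, ?_⟩ <;> decide +kernel

theorem rent_zero (c : ℕ) : rent c 0 = 0 := rfl
theorem rent_one (c : ℕ) : rent c 1 = 1 := rfl
theorem rent_two (c y : ℕ) : rent c (y + 2) = rho c y + 2 := rfl

theorem rent_lt (c v : ℕ) : rent c v < 64 := by
  rcases v with _ | _ | y
  · rw [rent_zero]; norm_num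
  · rw [rent_one]; norm_num
  · rw [rent_two]
    have := rho_lt c y
    omega

theorem rent_eq_zero {c v : ℕ} (h : rent c v = 0) : v = 0 := by
  rcases v with _ | _ | y
  · rfl
  · rw [rent_one] at h; omega
  · rw [rent_two] at h; omega

theorem ent_zero (y : ℕ) : ent 0 y = 0 := by
  refine Nat.eq_of_testBit_eq fun i => ?_
  rw [testBit_ent]
  simp

theorem ent_pmn {c : ℕ} (hc : c ∈ cds) (T : ℕ) : ∀ n ≤ 36,
    (∀ k < n, ent (pmn c T n) (rho c k) = rent c (ent T k)) ∧
      ∀ y, (∀ k < n, rho c k ≠ y) → ent (pmn c T n) y = 0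
  | 0, _ => ⟨fun k hk => absurd hk (by omega), fun y _ => ent_zero y⟩
  | n + 1, hn => by
    obtain ⟨h1, h2⟩ := ent_pmn hc T n (by omega)
    have e : pmn c T (n + 1) = put (pmn c T n) (rho c n) (rent c (ent T n)) := rfl
    have hinj := rho_facts.2.1 c hc
    have h0 : ent (pmn c T n) (rho c n) = 0 := by
      refine h2 _ fun k hk h => ?_
      have := hinj k (by omega) n (by omega) h
      omega
    rw [e]
    constructor
    · intro k hk
      rw [ent_put (rent_lt _ _) h0]
      by_cases hkn : k = n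
      · subst hkn; rw [if_pos rfl]
      · rw [if_neg fun h => hkn (hinj k (by omega) n (by omega) h)]
        exact h1 k (by omega)
    · intro y hy
      rw [ent_put (rent_lt _ _) h0, if_neg fun h => hy n (by omega) h.symm]
      exact h2 y fun k hk => hy k (by omega)

theorem en_pl3 {c : ℕ} (hc : c ∈ cds) (A B C : Tri) {k : ℕ} (hk : k < 36) :
    en (pl3 c [A, B, C]) (rho c k) = en [A, B, C] k := by
  obtain ⟨h1, h2⟩ := rho_mod c k
  unfold en
  rw [h1, h2]
  have hk' : k / 12 < 3 := by omega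
  generalize k / 12 = i at hk'
  simp only [cds, List.mem_cons, List.not_mem_nil, or_false] at hc
  rcases hc with rfl | rfl | rfl | rfl | rfl | rfl <;> interval_cases i <;> rfl

/-- permutation of the triple points -/
theorem Ctx.perm {L' : List Tri} (c : Ctx D L R χ m κ) (h : L'.Perm L) : Ctx D L' R χ m κ where
  wfD := c.wfD
  hn := c.hn
  sv := c.sv.perm (List.Perm.append_left _ (TC_perm (List.Perm.append_right _ h.symm)))
  ok := fun T hT => c.ok T (by
    rw [List.mem_append] at hT ⊢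
    rcases hT with hT | hT
    · exact Or.inl (h.mem_iff.1 hT)
    · exact Or.inr hT)
  bad := fun T hT => c.bad T (h.mem_iff.1 hT)
  mir := fun T hT T' hT' => c.mir T (h.mem_iff.1 hT) T' (h.mem_iff.1 hT')
  cl := fun T hT => c.cl T (h.mem_iff.1 hT)
  cr := c.cr

theorem pt_pl3 {A B C : Tri} (c : Ctx D [A, B, C] R χ m κ) {cd : ℕ} (hc : cd ∈ cds) {k : ℕ}
    (hk : k < 36) : pt (pl3 cd [A, B, C]) m (rho cd k) = rent cd (pt [A, B, C] m k) := by
  have c' := c.perm (pl3_perm cd A B C)
  have hl : (pl3 cd [A, B, C]).length = 3 := (pl3_perm cd A B C).length_eq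
  have hr : rho cd k < 12 * (pl3 cd [A, B, C]).length := by
    rw [hl]; exact rho_facts.1 cd hc k hk
  have e := en_pl3 hc A B C hk
  rcases c.pt_cases (k := k) (by simpa using hk) with ⟨h1, h2⟩ | ⟨j, hj, h1, h2⟩
  · rw [h2, rent_one]
    refine c'.pt_of_D hr ?_
    rw [e]
    exact h1
  · have hj' : j < 36 := by simpa using hj
    rw [h2, rent_two]
    refine c'.pt_of_en hr (by rw [hl]; exact rho_facts.1 cd hc j hj') ?_
    rw [e, h1, en_pl3 hc A B C hj']

theorem okT_pl3 {A B C : Tri} (c : Ctx D [A, B, C] R χ m κ) {cd : ℕ} (hc : cd ∈ cds) {T : ℕ}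
    (h : OkT pl₃ mi₃ 9 (pt [A, B, C] m) T) : OkT pl₃ mi₃ 9 (pt (pl3 cd [A, B, C]) m) (pm cd T) := by
  obtain ⟨f1, f2, f3, f4, f5⟩ := rho_facts
  obtain ⟨e1, e2⟩ := ent_pmn hc T 36 (le_refl _)
  have e1' : ∀ k < 36, ent (pm cd T) (rho cd k) = rent cd (ent T k) := e1
  constructor
  · intro x hx h0
    obtain ⟨k, hk, rfl⟩ := f3 cd hc x hx
    rw [e1' k hk] at h0 ⊢
    rw [pt_pl3 c hc hk]
    congr 1
    refine h.val k (by omega) fun h2 => h0 ?_
    rw [h2, rent_zero]
  · intro x hx
    refine e2 x fun k hk h2 => ?_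
    have := f1 cd hc k hk
    omega
  · intro x hx h0
    have hx36 : x < 36 := by
      have : ∀ x ∈ pl₃ ++ mi₃, x < 36 := by decide
      exact this x hx
    obtain ⟨k, hk, rfl⟩ := f3 cd hc x hx36
    have hk' := f4 cd hc k hk hx
    rw [e1' k hk] at h0
    have h1 := h.par k hk' (rent_eq_zero h0)
    have hu : un k < 36 := by
      have : ∀ x ∈ pl₃ ++ mi₃, un x < 36 := by decide +kernel
      exact this k hk'
    rw [f5 cd hc k hk', e1' _ hu, h1, rent_zero]
  · intro x hx y hy h0
    obtain ⟨k, hk, rfl⟩ := f3 cd hc x hx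
    rw [pt_pl3 c hc hk] at hy
    rw [e1' k hk] at h0
    have h1 := rent_eq_zero h0
    rcases hp : pt [A, B, C] m k with _ | _ | y₀
    · rw [hp, rent_zero] at hy; omega
    · rw [hp, rent_one] at hy; omega
    · rw [hp, rent_two] at hy
      have hy' : y = rho cd y₀ := by omega
      have hy₀ : y₀ < 12 * [A, B, C].length := (c.pt_arc (k := k) (by simpa using hk) hp).1
      have hy₀' : y₀ < 36 := by simpa using hy₀
      rw [hy', e1' _ hy₀', h.sym k hk y₀ hp h1, rent_zero]

/-- all patterns in the state `T` have at least twice as many corners as components -/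
def Slv (e : List Bool) (pl mi : List ℕ) (T : ℕ) : Prop :=
  ∀ (D : Code) (L R : List Tri) (χ m : ℕ → ℕ) (κ : ℕ), Ctx D L R χ m κ → ∀ Q : Code,
    (∀ q ∈ TC L, q ∈ Q) → (L.map eps = e ∨ L.map eps = e.map not) →
    OkT pl mi (3 * e.length) (pt L m) T → Gl D Q L m

theorem slv_run {e : List Bool} {pl mi : List ℕ} {OV : ℕ} (hN : NumOk e.length pl mi OV)
    {cs : List ℕ} (hcs : ∀ c ∈ cs, e.length = 3 ∧ pl = pl₃ ∧ mi = mi₃ ∧ c ∈ cds ∧ pl3 c e = e)
    (T s : ℕ) (ts : List ℕ) (hts : ∀ t ∈ ts, Slv e pl mi t)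
    (h : run3 pl mi (esE e) OV (numE e) (3 * e.length) cs ts 60 T s (fun _ => true) = true) :
    Slv e pl mi T := by
  intro D L R χ m κ c Q hQ he hT
  have hlen : L.length = e.length := by
    rcases he with he | he
    · have := congrArg List.length he
      simpa using this
    · have := congrArg List.length he
      simpa using this
  have hp := c.pat' (by rw [hlen]; exact hN) he
  rw [hlen] at hp
  refine run3_sound hp (fun h => c.gl_of_cs hQ (by rw [hlen]; exact h)) (fun T' cd hT' hcd hm => ?_)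
    T s _ hT h
  obtain ⟨g1, rfl, rfl, g2, g3⟩ := hcs cd hcd
  rw [g1] at hlen
  obtain ⟨A, B, C, rfl⟩ := List.length_eq_three.1 hlen
  rw [g1] at hT'
  have c' := c.perm (pl3_perm cd A B C)
  have hm' : (pl3 cd [A, B, C]).map eps = pl3 cd ([A, B, C].map eps) := pl3_map _ _ _ _ _
  have := hts _ hm D _ R χ m κ c' Q (fun q hq => hQ q ((TC_perm (pl3_perm cd A B C)).mem_iff.1 hq))
    (by
      rw [hm']
      rcases he with he | he
      · left; rw [he, g3]
      · right
        rw [he]
        obtain ⟨x, y, z, rfl⟩ := List.length_eq_three.1 g1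
        have e2 := pl3_map not cd x y z
        rw [g3] at e2
        exact e2.symm) (by rw [g1]; exact okT_pl3 c g2 hT')
  exact this.perm (pl3_perm cd A B C)

theorem slv_gl {e : List Bool} {pl mi : List ℕ} {OV : ℕ} (hN : NumOk e.length pl mi OV)
    (h : Slv e pl mi 0) (c : Ctx D L R χ m κ) (hQ : ∀ q ∈ TC L, q ∈ Q)
    (he : L.map eps = e ∨ L.map eps = e.map not) : Gl D Q L m := by
  have hlen : L.length = e.length := by
    rcases he with he | he
    · have := congrArg List.length he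
      simpa using this
    · have := congrArg List.length he
      simpa using this
  have hp := c.pat' (by rw [hlen]; exact hN) he
  rw [hlen] at hp
  exact h D L R χ m κ c Q hQ he (okT_zero hp)

end Pool.Agent.W5h73.TT
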