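import Pool.Agent.Y874.TP2.Reduce
import Pool.Agent.R800.BT.Rec
import Pool.Agent.Y514.TP.OutP
import Pool.Agent.W5h73.TT.JC
import Pool.Agent.W5h73.TT.MirB

/-! The reduction. -/

namespace Pool.Agent.W5h73.TT

open Pool.Agent.Y468.SR
open Pool.Agent.Y874.TP hiding S_REID S_REN S_THREE S_OUT S_CUT S_JUNC CStep CReid CM InvM InvC Inv3
open Pool.Agent.Y874.TP2
open Pool.Agent.R800.BT (Hts Mono Bad Sv)

set_option linter.unusedSimpArgs false
set_option linter.unusedVariables false

/-- The data carried along: `P` is a condition on the classes of the triple points. -/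
structure Inv4 (P : List ℕ → Prop) (D : Code) (Ts : List Tri) : Prop where
  wf : WF (passes (D ++ TC Ts))
  ok : ∀ T ∈ Ts, T.Ok ∧ T.Col
  ht : ∀ T ∈ Ts, Hts T ∧ Mono colour T
  ev : ∀ p ∈ passes (D ++ TC Ts), colour p.crossing % 2 = 0
  ct : P (Ts.map fun T => colour T.a₁)
  inv : InvC (D ++ TC Ts)

/-- The result of one step of the reduction. -/
def Red4 (P : List ℕ → Prop) (D : Code) (Ts : List Tri) : Prop :=
  ∃ D' Ts', (Ts'.length < Ts.length ∨
      (Ts'.length = Ts.length ∧ (passes D').length < (passes D).length)) ∧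
    Classical D' ∧ (D'.map Prod.snd).Nodup ∧ Inv4 P D' Ts' ∧ Movie true false D D'

/-- the condition is kept by removal -/
def Her (P : List ℕ → Prop) : Prop := ∀ l l' : List ℕ, l'.Sublist l → P l → P l'

variable {P : List ℕ → Prop}

theorem caseA4 (hreid : S_REID) {D : Code} {Ts : List Tri} (hD : Classical D)
    (hn : (D.map Prod.snd).Nodup) (h3 : Inv4 P D Ts) {C : List Pass × ℕ} (hC : C ∈ D)
    {a c : List Pass} {p q : Pass} (h : C.1 = a ++ p :: q :: c)
    (h1 : q.crossing = p.crossing) (h2 : q.isOver = !p.isOver) (hc : colour p.crossing % 2 = 0) :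
    Red4 P D Ts := by
  have hp : p ∈ passes D := mem_passes.2 ⟨C, hC, by simp [h]⟩
  have hq : q ∈ passes D := mem_passes.2 ⟨C, hC, by simp [h]⟩
  have hqp : q = p.mate := by
    rcases hD.1.eq_mate hp hq h1 with rfl | rfl
    · simp at h2
    · rfl
  subst hqp
  obtain ⟨D', A, B, e1, e2, e3⟩ := exists_remove hC h
  have hperm : (passes D).Perm ([p, p.mate] ++ passes D') := by
    rw [← pl_enc, ← pl_enc, e1, e2]
    simp only [pl_append, pl_two, List.append_assoc]
    rw [← List.append_assoc, ← List.append_assoc]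
    exact List.Perm.append_right _ List.perm_append_comm
  have hW : WF ([p, p.mate] ++ passes D') := WF.perm hperm hD.1
  have hW' : WF (passes D') := hW.remove (by simp)
  have hD' : Classical D' := by
    refine ⟨hW', planar_iff.2 ?_⟩
    rw [e2]
    refine planarE_one (p := p) (fun r hr => ?_) ?_
    · rw [← e2, pl_enc] at hr
      exact hW.ne_crossing (by simp) (by simp) hr
    · rw [← e1]; exact planar_iff.1 hD.2
  have hR : CReid (enc D) (enc D') := by
    rw [e1, e2]; exact CReid.one A B p hc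
  have hI : InvC (D' ++ TC Ts) := by
    refine (hreid (D ++ TC Ts) (D' ++ TC Ts) h3.wf ?_).1 h3.inv
    rw [enc_append, enc_append]
    exact creid_append hR _
  have hWe : WF (passes (D' ++ TC Ts)) := by
    refine WF.remove (k := [p, p.mate]) (WF.perm ?_ h3.wf) (by simp)
    rw [passes_append', passes_append', ← List.append_assoc]
    exact List.Perm.append_right _ hperm
  have hE : ∀ p ∈ passes (D' ++ TC Ts), colour p.crossing % 2 = 0 := by
    intro r hr
    refine h3.ev r ?_
    rw [passes_append', List.mem_append] at hr ⊢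
    rcases hr with hr | hr
    · exact Or.inl (hperm.mem_iff.2 (by simp [hr]))
    · exact Or.inr hr
  refine ⟨D', Ts, Or.inr ⟨rfl, ?_⟩, hD', by rw [e3]; exact hn,
    ⟨hWe, h3.ok, h3.ht, hE, h3.ct, hI⟩,
    Movie.head hD hD' (Step.reid D D' hR.reid) Relation.ReflTransGen.refl⟩
  rw [hperm.length_eq]; simp

theorem same_facts4 {Ts' Ts : List Tri} (h : List.Forall₂ SameTri Ts' Ts) :
    (Ts'.map fun T => colour T.a₁) = (Ts.map fun T => colour T.a₁) ∧
    ((∀ T ∈ Ts, Hts T ∧ Mono colour T) → ∀ T ∈ Ts', Hts T ∧ Mono colour T) := by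
  induction h with
  | nil => exact ⟨rfl, fun _ T hT => absurd hT (by simp)⟩
  | @cons T' T Ts' Ts h _ ih =>
    obtain ⟨i, j, k, rfl⟩ := h
    obtain ⟨h1, h2⟩ := ih
    refine ⟨?_, fun h => ?_⟩
    · rw [List.map_cons, List.map_cons, h1]
    · intro T₁ hT₁
      rcases List.mem_cons.1 hT₁ with rfl | hT₁
      · exact h T (by simp)
      · exact h2 (fun T hT => h T (by simp [hT])) T₁ hT₁

theorem caseB4' (hreid : S_REID) (hcut : S_CUT) {p q : Pass} {v : List Pass} {b : ℕ} {R : Code}
    {Ts : List Tri} (hD : Classical ((p :: v, b) :: R))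
    (hn : (((p :: v, b) :: R).map Prod.snd).Nodup) (h3 : Inv4 P ((p :: v, b) :: R) Ts)
    {m : ℕ → ℕ} (hm : InvM ((p :: v, b) :: R ++ TC Ts) m)
    {C : List Pass × ℕ} (hC : C ∈ ((p :: v, b) :: R)) {a c : List Pass}
    (h : C.1 = a ++ p.mate :: q.mate :: c) (h0 : m p.crossing ≠ p.crossing)
    (h1 : q.crossing = m p.crossing) (h2 : q.isOver = p.isOver) :
    Red4 P ((p :: v, b) :: R) Ts := by
  have hp : p ∈ passes ((p :: v, b) :: R) := by simp
  have hq' : q.mate ∈ passes ((p :: v, b) :: R) := mem_passes.2 ⟨C, hC, by simp [h]⟩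
  have hq : q ∈ passes ((p :: v, b) :: R) := by simpa using hD.1.1 _ hq'
  have hin : ∀ r ∈ passes ((p :: v, b) :: R), r ∈ passes ((p :: v, b) :: R ++ TC Ts) := by
    intro r hr; rw [passes_append']; exact List.mem_append_left _ hr
  have hpq : p.crossing ≠ q.crossing := by rw [h1]; exact Ne.symm h0
  have hmq : m q.crossing = p.crossing := by rw [h1]; exact matching_invol hm.1 (hin p hp)
  have hs : q.isPos = !p.isPos := by
    obtain ⟨q₀, g1, g2, g3, g4⟩ := hm.1 p (hin p hp)
    rw [WellFormed.sign_eq (D := (p :: v, b) :: R ++ TC Ts) h3.wf g1 (hin q hq) (by rw [g2, h1])]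
    exact g4 (by rw [g2]; exact h0)
  have hcol : colour p.crossing = colour q.crossing := by
    rw [h1]; exact ((hm.2.1 p (hin p hp)).1).symm
  have e1 : p.mate ≠ p := by intro h; simpa using congrArg Pass.isOver h
  have e2 : q.mate ≠ q := by intro h; simpa using congrArg Pass.isOver h
  have e3 : p.mate ≠ q := fun h => hpq (congrArg Pass.crossing h : p.mate.crossing = q.crossing)
  have e4 : q.mate ≠ p := fun h =>
    hpq (congrArg Pass.crossing h : q.mate.crossing = p.crossing).symm
  have e5 : p ≠ q := fun h => hpq (congrArg Pass.crossing h)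
  have hnd := WF.nodup hD.1
  have hpv : p ∉ v := by
    rw [passes_cons, List.cons_append, List.nodup_cons] at hnd
    exact fun h => hnd.1 (by simp [h])
  have hRb : ∀ C ∈ R, C.2 ≠ b := by
    intro C hC he
    rw [List.map_cons, List.nodup_cons] at hn
    exact hn.1 (List.mem_map.2 ⟨C, hC, he⟩)
  -- the passages of one type at the two crossings belong to the same component
  have hqv : q ∈ v := by
    by_contra hqv
    have hv1 : Valid (passes ((p :: v, b) :: R ++ TC Ts)) m (fun _ => (1 : Multiplicative ℤ))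
        (fun _ => 1) := fun r _ => by simp
    have := hm.2.2 _ _ _ (valid_tw hv1 hm.1 h1.symm hmq hpq (Multiplicative.ofAdd 1) p.isOver) b
    rw [vals_append, bv_append] at this
    simp only [vals, List.map_cons] at this
    rw [bv_cons, if_pos rfl] at this
    have hb1 := bv_vals_nil (o := tw p.crossing q.crossing (Multiplicative.ofAdd (1 : ℤ)) p.isOver
      fun _ => 1) (u := tw p.crossing q.crossing (Multiplicative.ofAdd (1 : ℤ)) (!p.isOver)
      fun _ => 1) hRb
    unfold vals at hb1
    rw [hb1, List.cons_append, List.nil_append] at this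
    have h4 : ∀ w : List Pass, wval (fun _ => (1 : Multiplicative ℤ)) (fun _ => 1) w = 1 := by
      intro w
      induction w with
      | nil => rfl
      | cons r v ih => rw [wval_cons, ih]; simp [val]
    have h5 := cn_ones (fun y hy => ?_) this
    · simp only [wval_cons] at h5
      have h3 : wval (tw p.crossing q.crossing (Multiplicative.ofAdd (1 : ℤ)) p.isOver fun _ => 1)
          (tw p.crossing q.crossing (Multiplicative.ofAdd (1 : ℤ)) (!p.isOver) fun _ => 1) v =
          wval (fun _ => 1) (fun _ => 1) v := by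
        refine wval_congr fun r hr => ?_
        rw [val_tw]
        split_ifs with k1 k2 k3
        · exact absurd (hD.1.eq_of (by simp [hr]) hp k2 k1 ▸ hr) hpv
        · exact absurd (hD.1.eq_of (by simp [hr]) hq k3 (k1.trans h2.symm) ▸ hr) hqv
        · rfl
        · rfl
      rw [h3, h4, val_tw, if_pos rfl, if_pos rfl, mul_one] at h5
      have := congrArg Multiplicative.toAdd h5
      simp at this
    · simp only [bv, List.mem_map, List.mem_filter] at hy
      obtain ⟨x, ⟨⟨C', hC', rfl⟩, -⟩, rfl⟩ := hy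
      simp only
      refine Eq.trans (wval_congr (o' := fun _ => 1) (u' := fun _ => 1) fun r hr => ?_) (h4 C'.1)
      have hr' : r ∈ passes (TC Ts) := mem_passes.2 ⟨C', hC', hr⟩
      have k4 := sep hD.1 h3.wf hp hr'
      have k5 := sep hD.1 h3.wf hq hr'
      rw [val_tw, if_neg k4, if_neg k5, ite_self]
  obtain ⟨y, z, rfl⟩ := List.append_of_mem hqv
  obtain ⟨b', hb'⟩ := Infinite.exists_notMem_finset
    (((p :: (y ++ q :: z), b) :: R ++ TC Ts).map Prod.snd).toFinset
  have hb'' : b' ≠ b ∧ ∀ C ∈ R ++ TC Ts, C.2 ≠ b' := by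
    simp only [List.cons_append, List.map_cons, List.mem_toFinset, List.mem_cons, not_or,
      List.mem_map, not_exists, not_and] at hb'
    exact ⟨hb'.1, hb'.2⟩
  have hb' : b' ≠ b ∧ ∀ C ∈ R, C.2 ≠ b' := ⟨hb''.1, fun C hC => hb''.2 C (by simp [hC])⟩
  -- the factor
  have hfac : ∃ C₃ ∈ ((z, b) :: (y, b') :: R), ∃ a₃ c₃, C₃.1 = a₃ ++ p.mate :: q.mate :: c₃ := by
    rcases List.mem_cons.1 hC with rfl | hC
    · rcases a with _ | ⟨s, a⟩
      · simp only [List.nil_append, List.cons.injEq] at h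
        exact absurd h.1.symm e1
      · simp only [List.cons_append, List.cons.injEq] at h
        rcases fac_mid h.2 e3.symm e2.symm with ⟨a', c', h⟩ | ⟨a', c', h⟩
        · exact ⟨(y, b'), by simp, a', c', h⟩
        · exact ⟨(z, b), by simp, a', c', h⟩
    · exact ⟨C, by simp [hC], a, c, h⟩
  obtain ⟨C₃, hC₃, a₃, c₃, h₃⟩ := hfac
  obtain ⟨hperm₄, hD₄, hmov⟩ := cut_movie hD hpq h2 hs hb' (b₁ := b) (b₂ := b')
    (Or.inl ⟨rfl, rfl⟩) hC₃ h₃
  obtain ⟨D', hD', f3, hperm₅, hRe⟩ := Pool.Agent.Y874.TP2.creid_after hD₄ hpq h2 hs hcol hC₃ h₃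
  obtain ⟨S', s1, s2, s3⟩ := hcut p q y z b b' (R ++ TC Ts) m h3.wf hm h0 h1 h2 hb'.1.symm hb''.2
  obtain ⟨Ts', rfl, s4⟩ := split_labels R S' s1 s2 hRb
  obtain ⟨t1, t2, t3, t4⟩ := Pool.Agent.Y874.TP2.same_facts s4
  obtain ⟨t5, t6⟩ := same_facts4 s4
  have hW₄ : WF (passes ((p :: q :: z, b) :: (y, b') :: R ++ TC Ts')) := by
    have := h3.wf
    rw [passes_append'] at this ⊢
    rw [t3]
    exact WF.perm (List.Perm.append_right _ hperm₄) this
  have hI : InvC (D' ++ TC Ts') := by
    refine (hreid ((p :: q :: z, b) :: (y, b') :: R ++ TC Ts') (D' ++ TC Ts') hW₄ ?_).1 ⟨m, s3⟩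
    rw [enc_append, enc_append]
    exact creid_append hRe _
  have hW₅ : WF (passes (D' ++ TC Ts')) := by
    refine WF.remove (k := [p, q, p.mate, q.mate]) (WF.perm ?_ hW₄) (by simp)
    rw [passes_append', passes_append', ← List.append_assoc]
    exact List.Perm.append_right _ hperm₅
  have hE : ∀ p ∈ passes (D' ++ TC Ts'), colour p.crossing % 2 = 0 := by
    intro r hr
    refine h3.ev r ?_
    rw [passes_append', List.mem_append, t3] at hr
    rw [passes_append', List.mem_append]
    rcases hr with hr | hr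
    · refine Or.inl (hperm₄.mem_iff.2 (hperm₅.mem_iff.2 ?_))
      rw [List.mem_append]
      exact Or.inr hr
    · exact Or.inr hr
  refine ⟨D', Ts', Or.inr ⟨t1, ?_⟩, hD', ?_, ⟨hW₅, t4 h3.ok, t6 h3.ht, hE, by rw [t5]; exact h3.ct,
    hI⟩,
    (movie_mono hmov).trans (Movie.head hD₄ hD' (Step.reid _ D' hRe.reid)
      Relation.ReflTransGen.refl)⟩
  · rw [hperm₄.length_eq, hperm₅.length_eq]; simp; omega
  · rw [f3]
    simp only [List.map_cons, List.nodup_cons, List.mem_cons, not_or] at hn ⊢
    refine ⟨⟨hb'.1.symm, hn.1⟩, fun h => ?_, hn.2⟩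
    obtain ⟨C, hC, h⟩ := List.mem_map.1 h
    exact hb'.2 C hC h

theorem inv4_perm {D D' : Code} {Ts : List Tri} (hp : D.Perm D') (h : Inv4 P D Ts) :
    Inv4 P D' Ts where
  wf := by
    have := h.wf
    rw [passes_append'] at this ⊢
    exact WF.perm (List.Perm.append_right _ (passes_perm hp)) this
  ok := h.ok
  ht := h.ht
  ev := fun r hr => by
    refine h.ev r ?_
    rw [passes_append', List.mem_append] at hr ⊢
    exact hr.imp (fun h => (passes_perm hp).mem_iff.2 h) id
  ct := h.ct
  inv := invC_perm (hp.append_right _) h.inv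

theorem inv4_rotate {x y : List Pass} {b : ℕ} {R : Code} {Ts : List Tri}
    (h : Inv4 P ((x ++ y, b) :: R) Ts) : Inv4 P ((y ++ x, b) :: R) Ts where
  wf := by
    have := h.wf
    rw [passes_append', passes_cons] at this ⊢
    exact WF.perm (List.Perm.append_right _ (List.Perm.append_right _ List.perm_append_comm)) this
  ok := h.ok
  ht := h.ht
  ev := fun r hr => by
    refine h.ev r ?_
    rw [passes_append', passes_cons, List.mem_append, List.mem_append] at hr ⊢
    refine hr.imp (fun h => h.imp (fun h => ?_) id) id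
    exact List.perm_append_comm.mem_iff.1 h
  ct := h.ct
  inv := by
    obtain ⟨m, hm⟩ := h.inv
    exact ⟨m, by simpa using invM_rotate (R := R ++ TC Ts) (by simpa using hm)⟩

theorem caseB4 (hreid : S_REID) (hcut : S_CUT) {D : Code} {Ts : List Tri} (hD : Classical D)
    (hn : (D.map Prod.snd).Nodup) (h3 : Inv4 P D Ts) {m : ℕ → ℕ} (hm : InvM (D ++ TC Ts) m)
    {C : List Pass × ℕ} (hC : C ∈ D)
    {a c : List Pass} {p q : Pass} (h : C.1 = a ++ p :: q :: c) (h0 : m p.crossing ≠ p.crossing)
    (h1 : q.crossing = m p.crossing) (h2 : q.isOver = p.isOver) : Red4 P D Ts := by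
  have hp : p ∈ passes D := mem_passes.2 ⟨C, hC, by simp [h]⟩
  have hpq : p.crossing ≠ q.crossing := by rw [h1]; exact Ne.symm h0
  obtain ⟨⟨w, b⟩, hC', hpC'⟩ := mem_passes.1 (hD.1.1 p hp)
  obtain ⟨D₁, D₂, rfl⟩ := List.append_of_mem hC'
  obtain ⟨x, v, rfl⟩ := List.append_of_mem hpC'
  have hperm : (D₁ ++ (x ++ p.mate :: v, b) :: D₂).Perm ((x ++ p.mate :: v, b) :: (D₁ ++ D₂)) :=
    List.perm_middle
  have c1 := classical_perm hperm hD
  have c2 : Classical ((p.mate :: v ++ x, b) :: (D₁ ++ D₂)) := classical_rotate c1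
  have i1 := inv4_perm hperm h3
  have i2 : Inv4 P ((p.mate :: v ++ x, b) :: (D₁ ++ D₂)) Ts := inv4_rotate i1
  have m1 : InvM ((x ++ p.mate :: v, b) :: (D₁ ++ D₂) ++ TC Ts) m :=
    invM_perm (hperm.append_right _) hm
  have m2 : InvM ((p.mate :: v ++ x, b) :: (D₁ ++ D₂) ++ TC Ts) m := by
    simpa using invM_rotate (R := D₁ ++ D₂ ++ TC Ts) (x := x) (y := p.mate :: v)
      (by simpa using m1)
  have hperm2 : (passes ((x ++ p.mate :: v, b) :: (D₁ ++ D₂))).Perm
      (passes ((p.mate :: v ++ x, b) :: (D₁ ++ D₂))) := by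
    rw [passes_cons, passes_cons]
    exact List.Perm.append_right _ List.perm_append_comm
  have l1 : (((p.mate :: (v ++ x), b) :: (D₁ ++ D₂)).map Prod.snd).Nodup := by
    have := (hperm.map Prod.snd).nodup hn
    simpa using this
  have hfac : ∃ C' ∈ ((p.mate :: (v ++ x), b) :: (D₁ ++ D₂)), ∃ a' c',
      C'.1 = a' ++ p :: q :: c' := by
    rcases List.mem_cons.1 (hperm.subset hC) with rfl | hC
    · have k1 : p.mate ≠ p := by intro h; simpa using congrArg Pass.isOver h
      have k2 : p.mate ≠ q := fun h => hpq (congrArg Pass.crossing h : p.mate.crossing = q.crossing)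
      rcases fac_mid h k1 k2 with ⟨a', c', h⟩ | ⟨a', c', h⟩
      · exact ⟨_, List.mem_cons_self, p.mate :: v ++ a', c', by simp [h]⟩
      · exact ⟨_, List.mem_cons_self, p.mate :: a', c' ++ x, by simp [h]⟩
    · exact ⟨C, List.mem_cons_of_mem _ hC, a, c, h⟩
  obtain ⟨C', hC', a', c', h'⟩ := hfac
  obtain ⟨D', Ts', r1, r2, r3, r4, r5⟩ := caseB4' hreid hcut (p := p.mate) (q := q.mate) c2 l1 i2 m2
    hC' (a := a') (c := c') (by simpa using h') h0 h1 (by simp [h2])
  refine ⟨D', Ts', ?_, r2, r3, r4, Movie.head hD c1 (Step.perm _ _ hperm) (Movie.head c1 c2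
    (Step.rotate x (p.mate :: v) b (D₁ ++ D₂)) r5)⟩
  rw [(passes_perm hperm).length_eq, hperm2.length_eq]
  exact r1

theorem mem_ext {p r q s : Pass} {tc : Bool} {na nb : ℕ} (h : s ∈ Pool.Agent.Y874.TP.ext p r tc na nb q) :
    s = p ∨ s = r ∨ s = q ∨ s.crossing = na ∨ s.crossing = nb := by
  unfold Pool.Agent.Y874.TP.ext at h
  split_ifs at h <;> simp only [List.mem_cons, List.not_mem_nil, or_false] at h
  · exact Or.inr (Or.inl h)
  · exact Or.inl h
  · rcases h with rfl | rfl | rfl <;> simp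
  · rcases h with rfl | rfl | rfl <;> simp
  · rcases h with rfl | rfl | rfl <;> simp
  · exact Or.inr (Or.inr (Or.inl h))

theorem remT4 (hP : Her P) (hout : S_OUT) (hmid : S_MID) (houtp : S_OUTP) (hmove : S_MOVE)
    {D : Code} {Ts : List Tri} (hD : Classical D) (hn : (D.map Prod.snd).Nodup) (h3 : Inv4 P D Ts)
    {m : ℕ → ℕ} (hm : InvM (D ++ TC Ts) m) {C : List Pass × ℕ} (hC : C ∈ D) {a c : List Pass}
    {p r : Pass} (h : C.1 = a ++ p :: r :: c) {T : Tri} (hT : T ∈ Ts) {W : List Pass}
    (hW : W ∈ [T.wi, T.wj, T.wk]) {p' r' : Pass} (hcyc : Cyc r' p' W)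
    (e1 : p'.crossing = m p.crossing) (e2 : p'.isOver = p.isOver)
    (e3 : r'.crossing = m r.crossing) (e4 : r'.isOver = r.isOver) : Red4 P D Ts := by
  obtain ⟨T', g1, rfl, rfl, g4⟩ := normal hW hcyc
  obtain ⟨l₁, l₂, rfl⟩ := List.append_of_mem hT
  obtain ⟨hok, hco⟩ := h3.ok T hT
  have hperm : (D ++ TC (l₁ ++ T :: l₂)).Perm (D ++ (T.code ++ TC (l₁ ++ l₂))) := by
    refine List.Perm.append_left _ ?_
    simp only [TC, List.flatMap_append, List.flatMap_cons]
    rw [← List.append_assoc, ← List.append_assoc]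
    exact List.Perm.append_right _ List.perm_append_comm
  have hm' : InvM (D ++ (T'.code ++ TC (l₁ ++ l₂))) m := invM_ceq g4.ceq (invM_perm hperm hm)
  have hW' : WF (passes (D ++ (T'.code ++ TC (l₁ ++ l₂)))) :=
    wf_ceq g4.ceq (WF.perm (passes_perm hperm) h3.wf)
  have hok' := g4.ok hok
  have hco' := g4.col hco
  have hcn : T'.a₁ ≠ T'.b₁ := by
    intro h
    have h1 := hW'.2
    have h2 : (passes T'.code).Nodup := by
      have := WF.nodup hW'
      rw [passes_append', passes_append'] at this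
      exact (List.nodup_append.1 (List.nodup_append.1 this).2.1).1
    have h3 : ∀ P Q : Pass, P ∈ passes (D ++ (T'.code ++ TC (l₁ ++ l₂))) →
        Q ∈ passes (D ++ (T'.code ++ TC (l₁ ++ l₂))) → P.crossing = Q.crossing →
        P.isOver = Q.isOver → P = Q := fun P Q hP hQ hc ho =>
      List.inj_on_of_nodup_map h1 hP hQ (by simp [hc, ho])
    have hmem : ∀ P ∈ passes T'.code, P ∈ passes (D ++ (T'.code ++ TC (l₁ ++ l₂))) := by
      intro P hP
      rw [passes_append', passes_append']; simp [hP]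
    by_cases ho : T'.ta = T'.tb
    · have e := h3 T'.pa₁ T'.pb₁ (hmem _ (by rw [mem_code]; simp)) (hmem _ (by rw [mem_code]; simp))
        h ho
      rw [Tri.code, passes_cons] at h2
      have h4 := (List.nodup_append.1 h2).1
      unfold Tri.wi word4 at h4
      rw [if_pos g1, e] at h4
      simp at h4
    · have e := h3 T'.pa₁.mate T'.pb₁ (hmem _ (by rw [mem_code]; simp))
        (hmem _ (by rw [mem_code]; simp)) h (by
          change (!T'.ta) = T'.tb
          cases h5 : T'.ta <;> cases h6 : T'.tb <;> simp_all)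
      rw [Tri.code, passes_cons, passes_cons] at h2
      refine (List.nodup_append.1 h2).2.2 T'.pb₁ ?_ T'.pa₁.mate ?_ e.symm
      · unfold Tri.wi word4; rw [if_pos g1]; simp
      · unfold Tri.wj word4; split_ifs <;> simp
  obtain ⟨K, hK⟩ := exists_bound (passes (D ++ (T'.code ++ TC (l₁ ++ l₂))))
  have hfr : ∀ k, ∀ q ∈ passes (D ++ (T'.code ++ TC (l₁ ++ l₂))),
      q.crossing ≠ Nat.pair (colour T'.c₁) (K + k) := by
    intro k p hp he
    have := hK p hp
    rw [he, Nat.unpair_pair] at this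
    simp only at this
    omega
  have hcol : ∀ k, colour (Nat.pair (colour T'.c₁) (K + k)) = colour T'.c₁ := fun k => by
    rw [colour, Nat.unpair_pair]
  have hne : Nat.pair (colour T'.c₁) (K + 0) ≠ Nat.pair (colour T'.c₁) (K + 1) := by
    intro h
    have := (Nat.pair_eq_pair.1 h).2
    omega
  have hpr : p.crossing ≠ r.crossing := by
    intro he
    have : T'.a₁ = T'.b₁ := by
      have h1 : T'.a₁ = m p.crossing := e1
      have h2 : T'.b₁ = m r.crossing := e3
      rw [h1, h2, he]
    exact hcn this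
  have htc : T'.tc = r.isOver ∨ p.isOver = r.isOver := by
    rw [← e4, ← e2]
    exact hok'.1
  have hev : colour T'.c₁ % 2 = 0 := by
    have h1 : T'.pc₁ ∈ passes T.code := (g4.ceq.1 _).2 (by rw [mem_code]; simp)
    refine h3.ev T'.pc₁ ?_
    have h2 := (passes_perm hperm).mem_iff (a := T'.pc₁)
    rw [h2, passes_append', passes_append']
    simp [h1]
  set na := Nat.pair (colour T'.c₁) (K + 0) with hna
  set nb := Nat.pair (colour T'.c₁) (K + 1) with hnb
  obtain ⟨o1, o2⟩ := hout D (TC (l₁ ++ l₂)) T' m p r C a c na nb hok' hco' g1 hD.1 hW' hm' hC h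
    e1.symm e2.symm e3.symm e4.symm hne (fun q hq => ⟨hfr 0 q hq, hfr 1 q hq⟩) (hcol 0) (hcol 1)
  have hfrD : ∀ q ∈ passes D, q.crossing ≠ na ∧ q.crossing ≠ nb := by
    intro q hq
    have : q ∈ passes (D ++ (T'.code ++ TC (l₁ ++ l₂))) := by
      rw [passes_append']; exact List.mem_append_left _ hq
    exact ⟨hfr 0 q this, hfr 1 q this⟩
  have k1 := hmid D p r T'.tc C a c na nb hD hC h hpr hne hfrD
  have k2 := houtp D p r T'.tc C a c na nb hD hC h hpr hne hfrD
  obtain ⟨k3, k4⟩ := hmove D p r T'.tc C a c na nb hD.1 hC h hpr htc hne hfrD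
  have hpD : p ∈ passes D := mem_passes.2 ⟨C, hC, by simp [h]⟩
  have hrD : r ∈ passes D := mem_passes.2 ⟨C, hC, by simp [h]⟩
  refine ⟨out p r T'.tc na nb D, l₁ ++ l₂, Or.inl ?_, k2, ?_, ⟨o1, ?_, ?_, ?_, ?_, o2⟩,
    Movie.head hD k1 (Step.reidInv _ _ k3) (Movie.head k1 k2 (Step.reid _ _ k4)
      Relation.ReflTransGen.refl)⟩
  · simp only [List.length_append, List.length_cons]; omega
  · have : (out p r T'.tc na nb D).map Prod.snd = D.map Prod.snd := by simp [out]
    rw [this]; exact hn
  · intro T₁ hT₁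
    refine h3.ok T₁ ?_
    rcases List.mem_append.1 hT₁ with h | h
    · simp [h]
    · simp [h]
  · intro T₁ hT₁
    refine h3.ht T₁ ?_
    rcases List.mem_append.1 hT₁ with h | h
    · simp [h]
    · simp [h]
  · intro s hs
    rw [passes_append', List.mem_append] at hs
    have hin : ∀ q ∈ passes D, colour q.crossing % 2 = 0 := fun q hq =>
      h3.ev q (by rw [passes_append']; simp [hq])
    rcases hs with hs | hs
    · rw [Pool.Agent.Y514.TP.passes_out] at hs
      obtain ⟨q, hq, hs⟩ := List.mem_flatMap.1 hs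
      rcases mem_ext hs with rfl | rfl | rfl | h | h
      · exact hin _ hpD
      · exact hin _ hrD
      · exact hin _ hq
      · rw [h, hcol 0]; exact hev
      · rw [h, hcol 1]; exact hev
    · refine h3.ev s ?_
      have h2 := (passes_perm hperm).mem_iff (a := s)
      rw [h2, passes_append', passes_append']
      simp [hs]
  · refine hP _ _ ?_ h3.ct
    simp only [List.map_append, List.map_cons]
    exact List.Sublist.append (List.Sublist.refl _) (List.sublist_cons_self _ _)

end Pool.Agent.W5h73.TT
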