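import Pool.Agent.W5h73.TT.PatC
import Pool.Agent.W5h73.TT.Cert

/-! Patterns of at most two triple points. -/

namespace Pool.Agent.W5h73.TT

open Pool.Agent.Y468.SR
open Pool.Agent.Y874.TP (Tri TC)
open Chk

variable {D : Code} {L R : List Tri} {χ m : ℕ → ℕ} {κ : ℕ}

theorem cc_small (c : Ctx D L R χ m κ) (h : L.length ≤ 2) : Cc (3 * L.length) (pt L m) false := by
  rcases L with _ | ⟨T, _ | ⟨T', _ | ⟨T'', L⟩⟩⟩
  · unfold Cc
    simp
  · cases he : eps T
    · have hp := c.pat (E := 0) num1 (fun i hi => by
        have : i = 0 := by simpa using hi
        subst this
        simp only [List.getD_cons_zero, he]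
        decide)
      have hes : esL [T] = [false, false, false] := by simp [esL, he]
      rw [hes] at hp
      exact cc_of_run hp run1_0
    · have hp := c.pat (E := 1) num1 (fun i hi => by
        have : i = 0 := by simpa using hi
        subst this
        simp only [List.getD_cons_zero, he]
        decide)
      have hes : esL [T] = [true, true, true] := by simp [esL, he]
      rw [hes] at hp
      exact cc_of_run hp run1_1
  · have key : ∀ {E : ℕ}, bit E 0 = eps T → bit E 1 = eps T' → ∀ i < [T, T'].length,
        bit E i = eps ([T, T'].getD i T0) := by
      intro E h0 h1 i hi
      have : i = 0 ∨ i = 1 := by simp at hi; omega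
      rcases this with rfl | rfl
      · exact h0
      · exact h1
    cases he : eps T <;> cases he' : eps T'
    · have hp := c.pat (E := 0) num2 (key (by rw [he]; decide) (by rw [he']; decide))
      have hes : esL [T, T'] = [false, false, false, false, false, false] := by simp [esL, he, he']
      rw [hes] at hp
      exact cc_of_run hp run2_00
    · have hp := c.pat (E := 2) num2 (key (by rw [he]; decide) (by rw [he']; decide))
      have hes : esL [T, T'] = [false, false, false, true, true, true] := by simp [esL, he, he']
      rw [hes] at hp
      exact cc_of_run hp run2_01
    · have hp := c.pat (E := 1) num2 (key (by rw [he]; decide) (by rw [he']; decide))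
      have hes : esL [T, T'] = [true, true, true, false, false, false] := by simp [esL, he, he']
      rw [hes] at hp
      exact cc_of_run hp run2_10
    · have hp := c.pat (E := 3) num2 (key (by rw [he]; decide) (by rw [he']; decide))
      have hes : esL [T, T'] = [true, true, true, true, true, true] := by simp [esL, he, he']
      rw [hes] at hp
      exact cc_of_run hp run2_11
  · simp at h

end Pool.Agent.W5h73.TT
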