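import Pool.Agent.W5h73.TT.Perm3
import Pool.Agent.W5h73.TT.Cert3.C12
import Pool.Agent.W5h73.TT.Cert3.R111
import Pool.Agent.W5h73.TT.Cert3.R011

/-! All classes with at most three triple points. -/

set_option maxRecDepth 1000000

namespace Pool.Agent.W5h73.TT

open Pool.Agent.Y468.SR
open Pool.Agent.Y874.TP (NullV Tri TC passes_append')
open Pool.Agent.Y874.TP2 (part)
open Pool.Agent.R800.BT (Hts Mono Bad Sv)
open Chk

theorem slv_ck {e : List Bool} {pl mi : List ℕ} {OV : ℕ} (hN : NumOk e.length pl mi OV)
    (l : List (ℕ × ℕ)) (h : ck pl mi (esE e) OV (numE e) (3 * e.length) l = true) :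
    ∀ p ∈ l, Slv e pl mi p.1 :=
  ck_sound (cs := []) (fun T s ts cs' hts hcs' hrun =>
    slv_run hN (cs := cs') (fun c hc => absurd (hcs' c hc) (by simp)) T s ts hts hrun) l h

theorem slv_t {e : List Bool} {pl mi : List ℕ} {OV : ℕ} (hN : NumOk e.length pl mi OV)
    {l : List (ℕ × ℕ)} {t : List ℕ} (hs : l.map Prod.fst = t)
    (h : ck pl mi (esE e) OV (numE e) (3 * e.length) l = true) : ∀ x ∈ t, Slv e pl mi x := by
  intro x hx
  rw [← hs, List.mem_map] at hx
  obtain ⟨p, hp, rfl⟩ := hx
  exact slv_ck hN l h p hp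

theorem slv_v {e : List Bool} {pl mi : List ℕ} {OV : ℕ} (hN : NumOk e.length pl mi OV)
    {cs : List ℕ} (hcs : ∀ c ∈ cs, e.length = 3 ∧ pl = pl₃ ∧ mi = mi₃ ∧ c ∈ cds ∧ pl3 c e = e)
    {l : List (ℕ × ℕ)} {t v : List ℕ} (hs : l.map Prod.fst = v) (ht : ∀ x ∈ t, Slv e pl mi x)
    (h : ev pl mi (esE e) OV (numE e) (3 * e.length) cs l t = true) :
    ∀ x ∈ v ++ t, Slv e pl mi x := by
  intro x hx
  rw [List.mem_append] at hx
  rcases hx with hx | hx
  · rw [← hs, List.mem_map] at hx
    obtain ⟨p, hp, rfl⟩ := hx
    exact ev_sound (fun T s ts hts hrun => slv_run hN hcs T s ts hts hrun) l t ht h p hp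
  · exact ht x hx

theorem slv1 : Slv [true] [2, 3, 6] [0, 1, 4] 0 :=
  slv_ck (e := [true]) num1 _ Cert3.k1 _ (by unfold Cert3.l1; exact List.mem_cons_self)

theorem slv11 : Slv [true, true] [2, 3, 6, 14, 15, 18] [0, 1, 4, 12, 13, 16] 0 :=
  slv_ck (e := [true, true]) num2 _ Cert3.k11 _ (by unfold Cert3.l11; exact List.mem_cons_self)

theorem slv01 : Slv [false, true] [2, 3, 6, 14, 15, 18] [0, 1, 4, 12, 13, 16] 0 :=
  slv_ck (e := [false, true]) num2 _ Cert3.k01 _ (by unfold Cert3.l01; exact List.mem_cons_self)

theorem u111_0 : ∀ x ∈ Cert3.u111_0, Slv [true, true, true] pl₃ mi₃ x := by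
  unfold Cert3.u111_0
  simp only [List.forall_mem_append]
  exact ⟨slv_t (e := [true, true, true]) num3 Cert3.s111_000 Cert3.k111_000,
    slv_t (e := [true, true, true]) num3 Cert3.s111_001 Cert3.k111_001,
    slv_t (e := [true, true, true]) num3 Cert3.s111_002 Cert3.k111_002,
    slv_t (e := [true, true, true]) num3 Cert3.s111_003 Cert3.k111_003,
    slv_t (e := [true, true, true]) num3 Cert3.s111_004 Cert3.k111_004,
    slv_t (e := [true, true, true]) num3 Cert3.s111_005 Cert3.k111_005,
    slv_t (e := [true, true, true]) num3 Cert3.s111_006 Cert3.k111_006,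
    slv_t (e := [true, true, true]) num3 Cert3.s111_007 Cert3.k111_007,
    slv_t (e := [true, true, true]) num3 Cert3.s111_008 Cert3.k111_008,
    slv_t (e := [true, true, true]) num3 Cert3.s111_009 Cert3.k111_009,
    slv_t (e := [true, true, true]) num3 Cert3.s111_010 Cert3.k111_010,
    slv_t (e := [true, true, true]) num3 Cert3.s111_011 Cert3.k111_011,
    slv_t (e := [true, true, true]) num3 Cert3.s111_012 Cert3.k111_012,
    slv_t (e := [true, true, true]) num3 Cert3.s111_013 Cert3.k111_013,
    slv_t (e := [true, true, true]) num3 Cert3.s111_014 Cert3.k111_014,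
    slv_t (e := [true, true, true]) num3 Cert3.s111_015 Cert3.k111_015,
    slv_t (e := [true, true, true]) num3 Cert3.s111_016 Cert3.k111_016,
    slv_t (e := [true, true, true]) num3 Cert3.s111_017 Cert3.k111_017,
    slv_t (e := [true, true, true]) num3 Cert3.s111_018 Cert3.k111_018,
    slv_t (e := [true, true, true]) num3 Cert3.s111_019 Cert3.k111_019,
    slv_t (e := [true, true, true]) num3 Cert3.s111_020 Cert3.k111_020,
    slv_t (e := [true, true, true]) num3 Cert3.s111_021 Cert3.k111_021,
    slv_t (e := [true, true, true]) num3 Cert3.s111_022 Cert3.k111_022,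
    slv_t (e := [true, true, true]) num3 Cert3.s111_023 Cert3.k111_023,
    slv_t (e := [true, true, true]) num3 Cert3.s111_024 Cert3.k111_024,
    slv_t (e := [true, true, true]) num3 Cert3.s111_025 Cert3.k111_025,
    slv_t (e := [true, true, true]) num3 Cert3.s111_026 Cert3.k111_026,
    slv_t (e := [true, true, true]) num3 Cert3.s111_027 Cert3.k111_027,
    slv_t (e := [true, true, true]) num3 Cert3.s111_028 Cert3.k111_028,
    slv_t (e := [true, true, true]) num3 Cert3.s111_029 Cert3.k111_029,
    slv_t (e := [true, true, true]) num3 Cert3.s111_030 Cert3.k111_030,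
    slv_t (e := [true, true, true]) num3 Cert3.s111_031 Cert3.k111_031,
    slv_t (e := [true, true, true]) num3 Cert3.s111_032 Cert3.k111_032,
    slv_t (e := [true, true, true]) num3 Cert3.s111_033 Cert3.k111_033,
    slv_t (e := [true, true, true]) num3 Cert3.s111_034 Cert3.k111_034,
    slv_t (e := [true, true, true]) num3 Cert3.s111_035 Cert3.k111_035,
    slv_t (e := [true, true, true]) num3 Cert3.s111_036 Cert3.k111_036,
    slv_t (e := [true, true, true]) num3 Cert3.s111_037 Cert3.k111_037,
    slv_t (e := [true, true, true]) num3 Cert3.s111_038 Cert3.k111_038,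
    slv_t (e := [true, true, true]) num3 Cert3.s111_039 Cert3.k111_039,
    slv_t (e := [true, true, true]) num3 Cert3.s111_040 Cert3.k111_040,
    slv_t (e := [true, true, true]) num3 Cert3.s111_041 Cert3.k111_041,
    slv_t (e := [true, true, true]) num3 Cert3.s111_042 Cert3.k111_042,
    slv_t (e := [true, true, true]) num3 Cert3.s111_043 Cert3.k111_043,
    slv_t (e := [true, true, true]) num3 Cert3.s111_044 Cert3.k111_044,
    slv_t (e := [true, true, true]) num3 Cert3.s111_045 Cert3.k111_045,
    slv_t (e := [true, true, true]) num3 Cert3.s111_046 Cert3.k111_046,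
    slv_t (e := [true, true, true]) num3 Cert3.s111_047 Cert3.k111_047,
    slv_t (e := [true, true, true]) num3 Cert3.s111_048 Cert3.k111_048,
    slv_t (e := [true, true, true]) num3 Cert3.s111_049 Cert3.k111_049,
    slv_t (e := [true, true, true]) num3 Cert3.s111_050 Cert3.k111_050,
    slv_t (e := [true, true, true]) num3 Cert3.s111_051 Cert3.k111_051,
    slv_t (e := [true, true, true]) num3 Cert3.s111_052 Cert3.k111_052,
    slv_t (e := [true, true, true]) num3 Cert3.s111_053 Cert3.k111_053,
    slv_t (e := [true, true, true]) num3 Cert3.s111_054 Cert3.k111_054,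
    slv_t (e := [true, true, true]) num3 Cert3.s111_055 Cert3.k111_055,
    slv_t (e := [true, true, true]) num3 Cert3.s111_056 Cert3.k111_056,
    slv_t (e := [true, true, true]) num3 Cert3.s111_057 Cert3.k111_057,
    slv_t (e := [true, true, true]) num3 Cert3.s111_058 Cert3.k111_058,
    slv_t (e := [true, true, true]) num3 Cert3.s111_059 Cert3.k111_059,
    slv_t (e := [true, true, true]) num3 Cert3.s111_060 Cert3.k111_060,
    slv_t (e := [true, true, true]) num3 Cert3.s111_061 Cert3.k111_061,
    slv_t (e := [true, true, true]) num3 Cert3.s111_062 Cert3.k111_062,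
    slv_t (e := [true, true, true]) num3 Cert3.s111_063 Cert3.k111_063,
    slv_t (e := [true, true, true]) num3 Cert3.s111_064 Cert3.k111_064,
    slv_t (e := [true, true, true]) num3 Cert3.s111_065 Cert3.k111_065,
    slv_t (e := [true, true, true]) num3 Cert3.s111_066 Cert3.k111_066,
    slv_t (e := [true, true, true]) num3 Cert3.s111_067 Cert3.k111_067⟩

theorem u111_1 : ∀ x ∈ Cert3.u111_1, Slv [true, true, true] pl₃ mi₃ x :=
  slv_v (e := [true, true, true]) num3 (cs := [36, 6, 9, 18, 24, 33]) (by decide) Cert3.q111_0 u111_0 Cert3.k111_0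

theorem u111_2 : ∀ x ∈ Cert3.u111_2, Slv [true, true, true] pl₃ mi₃ x :=
  slv_v (e := [true, true, true]) num3 (cs := [36, 6, 9, 18, 24, 33]) (by decide) Cert3.q111_1 u111_1 Cert3.k111_1

theorem u111_3 : ∀ x ∈ Cert3.u111_3, Slv [true, true, true] pl₃ mi₃ x :=
  slv_v (e := [true, true, true]) num3 (cs := [36, 6, 9, 18, 24, 33]) (by decide) Cert3.q111_2 u111_2 Cert3.k111_2

theorem u111_4 : ∀ x ∈ Cert3.u111_4, Slv [true, true, true] pl₃ mi₃ x :=
  slv_v (e := [true, true, true]) num3 (cs := [36, 6, 9, 18, 24, 33]) (by decide) Cert3.q111_3 u111_3 Cert3.k111_3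

theorem u111_5 : ∀ x ∈ Cert3.u111_5, Slv [true, true, true] pl₃ mi₃ x :=
  slv_v (e := [true, true, true]) num3 (cs := [36, 6, 9, 18, 24, 33]) (by decide) Cert3.q111_4 u111_4 Cert3.k111_4

theorem u111_6 : ∀ x ∈ Cert3.u111_6, Slv [true, true, true] pl₃ mi₃ x :=
  slv_v (e := [true, true, true]) num3 (cs := [36, 6, 9, 18, 24, 33]) (by decide) Cert3.q111_5 u111_5 Cert3.k111_5

theorem u111_7 : ∀ x ∈ Cert3.u111_7, Slv [true, true, true] pl₃ mi₃ x :=
  slv_v (e := [true, true, true]) num3 (cs := [36, 6, 9, 18, 24, 33]) (by decide) Cert3.q111_6 u111_6 Cert3.k111_6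

theorem slv111 : Slv [true, true, true] pl₃ mi₃ 0 :=
  u111_7 0 (mem_iff (by decide +kernel : mem 0 Cert3.u111_7 = true))

theorem u011_0 : ∀ x ∈ Cert3.u011_0, Slv [false, true, true] pl₃ mi₃ x := by
  unfold Cert3.u011_0
  simp only [List.forall_mem_append]
  exact ⟨slv_t (e := [false, true, true]) num3 Cert3.s011_000 Cert3.k011_000,
    slv_t (e := [false, true, true]) num3 Cert3.s011_001 Cert3.k011_001,
    slv_t (e := [false, true, true]) num3 Cert3.s011_002 Cert3.k011_002,
    slv_t (e := [false, true, true]) num3 Cert3.s011_003 Cert3.k011_003,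
    slv_t (e := [false, true, true]) num3 Cert3.s011_004 Cert3.k011_004,
    slv_t (e := [false, true, true]) num3 Cert3.s011_005 Cert3.k011_005,
    slv_t (e := [false, true, true]) num3 Cert3.s011_006 Cert3.k011_006,
    slv_t (e := [false, true, true]) num3 Cert3.s011_007 Cert3.k011_007,
    slv_t (e := [false, true, true]) num3 Cert3.s011_008 Cert3.k011_008,
    slv_t (e := [false, true, true]) num3 Cert3.s011_009 Cert3.k011_009,
    slv_t (e := [false, true, true]) num3 Cert3.s011_010 Cert3.k011_010,
    slv_t (e := [false, true, true]) num3 Cert3.s011_011 Cert3.k011_011,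
    slv_t (e := [false, true, true]) num3 Cert3.s011_012 Cert3.k011_012,
    slv_t (e := [false, true, true]) num3 Cert3.s011_013 Cert3.k011_013,
    slv_t (e := [false, true, true]) num3 Cert3.s011_014 Cert3.k011_014,
    slv_t (e := [false, true, true]) num3 Cert3.s011_015 Cert3.k011_015,
    slv_t (e := [false, true, true]) num3 Cert3.s011_016 Cert3.k011_016,
    slv_t (e := [false, true, true]) num3 Cert3.s011_017 Cert3.k011_017,
    slv_t (e := [false, true, true]) num3 Cert3.s011_018 Cert3.k011_018,
    slv_t (e := [false, true, true]) num3 Cert3.s011_019 Cert3.k011_019,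
    slv_t (e := [false, true, true]) num3 Cert3.s011_020 Cert3.k011_020,
    slv_t (e := [false, true, true]) num3 Cert3.s011_021 Cert3.k011_021,
    slv_t (e := [false, true, true]) num3 Cert3.s011_022 Cert3.k011_022,
    slv_t (e := [false, true, true]) num3 Cert3.s011_023 Cert3.k011_023,
    slv_t (e := [false, true, true]) num3 Cert3.s011_024 Cert3.k011_024,
    slv_t (e := [false, true, true]) num3 Cert3.s011_025 Cert3.k011_025,
    slv_t (e := [false, true, true]) num3 Cert3.s011_026 Cert3.k011_026,
    slv_t (e := [false, true, true]) num3 Cert3.s011_027 Cert3.k011_027,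
    slv_t (e := [false, true, true]) num3 Cert3.s011_028 Cert3.k011_028,
    slv_t (e := [false, true, true]) num3 Cert3.s011_029 Cert3.k011_029,
    slv_t (e := [false, true, true]) num3 Cert3.s011_030 Cert3.k011_030,
    slv_t (e := [false, true, true]) num3 Cert3.s011_031 Cert3.k011_031,
    slv_t (e := [false, true, true]) num3 Cert3.s011_032 Cert3.k011_032,
    slv_t (e := [false, true, true]) num3 Cert3.s011_033 Cert3.k011_033,
    slv_t (e := [false, true, true]) num3 Cert3.s011_034 Cert3.k011_034,
    slv_t (e := [false, true, true]) num3 Cert3.s011_035 Cert3.k011_035,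
    slv_t (e := [false, true, true]) num3 Cert3.s011_036 Cert3.k011_036,
    slv_t (e := [false, true, true]) num3 Cert3.s011_037 Cert3.k011_037,
    slv_t (e := [false, true, true]) num3 Cert3.s011_038 Cert3.k011_038,
    slv_t (e := [false, true, true]) num3 Cert3.s011_039 Cert3.k011_039,
    slv_t (e := [false, true, true]) num3 Cert3.s011_040 Cert3.k011_040,
    slv_t (e := [false, true, true]) num3 Cert3.s011_041 Cert3.k011_041,
    slv_t (e := [false, true, true]) num3 Cert3.s011_042 Cert3.k011_042,
    slv_t (e := [false, true, true]) num3 Cert3.s011_043 Cert3.k011_043,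
    slv_t (e := [false, true, true]) num3 Cert3.s011_044 Cert3.k011_044,
    slv_t (e := [false, true, true]) num3 Cert3.s011_045 Cert3.k011_045,
    slv_t (e := [false, true, true]) num3 Cert3.s011_046 Cert3.k011_046,
    slv_t (e := [false, true, true]) num3 Cert3.s011_047 Cert3.k011_047,
    slv_t (e := [false, true, true]) num3 Cert3.s011_048 Cert3.k011_048,
    slv_t (e := [false, true, true]) num3 Cert3.s011_049 Cert3.k011_049,
    slv_t (e := [false, true, true]) num3 Cert3.s011_050 Cert3.k011_050,
    slv_t (e := [false, true, true]) num3 Cert3.s011_051 Cert3.k011_051,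
    slv_t (e := [false, true, true]) num3 Cert3.s011_052 Cert3.k011_052,
    slv_t (e := [false, true, true]) num3 Cert3.s011_053 Cert3.k011_053,
    slv_t (e := [false, true, true]) num3 Cert3.s011_054 Cert3.k011_054,
    slv_t (e := [false, true, true]) num3 Cert3.s011_055 Cert3.k011_055,
    slv_t (e := [false, true, true]) num3 Cert3.s011_056 Cert3.k011_056⟩

theorem u011_1 : ∀ x ∈ Cert3.u011_1, Slv [false, true, true] pl₃ mi₃ x :=
  slv_v (e := [false, true, true]) num3 (cs := [36, 24]) (by decide) Cert3.q011_0 u011_0 Cert3.k011_0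

theorem u011_2 : ∀ x ∈ Cert3.u011_2, Slv [false, true, true] pl₃ mi₃ x :=
  slv_v (e := [false, true, true]) num3 (cs := [36, 24]) (by decide) Cert3.q011_1 u011_1 Cert3.k011_1

theorem slv011 : Slv [false, true, true] pl₃ mi₃ 0 :=
  u011_2 0 (mem_iff (by decide +kernel : mem 0 Cert3.u011_2 = true))

variable {D Q : Code} {L R : List Tri} {χ m : ℕ → ℕ} {κ : ℕ}

/-- the conclusion for classes with at most three triple points -/
theorem gl_three (c : Ctx D L R χ m κ) (hQ : ∀ q ∈ TC L, q ∈ Q) (hlen : L.length ≤ 3) :
    Gl D Q L m := by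
  have hQ' : ∀ L' : List Tri, L'.Perm L → ∀ q ∈ TC L', q ∈ Q := fun L' h q hq =>
    hQ q ((TC_perm h).mem_iff.1 hq)
  rcases L with _ | ⟨A, _ | ⟨B, _ | ⟨C, _ | ⟨E, L⟩⟩⟩⟩
  · exact gl_nil
  · refine slv_gl (e := [true]) num1 slv1 c hQ ?_
    simp only [List.map_cons, List.map_nil]
    cases eps A
    · right; rfl
    · left; rfl
  · by_cases h : eps A = eps B
    · refine slv_gl (e := [true, true]) num2 slv11 c hQ ?_
      simp only [List.map_cons, List.map_nil, h]
      cases eps B
      · right; rfl
      · left; rfl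
    · refine slv_gl (e := [false, true]) num2 slv01 c hQ ?_
      simp only [List.map_cons, List.map_nil]
      revert h
      cases eps A <;> cases eps B <;> simp
  · have key : ∀ A B C : Tri, Ctx D [A, B, C] R χ m κ → (∀ q ∈ TC [A, B, C], q ∈ Q) →
        eps B = eps C → Gl D Q [A, B, C] m := by
      intro A B C c hQ h
      by_cases h' : eps A = eps B
      · refine slv_gl (e := [true, true, true]) num3 slv111 c hQ ?_
        simp only [List.map_cons, List.map_nil, h', h]
        cases eps C
        · right; rfl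
        · left; rfl
      · refine slv_gl (e := [false, true, true]) num3 slv011 c hQ ?_
        simp only [List.map_cons, List.map_nil, ← h]
        revert h'
        cases eps A <;> cases eps B <;> simp
    by_cases h1 : eps B = eps C
    · exact key A B C c hQ h1
    by_cases h2 : eps A = eps C
    · have hp : [B, A, C].Perm [A, B, C] := List.Perm.swap _ _ _
      exact (key B A C (c.perm hp) (hQ' _ hp) h2).perm hp
    · have h3 : eps A = eps B := by
        revert h1 h2
        cases eps A <;> cases eps B <;> cases eps C <;> simp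
      have hp : [C, A, B].Perm [A, B, C] :=
        (List.Perm.swap _ _ _).trans (List.Perm.cons _ (List.Perm.swap _ _ _))
      exact (key C A B (c.perm hp) (hQ' _ hp) h3).perm hp
  · exfalso
    simp only [List.length_cons] at hlen
    omega

end Pool.Agent.W5h73.TT
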