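import Pool.Agent.W5h73.TT.Bits

/-! Soundness of the certificates. -/

namespace Pool.Agent.W5h73.TT.Chk

/-- ends connected with `x` by arcs and circles -/
inductive Cn (V : ℕ) (pt : ℕ → ℕ) (x : ℕ) : ℕ → Prop
  | rfl : Cn V pt x x
  | arc {y z : ℕ} (h : Cn V pt x y) (hy : y < 4 * V) (e : pt y = z + 2) : Cn V pt x z
  | cir {y z : ℕ} (h : Cn V pt x y) (hy : y < 4 * V) (hz : z < 4 * V) (e : y / 4 = z / 4) :
      Cn V pt x z

theorem Cn.trans {V : ℕ} {pt : ℕ → ℕ} {x y z : ℕ} (h : Cn V pt x y) (h' : Cn V pt y z) :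
    Cn V pt x z := by
  induction h' with
  | rfl => exact h
  | arc _ hy e ih => exact ih.arc hy e
  | cir _ hy hz e ih => exact ih.cir hy hz e

/-- a corner whose two ends lead to the boundary -/
def Cr (V : ℕ) (pt : ℕ → ℕ) (p : ℕ) : Prop := p < 4 * V ∧ pt p = 1 ∧ pt (nxt p) = 1

/-- `x` is connected with two corners -/
def Two (V : ℕ) (pt : ℕ → ℕ) (x : ℕ) : Prop :=
  ∃ p q, p ≠ q ∧ Cr V pt p ∧ Cr V pt q ∧ Cn V pt x p ∧ Cn V pt x q

/-- the conclusion -/
def Cc (V : ℕ) (pt : ℕ → ℕ) (two : Bool) : Prop :=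
  if two = true then
    (∀ x < 4 * V, pt x = 1 → ¬Two V pt x → ∀ y < 4 * V, pt y = 1 → ¬Two V pt y → Cn V pt x y) ∧
      ((∃ x < 4 * V, pt x = 1 ∧ ¬Two V pt x) → ∃ p, Cr V pt p)
  else ∀ x < 4 * V, pt x = 1 → Two V pt x

/-- the circle with number `c` -/
def fc (f : ℕ → ℤ) (c j : ℕ) : ℤ := f (4 * c + j)

/-- the sum over the circles -/
def tot (f g : ℕ → ℤ) : List Bool → ℕ → ℤ
  | [], _ => 0
  | e :: es, c => (if e = true then o4 (fc f c) (fc g c) else -o4 (fc f c) (fc g c)) +
      tot f g es (c + 1)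

/-- The data of a pattern of triple points: `V` circles with the orientations `es`, the entries `pt`. -/
structure Pat (pl mi : List ℕ) (es : List Bool) (OV E V : ℕ) (pt : ℕ → ℕ) : Prop where
  len : es.length = V
  ov : ∀ x, bit OV x = true → x ∈ pl ++ mi
  uni : ∀ x ∈ pl ++ mi, ∀ y ∈ pl ++ mi, un x = un y → x = y
  uno : ∀ x ∈ pl ++ mi, ∀ y ∈ pl ++ mi, un x ≠ y
  sym : ∀ x < 4 * V, ∀ y, pt x = y + 2 → y < 4 * V ∧ pt y = x + 2 ∧ y ≠ x
  pos : ∀ x < 4 * V, pt x ≠ 0
  big : 4 * V ≤ 60
  ovr : ∀ x ∈ pl ++ mi, x < 4 * V ∧ un x < 4 * V ∧ un x ≠ x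
  nam : ∀ x ∈ pl ++ mi, (pt x = 1 ∧ pt (un x) = 1) ∨
    (isb x = true ∧ pt x = un x + 2 ∧ pt (un x) = x + 2) ∨
    ∃ y ∈ (if x.testBit 1 = true then mi else pl), adm x y = true ∧ y ≠ x ∧ y ≠ un x ∧
      pt x = y + 2 ∧ pt y = x + 2 ∧ pt (un x) = un y + 2 ∧ pt (un y) = un x + 2 ∧ un y ≠ un x
  nopr : ∀ x < 4 * V, ∀ x' < 4 * V, bit OV x = true → bit OV x' = true → ∀ y y', pt x = y + 2 → pt x' = y' + 2 → idn x y = true →
    idn x' y' = true → ltr x ≠ ltr x' → x / 12 = x' / 12 → y / 12 = y' / 12 →
    chi E x ≠ chi E y → False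
  fl : ∀ f g : ℕ → ℤ, (∀ x < 4 * V, pt x = 1 → f x = 0) →
    (∀ x < 4 * V, ∀ y, pt x = y + 2 → f y = -f x ∧ g y = -g x) →
    (∀ c < V, s4 (fc f c) = 0 ∧ s4 (fc g c) = 0) → tot f g es 0 = 0

variable {pl mi : List ℕ} {es : List Bool} {OV E V : ℕ} {pt : ℕ → ℕ}

/-- the table `T` agrees with the entries `pt` -/
structure OkT (pl mi : List ℕ) (V : ℕ) (pt : ℕ → ℕ) (T : ℕ) : Prop where
  val : ∀ x < 4 * V, ent T x ≠ 0 → ent T x = pt x
  big : ∀ x, 4 * V ≤ x → ent T x = 0
  par : ∀ x ∈ pl ++ mi, ent T x = 0 → ent T (un x) = 0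
  sym : ∀ x < 4 * V, ∀ y, pt x = y + 2 → ent T x = 0 → ent T y = 0

variable {T : ℕ}

theorem OkT.lt (h : OkT pl mi V pt T) {x : ℕ} (hx : ent T x ≠ 0) : x < 4 * V := by
  by_contra hc
  exact hx (h.big x (by omega))

theorem OkT.eq (h : OkT pl mi V pt T) {x : ℕ} (hx : ent T x ≠ 0) : ent T x = pt x :=
  h.val x (h.lt hx) hx

/-! ### Flows -/

section arcs
variable {off : ℕ}

theorem arcs_ind {I : ℕ → Prop} {f : ℕ} : ∀ {s W : ℕ} {k : ℕ → ℕ → Bool},
    (∀ W x y, ent T x = y + 2 → I W → I (W ||| (2 ^ (ps x + off) ||| 2 ^ (ps y + (off + 4))))) →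
    arcs T off f s W k = true → I W → ∃ s' W', I W' ∧ k s' W' = true := by
  induction f with
  | zero =>
    intro s W k _ h _
    exact absurd h (by simp [arcs])
  | succ f ih =>
    intro s W k hI h hW
    have e : arcs T off (f + 1) s W k = Nat.rec (k (Nat.shiftRight s 6) W) (fun x _ =>
      Nat.rec false (fun e _ => Nat.rec false (fun y _ =>
        and true (arcs T off f (Nat.shiftRight s 6) (Nat.lor W (Nat.lor (Nat.pow 2 (Nat.add (ps x) off))
          (Nat.pow 2 (Nat.add (ps y) (Nat.add off 4))))) k)) e) (ent T x)) (Nat.land s 63) := rfl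
    rw [e] at h
    generalize Nat.land s 63 = d at h
    rcases d with _ | x
    · exact ⟨_, _, hW, h⟩
    · simp only at h
      rcases he : ent T x with _ | _ | y
      · rw [he] at h; exact absurd h (by simp)
      · rw [he] at h; exact absurd h (by simp)
      · rw [he] at h
        have h' : arcs T off f (Nat.shiftRight s 6) (W ||| (2 ^ (ps x + off) ||| 2 ^ (ps y + (off + 4)))) k =
            true := h
        exact ih hI h' (hI W x y he hW)

end arcs

theorem tb_or (W a b i : ℕ) : (W ||| (2 ^ a ||| 2 ^ b)).testBit i =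
    (W.testBit i || (decide (a = i) || decide (b = i))) := by
  rw [Nat.testBit_or, Nat.testBit_or, Nat.testBit_two_pow, Nat.testBit_two_pow]

/-- antisymmetry of the flow with offset `off` -/
def J (V : ℕ) (pt : ℕ → ℕ) (off W : ℕ) : Prop :=
  ∀ x < 4 * V, ∀ y, pt x = y + 2 → W.testBit (ps x + off) = W.testBit (ps y + (off + 4))

/-- the flow with offset `off` vanishes at the ends leading to the boundary -/
def Z (V : ℕ) (pt : ℕ → ℕ) (off W : ℕ) : Prop :=
  ∀ x < 4 * V, pt x = 1 → W.testBit (ps x + off) = false ∧ W.testBit (ps x + (off + 4)) = false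

theorem ps_mod (x : ℕ) : ps x % 16 < 4 := by rw [ps_eq]; omega

theorem J_step (hp : Pat pl mi es OV E V pt) (hT : OkT pl mi V pt T) {off W x y : ℕ}
    (he : ent T x = y + 2) (h : J V pt off W) :
    J V pt off (W ||| (2 ^ (ps x + off) ||| 2 ^ (ps y + (off + 4)))) := by
  intro z hz w hw
  have hx := hT.lt (x := x) (by omega)
  have hpx : pt x = y + 2 := by rw [← hT.eq (by omega), he]
  obtain ⟨s1, s2, s3⟩ := hp.sym x hx y hpx
  obtain ⟨t1, t2, t3⟩ := hp.sym z hz w hw
  rw [tb_or, tb_or, h z hz w hw]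
  have a1 := ps_mod x
  have a2 := ps_mod y
  have a3 := ps_mod z
  have a4 := ps_mod w
  have b1 : decide (ps y + (off + 4) = ps z + off) = false := by
    rw [decide_eq_false_iff_not]; omega
  have b2 : decide (ps x + off = ps w + (off + 4)) = false := by
    rw [decide_eq_false_iff_not]; omega
  rw [b1, b2, Bool.or_false, Bool.false_or]
  congr 1
  rw [decide_eq_decide]
  constructor
  · intro h1
    have : x = z := ps_inj (by omega)
    subst this
    rw [hpx] at hw
    have : y = w := by omega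
    rw [this]
  · intro h1
    have : y = w := ps_inj (by omega)
    subst this
    rw [s2] at t2
    have : x = z := by omega
    rw [this]

theorem J_other {off off' W x y : ℕ} (hoff : (off = 0 ∧ off' = 8) ∨ (off = 8 ∧ off' = 0))
    (h : J V pt off' W) : J V pt off' (W ||| (2 ^ (ps x + off) ||| 2 ^ (ps y + (off + 4)))) := by
  intro z hz w hw
  rw [tb_or, tb_or, h z hz w hw]
  have a1 := ps_mod x
  have a2 := ps_mod y
  have a3 := ps_mod z
  have a4 := ps_mod w
  have b1 : decide (ps y + (off + 4) = ps z + off') = false := by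
    rw [decide_eq_false_iff_not]; omega
  have b2 : decide (ps x + off = ps w + (off' + 4)) = false := by
    rw [decide_eq_false_iff_not]; omega
  have b3 : decide (ps x + off = ps z + off') = false := by
    rw [decide_eq_false_iff_not]; omega
  have b4 : decide (ps y + (off + 4) = ps w + (off' + 4)) = false := by
    rw [decide_eq_false_iff_not]; omega
  rw [b1, b2, b3, b4]

theorem Z_other {off W x y : ℕ} (hoff : off = 8)
    (h : Z V pt 0 W) : Z V pt 0 (W ||| (2 ^ (ps x + off) ||| 2 ^ (ps y + (off + 4)))) := by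
  intro z hz hw
  rw [tb_or, tb_or, (h z hz hw).1, (h z hz hw).2]
  have a1 := ps_mod x
  have a2 := ps_mod y
  have a3 := ps_mod z
  simp only [Bool.false_or, Bool.or_eq_false_iff, decide_eq_false_iff_not]
  omega

theorem Z_step (hT : OkT pl mi V pt T) (hp : Pat pl mi es OV E V pt) {W x y : ℕ}
    (he : ent T x = y + 2) (h : Z V pt 0 W) :
    Z V pt 0 (W ||| (2 ^ (ps x + 0) ||| 2 ^ (ps y + (0 + 4)))) := by
  intro z hz hw
  have hx := hT.lt (x := x) (by omega)
  have hpx : pt x = y + 2 := by rw [← hT.eq (by omega), he]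
  obtain ⟨s1, s2, s3⟩ := hp.sym x hx y hpx
  rw [tb_or, tb_or, (h z hz hw).1, (h z hz hw).2]
  have a1 := ps_mod x
  have a2 := ps_mod y
  have a3 := ps_mod z
  simp only [Bool.false_or, Bool.or_eq_false_iff, decide_eq_false_iff_not]
  have n1 : ps x ≠ ps z := by
    intro h1
    have := ps_inj h1
    subst this
    omega
  have n2 : ps y ≠ ps z := by
    intro h1
    have := ps_inj h1
    subst this
    omega
  omega

/-- the flows given by the mask -/
def fF (W x : ℕ) : ℤ := bi W (ps x) - bi W (ps x + 4)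
def fG (W x : ℕ) : ℤ := bi W (ps x + 8) - bi W (ps x + 12)

theorem cirs_spec (W₀ : ℕ) (es : List Bool) : ∀ (c a b : ℕ), cirs es (W₀ >>> (16 * c)) a b = true →
    (∀ i < es.length, s4 (fc (fF W₀) (c + i)) = 0 ∧ s4 (fc (fG W₀) (c + i)) = 0) ∧
      (a : ℤ) - b + tot (fF W₀) (fG W₀) es c ≠ 0 := by
  induction es with
  | nil =>
    intro c a b h
    have h' : not (Nat.beq a b) = true := h
    refine ⟨fun i hi => absurd hi (by simp), ?_⟩
    simp only [tot]
    intro h1
    have h2 : a = b := by omega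
    subst h2
    simp at h'
  | cons e es ih =>
    intro c a b h
    have hc : cirs (e :: es) (W₀ >>> (16 * c)) a b = Nat.rec false (fun v _ => cond e
      (cirs es (Nat.shiftRight (W₀ >>> (16 * c)) 16) (Nat.add a v) (Nat.add b 7))
      (cirs es (Nat.shiftRight (W₀ >>> (16 * c)) 16) (Nat.add a 7) (Nat.add b v)))
        (tab (Nat.land (W₀ >>> (16 * c)) 65535)) := rfl
    rw [hc] at h
    have hs : Nat.shiftRight (W₀ >>> (16 * c)) 16 = W₀ >>> (16 * (c + 1)) := by
      show W₀ >>> (16 * c) >>> 16 = _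
      rw [← Nat.shiftRight_add]
      rfl
    rw [hs] at h
    rcases ht : tab (Nat.land (W₀ >>> (16 * c)) 65535) with _ | v
    · rw [ht] at h; exact absurd h (by simp)
    rw [ht] at h
    have hlt : Nat.land (W₀ >>> (16 * c)) 65535 < 65536 := Nat.lt_succ_of_le Nat.and_le_right
    obtain ⟨t1, t2, t3⟩ := tab_spec hlt ht
    have hbit : ∀ j < 16, bi (Nat.land (W₀ >>> (16 * c)) 65535) j = bi W₀ (16 * c + j) := by
      intro j hj
      unfold bi
      have : Nat.land (W₀ >>> (16 * c)) 65535 = (W₀ >>> (16 * c)) &&& (2 ^ 16 - 1) := rfl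
      rw [this, Nat.testBit_and, Nat.testBit_shiftRight, Nat.testBit_two_pow_sub_one]
      simp [hj]
    have hps : ∀ j < 4, ps (4 * c + j) = 16 * c + j := by
      intro j hj; rw [ps_eq]; omega
    have hF : ∀ j < 4, vF (Nat.land (W₀ >>> (16 * c)) 65535) j = fc (fF W₀) c j := by
      intro j hj
      unfold vF fc fF
      rw [hbit j (by omega), hbit (j + 4) (by omega), hps j hj, Nat.add_assoc]
    have hG : ∀ j < 4, vG (Nat.land (W₀ >>> (16 * c)) 65535) j = fc (fG W₀) c j := by
      intro j hj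
      unfold vG fc fG
      rw [hbit (j + 8) (by omega), hbit (j + 12) (by omega), hps j hj, Nat.add_assoc, Nat.add_assoc]
    have hsF : s4 (fc (fF W₀) c) = 0 := by
      rw [← t1]
      simp only [s4, hF 0 (by norm_num), hF 1 (by norm_num), hF 2 (by norm_num), hF 3 (by norm_num)]
    have hsG : s4 (fc (fG W₀) c) = 0 := by
      rw [← t2]
      simp only [s4, hG 0 (by norm_num), hG 1 (by norm_num), hG 2 (by norm_num), hG 3 (by norm_num)]
    have ho : o4 (fc (fF W₀) c) (fc (fG W₀) c) = (v : ℤ) - 7 := by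
      rw [t3]
      simp only [o4, hF 0 (by norm_num), hF 1 (by norm_num), hF 2 (by norm_num), hF 3 (by norm_num),
        hG 0 (by norm_num), hG 1 (by norm_num), hG 2 (by norm_num), hG 3 (by norm_num)]
      ring
    have fin : ∀ a' b' : ℕ, cirs es (W₀ >>> (16 * (c + 1))) a' b' = true →
        (∀ i < (e :: es).length, s4 (fc (fF W₀) (c + i)) = 0 ∧ s4 (fc (fG W₀) (c + i)) = 0) ∧
        (a' : ℤ) - b' + tot (fF W₀) (fG W₀) es (c + 1) ≠ 0 := by
      intro a' b' h'
      obtain ⟨k1, k2⟩ := ih (c + 1) a' b' h'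
      refine ⟨fun i hi => ?_, k2⟩
      rcases i with _ | i
      · exact ⟨hsF, hsG⟩
      · have := k1 i (by simpa using hi)
        rw [Nat.add_right_comm] at this
        rw [← Nat.add_assoc, Nat.add_right_comm]
        rw [Nat.add_right_comm]
        simpa [Nat.add_assoc, Nat.add_comm, Nat.add_left_comm] using this
    cases e
    · have h' : cirs es (W₀ >>> (16 * (c + 1))) (a + 7) (b + v) = true := h
      obtain ⟨k1, k2⟩ := fin _ _ h'
      refine ⟨k1, ?_⟩
      simp only [tot, Bool.false_eq_true, if_false, ho]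
      push_cast at k2
      intro h0
      apply k2
      linarith
    · have h' : cirs es (W₀ >>> (16 * (c + 1))) (a + v) (b + 7) = true := h
      obtain ⟨k1, k2⟩ := fin _ _ h'
      refine ⟨k1, ?_⟩
      simp only [tot, if_true, ho]
      push_cast at k2
      intro h0
      apply k2
      linarith

theorem contra (hp : Pat pl mi es OV E V pt) {W : ℕ} (h0 : J V pt 0 W) (h8 : J V pt 8 W)
    (hz : Z V pt 0 W) (hc : cirs es W 0 0 = true) : False := by
  obtain ⟨k1, k2⟩ := cirs_spec W es 0 0 0 hc
  refine k2 ?_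
  have h := hp.fl (fF W) (fG W) (fun x hx h => ?_) (fun x hx y hy => ?_) (fun c hc => ?_)
  · rw [h]; simp
  · obtain ⟨z1, z2⟩ := hz x hx h
    unfold fF bi
    rw [Nat.add_zero] at z1
    rw [Nat.zero_add] at z2
    rw [z1, z2]
    simp
  · obtain ⟨s1, s2, s3⟩ := hp.sym x hx y hy
    have a1 := h0 x hx y hy
    have a2 := h0 y s1 x s2
    have a3 := h8 x hx y hy
    have a4 := h8 y s1 x s2
    simp only [Nat.add_zero, Nat.zero_add] at a1 a2 a3 a4
    unfold fF fG bi
    rw [a1, a2, a3, a4]
    constructor <;> ring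
  · have := k1 c (by rw [hp.len]; exact hc)
    simpa using this

theorem flow_sound (hp : Pat pl mi es OV E V pt) (hT : OkT pl mi V pt T) {s : ℕ} {k : ℕ → Bool}
    (h : flow es T s k = true) : False := by
  have i0 : J V pt 0 0 ∧ Z V pt 0 0 ∧ J V pt 8 0 := by
    refine ⟨fun x _ y _ => ?_, fun x _ _ => ?_, fun x _ y _ => ?_⟩ <;> simp
  obtain ⟨s', W, ⟨j0, z0, hG⟩, h1⟩ := arcs_ind (I := fun W => J V pt 0 W ∧ Z V pt 0 W ∧
      (∀ x, W.testBit (ps x + 8) = false ∧ W.testBit (ps x + 12) = false)) (fun W x y he hW =>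
      ⟨J_step hp hT he hW.1, Z_step hT hp he hW.2.1, fun z => by
        have a1 := ps_mod x
        have a2 := ps_mod y
        have a3 := ps_mod z
        rw [tb_or, tb_or, (hW.2.2 z).1, (hW.2.2 z).2]
        simp only [Bool.false_or, Bool.or_eq_false_iff, decide_eq_false_iff_not]
        omega⟩) h ⟨i0.1, i0.2.1, fun x => by simp⟩
  have j8 : J V pt 8 W := fun x _ y _ => by rw [(hG x).1, (hG y).2]
  have fin : ∀ (f s W : ℕ) (k : ℕ → Bool), J V pt 0 W → Z V pt 0 W → J V pt 8 W →
      arcs T 8 f s W (fun s W => and (cirs es W 0 0) (k s)) = true → False := by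
    intro f s W k j0 z0 j8 h
    obtain ⟨s', W', ⟨j0', z0', j8'⟩, h1⟩ := arcs_ind (I := fun W => J V pt 0 W ∧ Z V pt 0 W ∧
      J V pt 8 W) (fun W x y he hW => ⟨J_other (Or.inr ⟨rfl, rfl⟩) hW.1, Z_other rfl hW.2.1,
        J_step hp hT he hW.2.2⟩) h ⟨j0, z0, j8⟩
    have h2 : (cirs es W' 0 0 && k s') = true := h1
    rw [Bool.and_eq_true] at h2
    exact contra hp j0' j8' z0' h2.1
  rcases hd : Nat.land s' 63 with _ | p
  · rw [hd] at h1
    exact fin _ _ _ _ j0 z0 j8 h1
  · rw [hd] at h1
    simp only at h1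
    rcases hd' : Nat.land (Nat.shiftRight s' 6) 63 with _ | q
    · rw [hd'] at h1
      exact absurd h1 (by simp)
    · rw [hd'] at h1
      simp only at h1
      rw [Bool.and_eq_true, Bool.and_eq_true] at h1
      obtain ⟨⟨h2, h3⟩, h4⟩ := h1
      have h2' : ent T p = 1 := Nat.eq_of_beq_eq_true h2
      have h3' : ent T q = 1 := Nat.eq_of_beq_eq_true h3
      have hp1 : pt p = 1 := by rw [← hT.eq (by omega), h2']
      have hq1 : pt q = 1 := by rw [← hT.eq (by omega), h3']
      refine fin _ _ _ _ ?_ ?_ ?_ h4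
      · exact J_other (off := 8) (x := p) (y := q) (Or.inr ⟨rfl, rfl⟩) j0
      · exact Z_other (off := 8) (x := p) (y := q) rfl z0
      · -- the ends `p`, `q` lead to the boundary
        intro x hx y hy
        obtain ⟨s1, s2, s3⟩ := hp.sym x hx y hy
        have a1 := ps_mod x
        have a2 := ps_mod y
        have a3 := ps_mod p
        have a4 := ps_mod q
        have n1 : ps p ≠ ps x := by
          intro h; have := ps_inj h; subst this; omega
        have n2 : ps q ≠ ps y := by
          intro h; have := ps_inj h; subst this; omega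
        have e : (W ||| (2 ^ (ps p + 8) ||| 2 ^ (ps q + 12))) =
          Nat.lor W (Nat.lor (Nat.pow 2 (Nat.add (ps p) 8)) (Nat.pow 2 (Nat.add (ps q) 12))) := rfl
        rw [← e, tb_or, tb_or, j8 x hx y hy]
        congr 1
        have b1 : decide (ps p + 8 = ps x + 8) = false := by rw [decide_eq_false_iff_not]; omega
        have b2 : decide (ps q + 12 = ps x + 8) = false := by rw [decide_eq_false_iff_not]; omega
        have b3 : decide (ps p + 8 = ps y + (8 + 4)) = false := by
          rw [decide_eq_false_iff_not]; omega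
        have b4 : decide (ps q + 12 = ps y + (8 + 4)) = false := by
          rw [decide_eq_false_iff_not]; omega
        rw [b1, b2, b3, b4]

/-! ### Components -/

/-- the circles in the mask are connected -/
def PW (V : ℕ) (pt : ℕ → ℕ) (M : ℕ) : Prop :=
  ∀ x < 4 * V, ∀ y < 4 * V, bit M (x / 4) = true → bit M (y / 4) = true → Cn V pt x y

theorem tree_ind {I : ℕ → Prop} {f : ℕ} : ∀ {s M : ℕ} {k : ℕ → ℕ → Bool},
    (∀ M x y, ent T x = y + 2 → bit M (x / 4) = true → I M → I (M ||| 2 ^ (y / 4))) →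
    tree T f s M k = true → I M → ∃ s' M', I M' ∧ k s' M' = true := by
  induction f with
  | zero =>
    intro s M k _ h _
    exact absurd h (by simp [tree])
  | succ f ih =>
    intro s M k hI h hM
    have e : tree T (f + 1) s M k = Nat.rec (k (Nat.shiftRight s 6) M) (fun x _ =>
      Nat.rec false (fun e _ => Nat.rec false (fun y _ =>
        and (bit M (Nat.div x 4)) (tree T f (Nat.shiftRight s 6) (Nat.lor M (Nat.pow 2 (Nat.div y 4)))
          k)) e) (ent T x)) (Nat.land s 63) := rfl
    rw [e] at h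
    generalize Nat.land s 63 = d at h
    rcases d with _ | x
    · exact ⟨_, _, hM, h⟩
    · simp only at h
      rcases he : ent T x with _ | _ | y
      · rw [he] at h; exact absurd h (by simp)
      · rw [he] at h; exact absurd h (by simp)
      · rw [he] at h
        simp only at h
        rw [Bool.and_eq_true] at h
        exact ih hI h.2 (hI M x y he h.1 hM)

theorem bit_or (M a c : ℕ) : bit (M ||| 2 ^ a) c = (bit M c || decide (a = c)) := by
  rw [bit_iff, bit_iff, Nat.testBit_or, Nat.testBit_two_pow]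

theorem PW_step (hp : Pat pl mi es OV E V pt) (hT : OkT pl mi V pt T) {M x y : ℕ} (he : ent T x = y + 2)
    (hb : bit M (x / 4) = true) (h : PW V pt M) : PW V pt (M ||| 2 ^ (y / 4)) := by
  have hx := hT.lt (x := x) (by omega)
  have hpx : pt x = y + 2 := by rw [← hT.eq (by omega), he]
  obtain ⟨s1, s2, s3⟩ := hp.sym x hx y hpx
  intro u hu v hv h1 h2
  rw [bit_or, Bool.or_eq_true, decide_eq_true_eq] at h1 h2
  rcases h1 with h1 | h1 <;> rcases h2 with h2 | h2
  · exact h u hu v hv h1 h2
  · exact ((h u hu x hx h1 hb).arc hx hpx).cir s1 hv h2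
  · exact (((Cn.rfl (V := V) (pt := pt) (x := u)).cir hu s1 h1.symm).arc s1 s2).trans (h x hx v hv hb h2)
  · exact Cn.rfl.cir hu hv (h1.symm.trans h2)

theorem PW_base (c : ℕ) : PW V pt (2 ^ c) := by
  intro x hx y hy h1 h2
  rw [bit_iff, Nat.testBit_two_pow, decide_eq_true_eq] at h1 h2
  exact Cn.rfl.cir hx hy (h1.symm.trans h2)

theorem crn_sound (hT : OkT pl mi V pt T) {M p : ℕ} (h : crn T M p = true) :
    Cr V pt p ∧ bit M (p / 4) = true := by
  unfold crn at h
  rw [Bool.and_eq_true, Bool.and_eq_true] at h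
  obtain ⟨⟨h1, h2⟩, h3⟩ := h
  have h1' : ent T p = 1 := Nat.eq_of_beq_eq_true h1
  have h2' : ent T (nxt p) = 1 := Nat.eq_of_beq_eq_true h2
  refine ⟨⟨hT.lt (by omega), ?_, ?_⟩, h3⟩
  · rw [← hT.eq (by omega), h1']
  · rw [← hT.eq (by omega), h2']

theorem comps_sound (hp : Pat pl mi es OV E V pt) (hT : OkT pl mi V pt T) {f : ℕ} :
    ∀ {s C : ℕ} {k : ℕ → ℕ → Bool}, comps T f s C k = true →
    (∀ x < 4 * V, bit C (x / 4) = true → Two V pt x) →
    ∃ s' C', (∀ x < 4 * V, bit C' (x / 4) = true → Two V pt x) ∧ k s' C' = true := by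
  induction f with
  | zero =>
    intro s C k h _
    exact absurd h (by simp [comps])
  | succ f ih =>
    intro s C k h hC
    have e : comps T (f + 1) s C k = Nat.rec (k (Nat.shiftRight s 6) C) (fun c _ =>
      tree T 40 (Nat.shiftRight s 6) (Nat.pow 2 c) fun s M =>
        and (and (not (Nat.beq (Nat.land s 63) (Nat.land (Nat.shiftRight s 6) 63)))
            (and (crn T M (Nat.land s 63)) (crn T M (Nat.land (Nat.shiftRight s 6) 63))))
          (comps T f (Nat.shiftRight s 12) (Nat.lor C M) k)) (Nat.land s 63) := rfl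
    rw [e] at h
    generalize Nat.land s 63 = d at h
    rcases d with _ | c
    · exact ⟨_, _, hC, h⟩
    · simp only at h
      obtain ⟨s', M, hM, h1⟩ := tree_ind (I := PW V pt) (fun M x y he hb hM => PW_step hp hT he hb hM) h
        (PW_base c)
      rw [Bool.and_eq_true, Bool.and_eq_true, Bool.and_eq_true] at h1
      obtain ⟨⟨h2, h3, h4⟩, h5⟩ := h1
      obtain ⟨c1, b1⟩ := crn_sound hT h3
      obtain ⟨c2, b2⟩ := crn_sound hT h4
      have hne : Nat.land s' 63 ≠ Nat.land (Nat.shiftRight s' 6) 63 := by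
        intro h
        rw [h] at h2
        simp at h2
      refine ih h5 fun x hx hb => ?_
      have hb' : (bit C (x / 4) || bit M (x / 4)) = true := by
        rw [← hb, bit_iff, bit_iff, bit_iff]
        exact (Nat.testBit_or _ _ _).symm
      rw [Bool.or_eq_true] at hb'
      rcases hb' with hb' | hb'
      · exact hC x hx hb'
      · exact ⟨_, _, hne, c1, c2, hM x hx _ c1.1 hb' b1, hM x hx _ c2.1 hb' b2⟩

theorem cover_sound (hT : OkT pl mi V pt T) {C : ℕ} : ∀ (n : ℕ), cover T C n = true →
    ∀ x < 4 * n, pt x = 1 → x < 4 * V → bit C (x / 4) = true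
  | 0, _, x, hx, _, _ => by omega
  | n + 1, h, x, hx, h1, hV => by
    have e : cover T C (n + 1) = and (or (bit C n)
      (and (and (ge2 T (Nat.mul 4 n)) (ge2 T (Nat.add (Nat.mul 4 n) 1)))
        (and (ge2 T (Nat.add (Nat.mul 4 n) 2)) (ge2 T (Nat.add (Nat.mul 4 n) 3))))) (cover T C n) := rfl
    rw [e, Bool.and_eq_true, Bool.or_eq_true, Bool.and_eq_true, Bool.and_eq_true, Bool.and_eq_true] at h
    obtain ⟨h2, h3⟩ := h
    by_cases hx' : x < 4 * n
    · exact cover_sound hT n h3 x hx' h1 hV
    · have hxn : x / 4 = n := by omega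
      rcases h2 with h2 | ⟨⟨a0, a1⟩, a2, a3⟩
      · rw [hxn]; exact h2
      · exfalso
        have hge : ∀ y, ge2 T y = true → 2 ≤ ent T y := fun y hy =>
          Nat.le_of_ble_eq_true hy
        have h4 : 2 ≤ ent T x := by
          have : x = 4 * n ∨ x = 4 * n + 1 ∨ x = 4 * n + 2 ∨ x = 4 * n + 3 := by omega
          rcases this with rfl | rfl | rfl | rfl
          · exact hge _ a0
          · exact hge _ a1
          · exact hge _ a2
          · exact hge _ a3
        rw [hT.eq (by omega), h1] at h4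
        omega

theorem good_sound (hp : Pat pl mi es OV E V pt) (hT : OkT pl mi V pt T) {s : ℕ} {k : ℕ → Bool}
    (h : good V T s k = true) : Cc V pt false := by
  obtain ⟨s', C, hC, h1⟩ := comps_sound hp hT h (fun x _ hb => by
    rw [bit_iff] at hb; simp at hb)
  rw [Bool.and_eq_true] at h1
  unfold Cc
  simp only [Bool.false_eq_true, if_false]
  intro x hx hx1
  exact hC x hx (cover_sound hT V h1.1 x hx hx1 hx)

theorem good2_sound (hp : Pat pl mi es OV E V pt) (hT : OkT pl mi V pt T) {s : ℕ} {k : ℕ → Bool}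
    (h : good2 V T s k = true) : Cc V pt true := by
  obtain ⟨s', C, hC, h1⟩ := comps_sound hp hT h (fun x _ hb => by
    rw [bit_iff] at hb; simp at hb)
  unfold Cc
  simp only [if_true]
  rcases hd : Nat.land s' 63 with _ | c
  · rw [hd] at h1
    have h1 : (cover T C V && k (Nat.shiftRight s' 6)) = true := h1
    rw [Bool.and_eq_true] at h1
    have key : ∀ x < 4 * V, pt x = 1 → Two V pt x := fun x hx hx1 =>
      hC x hx (cover_sound hT V h1.1 x hx hx1 hx)
    exact ⟨fun x hx h1 h2 => absurd (key x hx h1) h2, fun ⟨x, hx, h1, h2⟩ => absurd (key x hx h1) h2⟩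
  · rw [hd] at h1
    obtain ⟨s'', M, hM, h2⟩ := tree_ind (I := PW V pt) (fun M x y he hb hM => PW_step hp hT he hb hM)
      h1 (PW_base c)
    rw [Bool.and_eq_true, Bool.and_eq_true, Bool.and_eq_true] at h2
    obtain ⟨⟨h3, h4⟩, h5, -⟩ := h2
    have h3' : ent T (Nat.land s'' 63) = 1 := Nat.eq_of_beq_eq_true h3
    have h4' : ent T (nxt (Nat.land s'' 63)) = 1 := Nat.eq_of_beq_eq_true h4
    have key : ∀ x < 4 * V, pt x = 1 → ¬Two V pt x → bit M (x / 4) = true := by
      intro x hx hx1 h2
      have h6 := cover_sound hT V h5 x hx hx1 hx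
      have hb' : (bit C (x / 4) || bit M (x / 4)) = true := by
        rw [← h6, bit_iff, bit_iff, bit_iff]
        exact (Nat.testBit_or _ _ _).symm
      rw [Bool.or_eq_true] at hb'
      rcases hb' with hb' | hb'
      · exact absurd (hC x hx hb') h2
      · exact hb'
    refine ⟨fun x hx h1 h2 y hy h3 h4 => hM x hx y hy (key x hx h1 h2) (key y hy h3 h4), fun _ =>
      ⟨Nat.land s'' 63, hT.lt (by omega), ?_, ?_⟩⟩
    · rw [← hT.eq (by omega), h3']
    · rw [← hT.eq (by omega), h4']

/-! ### Mirror pairs -/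

theorem pr_sound (hp : Pat pl mi es OV E V pt) (hT : OkT pl mi V pt T) {s : ℕ} {k : ℕ → Bool}
    (h : pr OV E T s k = true) : False := by
  unfold pr at h
  simp only at h
  generalize Nat.land s 63 = x at h
  generalize Nat.land (Nat.shiftRight s 6) 63 = x' at h
  rcases he : ent T x with _ | _ | y
  · rw [he] at h; exact absurd h (by simp)
  · rw [he] at h; exact absurd h (by simp)
  rw [he] at h
  simp only at h
  rcases he' : ent T x' with _ | _ | y'
  · rw [he'] at h; exact absurd h (by simp)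
  · rw [he'] at h; exact absurd h (by simp)
  rw [he'] at h
  simp only [Bool.and_eq_true, Bool.not_eq_true'] at h
  obtain ⟨⟨⟨⟨g1, g2⟩, h1, h2⟩, h3, h4, h5, h6⟩, -⟩ := h
  refine hp.nopr x (hT.lt (by omega)) x' (hT.lt (by omega)) g1 g2 y y' ?_ ?_ h1 h2 ?_
    (Nat.eq_of_beq_eq_true h4) (Nat.eq_of_beq_eq_true h5) ?_
  · rw [← hT.eq (by omega), he]
  · rw [← hT.eq (by omega), he']
  · intro h
    rw [h] at h3
    simp at h3
  · intro h
    rw [h] at h6
    simp at h6

/-! ### Progress -/

theorem arcs_k {off f s W : ℕ} {k : ℕ → ℕ → Bool} (h : arcs T off f s W k = true) :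
    ∃ s' W', k s' W' = true := by
  obtain ⟨s', W', -, h⟩ := arcs_ind (I := fun _ => True) (fun _ _ _ _ _ => trivial) h trivial
  exact ⟨s', W', h⟩

theorem tree_k {f s M : ℕ} {k : ℕ → ℕ → Bool} (h : tree T f s M k = true) :
    ∃ s' M', k s' M' = true := by
  obtain ⟨s', W', -, h⟩ := tree_ind (I := fun _ => True) (fun _ _ _ _ _ _ => trivial) h trivial
  exact ⟨s', W', h⟩

theorem flow_k {s : ℕ} {k : ℕ → Bool} (h : flow es T s k = true) : ∃ s', k s' = true := by
  obtain ⟨s', W, h1⟩ := arcs_k h
  have fin : ∀ (f s W : ℕ), arcs T 8 f s W (fun s W => and (cirs es W 0 0) (k s)) = true →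
      ∃ s', k s' = true := by
    intro f s W h
    obtain ⟨s', W', h1⟩ := arcs_k h
    have h2 : (cirs es W' 0 0 && k s') = true := h1
    rw [Bool.and_eq_true] at h2
    exact ⟨s', h2.2⟩
  rcases hd : Nat.land s' 63 with _ | p
  · rw [hd] at h1
    exact fin _ _ _ h1
  · rw [hd] at h1
    simp only at h1
    rcases hd' : Nat.land (Nat.shiftRight s' 6) 63 with _ | q
    · rw [hd'] at h1
      exact absurd h1 (by simp)
    · rw [hd'] at h1
      simp only at h1
      rw [Bool.and_eq_true] at h1
      exact fin _ _ _ h1.2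

theorem comps_k {f : ℕ} : ∀ {s C : ℕ} {k : ℕ → ℕ → Bool}, comps T f s C k = true →
    ∃ s' C', k s' C' = true := by
  induction f with
  | zero =>
    intro s C k h
    exact absurd h (by simp [comps])
  | succ f ih =>
    intro s C k h
    have e : comps T (f + 1) s C k = Nat.rec (k (Nat.shiftRight s 6) C) (fun c _ =>
      tree T 40 (Nat.shiftRight s 6) (Nat.pow 2 c) fun s M =>
        and (and (not (Nat.beq (Nat.land s 63) (Nat.land (Nat.shiftRight s 6) 63)))
            (and (crn T M (Nat.land s 63)) (crn T M (Nat.land (Nat.shiftRight s 6) 63))))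
          (comps T f (Nat.shiftRight s 12) (Nat.lor C M) k)) (Nat.land s 63) := rfl
    rw [e] at h
    generalize Nat.land s 63 = d at h
    rcases d with _ | c
    · exact ⟨_, _, h⟩
    · simp only at h
      obtain ⟨s', M, h1⟩ := tree_k h
      rw [Bool.and_eq_true] at h1
      exact ih h1.2

theorem good_k {s : ℕ} {k : ℕ → Bool} (h : good V T s k = true) : ∃ s', k s' = true := by
  obtain ⟨s', C, h1⟩ := comps_k h
  rw [Bool.and_eq_true] at h1
  exact ⟨_, h1.2⟩

theorem good2_k {s : ℕ} {k : ℕ → Bool} (h : good2 V T s k = true) : ∃ s', k s' = true := by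
  obtain ⟨s', C, h1⟩ := comps_k h
  rcases hd : Nat.land s' 63 with _ | c
  · rw [hd] at h1
    have h1 : (cover T C V && k (Nat.shiftRight s' 6)) = true := h1
    rw [Bool.and_eq_true] at h1
    exact ⟨_, h1.2⟩
  · rw [hd] at h1
    obtain ⟨s'', M, h2⟩ := tree_k h1
    rw [Bool.and_eq_true, Bool.and_eq_true, Bool.and_eq_true] at h2
    exact ⟨_, h2.2.2⟩

theorem pr_k {s : ℕ} {k : ℕ → Bool} (h : pr OV E T s k = true) : ∃ s', k s' = true := by
  unfold pr at h
  simp only at h
  generalize Nat.land s 63 = x at h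
  generalize Nat.land (Nat.shiftRight s 6) 63 = x' at h
  rcases he : ent T x with _ | _ | y
  · rw [he] at h; exact absurd h (by simp)
  · rw [he] at h; exact absurd h (by simp)
  rw [he] at h
  simp only at h
  rcases he' : ent T x' with _ | _ | y'
  · rw [he'] at h; exact absurd h (by simp)
  · rw [he'] at h; exact absurd h (by simp)
  rw [he'] at h
  simp only [Bool.and_eq_true] at h
  exact ⟨_, h.2⟩

theorem opts_cons (r : ℕ → ℕ → (ℕ → Bool) → Bool) (T x y : ℕ) (l : List ℕ) (s : ℕ)
    (k : ℕ → Bool) : opts r T x (y :: l) s k = cond (and (Nat.beq (ent T y) 0) (adm x y))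
      (r (setA T x y) s fun s => opts r T x l s k) (opts r T x l s k) := rfl

theorem opts_k {r : ℕ → ℕ → (ℕ → Bool) → Bool} (hr : ∀ T s k, r T s k = true → ∃ s', k s' = true)
    {x : ℕ} : ∀ {l : List ℕ} {s : ℕ} {k : ℕ → Bool}, opts r T x l s k = true → ∃ s', k s' = true
  | [], s, k, h => ⟨s, h⟩
  | y :: l, s, k, h => by
    rw [opts_cons] at h
    cases hc : and (Nat.beq (ent T y) 0) (adm x y)
    · rw [hc] at h
      exact opts_k hr h
    · rw [hc] at h
      obtain ⟨s', h'⟩ := hr _ _ _ h
      exact opts_k hr h'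

/-- the option which takes place is checked -/
theorem opts_mem {r : ℕ → ℕ → (ℕ → Bool) → Bool} (hr : ∀ T s k, r T s k = true → ∃ s', k s' = true)
    {x y : ℕ} (h0 : ent T y = 0) (ha : adm x y = true) : ∀ {l : List ℕ} {s : ℕ} {k : ℕ → Bool},
    y ∈ l → opts r T x l s k = true → ∃ s' k', r (setA T x y) s' k' = true
  | [], s, k, hy, h => by simp at hy
  | z :: l, s, k, hy, h => by
    rw [opts_cons] at h
    by_cases hzy : z = y
    · subst hzy
      rw [h0, ha] at h
      exact ⟨_, _, h⟩
    · have hy' : y ∈ l := by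
        rcases List.mem_cons.1 hy with h | h
        · exact absurd h.symm hzy
        · exact h
      cases hc : and (Nat.beq (ent T z) 0) (adm x z)
      · rw [hc] at h
        exact opts_mem hr h0 ha hy' h
      · rw [hc] at h
        obtain ⟨s', h'⟩ := hr _ _ _ h
        exact opts_mem hr h0 ha hy' h'

section run
variable {two : Bool}

theorem run_succ (f T s : ℕ) (k : ℕ → Bool) : run pl mi es OV E V two (f + 1) T s k =
    Nat.rec (cond two (good2 V T (Nat.shiftRight s 6) k) (good V T (Nat.shiftRight s 6) k)) (fun d _ =>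
    Nat.rec (flow es T (Nat.shiftRight s 6) k) (fun d _ =>
    Nat.rec (pr OV E T (Nat.shiftRight s 6) k) (fun x _ =>
      and (and (bit OV x) (Nat.beq (ent T x) 0))
        (run pl mi es OV E V two f (setO T x) (Nat.shiftRight s 6) fun s' =>
          cond (isb x)
            (run pl mi es OV E V two f (setS T x) s' fun s' =>
              cond (bit x 1) (opts (run pl mi es OV E V two f) T x mi s' k)
                (opts (run pl mi es OV E V two f) T x pl s' k))
            (cond (bit x 1) (opts (run pl mi es OV E V two f) T x mi s' k)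
              (opts (run pl mi es OV E V two f) T x pl s' k)))) d) d) (Nat.land s 63) := rfl

theorem run_k {f : ℕ} : ∀ (T s : ℕ) (k : ℕ → Bool), run pl mi es OV E V two f T s k = true →
    ∃ s', k s' = true := by
  induction f with
  | zero =>
    intro T s k h
    exact absurd h (by simp [run])
  | succ f ih =>
    intro T s k h
    rw [run_succ] at h
    generalize Nat.land s 63 = d at h
    rcases d with _ | _ | _ | x
    · cases two
      · exact good_k h
      · exact good2_k h
    · exact flow_k h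
    · exact pr_k h
    · simp only at h
      rw [Bool.and_eq_true] at h
      obtain ⟨s', h'⟩ := ih _ _ _ h.2
      have key : ∀ s'', cond (bit x 1) (opts (run pl mi es OV E V two f) T x mi s'' k)
              (opts (run pl mi es OV E V two f) T x pl s'' k) = true → ∃ s', k s' = true := by
        intro s'' h''
        cases hb : bit x 1
        · rw [hb] at h''
          exact opts_k (T := T) ih h''
        · rw [hb] at h''
          exact opts_k (T := T) ih h''
      cases hb : isb x
      · rw [hb] at h'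
        exact key _ h'
      · rw [hb] at h'
        obtain ⟨s'', h''⟩ := ih _ _ _ h'
        exact key _ h''

end run

/-! ### Soundness -/

theorem OkT.ext (hp : Pat pl mi es OV E V pt) (hT : OkT pl mi V pt T) {T' : ℕ} (S : ℕ → Prop)
    [DecidablePred S] (hS : ∀ z, S z → z < 4 * V)
    (he : ∀ z, ent T' z = if S z then pt z else ent T z)
    (hpt : ∀ z, S z → ∀ w, pt z = w + 2 → S w) (hun : ∀ z ∈ pl ++ mi, S (un z) → S z) :
    OkT pl mi V pt T' where
  val := by
    intro x hx h0
    rw [he] at h0 ⊢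
    split_ifs at h0 ⊢ with hs
    · rfl
    · exact hT.val x hx h0
  big := by
    intro x hx
    rw [he, if_neg (fun h => by have := hS x h; omega)]
    exact hT.big x hx
  par := by
    intro x hx h0
    have hs : ¬S x := by
      intro hs
      rw [he, if_pos hs] at h0
      exact hp.pos x (hS x hs) h0
    rw [he, if_neg hs] at h0
    rw [he, if_neg fun h => hs (hun x hx h)]
    exact hT.par x hx h0
  sym := by
    intro x hx y hy h0
    have hs : ¬S x := by
      intro hs
      rw [he, if_pos hs] at h0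
      exact hp.pos x (hS x hs) h0
    rw [he, if_neg hs] at h0
    have hs' : ¬S y := fun h => hs (hpt y h x (hp.sym x hx y hy).2.1)
    rw [he, if_neg hs']
    exact hT.sym x hx y hy h0

theorem okT_zero (hp : Pat pl mi es OV E V pt) : OkT pl mi V pt 0 := by
  have h : ∀ x, ent 0 x = 0 := by
    intro x
    refine Nat.eq_of_testBit_eq fun i => ?_
    rw [testBit_ent]
    simp
  exact ⟨fun x _ h0 => absurd (h x) h0, fun x _ => h x, fun x _ _ => h _, fun x _ y _ _ => h _⟩

theorem okT_setO (hp : Pat pl mi es OV E V pt) (hT : OkT pl mi V pt T) {x : ℕ} (hx : x ∈ pl ++ mi)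
    (h0 : ent T x = 0) (h1 : pt x = 1) (h2 : pt (un x) = 1) : OkT pl mi V pt (setO T x) := by
  obtain ⟨b1, b2, b3⟩ := hp.ovr x hx
  refine hT.ext hp (fun z => z = x ∨ z = un x) ?_ ?_ ?_ ?_
  · rintro z (rfl | rfl)
    · exact b1
    · exact b2
  · intro z
    have e1 : ent (put T x 1) (un x) = 0 := by
      rw [ent_put (by norm_num) h0, if_neg b3]
      exact hT.par x hx h0
    unfold setO
    rw [ent_put (by norm_num) e1, ent_put (by norm_num) h0]
    by_cases k1 : z = un x
    · subst k1; simp [h2]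
    · by_cases k2 : z = x
      · subst k2; simp [k1, h1]
      · simp [k1, k2]
  · rintro z (rfl | rfl) w hw
    · omega
    · omega
  · rintro z hz (h | h)
    · exact absurd h (hp.uno z hz x hx)
    · exact Or.inl (hp.uni z hz x hx h)

theorem okT_setS (hp : Pat pl mi es OV E V pt) (hT : OkT pl mi V pt T) {x : ℕ} (hx : x ∈ pl ++ mi)
    (h0 : ent T x = 0) (h1 : pt x = un x + 2) (h2 : pt (un x) = x + 2) :
    OkT pl mi V pt (setS T x) := by
  obtain ⟨b1, b2, b3⟩ := hp.ovr x hx
  have hb := hp.big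
  refine hT.ext hp (fun z => z = x ∨ z = un x) ?_ ?_ ?_ ?_
  · rintro z (rfl | rfl)
    · exact b1
    · exact b2
  · intro z
    have l1 : Nat.add (un x) 2 < 64 := by show un x + 2 < 64; omega
    have l2 : Nat.add x 2 < 64 := by show x + 2 < 64; omega
    have e1 : ent (put T x (Nat.add (un x) 2)) (un x) = 0 := by
      rw [ent_put l1 h0, if_neg b3]
      exact hT.par x hx h0
    unfold setS
    rw [ent_put l2 e1, ent_put l1 h0]
    by_cases k1 : z = un x
    · subst k1; simp [h2]
    · by_cases k2 : z = x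
      · subst k2; simp [k1, h1]
      · simp [k1, k2]
  · rintro z (rfl | rfl) w hw
    · right; omega
    · left; omega
  · rintro z hz (h | h)
    · exact absurd h (hp.uno z hz x hx)
    · exact Or.inl (hp.uni z hz x hx h)

theorem okT_setA (hp : Pat pl mi es OV E V pt) (hT : OkT pl mi V pt T) {x y : ℕ} (hx : x ∈ pl ++ mi)
    (hy : y ∈ pl ++ mi) (h0 : ent T x = 0) (hyx : y ≠ x) (h1 : pt x = y + 2) (h2 : pt y = x + 2)
    (h3 : pt (un x) = un y + 2) (h4 : pt (un y) = un x + 2) :
    OkT pl mi V pt (setA T x y) := by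
  obtain ⟨b1, b2, b3⟩ := hp.ovr x hx
  obtain ⟨c1, c2, c3⟩ := hp.ovr y hy
  have hb := hp.big
  have h0y : ent T y = 0 := hT.sym x b1 y h1 h0
  have n1 : un x ≠ y := hp.uno x hx y hy
  have n2 : un y ≠ x := hp.uno y hy x hx
  have n3 : un y ≠ un x := fun h => hyx (hp.uni y hy x hx h)
  refine hT.ext hp (fun z => z = x ∨ z = y ∨ z = un x ∨ z = un y) ?_ ?_ ?_ ?_
  · rintro z (rfl | rfl | rfl | rfl)
    · exact b1
    · exact c1
    · exact b2
    · exact c2
  · intro z
    have l1 : Nat.add y 2 < 64 := by show y + 2 < 64; omega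
    have l2 : Nat.add x 2 < 64 := by show x + 2 < 64; omega
    have l3 : Nat.add (un y) 2 < 64 := by show un y + 2 < 64; omega
    have l4 : Nat.add (un x) 2 < 64 := by show un x + 2 < 64; omega
    have e1 : ent (put T x (Nat.add y 2)) y = 0 := by
      rw [ent_put l1 h0, if_neg hyx]
      exact h0y
    have e2 : ent (put (put T x (Nat.add y 2)) y (Nat.add x 2)) (un x) = 0 := by
      rw [ent_put l2 e1, if_neg n1, ent_put l1 h0, if_neg b3]
      exact hT.par x hx h0
    have e3 : ent (put (put (put T x (Nat.add y 2)) y (Nat.add x 2)) (un x) (Nat.add (un y) 2))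
        (un y) = 0 := by
      rw [ent_put l3 e2, if_neg n3, ent_put l2 e1, if_neg c3, ent_put l1 h0, if_neg n2]
      exact hT.par y hy h0y
    unfold setA
    rw [ent_put l4 e3, ent_put l3 e2, ent_put l2 e1, ent_put l1 h0]
    by_cases k1 : z = un y
    · subst k1; simp [h4]
    · by_cases k2 : z = un x
      · subst k2; simp [k1, h3]
      · by_cases k3 : z = y
        · subst k3; simp [k1, k2, h2]
        · by_cases k4 : z = x
          · subst k4; simp [k1, k2, k3, h1]
          · simp [k1, k2, k3, k4]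
  · rintro z (rfl | rfl | rfl | rfl) w hw
    · right; left; omega
    · left; omega
    · right; right; right; omega
    · right; right; left; omega
  · rintro z hz (h | h | h | h)
    · exact absurd h (hp.uno z hz x hx)
    · exact absurd h (hp.uno z hz y hy)
    · exact Or.inl (hp.uni z hz x hx h)
    · exact Or.inr (Or.inl (hp.uni z hz y hy h))

theorem run_sound {two : Bool} (hp : Pat pl mi es OV E V pt) {f : ℕ} : ∀ (T s : ℕ) (k : ℕ → Bool),
    OkT pl mi V pt T → run pl mi es OV E V two f T s k = true → Cc V pt two := by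
  induction f with
  | zero =>
    intro T s k _ h
    exact absurd h (by simp [run])
  | succ f ih =>
    intro T s k hT h
    rw [run_succ] at h
    generalize Nat.land s 63 = d at h
    rcases d with _ | _ | _ | x
    · cases two
      · exact good_sound hp hT h
      · exact good2_sound hp hT h
    · exact (flow_sound hp hT h).elim
    · exact (pr_sound hp hT h).elim
    · simp only at h
      rw [Bool.and_eq_true, Bool.and_eq_true] at h
      obtain ⟨⟨h1, h2⟩, h3⟩ := h
      have hx := hp.ov x h1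
      have h0 : ent T x = 0 := Nat.eq_of_beq_eq_true h2
      obtain ⟨s', h4⟩ := run_k _ _ _ h3
      -- the remaining options
      have h5 : ∃ s'', cond (bit x 1) (opts (run pl mi es OV E V two f) T x mi s'' k)
          (opts (run pl mi es OV E V two f) T x pl s'' k) = true := by
        cases hb : isb x
        · rw [hb] at h4
          exact ⟨_, h4⟩
        · rw [hb] at h4
          obtain ⟨s'', h6⟩ := run_k _ _ _ h4
          exact ⟨_, h6⟩
      rcases hp.nam x hx with ⟨k1, k2⟩ | ⟨k1, k2, k3⟩ | ⟨y, k1, k2, k3, k4, k5, k6, k7, k8, k9⟩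
      · exact ih _ _ _ (okT_setO hp hT hx h0 k1 k2) h3
      · rw [k1] at h4
        exact ih _ _ _ (okT_setS hp hT hx h0 k2 k3) h4
      · obtain ⟨s'', h6⟩ := h5
        have hy : y ∈ pl ++ mi := by
          split_ifs at k1
          · exact List.mem_append_right _ k1
          · exact List.mem_append_left _ k1
        have h0y : ent T y = 0 := hT.sym x (hp.ovr x hx).1 y k5 h0
        have hok := okT_setA hp hT hx hy h0 k3 k5 k6 k7 k8
        rw [← bit_iff] at k1
        cases hb : bit x 1
        · rw [hb] at h6 k1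
          obtain ⟨s₁, k₁, h7⟩ := opts_mem (T := T) run_k h0y k2 (by simpa using k1) h6
          exact ih _ _ _ hok h7
        · rw [hb] at h6 k1
          obtain ⟨s₁, k₁, h7⟩ := opts_mem (T := T) run_k h0y k2 (by simpa using k1) h6
          exact ih _ _ _ hok h7

/-- the conclusion for a pattern with a certificate -/
theorem cc_of_run {two : Bool} (hp : Pat pl mi es OV E V pt) {f s : ℕ} {k : ℕ → Bool}
    (h : run pl mi es OV E V two f 0 s k = true) : Cc V pt two :=
  run_sound hp 0 s k (okT_zero hp) h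

end Pool.Agent.W5h73.TT.Chk
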