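import Pool.Agent.W5h73.TT.Fin
import Pool.Agent.W5h73.TT.Sol3
import Pool.Agent.W5h73.VM.Lift

/-! At most three triple points of each class. -/

namespace Pool.Agent.W5h73.TT3

open Pool.Agent.W5h73.TT
open Pool.Agent.Y468.SR
open Pool.Agent.Y874.TP hiding S_REID S_REN S_THREE S_OUT S_CUT S_JUNC CStep CReid CM InvM InvC Inv3
open Pool.Agent.Y874.TP2
open Pool.Agent.Y874.TP2.T3
open Pool.Agent.R800.TP
open Pool.Agent.R800.BT (Hts Mono Bad Sv perm_TC drop)
open Pool.Agent.W5h73.VM (VMovie vmovie_inv')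

set_option linter.unusedSimpArgs false
set_option linter.unusedVariables false

variable {P : List ℕ → Prop}

/-- The triple points which cannot be removed have the corners needed. -/
def JG (P : List ℕ → Prop) : Prop := ∀ (D : Code) (Ts : List Tri) (m : ℕ → ℕ),
  P (Ts.map fun T => colour T.a₁) → ∀ κ,
    Ctx D (cls colour κ Ts) (rst colour κ Ts) colour m κ → Gl D (TC Ts) (cls colour κ Ts) m

theorem movie_of_gl (hP : Her P) (hJ : JG P) (n : ℕ) : ∀ (l : ℕ) (D : Code)
    (Ts : List Tri), Ts.length = n → (passes D).length = l → Classical D →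
    (D.map Prod.snd).Nodup → Inv4 P D Ts → Movie true false D [] := by
  induction n using Nat.strong_induction_on with
  | _ n ihn =>
    intro l
    induction l using Nat.strong_induction_on with
    | _ l ihl =>
      intro D Ts h1 h2 hD hn h3
      obtain ⟨m, hm⟩ := h3.inv
      have hsv : Sv (D ++ TC Ts) colour m := ⟨h3.wf, hm.1, hm.2.2, fun p hp => (hm.2.1 p hp).1⟩
      by_cases hb : ∃ T ∈ Ts, Bad T m
      · obtain ⟨T, hT, hb⟩ := hb
        obtain ⟨l₁, l₂, rfl⟩ := List.append_of_mem hT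
        obtain ⟨m', hm'⟩ := drop (hsv.perm perm_TC) (h3.ok T hT).1 (h3.ht T hT).1 (h3.ht T hT).2 hb
        have hs : (l₁ ++ l₂).Sublist (l₁ ++ T :: l₂) :=
          List.Sublist.append (List.Sublist.refl _) (List.sublist_cons_self _ _)
        refine ihn (l₁ ++ l₂).length ?_ _ D (l₁ ++ l₂) rfl rfl hD hn (inv4_drop hP h3 hs hm')
        rw [← h1]
        simp
      by_cases hmi : ∃ T ∈ Ts, ∃ T' ∈ Ts, Mir T T' m
      · obtain ⟨T, hT, T', hT', hmi⟩ := hmi
        have hne : T ≠ T' := by
          rintro rfl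
          exact hmi.1 rfl
        obtain ⟨l₁, l₂, rfl⟩ := List.append_of_mem hT
        have hT'' : T' ∈ l₁ ++ l₂ := by
          simp only [List.mem_append, List.mem_cons] at hT' ⊢
          rcases hT' with h | h | h
          · exact Or.inl h
          · exact absurd h.symm hne
          · exact Or.inr h
        obtain ⟨k₁, k₂, e⟩ := List.append_of_mem hT''
        have hp : (D ++ TC (l₁ ++ T :: l₂)).Perm (T.code ++ T'.code ++ (D ++ TC (k₁ ++ k₂))) := by
          refine perm_TC.trans ?_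
          rw [e, List.append_assoc]
          exact List.Perm.append_left _ perm_TC
        obtain ⟨m', hm'⟩ := dropMir (hsv.perm hp) (h3.ok T hT).1 (h3.ht T hT).1 (h3.ht T hT).2
          (h3.ok T' hT').1 (h3.ht T' hT').1 (h3.ht T' hT').2 hmi
        have hs : (k₁ ++ k₂).Sublist (l₁ ++ T :: l₂) := by
          refine List.Sublist.trans (l₂ := l₁ ++ l₂) ?_
            (List.Sublist.append (List.Sublist.refl _) (List.sublist_cons_self _ _))
          rw [e]
          exact List.Sublist.append (List.Sublist.refl _) (List.sublist_cons_self _ _)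
        refine ihn (k₁ ++ k₂).length ?_ _ D (k₁ ++ k₂) rfl rfl hD hn (inv4_drop hP h3 hs hm')
        have h4 := congrArg List.length e
        simp only [List.length_append, List.length_cons] at h4 h1 ⊢
        omega
      by_cases h : passes D = []
      · exact movie_mono (deaths hn h)
      push Not at hb hmi
      have hok : ∀ T ∈ Ts, T.Ok ∧ Hts T ∧ Mono colour T := fun T hT => ⟨(h3.ok T hT).1, h3.ht T hT⟩
      have hctx := ctx_of hD.1 hn hsv hok hb hmi
      have ha : Adj (part m) D (TC Ts) :=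
        adj_of_gl hD.1 hn hsv hok hb hmi h fun κ => hJ D Ts m h3.ct κ (hctx κ)
      obtain ⟨D', Ts', r1, r2, r3, r4, r5⟩ := step4 hP hD hn h3 hm ha
      refine r5.trans ?_
      rcases r1 with r1 | ⟨r1, r1'⟩
      · exact ihn Ts'.length (by omega) _ D' Ts' rfl rfl r2 r3 r4
      · exact ihl (passes D').length (by omega) D' Ts' (by omega) rfl r2 r3 r4

/-- the general conclusion -/
theorem sv_movie_gl {P : List ℕ → Prop} (hP : Her P) (hJ : JG P) {D : Code} {Ts : List Tri}
    {χ m : ℕ → ℕ} (sv : Sv (D ++ TC Ts) χ m) (ok : ∀ T ∈ Ts, T.Ok ∧ Hts T ∧ Mono χ T)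
    (hp : P (Ts.map fun T => 2 * χ T.a₁)) (hD : Classical D) (hn : (D.map Prod.snd).Nodup) :
    Movie true false D [] := by
  set f : ℕ → ℕ := fun c => Nat.pair (2 * χ c) c with hf
  have hg : ∀ c, (Nat.unpair (f c)).2 = c := fun c => by rw [hf]; simp
  have hcol : ∀ c, colour (f c) = 2 * χ c := fun c => by rw [hf, colour]; simp
  have hinj : Function.Injective f := fun a b h => by rw [← hg a, ← hg b, h]
  have hE : renamed f D ++ TC (Ts.map (Tri.rename f)) = renamed f (D ++ TC Ts) := by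
    rw [renamed_append, TC_rename]
  have hmono : ∀ T ∈ Ts, ∀ c ∈ T.names, χ c = χ T.a₁ := fun T hT c hc =>
    (ok T hT).2.2 c hc _ (by simp [Tri.names])
  have hD' := Pool.Agent.R800.BT.classical_renamed hinj hD
  have hlab : (renamed f D).map Prod.snd = D.map Prod.snd := by simp [renamed]
  have hmap : ((Ts.map (Tri.rename f)).map fun T => colour T.a₁) = Ts.map fun T => 2 * χ T.a₁ := by
    rw [List.map_map]
    exact List.map_congr_left fun T _ => hcol T.a₁
  have hI : Inv4 P (renamed f D) (Ts.map (Tri.rename f)) := by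
    refine ⟨?_, ?_, ?_, ?_, ?_, ?_⟩
    · rw [hE, passes_renamed]
      exact sv.wf.ren fun p _ q _ e => hinj e
    · intro T' hT'
      obtain ⟨T, hT, rfl⟩ := List.mem_map.1 hT'
      have h := hmono T hT
      refine ⟨(ok T hT).1, ?_, ?_, ?_⟩
      · refine (hcol T.a₂).trans (Eq.trans ?_ (hcol T.a₁).symm)
        rw [h T.a₂ (by simp [Tri.names])]
      · refine (hcol T.b₂).trans (Eq.trans ?_ (hcol T.b₁).symm)
        rw [h T.b₂ (by simp [Tri.names]), h T.b₁ (by simp [Tri.names])]
      · refine (hcol T.c₂).trans (Eq.trans ?_ (hcol T.c₁).symm)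
        rw [h T.c₂ (by simp [Tri.names]), h T.c₁ (by simp [Tri.names])]
    · intro T' hT'
      obtain ⟨T, hT, rfl⟩ := List.mem_map.1 hT'
      refine ⟨(ok T hT).2.1, ?_⟩
      have hnm : (T.rename f).names = T.names.map f := rfl
      intro c hc d hd
      rw [hnm] at hc hd
      obtain ⟨c', hc', rfl⟩ := List.mem_map.1 hc
      obtain ⟨d', hd', rfl⟩ := List.mem_map.1 hd
      rw [hcol, hcol, hmono T hT c' hc', hmono T hT d' hd']
    · intro p hp
      rw [hE] at hp
      obtain ⟨q, hq, rfl⟩ := mem_renamed.1 hp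
      simp only [hcol]
      omega
    · rw [hmap]
      exact hp
    · rw [hE]
      obtain ⟨k1, k2⟩ := Pool.Agent.R800.BT.inv_renamed (f := f) (g := fun c => (Nat.unpair c).2) hg sv.mt sv.nv
      refine ⟨_, k1, ?_, k2⟩
      intro p' hp'
      obtain ⟨p, hp, rfl⟩ := mem_renamed.1 hp'
      simp only [hg]
      rw [hcol, hcol, sv.cm p hp]
      exact ⟨rfl, fun h1 => absurd (by omega) h1⟩
  exact Movie.head hD hD' (Step.rename _ D fun p _ q _ h => hinj h)
    (movie_of_gl hP hJ _ _ _ _ rfl rfl hD' (by rw [hlab]; exact hn) hI)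

/-- The invariant in the monochromatic case. -/
theorem vmovie_sv {Z : ℕ → Prop} {D : Code} {T : List (ℕ × ℕ × ℕ)}
    (h : VMovie Z D T) (hZ : ∀ p ∈ passes D, ¬Z (colour p.crossing))
    (hc : ∀ t ∈ T, t.2.1 = t.1 ∧ t.2.2 = t.1) : ∃ (Ts : List Tri) (m : ℕ → ℕ),
      Sv (D ++ TC Ts) colour m ∧ (∀ T ∈ Ts, T.Ok ∧ Hts T ∧ Mono colour T) ∧
      Ts.map (fun S => colour S.a₁) = T.map Prod.fst := by
  obtain ⟨Ts, hI, hs⟩ := vmovie_inv' RD.reid RN.ren TH.three h hZ
  obtain ⟨m, hm⟩ := hI.inv
  have key : ∀ S ∈ Ts, Hts S ∧ colour S.b₁ = colour S.a₁ ∧ colour S.c₁ = colour S.a₁ := by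
    intro S hS
    have h1 : sig S ∈ T.map fun t => (t, (true, true, true)) := by
      rw [← hs]; exact List.mem_map_of_mem hS
    obtain ⟨t, ht, h2⟩ := List.mem_map.1 h1
    obtain ⟨c1, c2⟩ := hc t ht
    simp only [sig, Prod.ext_iff] at h2
    obtain ⟨⟨h3, h4, h5⟩, h6, h7, h8⟩ := h2
    refine ⟨⟨h6.symm, h7.symm, h8.symm⟩, ?_, ?_⟩
    · rw [← h4, ← h3, c1]
    · rw [← h5, ← h3, c2]
  have hfst : Ts.map (fun S => colour S.a₁) = T.map Prod.fst := by
    have h1 : (Ts.map sig).map (fun x => x.1.1) = (T.map fun t => (t, (true, true, true))).map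
        (fun x => x.1.1) := by rw [hs]
    rw [List.map_map, List.map_map] at h1
    exact h1
  refine ⟨Ts, m, ⟨hI.wf, hm.1, hm.2.2, fun p hp => (hm.2.1 p hp).1⟩,
    fun S hS => ⟨(hI.ok S hS).1, (key S hS).1, ?_⟩, hfst⟩
  obtain ⟨k1, k2, k3⟩ := (hI.ok S hS).2
  obtain ⟨-, k4, k5⟩ := key S hS
  have hall : ∀ c ∈ S.names, colour c = colour S.a₁ := by
    intro c hc
    simp only [Tri.names, List.mem_cons, List.not_mem_nil, or_false] at hc
    rcases hc with rfl | rfl | rfl | rfl | rfl | rfl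
    · rfl
    · exact k1
    · exact k4
    · rw [k2, k4]
    · exact k5
    · rw [k3, k5]
  intro c hc d hd
  rw [hall c hc, hall d hd]

theorem cls_length (Ts : List Tri) (κ : ℕ) :
    (cls colour κ Ts).length = (Ts.map fun T => colour T.a₁).count κ := by
  unfold cls
  rw [← List.countP_eq_length_filter, List.count, List.countP_map]
  refine List.countP_congr fun T _ => ?_
  simp

theorem count_two (l : List ℕ) (κ : ℕ) : (l.map fun x => 2 * x).count (2 * κ) = l.count κ :=
  List.count_map_of_injective l (fun x => 2 * x) (fun a b h => by simpa using h) κ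

theorem count_two' (l : List ℕ) (κ : ℕ) :
    (l.map fun x => 2 * x).count κ = if κ % 2 = 0 then l.count (κ / 2) else 0 := by
  split_ifs with h
  · obtain ⟨k, rfl⟩ : ∃ k, κ = 2 * k := ⟨κ / 2, by omega⟩
    rw [count_two]
    congr 1
    omega
  · rw [List.count_eq_zero]
    intro h1
    obtain ⟨x, -, rfl⟩ := List.mem_map.1 h1
    omega

theorem her3 : Her fun l => ∀ κ, l.count κ ≤ 3 := fun _ _ h hl κ =>
  (h.count_le κ).trans (hl κ)

theorem jg3 : JG fun l => ∀ κ, l.count κ ≤ 3 := by
  intro D Ts m hP κ hc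
  refine gl_three hc (fun q hq => ?_) ?_
  · obtain ⟨T, hT, hq⟩ := List.mem_flatMap.1 hq
    exact List.mem_flatMap.2 ⟨T, (mem_cls.1 hT).1, hq⟩
  · rw [cls_length]
    exact hP κ

/-- Classical links bounding virtual surfaces with at most three triple points on each component of
the double point set meeting the link bound ribbon discs. -/
theorem three_virtual {Z : ℕ → Prop} {D : Code} {T : List (ℕ × ℕ × ℕ)} (hD : Classical D)
    (h : VMovie Z D T) (hZ : ∀ p ∈ passes D, ¬Z (colour p.crossing))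
    (hn : (D.map Prod.snd).Nodup) (hc : ∀ t ∈ T, t.2.1 = t.1 ∧ t.2.2 = t.1)
    (ho : ∀ κ, (T.map Prod.fst).count κ ≤ 3) : Movie true false D [] := by
  obtain ⟨Ts, m, h1, h2, h3⟩ := vmovie_sv h hZ hc
  refine sv_movie_gl her3 jg3 h1 h2 ?_ hD hn
  intro κ
  have : (Ts.map fun T => 2 * colour T.a₁) = (T.map Prod.fst).map fun x => 2 * x := by
    rw [← h3, List.map_map]; rfl
  rw [this, count_two']
  split_ifs
  · exact ho _
  · omega

end Pool.Agent.W5h73.TT3
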