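import Pool.Agent.W5h73.TT.Sound
import Pool.Agent.W5h73.TT.Trans
import Pool.Agent.R800.BT.Step

/-! The twelve ends at a triple point. -/

set_option linter.unusedSimpArgs false

namespace Pool.Agent.W5h73.TT

open Pool.Agent.Y468.SR
open Pool.Agent.Y874.TP (NullV Tri TC word4 mem_code)
open Pool.Agent.Y874.TP2 (part om CycL)
open Pool.Agent.R800.BT (Hts Mono Bad)

/-- names with sign -/
def xa (T : Tri) (s : Bool) : ℕ := if T.sa = s then T.a₂ else T.a₁
def xb (T : Tri) (s : Bool) : ℕ := if T.sb = s then T.b₂ else T.b₁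
def xc (T : Tri) (s : Bool) : ℕ := if T.sc = s then T.c₂ else T.c₁

/-- the list of the ends -/
def namL (T : Tri) : List Pass :=
  [⟨xb T false, true, false⟩, ⟨xa T false, true, false⟩, ⟨xb T true, true, true⟩, ⟨xa T true, true, true⟩,
   ⟨xc T false, true, false⟩, ⟨xa T false, false, false⟩, ⟨xc T true, true, true⟩,
   ⟨xa T true, false, true⟩,
   ⟨xc T false, false, false⟩, ⟨xb T false, false, false⟩, ⟨xc T true, false, true⟩,
   ⟨xb T true, false, true⟩]

/-- the end with number `j` -/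
def nam (T : Tri) (j : ℕ) : Pass := (namL T).getD j ⟨0, true, true⟩

/-- orientation of the circles -/
def eps (T : Tri) : Bool := xor T.ei (xor T.ej T.ek)

/-- a word of four letters -/
def w4 {α : Type} (e : Bool) (f : ℕ → α) (j : ℕ) : List α :=
  if e = true then [f j, f (j + 1), f (j + 2), f (j + 3)]
  else [f (j + 3), f (j + 2), f (j + 1), f j]

theorem words {T : Tri} (hok : T.Ok) (ht : Hts T) :
    T.wi.IsRotated (w4 (eps T) (nam T) 0) ∧ T.wj.IsRotated (w4 (eps T) (nam T) 4) ∧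
      T.wk.IsRotated (w4 (eps T) (nam T) 8) := by
  obtain ⟨a₁, a₂, b₁, b₂, c₁, c₂, ta, tb, tc, sa, sb, sc, ei, ej, ek, li, lj, lk⟩ := T
  obtain ⟨h1, h2, h3⟩ := ht
  simp only at h1 h2 h3
  subst h1 h2 h3
  cases sa <;> cases sb <;> cases sc <;> cases ei <;> cases ej <;> cases ek <;>
  first
  | (exfalso; revert hok; unfold Tri.Ok; simp; done)
  | (refine ⟨?_, ?_, ?_⟩ <;>
      first
      | exact ⟨0, rfl⟩
      | exact ⟨1, rfl⟩
      | exact ⟨2, rfl⟩
      | exact ⟨3, rfl⟩)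

theorem mem_namL {T : Tri} (ht : Hts T) {p : Pass} : p ∈ passes T.code ↔ p ∈ namL T := by
  obtain ⟨a₁, a₂, b₁, b₂, c₁, c₂, ta, tb, tc, sa, sb, sc, ei, ej, ek, li, lj, lk⟩ := T
  obtain ⟨h1, h2, h3⟩ := ht
  simp only at h1 h2 h3
  subst h1 h2 h3
  rw [mem_code]
  simp only [namL, List.mem_cons, List.not_mem_nil, or_false, Tri.pa₁, Tri.pa₂, Tri.pb₁, Tri.pb₂,
    Tri.pc₁, Tri.pc₂, Pass.mate, xa, xb, xc]
  cases sa <;> cases sb <;> cases sc <;> simp <;> tauto

theorem nam_mem {T : Tri} (ht : Hts T) {j : ℕ} (hj : j < 12) : nam T j ∈ passes T.code := by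
  rw [mem_namL ht]
  have hl : j < (namL T).length := hj
  unfold nam
  rw [List.getD_eq_getElem _ _ hl]
  exact List.getElem_mem hl

theorem exists_nam {T : Tri} (ht : Hts T) {p : Pass} (hp : p ∈ passes T.code) :
    ∃ j < 12, nam T j = p := by
  rw [mem_namL ht] at hp
  obtain ⟨j, hj, rfl⟩ := List.mem_iff_getElem.1 hp
  exact ⟨j, hj, by unfold nam; rw [List.getD_eq_getElem _ _ hj]⟩

theorem six {T : Tri} (hn : [T.a₁, T.a₂, T.b₁, T.b₂, T.c₁, T.c₂].Nodup) :
    [xa T true, xa T false, xb T true, xb T false, xc T true, xc T false].Nodup := by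
  obtain ⟨a₁, a₂, b₁, b₂, c₁, c₂, ta, tb, tc, sa, sb, sc, ei, ej, ek, li, lj, lk⟩ := T
  simp only [List.nodup_cons, List.mem_cons, List.not_mem_nil, or_false, not_or, not_false_eq_true,
    List.nodup_nil, and_true] at hn ⊢
  obtain ⟨⟨n12, n13, n14, n15, n16⟩, ⟨n23, n24, n25, n26⟩, ⟨n34, n35, n36⟩, ⟨n45, n46⟩, n56⟩ := hn
  cases sa <;> cases sb <;> cases sc <;> simp only [xa, xb, xc, if_true, Bool.true_eq_false,
    Bool.false_eq_true, if_false] <;>
  refine ⟨⟨?_, ?_, ?_, ?_, ?_⟩, ⟨?_, ?_, ?_, ?_⟩, ⟨?_, ?_, ?_⟩, ⟨?_, ?_⟩, ?_⟩ <;>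
  first
  | assumption
  | (apply Ne.symm; assumption)

theorem namL_nodup {T : Tri} (hn : [T.a₁, T.a₂, T.b₁, T.b₂, T.c₁, T.c₂].Nodup) :
    (namL T).Nodup := by
  have h := six hn
  simp only [List.nodup_cons, List.mem_cons, List.not_mem_nil, or_false, not_or, not_false_eq_true,
    List.nodup_nil, and_true] at h
  obtain ⟨⟨n12, n13, n14, n15, n16⟩, ⟨n23, n24, n25, n26⟩, ⟨n34, n35, n36⟩, ⟨n45, n46⟩, n56⟩ := h
  simp only [namL, List.nodup_cons, List.mem_cons, List.not_mem_nil, or_false, not_or,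
    not_false_eq_true, List.nodup_nil, and_true, Pass.mk.injEq, Bool.true_eq_false,
    Bool.false_eq_true, and_false, and_true, false_and, true_and]
  simp only [Ne.symm n12, Ne.symm n13, Ne.symm n14, Ne.symm n15, Ne.symm n16, Ne.symm n23,
    Ne.symm n24, Ne.symm n25, Ne.symm n26, Ne.symm n34, Ne.symm n35, Ne.symm n36, Ne.symm n45,
    Ne.symm n46, Ne.symm n56, n12, n13, n14, n15, n16, n23, n24, n25, n26, n34, n35, n36, n45, n46,
    n56, not_false_eq_true, and_self]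

theorem nam_inj {T : Tri} (hn : [T.a₁, T.a₂, T.b₁, T.b₂, T.c₁, T.c₂].Nodup) {i j : ℕ} (hi : i < 12)
    (hj : j < 12) (h : nam T i = nam T j) : i = j := by
  have hi' : i < (namL T).length := hi
  have hj' : j < (namL T).length := hj
  unfold nam at h
  rw [List.getD_eq_getElem _ _ hi', List.getD_eq_getElem _ _ hj'] at h
  exact (List.Nodup.getElem_inj_iff (namL_nodup hn)).1 h

end Pool.Agent.W5h73.TT
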