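import Pool.Agent.W5h73.TT.Fin
import Pool.Agent.W5h73.TT.Small
import Pool.Agent.W5h73.VM.Lift

/-! At most two triple points of each class. -/

namespace Pool.Agent.W5h73.TT

open Pool.Agent.Y468.SR
open Pool.Agent.Y874.TP hiding S_REID S_REN S_THREE S_OUT S_CUT S_JUNC CStep CReid CM InvM InvC Inv3
open Pool.Agent.Y874.TP2
open Pool.Agent.Y874.TP2.T3
open Pool.Agent.R800.TP
open Pool.Agent.R800.BT (Hts Mono Bad Sv)
open Pool.Agent.W5h73.VM (VMovie vmovie_inv')
open Chk

/-- the general conclusion -/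
theorem sv_movie {P : List ℕ → Prop} (hP : Her P) (hJ : JH P) {D : Code} {Ts : List Tri}
    {χ m : ℕ → ℕ} (sv : Sv (D ++ TC Ts) χ m) (ok : ∀ T ∈ Ts, T.Ok ∧ Hts T ∧ Mono χ T)
    (hp : P (Ts.map fun T => 2 * χ T.a₁)) (hD : Classical D) (hn : (D.map Prod.snd).Nodup) :
    Movie true false D [] := by
  set f : ℕ → ℕ := fun c => Nat.pair (2 * χ c) c with hf
  have hg : ∀ c, (Nat.unpair (f c)).2 = c := fun c => by rw [hf]; simp
  have hcol : ∀ c, colour (f c) = 2 * χ c := fun c => by rw [hf, colour]; simp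
  have hinj : Function.Injective f := fun a b h => by rw [← hg a, ← hg b, h]
  have hE : renamed f D ++ TC (Ts.map (Tri.rename f)) = renamed f (D ++ TC Ts) := by
    rw [renamed_append, TC_rename]
  have hmono : ∀ T ∈ Ts, ∀ c ∈ T.names, χ c = χ T.a₁ := fun T hT c hc =>
    (ok T hT).2.2 c hc _ (by simp [Tri.names])
  have hD' := Pool.Agent.R800.BT.classical_renamed hinj hD
  have hlab : (renamed f D).map Prod.snd = D.map Prod.snd := by simp [renamed]
  have hmap : ((Ts.map (Tri.rename f)).map fun T => colour T.a₁) = Ts.map fun T => 2 * χ T.a₁ := by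
    rw [List.map_map]
    exact List.map_congr_left fun T _ => hcol T.a₁
  have hI : Inv4 P (renamed f D) (Ts.map (Tri.rename f)) := by
    refine ⟨?_, ?_, ?_, ?_, ?_, ?_⟩
    · rw [hE, passes_renamed]
      exact sv.wf.ren fun p _ q _ e => hinj e
    · intro T' hT'
      obtain ⟨T, hT, rfl⟩ := List.mem_map.1 hT'
      have h := hmono T hT
      refine ⟨(ok T hT).1, ?_, ?_, ?_⟩
      · refine (hcol T.a₂).trans (Eq.trans ?_ (hcol T.a₁).symm)
        rw [h T.a₂ (by simp [Tri.names])]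
      · refine (hcol T.b₂).trans (Eq.trans ?_ (hcol T.b₁).symm)
        rw [h T.b₂ (by simp [Tri.names]), h T.b₁ (by simp [Tri.names])]
      · refine (hcol T.c₂).trans (Eq.trans ?_ (hcol T.c₁).symm)
        rw [h T.c₂ (by simp [Tri.names]), h T.c₁ (by simp [Tri.names])]
    · intro T' hT'
      obtain ⟨T, hT, rfl⟩ := List.mem_map.1 hT'
      refine ⟨(ok T hT).2.1, ?_⟩
      have hnm : (T.rename f).names = T.names.map f := rfl
      intro c hc d hd
      rw [hnm] at hc hd
      obtain ⟨c', hc', rfl⟩ := List.mem_map.1 hc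
      obtain ⟨d', hd', rfl⟩ := List.mem_map.1 hd
      rw [hcol, hcol, hmono T hT c' hc', hmono T hT d' hd']
    · intro p hp
      rw [hE] at hp
      obtain ⟨q, hq, rfl⟩ := mem_renamed.1 hp
      simp only [hcol]
      omega
    · rw [hmap]
      exact hp
    · rw [hE]
      obtain ⟨k1, k2⟩ := Pool.Agent.R800.BT.inv_renamed (f := f) (g := fun c => (Nat.unpair c).2) hg sv.mt sv.nv
      refine ⟨_, k1, ?_, k2⟩
      intro p' hp'
      obtain ⟨p, hp, rfl⟩ := mem_renamed.1 hp'
      simp only [hg]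
      rw [hcol, hcol, sv.cm p hp]
      exact ⟨rfl, fun h1 => absurd (by omega) h1⟩
  exact Movie.head hD hD' (Step.rename _ D fun p _ q _ h => hinj h)
    (movie_of_inv4 hP hJ _ _ _ _ rfl rfl hD' (by rw [hlab]; exact hn) hI)

/-- The invariant in the monochromatic case. -/
theorem vmovie_sv {Z : ℕ → Prop} {D : Code} {T : List (ℕ × ℕ × ℕ)}
    (h : VMovie Z D T) (hZ : ∀ p ∈ passes D, ¬Z (colour p.crossing))
    (hc : ∀ t ∈ T, t.2.1 = t.1 ∧ t.2.2 = t.1) : ∃ (Ts : List Tri) (m : ℕ → ℕ),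
      Sv (D ++ TC Ts) colour m ∧ (∀ T ∈ Ts, T.Ok ∧ Hts T ∧ Mono colour T) ∧
      Ts.map (fun S => colour S.a₁) = T.map Prod.fst := by
  obtain ⟨Ts, hI, hs⟩ := vmovie_inv' RD.reid RN.ren TH.three h hZ
  obtain ⟨m, hm⟩ := hI.inv
  have key : ∀ S ∈ Ts, Hts S ∧ colour S.b₁ = colour S.a₁ ∧ colour S.c₁ = colour S.a₁ := by
    intro S hS
    have h1 : sig S ∈ T.map fun t => (t, (true, true, true)) := by
      rw [← hs]; exact List.mem_map_of_mem hS
    obtain ⟨t, ht, h2⟩ := List.mem_map.1 h1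
    obtain ⟨c1, c2⟩ := hc t ht
    simp only [sig, Prod.ext_iff] at h2
    obtain ⟨⟨h3, h4, h5⟩, h6, h7, h8⟩ := h2
    refine ⟨⟨h6.symm, h7.symm, h8.symm⟩, ?_, ?_⟩
    · rw [← h4, ← h3, c1]
    · rw [← h5, ← h3, c2]
  have hfst : Ts.map (fun S => colour S.a₁) = T.map Prod.fst := by
    have h1 : (Ts.map sig).map (fun x => x.1.1) = (T.map fun t => (t, (true, true, true))).map
        (fun x => x.1.1) := by rw [hs]
    rw [List.map_map, List.map_map] at h1
    exact h1
  refine ⟨Ts, m, ⟨hI.wf, hm.1, hm.2.2, fun p hp => (hm.2.1 p hp).1⟩,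
    fun S hS => ⟨(hI.ok S hS).1, (key S hS).1, ?_⟩, hfst⟩
  obtain ⟨k1, k2, k3⟩ := (hI.ok S hS).2
  obtain ⟨-, k4, k5⟩ := key S hS
  have hall : ∀ c ∈ S.names, colour c = colour S.a₁ := by
    intro c hc
    simp only [Tri.names, List.mem_cons, List.not_mem_nil, or_false] at hc
    rcases hc with rfl | rfl | rfl | rfl | rfl | rfl
    · rfl
    · exact k1
    · exact k4
    · rw [k2, k4]
    · exact k5
    · rw [k3, k5]
  intro c hc d hd
  rw [hall c hc, hall d hd]

theorem cls_length (Ts : List Tri) (κ : ℕ) :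
    (cls colour κ Ts).length = (Ts.map fun T => colour T.a₁).count κ := by
  unfold cls
  rw [← List.countP_eq_length_filter, List.count, List.countP_map]
  refine List.countP_congr fun T _ => ?_
  simp

theorem cc_true {V : ℕ} {q : ℕ → ℕ} (h : Cc V q false) : Cc V q true := by
  unfold Cc at *
  simp only [Bool.false_eq_true, if_false, if_true] at *
  refine ⟨fun x h1 h2 h3 => absurd (h x h1 h2) h3, ?_⟩
  rintro ⟨x, h1, h2, h3⟩
  exact absurd (h x h1 h2) h3

theorem cc_small' {D : Code} {L R : List Tri} {χ m : ℕ → ℕ} {κ : ℕ} (c : Ctx D L R χ m κ)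
    (h : L.length ≤ 2) (b : Bool) : Cc (3 * L.length) (pt L m) b := by
  cases b
  · exact cc_small c h
  · exact cc_true (cc_small c h)

theorem her2 : Her fun l => ∀ κ, l.count κ ≤ 2 := fun _ _ h hl κ =>
  (h.count_le κ).trans (hl κ)

theorem jh2 : JH fun l => ∀ κ, l.count κ ≤ 2 := by
  intro D Ts m hP
  refine ⟨0, fun κ hc => cc_small' hc ?_ _⟩
  rw [cls_length]
  exact hP κ

theorem count_two (l : List ℕ) (κ : ℕ) : (l.map fun x => 2 * x).count (2 * κ) = l.count κ :=
  List.count_map_of_injective l (fun x => 2 * x) (fun a b h => by simpa using h) κ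

theorem count_two' (l : List ℕ) (κ : ℕ) :
    (l.map fun x => 2 * x).count κ = if κ % 2 = 0 then l.count (κ / 2) else 0 := by
  split_ifs with h
  · obtain ⟨k, rfl⟩ : ∃ k, κ = 2 * k := ⟨κ / 2, by omega⟩
    rw [count_two]
    congr 1
    omega
  · rw [List.count_eq_zero]
    intro h1
    obtain ⟨x, -, rfl⟩ := List.mem_map.1 h1
    omega

/-- Classical links bounding virtual surfaces with at most two triple points on each component of the
double point set meeting the link bound ribbon discs. -/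
theorem two_virtual {Z : ℕ → Prop} {D : Code} {T : List (ℕ × ℕ × ℕ)} (hD : Classical D)
    (h : VMovie Z D T) (hZ : ∀ p ∈ passes D, ¬Z (colour p.crossing))
    (hn : (D.map Prod.snd).Nodup) (hc : ∀ t ∈ T, t.2.1 = t.1 ∧ t.2.2 = t.1)
    (ho : ∀ κ, (T.map Prod.fst).count κ ≤ 2) : Movie true false D [] := by
  obtain ⟨Ts, m, h1, h2, h3⟩ := vmovie_sv h hZ hc
  refine sv_movie her2 jh2 h1 h2 ?_ hD hn
  intro κ
  have : (Ts.map fun T => 2 * colour T.a₁) = (T.map Prod.fst).map fun x => 2 * x := by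
    rw [← h3, List.map_map]; rfl
  rw [this, count_two']
  split_ifs
  · exact ho _
  · omega

end Pool.Agent.W5h73.TT
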